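import Mathlib

/-!
# An angle at which no multiple is near to a multiple of `π`
-/

set_option autoImplicit false

namespace Pool.Agent.Q99.ET

open Finset Real

/-- an antiderivative of the Poisson kernel -/
noncomputable def GG (κ φ : ℝ) : ℝ := 
  φ + arctan ((1 - κ) * (sin φ * cos φ) / (κ + (1 - κ) * sin φ ^ 2))

theorem GG_deriv (κ : ℝ) (h0 : 0 < κ) (h1 : κ ≤ 1) (φ : ℝ) : 
    HasDerivAt (GG κ) (κ / (κ ^ 2 + (1 - κ ^ 2) * sin φ ^ 2)) φ := by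
  have hD : 0 < κ + (1 - κ) * sin φ ^ 2 := by
    have : 0 ≤ (1 - κ) * sin φ ^ 2 := mul_nonneg (by linarith) (sq_nonneg _)
    linarith
  have hE : 0 < κ ^ 2 + (1 - κ ^ 2) * sin φ ^ 2 := by
    have : 0 ≤ (1 - κ ^ 2) * sin φ ^ 2 := mul_nonneg (by nlinarith) (sq_nonneg _)
    positivity
  have hs := hasDerivAt_sin φ
  have hc := hasDerivAt_cos φ
  have hcs : cos φ ^ 2 = 1 - sin φ ^ 2 := by
    have := sin_sq_add_cos_sq φ
    linarith
  have h2 : HasDerivAt (fun φ => (1 - κ) * (sin φ * cos φ)) ((1 - κ) * (1 - 2 * sin φ ^ 2)) φ := by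
    refine ((hs.mul hc).const_mul (1 - κ)).congr_deriv ?_
    have : cos φ * cos φ + sin φ * (-sin φ) = cos φ ^ 2 - sin φ ^ 2 := by ring
    rw [this, hcs]
    ring
  have h3 : HasDerivAt (fun φ => κ + (1 - κ) * sin φ ^ 2) ((1 - κ) * (2 * sin φ * cos φ)) φ := by
    refine (((hs.pow 2).const_mul (1 - κ)).const_add κ).congr_deriv ?_
    norm_num
  have h4 := (h2.fun_div h3 hD.ne').arctan
  have h5 := (hasDerivAt_id φ).fun_add h4
  refine h5.congr_deriv ?_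
  have e1 : 1 + ((1 - κ) * (sin φ * cos φ) / (κ + (1 - κ) * sin φ ^ 2)) ^ 2 = 
      (κ ^ 2 + (1 - κ ^ 2) * sin φ ^ 2) / (κ + (1 - κ) * sin φ ^ 2) ^ 2 := by
    rw [div_pow, eq_div_iff (by positivity), add_mul, div_mul_cancel₀ _ (by positivity)]
    have : ((1 - κ) * (sin φ * cos φ)) ^ 2 = (1 - κ) ^ 2 * sin φ ^ 2 * cos φ ^ 2 := by ring
    rw [this, hcs]
    ring
  rw [e1]
  have e3 : (1 - κ) * (sin φ * cos φ) * ((1 - κ) * (2 * sin φ * cos φ)) = 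
      2 * (1 - κ) ^ 2 * sin φ ^ 2 * (1 - sin φ ^ 2) := by
    rw [← hcs]
    ring
  rw [e3]
  have e4 : 1 / ((κ ^ 2 + (1 - κ ^ 2) * sin φ ^ 2) / (κ + (1 - κ) * sin φ ^ 2) ^ 2) * 
      (((1 - κ) * (1 - 2 * sin φ ^ 2) * (κ + (1 - κ) * sin φ ^ 2) - 
        2 * (1 - κ) ^ 2 * sin φ ^ 2 * (1 - sin φ ^ 2)) / (κ + (1 - κ) * sin φ ^ 2) ^ 2) = 
      ((1 - κ) * (1 - 2 * sin φ ^ 2) * (κ + (1 - κ) * sin φ ^ 2) - 
        2 * (1 - κ) ^ 2 * sin φ ^ 2 * (1 - sin φ ^ 2)) / (κ ^ 2 + (1 - κ ^ 2) * sin φ ^ 2) := by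
    have hD2 : (κ + (1 - κ) * sin φ ^ 2) ^ 2 ≠ 0 := by positivity
    rw [one_div, inv_div, div_mul_div_comm, mul_comm ((κ + (1 - κ) * sin φ ^ 2) ^ 2), 
      mul_div_mul_right _ _ hD2]
  rw [e4, eq_comm, div_eq_iff hE.ne', add_mul, div_mul_cancel₀ _ hE.ne']
  ring

theorem GG_le (κ φ : ℝ) : GG κ φ ≤ φ + π / 2 := by
  unfold GG
  have := arctan_lt_pi_div_two ((1 - κ) * (sin φ * cos φ) / (κ + (1 - κ) * sin φ ^ 2))
  linarith

theorem GG_zero (κ : ℝ) : GG κ 0 = 0 := by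
  unfold GG
  simp

/-- **the angle** -/
theorem angle {ι : Type} (J : Finset ι) (hJ : J.Nonempty) (n : ι → ℝ) 
    (hn : ∀ t ∈ J, 64 * π * (J.card : ℝ) ^ 2 ≤ n t) : 
    ∃ ψ : ℝ, 0 < ψ ∧ ψ < 1 / (128 * (J.card : ℝ) ^ 2) ∧ 
      (∀ t ∈ J, sin (n t * ψ) ^ 2 ≠ 0) ∧ ∑ t ∈ J, 1 / sin (n t * ψ) ^ 2 ≤ 16 * (J.card : ℝ) ^ 2 := by
  set m : ℝ := (J.card : ℝ) with hm
  have hm1 : 1 ≤ m := by
    rw [hm]
    exact_mod_cast Finset.card_pos.2 hJ
  have hπ := pi_pos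
  set Ψ : ℝ := 1 / (128 * m ^ 2) with hΨ
  have hΨ0 : 0 < Ψ := by positivity
  set κ : ℝ := 1 / (4 * m) with hκ
  have hκ0 : 0 < κ := by positivity
  have hκ1 : κ ≤ 1 := by
    rw [hκ, div_le_one (by positivity)]
    linarith
  have hκm : κ * m = 1 / 4 := by
    rw [hκ]
    field_simp
  have hn0 : ∀ t ∈ J, 0 < n t := fun t ht => lt_of_lt_of_le (by positivity) (hn t ht)
  have hnΨ : ∀ t ∈ J, π / 2 ≤ n t * Ψ := by
    intro t ht
    have h1 : 64 * π * m ^ 2 * Ψ = π / 2 := by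
      rw [hΨ]
      field_simp
      norm_num
    rw [← h1]
    exact mul_le_mul_of_nonneg_right (hn t ht) hΨ0.le
  set P : ℝ → ℝ := fun φ => κ / (κ ^ 2 + (1 - κ ^ 2) * sin φ ^ 2) with hP
  have hF : ∀ ψ : ℝ, HasDerivAt (fun ψ => ∑ t ∈ J, GG κ (n t * ψ) / n t) (∑ t ∈ J, P (n t * ψ)) ψ := by
    intro ψ
    refine HasDerivAt.fun_sum fun t ht => ?_
    have h1 : HasDerivAt (fun ψ => n t * ψ) (n t) ψ := by
      simpa using (hasDerivAt_id ψ).const_mul (n t)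
    have h2 := ((GG_deriv κ hκ0 hκ1 (n t * ψ)).comp ψ h1).div_const (n t)
    refine h2.congr_deriv ?_
    rw [hP]
    have := (hn0 t ht).ne'
    field_simp
  obtain ⟨ψ, hψ, hslope⟩ := exists_hasDerivAt_eq_slope (fun ψ => ∑ t ∈ J, GG κ (n t * ψ) / n t) 
    (fun ψ => ∑ t ∈ J, P (n t * ψ)) hΨ0 (fun x _ => (hF x).continuousAt.continuousWithinAt) 
    (fun x _ => hF x)
  have hsum : ∑ t ∈ J, P (n t * ψ) ≤ 2 * m := by
    rw [hslope, sub_zero, div_le_iff₀ hΨ0]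
    have h1 : ∑ t ∈ J, GG κ (n t * 0) / n t = 0 := by
      refine Finset.sum_eq_zero fun t _ => ?_
      rw [mul_zero, GG_zero, zero_div]
    rw [h1, sub_zero]
    have h2 : ∀ t ∈ J, GG κ (n t * Ψ) / n t ≤ 2 * Ψ := by
      intro t ht
      rw [div_le_iff₀ (hn0 t ht)]
      have h3 := GG_le κ (n t * Ψ)
      have h4 := hnΨ t ht
      linarith
    refine (Finset.sum_le_sum h2).trans ?_
    rw [Finset.sum_const, nsmul_eq_mul, ← hm]
    linarith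
  have hden : ∀ φ : ℝ, 0 < κ ^ 2 + (1 - κ ^ 2) * sin φ ^ 2 := by
    intro φ
    have : 0 ≤ (1 - κ ^ 2) * sin φ ^ 2 := mul_nonneg (by nlinarith) (sq_nonneg _)
    positivity
  have hP0 : ∀ φ, 0 < P φ := fun φ => div_pos hκ0 (hden φ)
  -- every term
  have key : ∀ t ∈ J, 0 < sin (n t * ψ) ^ 2 ∧ 1 / sin (n t * ψ) ^ 2 ≤ 8 * m * P (n t * ψ) := by
    intro t ht
    have h1 : P (n t * ψ) ≤ 2 * m := 
      (Finset.single_le_sum (f := fun t => P (n t * ψ)) (fun t _ => (hP0 _).le) ht).trans hsum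
    have h2 := hden (n t * ψ)
    set S := sin (n t * ψ) ^ 2 with hS
    have hS0 : 0 ≤ S := sq_nonneg _
    set E := κ ^ 2 + (1 - κ ^ 2) * S with hE
    have h3 : κ ≤ 2 * m * E := by
      have : P (n t * ψ) = κ / E := rfl
      rw [this, div_le_iff₀ h2] at h1
      exact h1
    -- `2 κ² ≤ E`
    have h4 : 2 * κ ^ 2 ≤ E := by
      have h5 : κ * κ ≤ κ * (2 * m * E) := mul_le_mul_of_nonneg_left h3 hκ0.le
      have h6 : κ * (2 * m * E) = E / 2 := by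
        have : κ * (2 * m * E) = 2 * (κ * m) * E := by ring
        rw [this, hκm]
        ring
      nlinarith
    have h7 : E ≤ 2 * ((1 - κ ^ 2) * S) := by
      rw [hE] at h4 ⊢
      linarith
    have h8 : E ≤ 2 * S := by
      have : 0 ≤ κ ^ 2 * S := by positivity
      nlinarith
    have hSpos : 0 < S := by linarith
    refine ⟨hSpos, ?_⟩
    have h9 : 8 * m * P (n t * ψ) = 2 / E := by
      have : P (n t * ψ) = κ / E := rfl
      rw [this]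
      have : 8 * m * (κ / E) = 8 * (κ * m) / E := by ring
      rw [this, hκm]
      norm_num
    rw [h9, div_le_div_iff₀ hSpos h2]
    linarith
  refine ⟨ψ, hψ.1, hψ.2, fun t ht => (key t ht).1.ne', ?_⟩
  calc ∑ t ∈ J, 1 / sin (n t * ψ) ^ 2 ≤ ∑ t ∈ J, 8 * m * P (n t * ψ) := 
        Finset.sum_le_sum fun t ht => (key t ht).2
    _ = 8 * m * ∑ t ∈ J, P (n t * ψ) := by rw [Finset.mul_sum]
    _ ≤ 8 * m * (2 * m) := mul_le_mul_of_nonneg_left hsum (by positivity)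
    _ = 16 * m ^ 2 := by ring

end Pool.Agent.Q99.ET
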