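import Pool.Agent.Q99.ET.SP

/-!
# The state sum of a series-parallel matroid for small positive `Q`: local computations
-/

set_option autoImplicit false

namespace Pool.Agent.Q99.ET

open Finset

/-! ### the disc, quantitatively -/

/-- `x` is in the closed unit disc, not too near to `1` -/
def Lf (x : ℂ) (a : ℝ) : Prop :=
  ‖x‖ ≤ 1 ∧ 1 ≤ a ∧ 1 ≤ a * (1 - ‖x‖ ^ 2) + a / 4 * ‖x - 1‖ ^ 2

/-- `x` is well inside the unit disc -/
def Cp (x : ℂ) (a : ℝ) : Prop :=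
  ‖x‖ ≤ 1 ∧ 1 ≤ a ∧ 1 ≤ a * (1 - ‖x‖ ^ 2)

theorem Cp.lf {x : ℂ} {a : ℝ} (h : Cp x a) : Lf x a := by
  refine ⟨h.1, h.2.1, ?_⟩
  have h1 := h.2.2
  have h2 : 0 ≤ a / 4 * ‖x - 1‖ ^ 2 := by
    have := h.2.1
    positivity
  linarith

theorem norm_sub_one_sq (x : ℂ) : ‖x - 1‖ ^ 2 = ‖x‖ ^ 2 - 2 * x.re + 1 := by
  rw [Complex.sq_norm, Complex.sq_norm, Complex.normSq_apply, Complex.normSq_apply]
  simp only [Complex.sub_re, Complex.one_re, Complex.sub_im, Complex.one_im]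
  ring

theorem Lf.re {x : ℂ} {a : ℝ} (h : Lf x a) : 1 ≤ 2 * a * (1 - x.re) := by
  obtain ⟨h1, h2, h3⟩ := h
  have e1 := norm_sub_one_sq x
  have e2 := sq_nonneg ‖x - 1‖
  rw [e1] at h3
  have e3 : ‖x‖ ^ 2 - 2 * x.re + 1 ≥ 0 := by linarith
  nlinarith

theorem Lf.ne_one {x : ℂ} {a : ℝ} (h : Lf x a) : x ≠ 1 := by
  rintro rfl
  have := h.re
  rw [Complex.one_re] at this
  linarith

theorem Lf.inv {x : ℂ} {a : ℝ} (h : Lf x a) : 
    0 ≤ -((x - 1)⁻¹).re - 1/2 ∧ ‖(x - 1)⁻¹‖ ^ 2 ≤ a * (2 * (-((x - 1)⁻¹).re - 1/2) + 1/4) ∧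
      ‖(x - 1)⁻¹‖ ≤ 2 * a := by
  have hx : x - 1 ≠ 0 := sub_ne_zero.2 h.ne_one
  have hq : 0 < Complex.normSq (x - 1) := Complex.normSq_pos.2 hx
  have e1 : ((x - 1)⁻¹).re = (x.re - 1) / Complex.normSq (x - 1) := by
    rw [Complex.inv_re, Complex.sub_re, Complex.one_re]
  have e2 : ‖(x - 1)⁻¹‖ ^ 2 = 1 / Complex.normSq (x - 1) := by
    rw [norm_inv, inv_pow, Complex.sq_norm, one_div]
  have e3 : Complex.normSq (x - 1) = ‖x‖ ^ 2 - 2 * x.re + 1 := by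
    rw [← norm_sub_one_sq, Complex.sq_norm]
  have h3 := h.2.2
  rw [Complex.sq_norm (x - 1)] at h3
  set q := Complex.normSq (x - 1) with hqd
  have e4 : -((x - 1)⁻¹).re - 1/2 = (1 - ‖x‖ ^ 2) / (2 * q) := by
    rw [e1]
    field_simp
    linarith
  have hn := norm_nonneg x
  have c1 : 0 ≤ 1 - ‖x‖ ^ 2 := by
    have := h.1
    nlinarith
  have b1 : 0 ≤ -((x - 1)⁻¹).re - 1/2 := by
    rw [e4]
    positivity
  have b2 : ‖(x - 1)⁻¹‖ ^ 2 ≤ a * (2 * (-((x - 1)⁻¹).re - 1/2) + 1/4) := by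
    rw [e2, e4]
    have e5 : a * (2 * ((1 - ‖x‖ ^ 2) / (2 * q)) + 1/4) = (a * (1 - ‖x‖ ^ 2) + a / 4 * q) / q := by
      field_simp
    rw [e5]
    exact div_le_div_of_nonneg_right h3 hq.le
  refine ⟨b1, b2, ?_⟩
  have h5 : -((x - 1)⁻¹).re ≤ ‖(x - 1)⁻¹‖ := (neg_le_abs _).trans (Complex.abs_re_le_norm _)
  have h6 := norm_nonneg ((x - 1)⁻¹)
  have ha := h.2.1
  by_contra hne
  push Not at hne
  nlinarith

theorem cauchy (a b p q U V : ℝ) (ha : 0 ≤ a) (hb : 0 ≤ b) (hp : 0 ≤ p) (hq : 0 ≤ q) 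
    (h1 : U ^ 2 ≤ a * p) (h2 : V ^ 2 ≤ b * q) : (U + V) ^ 2 ≤ (a + b) * (p + q) := by
  have h3 : 2 * (U * V) ≤ a * q + b * p := by
    apply abs_le_of_sq_le_sq' _ (by positivity) |>.2
    have h4 : (U * V) ^ 2 ≤ (a * p) * (b * q) := by
      rw [mul_pow]
      exact mul_le_mul h1 h2 (by positivity) (by positivity)
    nlinarith [sq_nonneg (a * q - b * p)]
  nlinarith

theorem series_lf (x y : ℂ) (a b Q : ℝ) (hx : Lf x a) (hy : Lf y b) (hQ : 0 < Q) 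
    (hQT : 16 * Q * (a + b) ^ 2 ≤ 1) :
    2 / (a + b) - Q ≤ ‖(Q : ℂ) + (x - 1) + (y - 1)‖ ∧ 
      Cp (1 + (x - 1) * (y - 1) / ((Q : ℂ) + (x - 1) + (y - 1))) (a + b) := by
  have ha := hx.2.1
  have hb := hy.2.1
  obtain ⟨s1, u1, u2⟩ := hx.inv
  obtain ⟨t1, v1, v2⟩ := hy.inv
  have hx0 : x - 1 ≠ 0 := sub_ne_zero.2 hx.ne_one
  have hy0 : y - 1 ≠ 0 := sub_ne_zero.2 hy.ne_one
  set u := (x - 1)⁻¹ with hu
  set t := (y - 1)⁻¹ with ht
  set U := ‖u‖ with hU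
  set V := ‖t‖ with hV
  have hU0 : 0 ≤ U := norm_nonneg _
  have hV0 : 0 ≤ V := norm_nonneg _
  have k1 := cauchy a b (2 * (-u.re - 1/2) + 1/4) (2 * (-t.re - 1/2) + 1/4) U V (by linarith) (by linarith)
    (by linarith) (by linarith) u1 v1
  have hY0 : 0 ≤ Q * (U * V) := by positivity
  have hUV : U * V ≤ (a + b) ^ 2 := by nlinarith [sq_nonneg (a - b), mul_le_mul u2 v2 hV0 (by linarith)]
  have hY1 : Q * (U * V) ≤ 1 / 16 := by nlinarith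
  set Y := Q * (U * V) with hY
  set u' : ℂ := u + t + Q * (u * t) with hu'
  have n1 : ‖u'‖ ≤ U + V + Y := by
    refine (norm_add_le _ _).trans ?_
    rw [norm_mul, norm_mul, Complex.norm_of_nonneg hQ.le]
    have := norm_add_le u t
    linarith
  have n2 : u.re + t.re - Y ≤ u'.re ∧ u'.re ≤ u.re + t.re + Y := by
    have e1 : u'.re = u.re + t.re + Q * (u * t).re := by
      rw [hu', Complex.add_re, Complex.add_re, Complex.re_ofReal_mul]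
    have e2 := Complex.abs_re_le_norm (u * t)
    rw [norm_mul] at e2
    have e3 := abs_le.1 e2
    rw [e1, hY]
    constructor
    · nlinarith [e3.1]
    · nlinarith [e3.2]
  have n3 := norm_nonneg u'
  have key : ‖u'‖ ^ 2 ≤ 2 * (a + b) * (-u'.re - 1/2) := by
    have i1 : ‖u'‖ ^ 2 ≤ (U + V + Y) ^ 2 := by
      apply pow_le_pow_left₀ n3 n1
    have i2 : Y ^ 2 ≤ Y / 16 := by nlinarith
    have i3 : (U + V) * Y ≤ 2 * (a + b) * Y := mul_le_mul_of_nonneg_right (by linarith) hY0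
    have i4 : (a + b) * Y ≤ (a + b) / 16 := by nlinarith
    nlinarith [n2.2]
  have hre : u'.re < -1/2 - 1/4 := by linarith [n2.2]
  have hu0 : u' ≠ 0 := by
    intro h0
    rw [h0, Complex.zero_re] at hre
    linarith
  have hfac : (Q : ℂ) + (x - 1) + (y - 1) = (x - 1) * (y - 1) * u' := by
    rw [hu', hu, ht]
    field_simp
    ring
  have hne : (Q : ℂ) + (x - 1) + (y - 1) ≠ 0 := by
    rw [hfac]
    exact mul_ne_zero (mul_ne_zero hx0 hy0) hu0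
  have hinv : (x - 1) * (y - 1) / ((Q : ℂ) + (x - 1) + (y - 1)) = u'⁻¹ := by
    rw [hfac]
    field_simp
  constructor
  · have r1 := hx.re
    have r2 := hy.re
    have e1 : ((Q : ℂ) + (x - 1) + (y - 1)).re = Q + (x.re - 1) + (y.re - 1) := by
      simp
    have e2 := (neg_le_abs _).trans (Complex.abs_re_le_norm ((Q : ℂ) + (x - 1) + (y - 1)))
    rw [e1] at e2
    have e3 : 2 / (a + b) ≤ (1 - x.re) + (1 - y.re) := by
      have f1 : 1 / (2 * a) ≤ 1 - x.re := by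
        rw [div_le_iff₀ (by linarith)]
        linarith
      have f2 : 1 / (2 * b) ≤ 1 - y.re := by
        rw [div_le_iff₀ (by linarith)]
        linarith
      have f3 : 2 / (a + b) ≤ 1 / (2 * a) + 1 / (2 * b) := by
        rw [div_add_div _ _ (by linarith) (by linarith), div_le_div_iff₀ (by linarith) (by nlinarith)]
        nlinarith [sq_nonneg (a - b)]
      linarith
    linarith
  · rw [hinv]
    have hn : 0 < ‖u'‖ := norm_pos_iff.2 hu0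
    have e1 : ‖1 + u'⁻¹‖ ^ 2 * ‖u'‖ ^ 2 = ‖u'‖ ^ 2 + 2 * u'.re + 1 := by
      rw [← mul_pow, ← norm_mul]
      have : (1 + u'⁻¹) * u' = u' + 1 := by
        field_simp
      rw [this, Complex.sq_norm, Complex.sq_norm, Complex.normSq_apply, Complex.normSq_apply]
      simp only [Complex.add_re, Complex.one_re, Complex.add_im, Complex.one_im]
      ring
    have hn2 : 0 < ‖u'‖ ^ 2 := by positivity
    have e2 : 1 ≤ (a + b) * (1 - ‖1 + u'⁻¹‖ ^ 2) := by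
      have e3 : 1 * ‖u'‖ ^ 2 ≤ ((a + b) * (1 - ‖1 + u'⁻¹‖ ^ 2)) * ‖u'‖ ^ 2 := by
        have : ((a + b) * (1 - ‖1 + u'⁻¹‖ ^ 2)) * ‖u'‖ ^ 2 = (a + b) * (‖u'‖ ^ 2 - ‖1 + u'⁻¹‖ ^ 2 * ‖u'‖ ^ 2) := by
          ring
        rw [this, e1]
        linarith
      exact le_of_mul_le_mul_right e3 hn2
    have e4 : ‖1 + u'⁻¹‖ < 1 := by
      by_contra hc
      push Not at hc
      have : 1 ≤ ‖1 + u'⁻¹‖ ^ 2 := by nlinarith [norm_nonneg (1 + u'⁻¹)]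
      nlinarith
    exact ⟨e4.le, by linarith, e2⟩

theorem sqrt_bound (Q T : ℝ) (hQ : 0 < Q) (hT : 1 ≤ T) (h : 16 * Q * T ^ 2 ≤ 1) : 
    4 * √Q ≤ 1 / T ∧ Q ≤ √Q / 4 := by
  have h1 : 0 < √Q := Real.sqrt_pos.2 hQ
  have h2 : √Q ^ 2 = Q := Real.sq_sqrt hQ.le
  have h3 : 4 * (√Q * T) ≤ 1 := by
    have h4 : (4 * (√Q * T)) ^ 2 ≤ 1 ^ 2 := by
      have : (4 * (√Q * T)) ^ 2 = 16 * √Q ^ 2 * T ^ 2 := by ring
      rw [this, h2]
      linarith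
    exact abs_le_of_sq_le_sq' h4 (by norm_num) |>.2
  constructor
  · rw [le_div_iff₀ (by linarith)]
    linarith
  · nlinarith

theorem bridge_lf (x : ℂ) (a Q : ℝ) (hx : Lf x a) (hQ : 0 < Q) (h : 16 * Q * a ^ 2 ≤ 1) :
    7 / 4 * √Q ≤ ‖(Q : ℂ) + (x - 1)‖ := by
  have ha := hx.2.1
  obtain ⟨h1, h2⟩ := sqrt_bound Q a hQ ha h
  have r1 := hx.re
  have e1 : ((Q : ℂ) + (x - 1)).re = Q + (x.re - 1) := by simp
  have e2 := (neg_le_abs _).trans (Complex.abs_re_le_norm ((Q : ℂ) + (x - 1)))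
  rw [e1] at e2
  have f1 : 1 / (2 * a) ≤ 1 - x.re := by
    rw [div_le_iff₀ (by linarith)]
    linarith
  have f3 : 1 / (2 * a) = 1 / a / 2 := by
    rw [div_div, mul_comm]
  linarith

theorem parallel_cp (x y : ℂ) (a b : ℝ) (hx : Cp x a) (hy : ‖y‖ ≤ 1) (hb : 1 ≤ b) : Cp (x * y) (a + b) := by
  obtain ⟨h1, h2, h3⟩ := hx
  have hx0 := norm_nonneg x
  have hy0 := norm_nonneg y
  refine ⟨?_, by linarith, ?_⟩
  · rw [norm_mul]
    nlinarith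
  · rw [norm_mul, mul_pow]
    have h4 : ‖x‖ ^ 2 * ‖y‖ ^ 2 ≤ ‖x‖ ^ 2 := by
      have : ‖y‖ ^ 2 ≤ 1 := by nlinarith
      nlinarith [sq_nonneg ‖x‖]
    have h5 : 0 ≤ 1 - ‖x‖ ^ 2 := by nlinarith
    nlinarith

/-- a small edge in parallel -/
theorem mixed_lf (x y : ℂ) (a b Q : ℝ) (hx : Lf x a) (hy : Lf y b) (hQ : 0 < Q) 
    (hQT : 16 * Q * (a + b) ^ 2 ≤ 1) : 
    Lf (x * (1 + Q / (y - 1))) (a + b) ∧ (Cp x a → Cp (x * (1 + Q / (y - 1))) (a + b)) := by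
  have ha := hx.2.1
  have hb := hy.2.1
  have hx1 := hx.1
  have hxn := norm_nonneg x
  obtain ⟨t1, v1, v2⟩ := hy.inv
  have hy0 : y - 1 ≠ 0 := sub_ne_zero.2 hy.ne_one
  have hdiv : (Q : ℂ) / (y - 1) = Q * (y - 1)⁻¹ := div_eq_mul_inv _ _
  rw [hdiv]
  set t := (y - 1)⁻¹ with ht
  have htn := norm_nonneg t
  have hQb : Q * b ≤ 1 / 16 := by nlinarith
  have n1 : ‖1 + (Q : ℂ) * t‖ ≤ 1 := by
    have e1 : ‖1 + (Q : ℂ) * t‖ ^ 2 = 1 + 2 * Q * t.re + Q ^ 2 * ‖t‖ ^ 2 := by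
      rw [Complex.sq_norm, Complex.sq_norm, Complex.normSq_apply, Complex.normSq_apply]
      simp only [Complex.add_re, Complex.one_re, Complex.add_im, Complex.one_im, Complex.mul_re, 
        Complex.ofReal_re, Complex.ofReal_im, Complex.mul_im]
      ring
    have e2 : ‖1 + (Q : ℂ) * t‖ ^ 2 ≤ 1 := by
      rw [e1]
      have e3 : Q ^ 2 * ‖t‖ ^ 2 ≤ Q * (Q * b * (2 * (-t.re - 1/2) + 1/4)) := by
        have : Q * (Q * b * (2 * (-t.re - 1/2) + 1/4)) = Q ^ 2 * (b * (2 * (-t.re - 1/2) + 1/4)) := by ring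
        rw [this]
        exact mul_le_mul_of_nonneg_left v1 (by positivity)
      have e4 : Q * b * (2 * (-t.re - 1/2) + 1/4) ≤ 1/16 * (2 * (-t.re - 1/2) + 1/4) := 
        mul_le_mul_of_nonneg_right hQb (by linarith)
      have e5 : Q * (Q * b * (2 * (-t.re - 1/2) + 1/4)) ≤ Q * (1/16 * (2 * (-t.re - 1/2) + 1/4)) := 
        mul_le_mul_of_nonneg_left e4 hQ.le
      nlinarith
    by_contra hc
    push Not at hc
    nlinarith
  have n2 : ‖x * (1 + (Q : ℂ) * t)‖ ≤ ‖x‖ := by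
    rw [norm_mul]
    nlinarith [norm_nonneg (1 + (Q : ℂ) * t)]
  have n2' : ‖x * (1 + (Q : ℂ) * t)‖ ^ 2 ≤ ‖x‖ ^ 2 := pow_le_pow_left₀ (norm_nonneg _) n2 2
  have n3 : 0 ≤ 1 - ‖x‖ ^ 2 := by nlinarith
  refine ⟨⟨n2.trans hx1, by linarith, ?_⟩, fun hc => ⟨n2.trans hx1, by linarith, ?_⟩⟩
  · -- the distance from `1`
    have d1 : ‖x - 1‖ ≤ ‖x * (1 + (Q : ℂ) * t) - 1‖ + 2 * Q * b := by
      have e1 : x - 1 = (x * (1 + (Q : ℂ) * t) - 1) - x * ((Q : ℂ) * t) := by ring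
      have e2 : ‖x * ((Q : ℂ) * t)‖ ≤ 2 * Q * b := by
        rw [norm_mul, norm_mul, Complex.norm_of_nonneg hQ.le]
        have : Q * ‖t‖ ≤ 2 * Q * b := by nlinarith
        have h0 : 0 ≤ Q * ‖t‖ := by positivity
        nlinarith
      calc ‖x - 1‖ = ‖(x * (1 + (Q : ℂ) * t) - 1) - x * ((Q : ℂ) * t)‖ := by rw [← e1]
        _ ≤ ‖x * (1 + (Q : ℂ) * t) - 1‖ + ‖x * ((Q : ℂ) * t)‖ := norm_sub_le _ _
        _ ≤ _ := by linarith
    have d2 : ‖x - 1‖ ≤ 2 := by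
      have := norm_sub_le x 1
      rw [norm_one] at this
      linarith
    have d3 := norm_nonneg (x * (1 + (Q : ℂ) * t) - 1)
    have d4 := norm_nonneg (x - 1)
    have hQb0 : 0 ≤ Q * b := by positivity
    have d5 : ‖x - 1‖ ^ 2 - 8 * Q * b ≤ ‖x * (1 + (Q : ℂ) * t) - 1‖ ^ 2 := by
      by_cases hcase : 2 * Q * b ≤ ‖x - 1‖
      · have : (‖x - 1‖ - 2 * Q * b) ^ 2 ≤ ‖x * (1 + (Q : ℂ) * t) - 1‖ ^ 2 := 
          pow_le_pow_left₀ (by linarith) (by linarith) 2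
        nlinarith
      · push Not at hcase
        nlinarith [sq_nonneg ‖x * (1 + (Q : ℂ) * t) - 1‖]
    set W := (1 - ‖x‖ ^ 2) + ‖x - 1‖ ^ 2 / 4 with hW
    have w1 : 1 ≤ a * W := by
      rw [hW]
      have := hx.2.2
      nlinarith
    have w2 : 2 * Q * a * (a + b) ≤ 1 := by
      have : 2 * Q * a * (a + b) ≤ 16 * Q * (a + b) ^ 2 := by
        have : 0 ≤ Q * (a + b) := by positivity
        nlinarith
      linarith
    have w3 : 2 * Q * (a + b) ≤ W := by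
      have h1 : a * (2 * Q * (a + b)) ≤ a * W := by nlinarith
      exact le_of_mul_le_mul_left h1 (by linarith)
    have w4 : 2 * Q * b * (a + b) ≤ b * W := by nlinarith
    nlinarith
  · have := hc.2.2
    nlinarith

end Pool.Agent.Q99.ET
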