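import Pool.Agent.Q99.ET.Arb

/-!
# The state sum of a series-parallel matroid for small positive `Q`: two kinds of edges
-/

set_option autoImplicit false

namespace Pool.Agent.Q99.ET

open Finset

/-- the data of an edge: kind (`true`: small), parameter, cost, mark (well inside the disc) -/
structure Dat where
  σ : Bool
  x : ℂ
  a : ℝ
  c : Prop

/-- the conditions -/
def Dat.OK (d : Dat) : Prop := Lf d.x d.a ∧ (d.c → Cp d.x d.a)

/-- the weight -/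
noncomputable def Dat.v (Q : ℝ) (d : Dat) : ℂ := if d.σ then Q / (d.x - 1) else d.x - 1

/-- the normalisation -/
noncomputable def Dat.g (Q : ℝ) (d : Dat) : ℝ := if d.σ then ‖d.v Q‖ / √Q else 1

/-- the dual datum -/
def Dat.dual (d : Dat) : Dat := ⟨!d.σ, d.x, d.a, d.c⟩

/-- two edges in parallel -/
noncomputable def Dat.par (Q : ℝ) (d e : Dat) : Dat :=
  match d.σ, e.σ with
  | false, false => ⟨false, d.x * e.x, d.a + e.a, True⟩
  | true, true => ⟨true, 1 + (d.x - 1) * (e.x - 1) / ((Q : ℂ) + (d.x - 1) + (e.x - 1)), d.a + e.a, True⟩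
  | false, true => ⟨false, d.x * (1 + Q / (e.x - 1)), d.a + e.a, d.c⟩
  | true, false => ⟨false, e.x * (1 + Q / (d.x - 1)), d.a + e.a, e.c⟩

/-- the gain of the parallel reduction -/
def Dat.mu (d e : Dat) : ℕ := if d.σ = false ∧ e.σ = false then 0 else 1

/-- two edges in series -/
noncomputable def Dat.ser (Q : ℝ) (d e : Dat) : Dat := (Dat.par Q d.dual e.dual).dual

theorem Dat.OK.dual {d : Dat} (h : d.OK) : d.dual.OK := h

theorem Dat.x_ne {d : Dat} (h : d.OK) : d.x - 1 ≠ 0 := sub_ne_zero.2 h.1.ne_one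

theorem Dat.v_ne {d : Dat} (Q : ℝ) (hQ : 0 < Q) (h : d.OK) : d.v Q ≠ 0 := by
  have h1 := Dat.x_ne h
  have h2 : (Q : ℂ) ≠ 0 := by exact_mod_cast hQ.ne'
  unfold Dat.v
  split_ifs
  · exact div_ne_zero h2 h1
  · exact h1

theorem Dat.v_dual {d : Dat} (Q : ℝ) (hQ : 0 < Q) (h : d.OK) : d.dual.v Q = Q / d.v Q := by
  have h1 := Dat.x_ne h
  have h2 : (Q : ℂ) ≠ 0 := by exact_mod_cast hQ.ne'
  obtain ⟨σ, x, a, c⟩ := d
  unfold Dat.v Dat.dual
  simp only at h1 ⊢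
  cases σ
  · simp
  · simp only [Bool.not_true, Bool.false_eq_true, if_false, if_true]
    field_simp

theorem Dat.g_pos {d : Dat} (Q : ℝ) (hQ : 0 < Q) (h : d.OK) : 0 < d.g Q := by
  have h1 := Dat.v_ne Q hQ h
  have h2 : 0 < √Q := Real.sqrt_pos.2 hQ
  unfold Dat.g
  split_ifs
  · have := norm_pos_iff.2 h1
    positivity
  · exact one_pos

theorem Dat.g_dual {d : Dat} (Q : ℝ) (hQ : 0 < Q) (h : d.OK) : d.dual.g Q = d.g Q * √Q / ‖d.v Q‖ := by
  have h1 := Dat.v_ne Q hQ h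
  have h2 : 0 < √Q := Real.sqrt_pos.2 hQ
  have h3 := norm_pos_iff.2 h1
  have h4 := Dat.v_dual Q hQ h
  have h5 : √Q * √Q = Q := Real.mul_self_sqrt hQ.le
  obtain ⟨σ, x, a, c⟩ := d
  unfold Dat.g
  rw [h4]
  show (if (!σ) = true then _ else _) = _
  cases σ
  · simp only [Bool.not_false, if_true, Bool.false_eq_true, if_false, one_mul]
    rw [norm_div, Complex.norm_of_nonneg hQ.le]
    field_simp
    rw [pow_two, h5]
  · simp only [Bool.not_true, Bool.false_eq_true, if_false, if_true]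
    field_simp

theorem Dat.par_a (Q : ℝ) (d e : Dat) : (Dat.par Q d e).a = d.a + e.a := by
  obtain ⟨σ, x, a, c⟩ := d
  obtain ⟨τ, y, b, c'⟩ := e
  cases σ <;> cases τ <;> rfl

theorem Dat.ser_a (Q : ℝ) (d e : Dat) : (Dat.ser Q d e).a = d.a + e.a := Dat.par_a Q d.dual e.dual

/-- **two edges in parallel** -/
theorem Dat.par_ok (Q : ℝ) (hQ : 0 < Q) (d e : Dat) (hd : d.OK) (he : e.OK) 
    (hQT : 16 * Q * (d.a + e.a) ^ 2 ≤ 1) (hc : d.σ = false → e.σ = false → d.c ∨ e.c) : 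
    (Dat.par Q d e).OK ∧ (Dat.par Q d e).v Q = d.v Q + e.v Q + d.v Q * e.v Q ∧ 
      (7 / 4) ^ Dat.mu d e * (d.g Q * e.g Q) ≤ (Dat.par Q d e).g Q := by
  have hsq : 0 < √Q := Real.sqrt_pos.2 hQ
  have hsq2 : √Q * √Q = Q := Real.mul_self_sqrt hQ.le
  have hQ0 : (Q : ℂ) ≠ 0 := by exact_mod_cast hQ.ne'
  have hdx := Dat.x_ne hd
  have hex := Dat.x_ne he
  obtain ⟨σ, x, a, c⟩ := d
  obtain ⟨τ, y, b, c'⟩ := e
  simp only at hQT hc hdx hex
  have hx : Lf x a := hd.1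
  have hy : Lf y b := he.1
  have hxc : c → Cp x a := hd.2
  have hyc : c' → Cp y b := he.2
  have ha := hx.2.1
  have hb := hy.2.1
  -- the small normalisation
  have small : ∀ (z : ℂ) (e : ℝ), Lf z e → e ≤ a + b → ‖(Q : ℂ) / (z - 1)‖ / √Q ≤ 1 / 2 := by
    intro z e hz hab
    obtain ⟨_, _, h3⟩ := hz.inv
    rw [norm_div, Complex.norm_of_nonneg hQ.le, div_le_iff₀ hsq, div_eq_mul_inv, ← norm_inv]
    have h4 : 16 * (√Q * (a + b)) ^ 2 ≤ 1 := by
      have : 16 * (√Q * (a + b)) ^ 2 = 16 * (√Q * √Q) * (a + b) ^ 2 := by ring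
      rw [this, hsq2]
      exact hQT
    have h5 : √Q * (a + b) ≤ 1 / 4 := by
      have : 0 ≤ √Q * (a + b) := by positivity
      nlinarith
    have h6 : √Q * ‖(z - 1)⁻¹‖ ≤ 1 / 2 := by
      have : √Q * ‖(z - 1)⁻¹‖ ≤ √Q * (2 * e) := mul_le_mul_of_nonneg_left h3 hsq.le
      nlinarith
    calc Q * ‖(z - 1)⁻¹‖ = √Q * (√Q * ‖(z - 1)⁻¹‖) := by rw [← mul_assoc, hsq2]
      _ ≤ √Q * (1 / 2) := mul_le_mul_of_nonneg_left h6 hsq.le
      _ = 1 / 2 * √Q := mul_comm _ _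
  cases σ <;> cases τ
  · -- both large
    refine ⟨?_, ?_, ?_⟩
    · have h1 : Cp (x * y) (a + b) := by
        rcases hc rfl rfl with h | h
        · exact parallel_cp x y a b (hxc h) hy.1 hb
        · have := parallel_cp y x b a (hyc h) hx.1 ha
          rwa [mul_comm, add_comm] at this
      exact ⟨h1.lf, fun _ => h1⟩
    · show x * y - 1 = (x - 1) + (y - 1) + (x - 1) * (y - 1)
      ring
    · show (7 / 4 : ℝ) ^ 0 * ((1 : ℝ) * 1) ≤ 1
      norm_num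
  · -- large, small
    refine ⟨?_, ?_, ?_⟩
    · obtain ⟨h1, h2⟩ := mixed_lf x y a b Q hx hy hQ hQT
      exact ⟨h1, fun h => h2 (hxc h)⟩
    · show x * (1 + Q / (y - 1)) - 1 = (x - 1) + Q / (y - 1) + (x - 1) * (Q / (y - 1))
      ring
    · show (7 / 4 : ℝ) ^ 1 * ((1 : ℝ) * (‖(Q : ℂ) / (y - 1)‖ / √Q)) ≤ 1
      have := small y b hy (by linarith)
      linarith
  · -- small, large
    refine ⟨?_, ?_, ?_⟩
    · obtain ⟨h1, h2⟩ := mixed_lf y x b a Q hy hx hQ (by rwa [add_comm])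
      rw [add_comm b a] at h1 h2
      exact ⟨h1, fun h => h2 (hyc h)⟩
    · show y * (1 + Q / (x - 1)) - 1 = Q / (x - 1) + (y - 1) + (Q / (x - 1)) * (y - 1)
      ring
    · show (7 / 4 : ℝ) ^ 1 * ((‖(Q : ℂ) / (x - 1)‖ / √Q) * (1 : ℝ)) ≤ 1
      have := small x a hx (by linarith)
      linarith
  · -- both small
    obtain ⟨h1, h2⟩ := series_lf x y a b Q hx hy hQ hQT
    obtain ⟨b1, b2⟩ := sqrt_bound Q (a + b) hQ (by linarith) hQT
    have h3 : 7 / 4 * √Q ≤ ‖(Q : ℂ) + (x - 1) + (y - 1)‖ := by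
      have : 2 / (a + b) = 2 * (1 / (a + b)) := by ring
      rw [this] at h1
      linarith
    have hne : (Q : ℂ) + (x - 1) + (y - 1) ≠ 0 := by
      rw [← norm_pos_iff]
      linarith
    refine ⟨⟨h2.lf, fun _ => h2⟩, ?_, ?_⟩
    · show (Q : ℂ) / (1 + (x - 1) * (y - 1) / ((Q : ℂ) + (x - 1) + (y - 1)) - 1) = 
        Q / (x - 1) + Q / (y - 1) + (Q / (x - 1)) * (Q / (y - 1))
      rw [add_sub_cancel_left]
      field_simp
      ring
    · show (7 / 4 : ℝ) ^ 1 * ((‖(Q : ℂ) / (x - 1)‖ / √Q) * (‖(Q : ℂ) / (y - 1)‖ / √Q)) ≤ 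
        ‖(Q : ℂ) / (1 + (x - 1) * (y - 1) / ((Q : ℂ) + (x - 1) + (y - 1)) - 1)‖ / √Q
      rw [add_sub_cancel_left, pow_one]
      have e1 : (Q : ℂ) / ((x - 1) * (y - 1) / ((Q : ℂ) + (x - 1) + (y - 1))) = 
          Q * ((Q : ℂ) + (x - 1) + (y - 1)) / ((x - 1) * (y - 1)) := by
        field_simp
      rw [e1, norm_div, norm_div, norm_div, norm_mul, norm_mul, Complex.norm_of_nonneg hQ.le]
      have p1 := norm_pos_iff.2 hdx
      have p2 := norm_pos_iff.2 hex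
      have e0 : Q / ‖x - 1‖ / √Q * (Q / ‖y - 1‖ / √Q) = Q * Q / (‖x - 1‖ * ‖y - 1‖ * (√Q * √Q)) := by
        rw [div_div, div_div, div_mul_div_comm]
        congr 1
        ring
      rw [e0, div_div, ← mul_div_assoc, div_le_div_iff₀ (by positivity) (by positivity)]
      have e2 : 7 / 4 * (Q * Q) * (‖x - 1‖ * ‖y - 1‖ * √Q) = Q * (‖x - 1‖ * ‖y - 1‖) * (Q * (7 / 4 * √Q)) := by 
        ring
      have e3 : Q * ‖(Q : ℂ) + (x - 1) + (y - 1)‖ * (‖x - 1‖ * ‖y - 1‖ * (√Q * √Q)) = 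
          Q * (‖x - 1‖ * ‖y - 1‖) * (Q * ‖(Q : ℂ) + (x - 1) + (y - 1)‖) := by
        rw [hsq2]
        ring
      rw [e2, e3]
      exact mul_le_mul_of_nonneg_left (mul_le_mul_of_nonneg_left h3 hQ.le) (by positivity)

/-- **two edges in series** -/
theorem Dat.ser_ok (Q : ℝ) (hQ : 0 < Q) (d e : Dat) (hd : d.OK) (he : e.OK) 
    (hQT : 16 * Q * (d.a + e.a) ^ 2 ≤ 1) (hc : d.σ = true → e.σ = true → d.c ∨ e.c) : 
    (Dat.ser Q d e).OK ∧ (Q : ℂ) + d.v Q + e.v Q ≠ 0 ∧ 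
      (Dat.ser Q d e).v Q = d.v Q * e.v Q / (Q + d.v Q + e.v Q) ∧ 
      √Q * ((7 / 4) ^ Dat.mu d.dual e.dual * (d.g Q * e.g Q)) ≤ 
        (Dat.ser Q d e).g Q * ‖(Q : ℂ) + d.v Q + e.v Q‖ := by
  have hsq : 0 < √Q := Real.sqrt_pos.2 hQ
  have hsq2 : √Q * √Q = Q := Real.mul_self_sqrt hQ.le
  have hQ0 : (Q : ℂ) ≠ 0 := by exact_mod_cast hQ.ne'
  obtain ⟨h1, h2, h3⟩ := Dat.par_ok Q hQ d.dual e.dual hd.dual he.dual hQT (by
    intro h4 h5
    apply hc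
    · have : (!d.σ) = false := h4
      simpa using this
    · have : (!e.σ) = false := h5
      simpa using this)
  have hv1 := Dat.v_ne Q hQ hd
  have hv2 := Dat.v_ne Q hQ he
  have hp := Dat.v_ne Q hQ h1
  have e1 : (Dat.par Q d.dual e.dual).v Q = Q * (Q + d.v Q + e.v Q) / (d.v Q * e.v Q) := by
    rw [h2, Dat.v_dual Q hQ hd, Dat.v_dual Q hQ he]
    field_simp
    ring
  have hne : (Q : ℂ) + d.v Q + e.v Q ≠ 0 := by
    intro h0
    rw [h0, mul_zero, zero_div] at e1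
    exact hp e1
  have e2 : (Dat.ser Q d e).v Q = d.v Q * e.v Q / (Q + d.v Q + e.v Q) := by
    show (Dat.par Q d.dual e.dual).dual.v Q = _
    rw [Dat.v_dual Q hQ h1, e1]
    field_simp
  have e3 : (Dat.ser Q d e).g Q = (Dat.par Q d.dual e.dual).g Q * √Q / ‖(Dat.par Q d.dual e.dual).v Q‖ := 
    Dat.g_dual Q hQ h1
  refine ⟨h1.dual, hne, e2, ?_⟩
  rw [e3, e1, norm_div, norm_mul, norm_mul, Complex.norm_of_nonneg hQ.le]
  rw [Dat.g_dual Q hQ hd, Dat.g_dual Q hQ he] at h3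
  have p1 := norm_pos_iff.2 hv1
  have p2 := norm_pos_iff.2 hv2
  have p3 := norm_pos_iff.2 hne
  have g1 := Dat.g_pos Q hQ hd
  have g2 := Dat.g_pos Q hQ he
  set G := (Dat.par Q d.dual e.dual).g Q with hG
  set S := ‖(Q : ℂ) + d.v Q + e.v Q‖ with hS
  set Λ : ℝ := (7 / 4) ^ Dat.mu d.dual e.dual with hΛ
  have h4 : Λ * (d.g Q * e.g Q) * Q ≤ G * (‖d.v Q‖ * ‖e.v Q‖) := by
    have : Λ * (d.g Q * √Q / ‖d.v Q‖ * (e.g Q * √Q / ‖e.v Q‖)) = 
        (Λ * (d.g Q * e.g Q) * Q) / (‖d.v Q‖ * ‖e.v Q‖) := by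
      rw [div_mul_div_comm, ← mul_div_assoc]
      congr 1
      calc Λ * (d.g Q * √Q * (e.g Q * √Q)) = Λ * (d.g Q * e.g Q) * (√Q * √Q) := by ring
        _ = _ := by rw [hsq2]
    rw [this, div_le_iff₀ (by positivity)] at h3
    exact h3
  have h5 : G * √Q / (Q * S / (‖d.v Q‖ * ‖e.v Q‖)) * S = √Q * (G * (‖d.v Q‖ * ‖e.v Q‖)) / Q := by
    field_simp
  rw [h5, le_div_iff₀ hQ]
  calc √Q * (Λ * (d.g Q * e.g Q)) * Q = √Q * (Λ * (d.g Q * e.g Q) * Q) := by ring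
    _ ≤ √Q * (G * (‖d.v Q‖ * ‖e.v Q‖)) := mul_le_mul_of_nonneg_left h4 hsq.le

/-- a coloop -/
theorem Dat.coloop_ok (Q : ℝ) (hQ : 0 < Q) (d : Dat) (hd : d.OK) (hQT : 16 * Q * d.a ^ 2 ≤ 1) 
    (hσ : d.σ = false) : 7 / 4 * √Q * d.g Q ≤ ‖(Q : ℂ) + d.v Q‖ := by
  obtain ⟨σ, x, a, c⟩ := d
  simp only at hσ
  subst hσ
  have := bridge_lf x a Q hd.1 hQ hQT
  show 7 / 4 * √Q * 1 ≤ ‖(Q : ℂ) + (x - 1)‖
  rwa [mul_one]

/-- a loop -/
theorem Dat.loop_ok (Q : ℝ) (hQ : 0 < Q) (d : Dat) (hd : d.OK) (hQT : 16 * Q * d.a ^ 2 ≤ 1) 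
    (hσ : d.σ = true) : 7 / 4 * d.g Q ≤ ‖1 + d.v Q‖ := by
  have hsq : 0 < √Q := Real.sqrt_pos.2 hQ
  have hsq2 : √Q * √Q = Q := Real.mul_self_sqrt hQ.le
  have hdx := Dat.x_ne hd
  obtain ⟨σ, x, a, c⟩ := d
  simp only at hσ hdx
  subst hσ
  have h1 := bridge_lf x a Q hd.1 hQ hQT
  show 7 / 4 * (‖(Q : ℂ) / (x - 1)‖ / √Q) ≤ ‖1 + (Q : ℂ) / (x - 1)‖
  have e1 : 1 + (Q : ℂ) / (x - 1) = ((Q : ℂ) + (x - 1)) / (x - 1) := by
    field_simp
    ring
  have p1 := norm_pos_iff.2 hdx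
  rw [e1, norm_div, norm_div, Complex.norm_of_nonneg hQ.le, div_div, ← mul_div_assoc, 
    div_le_div_iff₀ (by positivity) (by positivity)]
  calc 7 / 4 * Q * ‖x - 1‖ = 7 / 4 * (√Q * √Q) * ‖x - 1‖ := by rw [hsq2]
    _ = (7 / 4 * √Q) * (‖x - 1‖ * √Q) := by ring
    _ ≤ ‖(Q : ℂ) + (x - 1)‖ * (‖x - 1‖ * √Q) := mul_le_mul_of_nonneg_right h1 (by positivity)

theorem Dat.par_leaf (Q : ℝ) (d e : Dat) (h : (Dat.par Q d e).σ = false) (hc : ¬ (Dat.par Q d e).c) : 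
    (d.σ = false ∧ ¬ d.c ∧ e.σ = true) ∨ (e.σ = false ∧ ¬ e.c ∧ d.σ = true) := by
  obtain ⟨σ, x, a, c⟩ := d
  obtain ⟨τ, y, b, c'⟩ := e
  cases σ <;> cases τ
  · exact absurd trivial hc
  · exact Or.inl ⟨rfl, hc, rfl⟩
  · exact Or.inr ⟨rfl, hc, rfl⟩
  · exact absurd trivial hc

theorem Dat.par_small (Q : ℝ) (d e : Dat) (h : (Dat.par Q d e).σ = true) : 
    (Dat.par Q d e).c ∧ d.σ = true ∧ e.σ = true := by
  obtain ⟨σ, x, a, c⟩ := d
  obtain ⟨τ, y, b, c'⟩ := e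
  cases σ <;> cases τ
  · exact absurd (show false = true from h) (by decide)
  · exact absurd (show false = true from h) (by decide)
  · exact absurd (show false = true from h) (by decide)
  · exact ⟨trivial, rfl, rfl⟩

theorem Dat.ser_leaf (Q : ℝ) (d e : Dat) (h : (Dat.ser Q d e).σ = true) (hc : ¬ (Dat.ser Q d e).c) : 
    (d.σ = true ∧ ¬ d.c ∧ e.σ = false) ∨ (e.σ = true ∧ ¬ e.c ∧ d.σ = false) := by
  have h1 : (Dat.par Q d.dual e.dual).σ = false := by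
    have : (!(Dat.par Q d.dual e.dual).σ) = true := h
    simpa using this
  rcases Dat.par_leaf Q d.dual e.dual h1 hc with ⟨a, b, c⟩ | ⟨a, b, c⟩
  · left
    have a' : (!d.σ) = false := a
    have c' : (!e.σ) = true := c
    exact ⟨by simpa using a', b, by simpa using c'⟩
  · right
    have a' : (!e.σ) = false := a
    have c' : (!d.σ) = true := c
    exact ⟨by simpa using a', b, by simpa using c'⟩

theorem Dat.ser_large (Q : ℝ) (d e : Dat) (h : (Dat.ser Q d e).σ = false) : 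
    (Dat.ser Q d e).c ∧ d.σ = false ∧ e.σ = false := by
  have h1 : (Dat.par Q d.dual e.dual).σ = true := by
    have : (!(Dat.par Q d.dual e.dual).σ) = false := h
    simpa using this
  obtain ⟨a, b, c⟩ := Dat.par_small Q d.dual e.dual h1
  have b' : (!d.σ) = true := b
  have c' : (!e.σ) = true := c
  exact ⟨a, by simpa using b', by simpa using c'⟩

/-- two edges which form a component -/
theorem Dat.pair_ok (Q : ℝ) (hQ : 0 < Q) (d e : Dat) (hd : d.OK) (he : e.OK) 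
    (hQT : 16 * Q * (d.a + e.a) ^ 2 ≤ 1) (hc : d.σ = false → e.σ = false → d.c ∨ e.c) 
    (hc' : d.σ = true → e.σ = true → d.c ∨ e.c) : 
    (7 / 4) ^ (if d.σ = e.σ then 1 else 2) * √Q * (d.g Q * e.g Q) ≤ 
      ‖(Q : ℂ) + (d.v Q + e.v Q + d.v Q * e.v Q)‖ := by
  have hsq : 0 < √Q := Real.sqrt_pos.2 hQ
  cases h : (Dat.par Q d e).σ with
  | false =>
    obtain ⟨h1, h2, h3⟩ := Dat.par_ok Q hQ d e hd he hQT hc
    have h4 := Dat.coloop_ok Q hQ (Dat.par Q d e) h1 (by rwa [Dat.par_a]) h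
    rw [h2] at h4
    have hmu : (if d.σ = e.σ then 1 else 2) = Dat.mu d e + 1 := by
      obtain ⟨σ, x, a, c⟩ := d
      obtain ⟨τ, y, b, c'⟩ := e
      cases σ <;> cases τ
      · rfl
      · rfl
      · rfl
      · exact absurd (show true = false from h) (by decide)
    rw [hmu, pow_succ]
    refine le_trans (le_of_eq ?_) ((mul_le_mul_of_nonneg_left h3 (by positivity)).trans h4)
    ring
  | true =>
    obtain ⟨_, s1, s2⟩ := Dat.par_small Q d e h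
    obtain ⟨h1, hne, h2, h3⟩ := Dat.ser_ok Q hQ d e hd he hQT hc'
    have hσ : (Dat.ser Q d e).σ = true := by
      cases h5 : (Dat.ser Q d e).σ with
      | true => rfl
      | false =>
        have := (Dat.ser_large Q d e h5).2.1
        rw [s1] at this
        exact absurd this (by decide)
    have h4 := Dat.loop_ok Q hQ (Dat.ser Q d e) h1 (by rwa [Dat.ser_a]) hσ
    have e1 : (Q : ℂ) + (d.v Q + e.v Q + d.v Q * e.v Q) = 
        ((Q : ℂ) + d.v Q + e.v Q) * (1 + (Dat.ser Q d e).v Q) := by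
      rw [h2]
      field_simp
      ring
    rw [e1, norm_mul, if_pos (s1.trans s2.symm), pow_one]
    have p := norm_nonneg ((Q : ℂ) + d.v Q + e.v Q)
    have hmu : Dat.mu d.dual e.dual = 0 := by
      unfold Dat.mu
      rw [if_pos]
      constructor
      · show (!d.σ) = false
        rw [s1]
        rfl
      · show (!e.σ) = false
        rw [s2]
        rfl
    rw [hmu, pow_zero, one_mul] at h3
    calc 7 / 4 * √Q * (d.g Q * e.g Q) = 7 / 4 * (√Q * (d.g Q * e.g Q)) := by ring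
      _ ≤ 7 / 4 * ((Dat.ser Q d e).g Q * ‖(Q : ℂ) + d.v Q + e.v Q‖) := 
        mul_le_mul_of_nonneg_left h3 (by norm_num)
      _ = ‖(Q : ℂ) + d.v Q + e.v Q‖ * (7 / 4 * (Dat.ser Q d e).g Q) := by ring
      _ ≤ _ := mul_le_mul_of_nonneg_left h4 p

end Pool.Agent.Q99.ET
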