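import Pool.Agent.Q99.ET.Arb2

/-!
# The state sum of a series-parallel matroid for small positive `Q`: induction
-/

set_option autoImplicit false

namespace Pool.Agent.Q99.ET

open Finset

variable {ι : Type} [DecidableEq ι]

/-- `E` can be reduced to the empty set by deleting coloops, loops and two parallel elements which form a
component, deleting one of two parallel elements (if the other one does not become a coloop) and
contracting one of two elements in series (if the other one does not become a loop); `r` is the rank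
function: series-parallel matroids. -/
inductive SPall {ι : Type} [DecidableEq ι] : (Finset ι → ℕ) → Finset ι → Prop
  | nil (r : Finset ι → ℕ) : SPall r ∅
  | coloop (r : Finset ι → ℕ) (E : Finset ι) (e : ι) : e ∉ E → r (insert e E) = r E + 1 → SPall r E →
      SPall r (insert e E)
  | loop (r : Finset ι → ℕ) (E : Finset ι) (e : ι) : e ∉ E → r {e} = 0 → SPall r E → SPall r (insert e E)
  | pair (r : Finset ι → ℕ) (E : Finset ι) (e f : ι) : e ∉ E → f ∉ insert e E → r {f} = 1 → r {e, f} = 1 → 
      r (insert e E) = r E + 1 → SPall r E → SPall r (insert f (insert e E))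
  | parallel (r : Finset ι → ℕ) (E : Finset ι) (e f : ι) : f ∉ E → e ∈ E → r {e} = 1 → r {f} = 1 → 
      r {e, f} = 1 → r (E.erase e) = r E → SPall r E → SPall r (insert f E)
  | series (r : Finset ι → ℕ) (E : Finset ι) (e f : ι) : f ∉ E → e ∈ E → r {f} = 1 → r {e, f} = 2 →
      r (insert f E) = r (E.erase e) + 1 → r E = r (E.erase e) + 1 →
      r (insert f (E.erase e)) = r (E.erase e) + 1 →
      SPall (fun A => r (insert f A) - 1) E → SPall r (insert f E)

/-- the state sum -/
noncomputable def kapV (r : Finset ι → ℕ) (E : Finset ι) (v : ι → ℂ) (Q : ℂ) : ℂ :=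
  ∑ A ∈ E.powerset, Q ^ (r E - r A) * ∏ e ∈ A, v e

theorem kapV_congr (r : Finset ι → ℕ) (E : Finset ι) (v w : ι → ℂ) (Q : ℂ) (h : ∀ e ∈ E, v e = w e) : 
    kapV r E v Q = kapV r E w Q := by
  unfold kapV
  refine Finset.sum_congr rfl fun A hA => ?_
  congr 1
  exact Finset.prod_congr rfl fun e he => h e (Finset.mem_powerset.1 hA he)

theorem not_cl {r : Finset ι → ℕ} (h : IsRk r) {E : Finset ι} {e : ι} (hr : r (insert e E) = r E + 1) 
    {A : Finset ι} (hA : A ⊆ E) : r (insert e A) = r A + 1 := by
  have h3 := h.2.1 A e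
  by_contra hne
  have h4 : r (insert e A) = r A := by omega
  have h5 := h.cl A e h4 E
  rw [Finset.union_eq_left.2 hA] at h5
  omega

theorem in_cl {r : Finset ι → ℕ} (h : IsRk r) {e f : ι} (he : r {e} = 1) (hef : r {e, f} = 1) 
    {A : Finset ι} (hA : e ∈ A) : r (insert f A) = r A := by
  have h4 : r (insert f {e}) = r {e} := by rw [Finset.pair_comm, hef, he]
  have h5 := h.cl {e} f h4 A
  rwa [Finset.union_eq_left.2 (Finset.singleton_subset_iff.2 hA)] at h5

theorem loop_cl {r : Finset ι → ℕ} (h : IsRk r) {e : ι} (he : r {e} = 0) (A : Finset ι) : 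
    r (insert e A) = r A := by
  have h5 := h.cl ∅ e (by rw [insert_empty_eq, he, h.1]) A
  rwa [Finset.union_empty] at h5

theorem kapV_coloop (r : Finset ι → ℕ) (h : IsRk r) (E : Finset ι) (e : ι) (he : e ∉ E)
    (hr : r (insert e E) = r E + 1) (v : ι → ℂ) (Q : ℂ) : 
    kapV r (insert e E) v Q = (Q + v e) * kapV r E v Q := by
  unfold kapV
  rw [Finset.sum_powerset_insert he, ← Finset.sum_add_distrib, Finset.mul_sum]
  refine Finset.sum_congr rfl fun A hA => ?_
  have hAE := Finset.mem_powerset.1 hA
  have heA : e ∉ A := fun h => he (hAE h)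
  have hm := h.mono hAE
  rw [not_cl h hr hAE, hr, Finset.prod_insert heA]
  have e1 : r E + 1 - r A = (r E - r A) + 1 := by omega
  have e2 : r E + 1 - (r A + 1) = r E - r A := by omega
  rw [e1, e2, pow_succ]
  ring

theorem kapV_loop (r : Finset ι → ℕ) (h : IsRk r) (E : Finset ι) (e : ι) (he : e ∉ E)
    (hr : r {e} = 0) (v : ι → ℂ) (Q : ℂ) : 
    kapV r (insert e E) v Q = (1 + v e) * kapV r E v Q := by
  unfold kapV
  rw [Finset.sum_powerset_insert he, ← Finset.sum_add_distrib, Finset.mul_sum]
  refine Finset.sum_congr rfl fun A hA => ?_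
  have hAE := Finset.mem_powerset.1 hA
  have heA : e ∉ A := fun h => he (hAE h)
  rw [loop_cl h hr, loop_cl h hr, Finset.prod_insert heA]
  ring

theorem kapV_parallel (r : Finset ι → ℕ) (h : IsRk r) (E : Finset ι) (e f : ι) (hf : f ∉ E) (he : e ∈ E)
    (he1 : r {e} = 1) (hf1 : r {f} = 1) (h1 : r {e, f} = 1) (v : ι → ℂ) (Q : ℂ) :
    kapV r (insert f E) v Q = kapV r E (Function.update v e (v e + v f + v e * v f)) Q := by
  obtain ⟨H, heH, rfl⟩ : ∃ H, e ∉ H ∧ insert e H = E := ⟨E.erase e, Finset.notMem_erase _ _, Finset.insert_erase he⟩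
  have hfH : f ∉ H := fun h => hf (Finset.mem_insert_of_mem h)
  have hef : e ≠ f := fun h => hf (h ▸ Finset.mem_insert_self _ _)
  have h1' : r {f, e} = 1 := by rwa [Finset.pair_comm]
  unfold kapV
  rw [Finset.sum_powerset_insert hf, Finset.sum_powerset_insert heH, Finset.sum_powerset_insert heH,
    Finset.sum_powerset_insert heH, ← Finset.sum_add_distrib, ← Finset.sum_add_distrib, 
    ← Finset.sum_add_distrib, ← Finset.sum_add_distrib]
  refine Finset.sum_congr rfl fun A hA => ?_
  have hAH := Finset.mem_powerset.1 hA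
  have heA : e ∉ A := fun h => heH (hAH h)
  have hfA : f ∉ A := fun h => hfH (hAH h)
  have hfA' : f ∉ insert e A := by
    rw [Finset.mem_insert, not_or]
    exact ⟨fun h => hef h.symm, hfA⟩
  have hp : ∏ g ∈ A, Function.update v e (v e + v f + v e * v f) g = ∏ g ∈ A, v g := by
    refine Finset.prod_congr rfl fun g hg => ?_
    have hge : g ≠ e := by
      rintro rfl
      exact heA hg
    rw [Function.update_of_ne hge]
  have e1 : r (insert f (insert e H)) = r (insert e H) := in_cl h he1 h1 (Finset.mem_insert_self _ _)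
  have e2 : r (insert f (insert e A)) = r (insert e A) := in_cl h he1 h1 (Finset.mem_insert_self _ _)
  have e3 : r (insert f A) = r (insert e A) := by
    rw [← e2, Finset.insert_comm]
    exact (in_cl h hf1 h1' (Finset.mem_insert_self _ _)).symm
  rw [Finset.prod_insert heA, Finset.prod_insert hfA, Finset.prod_insert hfA', Finset.prod_insert heA,
    Finset.prod_insert heA, hp, Function.update_self, e1, e2, e3]
  ring

theorem kapV_series (r : Finset ι → ℕ) (h : IsRk r) (E : Finset ι) (e f : ι) (hf : f ∉ E) (he : e ∈ E)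
    (hf1 : r {f} = 1) (h1 : r (insert f E) = r (E.erase e) + 1) (h2 : r E = r (E.erase e) + 1)
    (h3 : r (insert f (E.erase e)) = r (E.erase e) + 1) (v : ι → ℂ) (Q : ℂ) 
    (h0 : Q + v e + v f ≠ 0) :
    kapV r (insert f E) v Q = (Q + v e + v f) * 
      kapV (fun A => r (insert f A) - 1) E (Function.update v e (v e * v f / (Q + v e + v f))) Q := by
  obtain ⟨H, heH, rfl⟩ : ∃ H, e ∉ H ∧ insert e H = E := ⟨E.erase e, Finset.notMem_erase _ _, Finset.insert_erase he⟩
  rw [Finset.erase_insert heH] at h1 h2 h3
  have hfH : f ∉ H := fun h => hf (Finset.mem_insert_of_mem h)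
  have hef : e ≠ f := fun h => hf (h ▸ Finset.mem_insert_self _ _)
  have hpos : ∀ A, 1 ≤ r (insert f A) := by
    intro A
    rw [← hf1]
    exact h.mono (by intro x hx; rw [Finset.mem_singleton.1 hx]; exact Finset.mem_insert_self _ _)
  unfold kapV
  rw [Finset.sum_powerset_insert hf, Finset.sum_powerset_insert heH, Finset.sum_powerset_insert heH,
    Finset.sum_powerset_insert heH, ← Finset.sum_add_distrib, ← Finset.sum_add_distrib, 
    ← Finset.sum_add_distrib, ← Finset.sum_add_distrib, Finset.mul_sum]
  refine Finset.sum_congr rfl fun A hA => ?_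
  have hAH := Finset.mem_powerset.1 hA
  have heA : e ∉ A := fun h => heH (hAH h)
  have hfA : f ∉ A := fun h => hfH (hAH h)
  have hfA' : f ∉ insert e A := by
    rw [Finset.mem_insert, not_or]
    exact ⟨fun h => hef h.symm, hfA⟩
  have hp : ∏ g ∈ A, Function.update v e (v e * v f / (Q + v e + v f)) g = ∏ g ∈ A, v g := by
    refine Finset.prod_congr rfl fun g hg => ?_
    have hge : g ≠ e := by
      rintro rfl
      exact heA hg
    rw [Function.update_of_ne hge]
  have m1 := h.mono hAH
  have m2 : r (insert f (insert e A)) ≤ r (insert f (insert e H)) := 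
    h.mono (Finset.insert_subset_insert _ (Finset.insert_subset_insert _ hAH))
  have m3 := hpos (insert e A)
  have k1 := not_cl h h2 hAH
  have k2 := not_cl h h3 hAH
  have q1 : r (insert f (insert e H)) - r A = (r H - r A) + 1 := by omega
  have q2 : r (insert f (insert e H)) - r (insert e A) = r H - r A := by omega
  have q3 : r (insert f (insert e H)) - r (insert f A) = r H - r A := by omega
  have q4 : (r (insert f (insert e H)) - 1) - (r (insert f A) - 1) = r H - r A := by omega
  have q5 : (r (insert f (insert e H)) - 1) - (r (insert f (insert e A)) - 1) = 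
      r (insert f (insert e H)) - r (insert f (insert e A)) := by omega
  rw [Finset.prod_insert heA, Finset.prod_insert hfA, Finset.prod_insert hfA', Finset.prod_insert heA,
    Finset.prod_insert heA, hp, Function.update_self]
  simp only [q1, q2, q3, q4, q5]
  rw [pow_succ]
  field_simp
  ring

theorem kapV_pair (r : Finset ι → ℕ) (h : IsRk r) (E : Finset ι) (e f : ι) (he : e ∉ E) (hf : f ∉ insert e E)
    (he1 : r {e} = 1) (hf1 : r {f} = 1) (h1 : r {e, f} = 1) (hr : r (insert e E) = r E + 1) 
    (v : ι → ℂ) (Q : ℂ) :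
    kapV r (insert f (insert e E)) v Q = (Q + (v e + v f + v e * v f)) * kapV r E v Q := by
  rw [kapV_parallel r h (insert e E) e f hf (Finset.mem_insert_self _ _) he1 hf1 h1 v Q, 
    kapV_coloop r h E e he hr, Function.update_self]
  congr 1
  refine kapV_congr r E _ _ Q fun g hg => ?_
  have hge : g ≠ e := by
    rintro rfl
    exact he hg
  rw [Function.update_of_ne hge]

/-- the invariants of the induction -/
structure Inv (Q : ℝ) (r : Finset ι → ℕ) (E : Finset ι) (D : ι → Dat) : Prop where
  ok : ∀ e ∈ E, (D e).OK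
  n1 : ∀ e ∈ E, (D e).σ = false → r {e} = 1
  n2 : ∀ e ∈ E, (D e).σ = true → r (E.erase e) = r E
  p : ∀ e ∈ E, ∀ f ∈ E, e ≠ f → (D e).σ = false → (D f).σ = false → ¬ (D e).c → ¬ (D f).c → r {e, f} = 2
  s : ∀ e ∈ E, ∀ f ∈ E, e ≠ f → (D e).σ = true → (D f).σ = true → ¬ (D e).c → ¬ (D f).c → 
    r ((E.erase e).erase f) = r E
  t : 16 * Q * (∑ e ∈ E, (D e).a) ^ 2 ≤ 1

theorem Inv.cost {Q : ℝ} (hQ : 0 < Q) {r : Finset ι → ℕ} {E : Finset ι} {D : ι → Dat} (h : Inv Q r E D) 
    (A : Finset ι) (hA : A ⊆ E) : 16 * Q * (∑ e ∈ A, (D e).a) ^ 2 ≤ 1 := by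
  refine le_trans ?_ h.t
  apply mul_le_mul_of_nonneg_left _ (by positivity)
  have h0 : ∀ e ∈ E, 0 ≤ (D e).a := fun e he => by
    have := (h.ok e he).1.2.1
    linarith
  apply pow_le_pow_left₀ (Finset.sum_nonneg fun e he => h0 e (hA he))
  exact Finset.sum_le_sum_of_subset_of_nonneg hA fun e he _ => h0 e he

theorem Inv.cost1 {Q : ℝ} (hQ : 0 < Q) {r : Finset ι → ℕ} {E : Finset ι} {D : ι → Dat} (h : Inv Q r E D) 
    (e : ι) (he : e ∈ E) : 16 * Q * (D e).a ^ 2 ≤ 1 := by
  have := h.cost hQ {e} (Finset.singleton_subset_iff.2 he)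
  rwa [Finset.sum_singleton] at this

theorem Inv.cost2 {Q : ℝ} (hQ : 0 < Q) {r : Finset ι → ℕ} {E : Finset ι} {D : ι → Dat} (h : Inv Q r E D) 
    (e f : ι) (he : e ∈ E) (hf : f ∈ E) (hef : e ≠ f) : 16 * Q * ((D e).a + (D f).a) ^ 2 ≤ 1 := by
  have := h.cost hQ {e, f} (by
    intro x hx
    rw [Finset.mem_insert, Finset.mem_singleton] at hx
    rcases hx with rfl | rfl
    · exact he
    · exact hf)
  rwa [Finset.sum_pair hef] at this

theorem Inv.coloop {Q : ℝ} (hQ : 0 < Q) {r : Finset ι → ℕ} (hr : IsRk r) {E : Finset ι} {e : ι} {D : ι → Dat} 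
    (h : Inv Q r (insert e E) D) (he : e ∉ E) (h1 : r (insert e E) = r E + 1) : Inv Q r E D := by
  have sub : ∀ g ∈ E, g ∈ insert e E := fun g hg => Finset.mem_insert_of_mem hg
  refine ⟨fun g hg => h.ok g (sub g hg), fun g hg => h.n1 g (sub g hg), ?_, 
    fun g hg f hf => h.p g (sub g hg) f (sub f hf), ?_, h.cost hQ E (Finset.subset_insert _ _)⟩
  · intro g hg hσ
    have h2 := h.n2 g (sub g hg) hσ
    have hge : e ≠ g := by
      rintro rfl
      exact he hg
    rw [Finset.erase_insert_of_ne hge] at h2
    have h3 := not_cl hr h1 (Finset.erase_subset g E)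
    omega
  · intro g hg f hf hgf s1 s2 c1 c2
    have h2 := h.s g (sub g hg) f (sub f hf) hgf s1 s2 c1 c2
    have hge : e ≠ g := by
      rintro rfl
      exact he hg
    have hfe : e ≠ f := by
      rintro rfl
      exact he hf
    rw [Finset.erase_insert_of_ne hge, Finset.erase_insert_of_ne hfe] at h2
    have h3 := not_cl hr h1 ((Finset.erase_subset f (E.erase g)).trans (Finset.erase_subset g E))
    omega

theorem Inv.loop {Q : ℝ} (hQ : 0 < Q) {r : Finset ι → ℕ} (hr : IsRk r) {E : Finset ι} {e : ι} {D : ι → Dat} 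
    (h : Inv Q r (insert e E) D) (he : e ∉ E) (h1 : r {e} = 0) : Inv Q r E D := by
  have sub : ∀ g ∈ E, g ∈ insert e E := fun g hg => Finset.mem_insert_of_mem hg
  refine ⟨fun g hg => h.ok g (sub g hg), fun g hg => h.n1 g (sub g hg), ?_, 
    fun g hg f hf => h.p g (sub g hg) f (sub f hf), ?_, h.cost hQ E (Finset.subset_insert _ _)⟩
  · intro g hg hσ
    have h2 := h.n2 g (sub g hg) hσ
    have hge : e ≠ g := by
      rintro rfl
      exact he hg
    rwa [Finset.erase_insert_of_ne hge, loop_cl hr h1, loop_cl hr h1] at h2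
  · intro g hg f hf hgf s1 s2 c1 c2
    have h2 := h.s g (sub g hg) f (sub f hf) hgf s1 s2 c1 c2
    have hge : e ≠ g := by
      rintro rfl
      exact he hg
    have hfe : e ≠ f := by
      rintro rfl
      exact he hf
    rwa [Finset.erase_insert_of_ne hge, Finset.erase_insert_of_ne hfe, loop_cl hr h1, loop_cl hr h1] at h2

/-- the parallel reduction -/
theorem Inv.parallel {Q : ℝ} (hQ : 0 < Q) {r : Finset ι → ℕ} (hr : IsRk r) {E : Finset ι} {e f : ι} 
    {D : ι → Dat} (h : Inv Q r (insert f E) D) (hf : f ∉ E) (he : e ∈ E) (he1 : r {e} = 1) (hf1 : r {f} = 1) 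
    (h1 : r {e, f} = 1) (h2 : r (E.erase e) = r E) : 
    Inv Q r E (Function.update D e (Dat.par Q (D e) (D f))) := by
  have sub : ∀ g ∈ E, g ∈ insert f E := fun g hg => Finset.mem_insert_of_mem hg
  have mf : f ∈ insert f E := Finset.mem_insert_self _ _
  have hef : e ≠ f := fun h => hf (h ▸ he)
  have hc : (D e).σ = false → (D f).σ = false → (D e).c ∨ (D f).c := by
    intro s1 s2
    by_contra hn
    rw [not_or] at hn
    have := h.p e (sub e he) f mf hef s1 s2 hn.1 hn.2
    omega
  obtain ⟨ok1, _, _⟩ := Dat.par_ok Q hQ (D e) (D f) (h.ok e (sub e he)) (h.ok f mf) 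
    (h.cost2 hQ e f (sub e he) mf hef) hc
  have hne : ∀ g ∈ E, f ≠ g := by
    intro g hg h0
    exact hf (h0 ▸ hg)
  have cl : ∀ A : Finset ι, e ∈ A → r (insert f A) = r A := fun A hA => in_cl hr he1 h1 hA
  refine ⟨?_, ?_, ?_, ?_, ?_, ?_⟩
  · intro g hg
    by_cases hge : g = e
    · subst hge
      rw [Function.update_self]
      exact ok1
    · rw [Function.update_of_ne hge]
      exact h.ok g (sub g hg)
  · intro g hg hσ
    by_cases hge : g = e
    · subst hge
      exact he1
    · rw [Function.update_of_ne hge] at hσ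
      exact h.n1 g (sub g hg) hσ
  · intro g hg hσ
    by_cases hge : g = e
    · subst hge
      exact h2
    · rw [Function.update_of_ne hge] at hσ
      have h3 := h.n2 g (sub g hg) hσ
      rwa [Finset.erase_insert_of_ne (hne g hg), cl _ he, 
        cl _ (Finset.mem_erase.2 ⟨fun h => hge h.symm, he⟩)] at h3
  · -- two large leaves
    have key : ∀ g ∈ E, g ≠ e → (D g).σ = false → ¬ (D g).c → 
        (Dat.par Q (D e) (D f)).σ = false → ¬ (Dat.par Q (D e) (D f)).c → r {e, g} = 2 := by
      intro g hg hge s1 c1 s2 c2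
      rcases Dat.par_leaf Q (D e) (D f) s2 c2 with ⟨a1, a2, _⟩ | ⟨a1, a2, _⟩
      · exact h.p e (sub e he) g (sub g hg) (fun h => hge h.symm) a1 s1 a2 c1
      · have h3 := h.p f mf g (sub g hg) (hne g hg) a1 s1 a2 c1
        have h4 : r (insert f {e, g}) = r {e, g} := cl _ (Finset.mem_insert_self _ _)
        have h5 : r (insert e {f, g}) = r {f, g} := 
          in_cl hr hf1 (by rwa [Finset.pair_comm] at h1) (Finset.mem_insert_self _ _)
        have h6 : (insert f {e, g} : Finset ι) = insert e {f, g} := Finset.insert_comm _ _ _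
        rw [← h4, h6, h5, h3]
    intro g hg g' hg' hgg s1 s2 c1 c2
    by_cases hge : g = e
    · subst hge
      rw [Function.update_self] at s1 c1
      rw [Function.update_of_ne (fun h => hgg h.symm)] at s2 c2
      exact key g' hg' (fun h => hgg h.symm) s2 c2 s1 c1
    · rw [Function.update_of_ne hge] at s1 c1
      by_cases hge' : g' = e
      · subst hge'
        rw [Function.update_self] at s2 c2
        rw [Finset.pair_comm]
        exact key g hg hge s1 c1 s2 c2
      · rw [Function.update_of_ne hge'] at s2 c2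
        exact h.p g (sub g hg) g' (sub g' hg') hgg s1 s2 c1 c2
  · -- two small leaves
    intro g hg g' hg' hgg s1 s2 c1 c2
    have n1 : g ≠ e := by
      rintro rfl
      rw [Function.update_self] at s1 c1
      exact c1 (Dat.par_small Q _ _ s1).1
    have n2 : g' ≠ e := by
      rintro rfl
      rw [Function.update_self] at s2 c2
      exact c2 (Dat.par_small Q _ _ s2).1
    rw [Function.update_of_ne n1] at s1 c1
    rw [Function.update_of_ne n2] at s2 c2
    have h3 := h.s g (sub g hg) g' (sub g' hg') hgg s1 s2 c1 c2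
    rwa [Finset.erase_insert_of_ne (hne g hg), Finset.erase_insert_of_ne (hne g' hg'), cl _ he, 
      cl _ (Finset.mem_erase.2 ⟨fun h => n2 h.symm, Finset.mem_erase.2 ⟨fun h => n1 h.symm, he⟩⟩)] at h3
  · have e1 : ∑ g ∈ E, (Function.update D e (Dat.par Q (D e) (D f)) g).a = ∑ g ∈ insert f E, (D g).a := by
      rw [Finset.sum_insert hf, ← Finset.add_sum_erase E _ he, ← Finset.add_sum_erase E _ he, 
        Function.update_self, Dat.par_a]
      have : ∑ g ∈ E.erase e, (Function.update D e (Dat.par Q (D e) (D f)) g).a = 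
          ∑ g ∈ E.erase e, (D g).a := by
        refine Finset.sum_congr rfl fun g hg => ?_
        rw [Function.update_of_ne (Finset.ne_of_mem_erase hg)]
      rw [this]
      ring
    rw [e1]
    exact h.t

/-- the series reduction -/
theorem Inv.series {Q : ℝ} (hQ : 0 < Q) {r : Finset ι → ℕ} (hr : IsRk r) {E : Finset ι} {e f : ι} 
    {D : ι → Dat} (h : Inv Q r (insert f E) D) (hf : f ∉ E) (he : e ∈ E) (hf1 : r {f} = 1) 
    (h12 : r {e, f} = 2) (h1 : r (insert f E) = r (E.erase e) + 1) (h2 : r E = r (E.erase e) + 1) 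
    (h3 : r (insert f (E.erase e)) = r (E.erase e) + 1) : 
    Inv Q (fun A => r (insert f A) - 1) E (Function.update D e (Dat.ser Q (D e) (D f))) := by
  have sub : ∀ g ∈ E, g ∈ insert f E := fun g hg => Finset.mem_insert_of_mem hg
  have mf : f ∈ insert f E := Finset.mem_insert_self _ _
  have hef : e ≠ f := fun h => hf (h ▸ he)
  have hfe : (insert f E).erase f = E := Finset.erase_insert hf
  have hef' : (insert f E).erase e = insert f (E.erase e) := Finset.erase_insert_of_ne (fun h => hef h.symm)
  have hc : (D e).σ = true → (D f).σ = true → (D e).c ∨ (D f).c := by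
    intro s1 s2
    by_contra hn
    rw [not_or] at hn
    have h4 := h.s e (sub e he) f mf hef s1 s2 hn.1 hn.2
    rw [hef', Finset.erase_insert (fun h => hf (Finset.mem_of_mem_erase h))] at h4
    omega
  obtain ⟨ok1, _, _, _⟩ := Dat.ser_ok Q hQ (D e) (D f) (h.ok e (sub e he)) (h.ok f mf) 
    (h.cost2 hQ e f (sub e he) mf hef) hc
  have hne : ∀ g ∈ E, f ≠ g := by
    intro g hg h0
    exact hf (h0 ▸ hg)
  refine ⟨?_, ?_, ?_, ?_, ?_, ?_⟩
  · intro g hg
    by_cases hge : g = e
    · subst hge
      rw [Function.update_self]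
      exact ok1
    · rw [Function.update_of_ne hge]
      exact h.ok g (sub g hg)
  · intro g hg hσ
    show r (insert f {g}) - 1 = 1
    by_cases hge : g = e
    · subst hge
      have : (insert f {g} : Finset ι) = {g, f} := Finset.pair_comm _ _
      rw [this, h12]
    · rw [Function.update_of_ne hge] at hσ
      rw [not_cl hr h3 (Finset.singleton_subset_iff.2 (Finset.mem_erase.2 ⟨hge, hg⟩)), 
        h.n1 g (sub g hg) hσ]
  · intro g hg hσ
    show r (insert f (E.erase g)) - 1 = r (insert f E) - 1
    by_cases hge : g = e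
    · subst hge
      rw [h3, h1]
    · rw [Function.update_of_ne hge] at hσ
      have h4 := h.n2 g (sub g hg) hσ
      rw [Finset.erase_insert_of_ne (hne g hg)] at h4
      rw [h4]
  · -- two large leaves
    intro g hg g' hg' hgg s1 s2 c1 c2
    have n1 : g ≠ e := by
      rintro rfl
      rw [Function.update_self] at s1 c1
      exact c1 (Dat.ser_large Q _ _ s1).1
    have n2 : g' ≠ e := by
      rintro rfl
      rw [Function.update_self] at s2 c2
      exact c2 (Dat.ser_large Q _ _ s2).1
    rw [Function.update_of_ne n1] at s1 c1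
    rw [Function.update_of_ne n2] at s2 c2
    show r (insert f {g, g'}) - 1 = 2
    rw [not_cl hr h3 (by
      intro z hz
      rw [Finset.mem_insert, Finset.mem_singleton] at hz
      rcases hz with rfl | rfl
      · exact Finset.mem_erase.2 ⟨n1, hg⟩
      · exact Finset.mem_erase.2 ⟨n2, hg'⟩), h.p g (sub g hg) g' (sub g' hg') hgg s1 s2 c1 c2]
  · -- two small leaves
    have key : ∀ g ∈ E, g ≠ e → (D g).σ = true → ¬ (D g).c → 
        (Dat.ser Q (D e) (D f)).σ = true → ¬ (Dat.ser Q (D e) (D f)).c → 
          r (insert f ((E.erase e).erase g)) = r (insert f E) := by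
      intro g hg hge s1 c1 s2 c2
      rcases Dat.ser_leaf Q (D e) (D f) s2 c2 with ⟨a1, a2, _⟩ | ⟨a1, a2, _⟩
      · have h4 := h.s e (sub e he) g (sub g hg) (fun h => hge h.symm) a1 s1 a2 c1
        rwa [hef', Finset.erase_insert_of_ne (hne g hg)] at h4
      · have h4 := h.s f mf g (sub g hg) (hne g hg) a1 s1 a2 c1
        rw [hfe] at h4
        have h5 : insert e ((E.erase e).erase g) = E.erase g := by
          rw [← Finset.erase_insert_of_ne (fun h => hge h.symm), Finset.insert_erase he]
        have h6 := (hr.2.1 ((E.erase e).erase g) e).2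
        rw [h5, h4] at h6
        have h7 := not_cl hr h3 (Finset.erase_subset g (E.erase e))
        have h8 := hr.mono (Finset.erase_subset g (E.erase e))
        omega
    intro g hg g' hg' hgg s1 s2 c1 c2
    show r (insert f ((E.erase g).erase g')) - 1 = r (insert f E) - 1
    by_cases hge : g = e
    · subst hge
      rw [Function.update_self] at s1 c1
      rw [Function.update_of_ne (fun h => hgg h.symm)] at s2 c2
      rw [key g' hg' (fun h => hgg h.symm) s2 c2 s1 c1]
    · rw [Function.update_of_ne hge] at s1 c1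
      by_cases hge' : g' = e
      · subst hge'
        rw [Function.update_self] at s2 c2
        rw [Finset.erase_right_comm, key g hg hge s1 c1 s2 c2]
      · rw [Function.update_of_ne hge'] at s2 c2
        have h4 := h.s g (sub g hg) g' (sub g' hg') hgg s1 s2 c1 c2
        rw [Finset.erase_insert_of_ne (hne g hg), Finset.erase_insert_of_ne (hne g' hg')] at h4
        rw [h4]
  · have e1 : ∑ g ∈ E, (Function.update D e (Dat.ser Q (D e) (D f)) g).a = ∑ g ∈ insert f E, (D g).a := by
      rw [Finset.sum_insert hf, ← Finset.add_sum_erase E _ he, ← Finset.add_sum_erase E _ he, 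
        Function.update_self, Dat.ser_a]
      have : ∑ g ∈ E.erase e, (Function.update D e (Dat.ser Q (D e) (D f)) g).a = 
          ∑ g ∈ E.erase e, (D g).a := by
        refine Finset.sum_congr rfl fun g hg => ?_
        rw [Function.update_of_ne (Finset.ne_of_mem_erase hg)]
      rw [this]
      ring
    rw [e1]
    exact h.t

theorem prod_g_pos {Q : ℝ} (hQ : 0 < Q) (E : Finset ι) (D : ι → Dat) (h : ∀ e ∈ E, (D e).OK) : 
    0 < ∏ e ∈ E, (D e).g Q := Finset.prod_pos fun e he => Dat.g_pos Q hQ (h e he)

theorem Dat.par_σ (Q : ℝ) (d e : Dat) : (Dat.par Q d e).σ = (d.σ && e.σ) := by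
  obtain ⟨σ, x, a, c⟩ := d
  obtain ⟨τ, y, b, c'⟩ := e
  cases σ <;> cases τ <;> rfl

theorem Dat.ser_σ (Q : ℝ) (d e : Dat) : (Dat.ser Q d e).σ = (d.σ || e.σ) := by
  show (!(Dat.par Q d.dual e.dual).σ) = _
  rw [Dat.par_σ]
  show (!((!d.σ) && (!e.σ))) = _
  cases d.σ <;> cases e.σ <;> rfl

/-- the potential -/
noncomputable def pot (r : Finset ι → ℕ) (E : Finset ι) (D : ι → Dat) : ℕ :=
  2 * r (E.filter fun e => (D e).σ = false) + (E.filter fun e => (D e).σ = true).card

theorem pot_insert (r : Finset ι → ℕ) (E : Finset ι) (e : ι) (he : e ∉ E) (D : ι → Dat) : 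
    pot r (insert e E) D = 2 * r (if (D e).σ = false then insert e (E.filter fun e => (D e).σ = false) 
      else E.filter fun e => (D e).σ = false) + ((E.filter fun e => (D e).σ = true).card + 
        if (D e).σ = false then 0 else 1) := by
  unfold pot
  rw [Finset.filter_insert, Finset.filter_insert]
  congr 1
  cases hσ : (D e).σ
  · simp
  · have h1 : e ∉ E.filter fun e => (D e).σ = true := fun h => he (Finset.mem_filter.1 h).1
    simp [Finset.card_insert_of_notMem h1]

theorem pot_insert2 (r : Finset ι → ℕ) (E : Finset ι) (e f : ι) (he : e ∉ E) (hf : f ∉ insert e E) (D : ι → Dat) : 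
    pot r (insert f (insert e E)) D = 2 * r (if (D f).σ = false 
      then insert f (if (D e).σ = false then insert e (E.filter fun e => (D e).σ = false) 
        else E.filter fun e => (D e).σ = false)
      else (if (D e).σ = false then insert e (E.filter fun e => (D e).σ = false) 
        else E.filter fun e => (D e).σ = false)) + ((E.filter fun e => (D e).σ = true).card + 
        (if (D e).σ = false then 0 else 1) + (if (D f).σ = false then 0 else 1)) := by
  rw [pot_insert r (insert e E) f hf D, Finset.filter_insert, Finset.filter_insert]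
  congr 1
  congr 1
  cases hσ : (D e).σ
  · simp
  · have h1 : e ∉ E.filter fun e => (D e).σ = true := fun h => he (Finset.mem_filter.1 h).1
    simp [Finset.card_insert_of_notMem h1]

theorem filter_update (E : Finset ι) (e : ι) (he : e ∉ E) (D : ι → Dat) (X : Dat) (b : Bool) : 
    (E.filter fun g => (Function.update D e X g).σ = b) = E.filter fun g => (D g).σ = b := by
  refine Finset.filter_congr fun g hg => ?_
  have hge : g ≠ e := by
    rintro rfl
    exact he hg
  rw [Function.update_of_ne hge]

theorem pot_par (r : Finset ι → ℕ) (h : IsRk r) (H : Finset ι) (e f : ι) (he : e ∉ H) (hf : f ∉ insert e H) 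
    (he1 : r {e} = 1) (hf1 : r {f} = 1) (h1 : r {e, f} = 1) (D : ι → Dat) (Q : ℝ) : 
    pot r (insert f (insert e H)) D = pot r (insert e H) (Function.update D e (Dat.par Q (D e) (D f))) + 
      Dat.mu (D e) (D f) := by
  rw [pot_insert2 r H e f he hf D, pot_insert r H e he, filter_update H e he, filter_update H e he, 
    Function.update_self, Dat.par_σ]
  unfold Dat.mu
  have h1' : r {f, e} = 1 := by rwa [Finset.pair_comm]
  have k1 : ∀ A : Finset ι, r (insert f (insert e A)) = r (insert e A) := fun A => 
    in_cl h he1 h1 (Finset.mem_insert_self _ _)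
  have k2 : ∀ A : Finset ι, r (insert f A) = r (insert e A) := fun A => by
    rw [← k1, Finset.insert_comm]
    exact (in_cl h hf1 h1' (Finset.mem_insert_self _ _)).symm
  cases hσ : (D e).σ <;> cases hτ : (D f).σ
  · simp [k1]
  · simp
    ring
  · simp [k2]
    ring
  · simp
    ring

theorem pot_ser (r : Finset ι → ℕ) (h : IsRk r) (H : Finset ι) (e f : ι) (he : e ∉ H) (hf : f ∉ insert e H) 
    (hf1 : r {f} = 1) (h2 : r (insert e H) = r H + 1) (h3 : r (insert f H) = r H + 1) (D : ι → Dat) (Q : ℝ) : 
    pot r (insert f (insert e H)) D = pot (fun A => r (insert f A) - 1) (insert e H) 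
      (Function.update D e (Dat.ser Q (D e) (D f))) + 1 + Dat.mu (D e).dual (D f).dual := by
  rw [pot_insert2 r H e f he hf D, pot_insert _ H e he, filter_update H e he, filter_update H e he, 
    Function.update_self, Dat.ser_σ]
  have hmu : Dat.mu (D e).dual (D f).dual = if (D e).σ = true ∧ (D f).σ = true then 0 else 1 := by
    unfold Dat.mu
    show (if (!(D e).σ) = false ∧ (!(D f).σ) = false then 0 else 1) = _
    simp
  rw [hmu]
  set HI := H.filter fun g => (D g).σ = false with hHI
  have sub : HI ⊆ H := Finset.filter_subset _ _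
  have k1 := not_cl h h2 sub
  have k2 := not_cl h h3 sub
  have k3 : 1 ≤ r (insert f (insert e HI)) := by
    rw [← hf1]
    exact h.mono (by intro x hx; rw [Finset.mem_singleton.1 hx]; exact Finset.mem_insert_self _ _)
  cases hσ : (D e).σ <;> cases hτ : (D f).σ
  · simp
    omega
  · simp
    omega
  · simp
    omega
  · simp
    omega

/-- **lower bound** -/
theorem kapV_lower (Q : ℝ) (hQ : 0 < Q) (r : Finset ι → ℕ) (E : Finset ι) (hs : SPall r E) : IsRk r → 
    ∀ D : ι → Dat, Inv Q r E D → 
      (7 / 4) ^ pot r E D * (√Q ^ r E * ∏ e ∈ E, (D e).g Q) ≤ 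
        (7 / 4) ^ r E * ‖kapV r E (fun e => (D e).v Q) Q‖ := by
  have hsq : 0 < √Q := Real.sqrt_pos.2 hQ
  induction hs with
  | nil r =>
    intro h D _
    unfold kapV pot
    simp [h.1]
  | coloop r E e he hr _ ih =>
    intro h D hI
    have me := Finset.mem_insert_self e E
    have hI' := hI.coloop hQ h he hr
    have h1 := ih h D hI'
    have hσ : (D e).σ = false := by
      cases hσ : (D e).σ with
      | false => rfl
      | true =>
        have := hI.n2 e me hσ
        rw [Finset.erase_insert he] at this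
        omega
    have h2 := Dat.coloop_ok Q hQ (D e) (hI.ok e me) (hI.cost1 hQ e me) hσ
    have hpot : pot r (insert e E) D = pot r E D + 2 := by
      rw [pot_insert r E e he, if_pos hσ, if_pos hσ, not_cl h hr (Finset.filter_subset _ _)]
      unfold pot
      ring
    rw [kapV_coloop r h E e he hr, norm_mul, hr, Finset.prod_insert he, hpot]
    have p1 := Dat.g_pos Q hQ (hI.ok e me)
    have p2 := prod_g_pos hQ E D hI'.ok
    calc (7 / 4) ^ (pot r E D + 2) * (√Q ^ (r E + 1) * ((D e).g Q * ∏ e ∈ E, (D e).g Q)) = 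
        (7 / 4) * ((7 / 4 * √Q * (D e).g Q) * ((7 / 4) ^ pot r E D * (√Q ^ r E * ∏ e ∈ E, (D e).g Q))) := by
          rw [pow_succ √Q, pow_add]
          ring
      _ ≤ (7 / 4) * (‖(Q : ℂ) + (D e).v Q‖ * ((7 / 4) ^ r E * ‖kapV r E (fun e => (D e).v Q) Q‖)) := 
          mul_le_mul_of_nonneg_left (mul_le_mul h2 h1 (by positivity) (norm_nonneg _)) (by norm_num)
      _ = _ := by
          rw [pow_succ]
          ring
  | loop r E e he hr _ ih =>
    intro h D hI
    have me := Finset.mem_insert_self e E
    have hI' := hI.loop hQ h he hr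
    have h1 := ih h D hI'
    have hσ : (D e).σ = true := by
      cases hσ : (D e).σ with
      | true => rfl
      | false =>
        have := hI.n1 e me hσ
        omega
    have h2 := Dat.loop_ok Q hQ (D e) (hI.ok e me) (hI.cost1 hQ e me) hσ
    have hpot : pot r (insert e E) D = pot r E D + 1 := by
      rw [pot_insert r E e he, hσ]
      unfold pot
      simp
      ring
    rw [kapV_loop r h E e he hr, norm_mul, loop_cl h hr, Finset.prod_insert he, hpot]
    have p1 := Dat.g_pos Q hQ (hI.ok e me)
    have p2 := prod_g_pos hQ E D hI'.ok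
    calc (7 / 4) ^ (pot r E D + 1) * (√Q ^ r E * ((D e).g Q * ∏ e ∈ E, (D e).g Q)) = 
        (7 / 4 * (D e).g Q) * ((7 / 4) ^ pot r E D * (√Q ^ r E * ∏ e ∈ E, (D e).g Q)) := by
          rw [pow_succ]
          ring
      _ ≤ ‖1 + (D e).v Q‖ * ((7 / 4) ^ r E * ‖kapV r E (fun e => (D e).v Q) Q‖) := 
          mul_le_mul h2 h1 (by positivity) (norm_nonneg _)
      _ = _ := by ring
  | pair r E e f he hf hf1 h1 hr _ ih =>
    intro h D hI
    have mf := Finset.mem_insert_self f (insert e E)
    have me : e ∈ insert f (insert e E) := Finset.mem_insert_of_mem (Finset.mem_insert_self _ _)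
    have hef : e ≠ f := fun h => hf (h ▸ Finset.mem_insert_self _ _)
    have he1 : r {e} = 1 := by
      have := not_cl h hr (Finset.empty_subset E)
      rwa [insert_empty_eq, h.1] at this
    have hrr : r (insert f (insert e E)) = r E + 1 := by
      rw [in_cl h he1 h1 (Finset.mem_insert_self _ _), hr]
    -- the invariants
    have hfE : f ∉ E := fun h => hf (Finset.mem_insert_of_mem h)
    have sub : ∀ g ∈ E, g ∈ insert f (insert e E) := fun g hg => 
      Finset.mem_insert_of_mem (Finset.mem_insert_of_mem hg)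
    have up : ∀ A ⊆ E, r (insert f (insert e A)) = r A + 1 := fun A hA => by
      rw [in_cl h he1 h1 (Finset.mem_insert_self _ _), not_cl h hr hA]
    have up' : ∀ A ⊆ E, r (insert f A) = r A + 1 := fun A hA => by
      have h1' : r {f, e} = 1 := by rwa [Finset.pair_comm]
      rw [← up A hA, Finset.insert_comm]
      exact (in_cl h hf1 h1' (Finset.mem_insert_self _ _)).symm
    have hI' : Inv Q r E D := by
      refine ⟨fun g hg => hI.ok g (sub g hg), fun g hg => hI.n1 g (sub g hg), ?_, 
        fun g hg f hf => hI.p g (sub g hg) f (sub f hf), ?_, hI.cost hQ E (fun g hg => sub g hg)⟩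
      · intro g hg hσ
        have h2 := hI.n2 g (sub g hg) hσ
        have n1 : f ≠ g := by
          rintro rfl
          exact hfE hg
        have n2 : e ≠ g := by
          rintro rfl
          exact he hg
        rw [Finset.erase_insert_of_ne n1, Finset.erase_insert_of_ne n2, 
          up _ (Finset.erase_subset g E), hrr] at h2
        omega
      · intro g hg g' hg' hgg s1 s2 c1 c2
        have h2 := hI.s g (sub g hg) g' (sub g' hg') hgg s1 s2 c1 c2
        have n1 : f ≠ g := by
          rintro rfl
          exact hfE hg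
        have n2 : e ≠ g := by
          rintro rfl
          exact he hg
        have n1' : f ≠ g' := by
          rintro rfl
          exact hfE hg'
        have n2' : e ≠ g' := by
          rintro rfl
          exact he hg'
        rw [Finset.erase_insert_of_ne n1, Finset.erase_insert_of_ne n2, Finset.erase_insert_of_ne n1', 
          Finset.erase_insert_of_ne n2', 
          up _ ((Finset.erase_subset _ _).trans (Finset.erase_subset g E)), hrr] at h2
        omega
    have h2 := ih h D hI'
    have hc : (D e).σ = false → (D f).σ = false → (D e).c ∨ (D f).c := by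
      intro s1 s2
      by_contra hn
      rw [not_or] at hn
      have := hI.p e me f mf hef s1 s2 hn.1 hn.2
      omega
    have hc' : (D e).σ = true → (D f).σ = true → (D e).c ∨ (D f).c := by
      intro s1 s2
      by_contra hn
      rw [not_or] at hn
      have h3 := hI.s f mf e me hef.symm s2 s1 hn.2 hn.1
      rw [Finset.erase_insert hf, Finset.erase_insert he, hrr] at h3
      omega
    have h3 := Dat.pair_ok Q hQ (D e) (D f) (hI.ok e me) (hI.ok f mf) (hI.cost2 hQ e f me mf hef) hc hc'
    have hpot : pot r (insert f (insert e E)) D = pot r E D + 1 + (if (D e).σ = (D f).σ then 1 else 2) := by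
      rw [pot_insert2 r E e f he hf]
      have q1 := up _ (Finset.filter_subset (fun g => (D g).σ = false) E)
      have q2 := not_cl h hr (Finset.filter_subset (fun g => (D g).σ = false) E)
      have q3 := up' _ (Finset.filter_subset (fun g => (D g).σ = false) E)
      unfold pot
      cases hσ : (D e).σ <;> cases hτ : (D f).σ
      · simp
        omega
      · simp
        omega
      · simp
        omega
      · simp
        omega
    rw [kapV_pair r h E e f he hf he1 hf1 h1 hr, norm_mul, hrr, Finset.prod_insert hf, 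
      Finset.prod_insert he, hpot]
    have p1 := Dat.g_pos Q hQ (hI.ok e me)
    have p1' := Dat.g_pos Q hQ (hI.ok f mf)
    have p2 := prod_g_pos hQ E D hI'.ok
    set ν : ℕ := if (D e).σ = (D f).σ then 1 else 2 with hν
    calc (7 / 4) ^ (pot r E D + 1 + ν) * (√Q ^ (r E + 1) * ((D f).g Q * ((D e).g Q * ∏ e ∈ E, (D e).g Q))) = 
        (7 / 4) * (((7 / 4) ^ ν * √Q * ((D e).g Q * (D f).g Q)) * 
          ((7 / 4) ^ pot r E D * (√Q ^ r E * ∏ e ∈ E, (D e).g Q))) := by
          rw [pow_succ √Q, pow_add, pow_add]
          ring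
      _ ≤ (7 / 4) * (‖(Q : ℂ) + ((D e).v Q + (D f).v Q + (D e).v Q * (D f).v Q)‖ * 
          ((7 / 4) ^ r E * ‖kapV r E (fun e => (D e).v Q) Q‖)) := 
          mul_le_mul_of_nonneg_left (mul_le_mul h3 h2 (by positivity) (norm_nonneg _)) (by norm_num)
      _ = _ := by
          rw [pow_succ]
          ring
  | parallel r E e f hf he he1 hf1 h1 h2 _ ih =>
    intro h D hI
    have mf := Finset.mem_insert_self f E
    have me : e ∈ insert f E := Finset.mem_insert_of_mem he
    have hef : e ≠ f := fun h => hf (h ▸ he)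
    have hI' := hI.parallel hQ h hf he he1 hf1 h1 h2
    have h3 := ih h _ hI'
    have hc : (D e).σ = false → (D f).σ = false → (D e).c ∨ (D f).c := by
      intro s1 s2
      by_contra hn
      rw [not_or] at hn
      have := hI.p e me f mf hef s1 s2 hn.1 hn.2
      omega
    obtain ⟨_, w1, w2⟩ := Dat.par_ok Q hQ (D e) (D f) (hI.ok e me) (hI.ok f mf) 
      (hI.cost2 hQ e f me mf hef) hc
    have hpot : pot r (insert f E) D = pot r E (Function.update D e (Dat.par Q (D e) (D f))) + 
        Dat.mu (D e) (D f) := by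
      have := pot_par r h (E.erase e) e f (Finset.notMem_erase _ _) (by rwa [Finset.insert_erase he]) 
        he1 hf1 h1 D Q
      rwa [Finset.insert_erase he] at this
    rw [kapV_parallel r h E e f hf he he1 hf1 h1, in_cl h he1 h1 he, hpot]
    have e1 : kapV r E (Function.update (fun e => (D e).v Q) e 
        ((D e).v Q + (D f).v Q + (D e).v Q * (D f).v Q)) Q = 
        kapV r E (fun g => (Function.update D e (Dat.par Q (D e) (D f)) g).v Q) Q := by
      refine kapV_congr r E _ _ Q fun g hg => ?_
      by_cases hge : g = e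
      · subst hge
        rw [Function.update_self, Function.update_self, w1]
      · rw [Function.update_of_ne hge, Function.update_of_ne hge]
    rw [e1]
    refine le_trans ?_ h3
    have e2 : ∏ g ∈ E, (Function.update D e (Dat.par Q (D e) (D f)) g).g Q = 
        (Dat.par Q (D e) (D f)).g Q * ∏ g ∈ E.erase e, (D g).g Q := by
      rw [← Finset.mul_prod_erase E _ he, Function.update_self]
      congr 1
      refine Finset.prod_congr rfl fun g hg => ?_
      rw [Function.update_of_ne (Finset.ne_of_mem_erase hg)]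
    rw [e2, Finset.prod_insert hf, ← Finset.mul_prod_erase E _ he]
    have p2 := prod_g_pos hQ (E.erase e) D (fun g hg => 
      hI.ok g (Finset.mem_insert_of_mem (Finset.mem_of_mem_erase hg)))
    set P := ∏ g ∈ E.erase e, (D g).g Q with hP
    set p := pot r E (Function.update D e (Dat.par Q (D e) (D f))) with hp
    calc (7 / 4) ^ (p + Dat.mu (D e) (D f)) * (√Q ^ r E * ((D f).g Q * ((D e).g Q * P))) = 
        (7 / 4) ^ p * (√Q ^ r E * (((7 / 4) ^ Dat.mu (D e) (D f) * ((D e).g Q * (D f).g Q)) * P)) := by
          rw [pow_add]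
          ring
      _ ≤ _ := by
          apply mul_le_mul_of_nonneg_left _ (by positivity)
          apply mul_le_mul_of_nonneg_left _ (by positivity)
          exact mul_le_mul_of_nonneg_right w2 p2.le
  | series r E e f hf he hf1 h12 h1 h2 h3 _ ih =>
    intro h D hI
    have mf := Finset.mem_insert_self f E
    have me : e ∈ insert f E := Finset.mem_insert_of_mem he
    have hef : e ≠ f := fun h => hf (h ▸ he)
    have hI' := hI.series hQ h hf he hf1 h12 h1 h2 h3
    have h4 := ih (h.contract f hf1) _ hI'
    have hc : (D e).σ = true → (D f).σ = true → (D e).c ∨ (D f).c := by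
      intro s1 s2
      by_contra hn
      rw [not_or] at hn
      have h4 := hI.s e me f mf hef s1 s2 hn.1 hn.2
      rw [Finset.erase_insert_of_ne (fun h => hef h.symm), 
        Finset.erase_insert (fun h => hf (Finset.mem_of_mem_erase h))] at h4
      omega
    obtain ⟨_, hne, w1, w2⟩ := Dat.ser_ok Q hQ (D e) (D f) (hI.ok e me) (hI.ok f mf) 
      (hI.cost2 hQ e f me mf hef) hc
    have hpot : pot r (insert f E) D = pot (fun A => r (insert f A) - 1) E 
        (Function.update D e (Dat.ser Q (D e) (D f))) + 1 + Dat.mu (D e).dual (D f).dual := by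
      have := pot_ser r h (E.erase e) e f (Finset.notMem_erase _ _) (by rwa [Finset.insert_erase he]) 
        hf1 (by rwa [Finset.insert_erase he]) h3 D Q
      rwa [Finset.insert_erase he] at this
    rw [kapV_series r h E e f hf he hf1 h1 h2 h3 _ _ hne, norm_mul, hpot]
    have e1 : kapV (fun A => r (insert f A) - 1) E (Function.update (fun e => (D e).v Q) e 
        ((D e).v Q * (D f).v Q / (Q + (D e).v Q + (D f).v Q))) Q = 
        kapV (fun A => r (insert f A) - 1) E 
          (fun g => (Function.update D e (Dat.ser Q (D e) (D f)) g).v Q) Q := by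
      refine kapV_congr _ E _ _ Q fun g hg => ?_
      by_cases hge : g = e
      · subst hge
        rw [Function.update_self, Function.update_self, w1]
      · rw [Function.update_of_ne hge, Function.update_of_ne hge]
    rw [e1]
    have e2 : ∏ g ∈ E, (Function.update D e (Dat.ser Q (D e) (D f)) g).g Q = 
        (Dat.ser Q (D e) (D f)).g Q * ∏ g ∈ E.erase e, (D g).g Q := by
      rw [← Finset.mul_prod_erase E _ he, Function.update_self]
      congr 1
      refine Finset.prod_congr rfl fun g hg => ?_
      rw [Function.update_of_ne (Finset.ne_of_mem_erase hg)]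
    rw [e2] at h4
    rw [Finset.prod_insert hf, ← Finset.mul_prod_erase E _ he]
    have p2 := prod_g_pos hQ (E.erase e) D (fun g hg => 
      hI.ok g (Finset.mem_insert_of_mem (Finset.mem_of_mem_erase hg)))
    set p := pot (fun A => r (insert f A) - 1) E (Function.update D e (Dat.ser Q (D e) (D f))) with hp
    set μ := Dat.mu (D e).dual (D f).dual with hμ
    set P := ∏ g ∈ E.erase e, (D g).g Q with hP
    set X := ‖kapV (fun A => r (insert f A) - 1) E 
          (fun g => (Function.update D e (Dat.ser Q (D e) (D f)) g).v Q) Q‖ with hX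
    set S := ‖(Q : ℂ) + (D e).v Q + (D f).v Q‖ with hS
    have pS : 0 < S := norm_pos_iff.2 hne
    obtain ⟨ρ, hρ⟩ : ∃ ρ, r (insert f E) = ρ + 1 := ⟨r (E.erase e), h1⟩
    have hρ' : (fun A => r (insert f A) - 1) E = ρ := by
      show r (insert f E) - 1 = ρ
      omega
    rw [hρ'] at h4
    rw [hρ]
    calc (7 / 4) ^ (p + 1 + μ) * (√Q ^ (ρ + 1) * ((D f).g Q * ((D e).g Q * P))) = 
        (7 / 4) ^ (p + 1) * √Q ^ ρ * P * (√Q * ((7 / 4) ^ μ * ((D e).g Q * (D f).g Q))) := by
          rw [pow_succ √Q, pow_add]
          ring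
      _ ≤ (7 / 4) ^ (p + 1) * √Q ^ ρ * P * ((Dat.ser Q (D e) (D f)).g Q * S) := 
        mul_le_mul_of_nonneg_left w2 (by positivity)
      _ = 7 / 4 * S * ((7 / 4) ^ p * (√Q ^ ρ * ((Dat.ser Q (D e) (D f)).g Q * P))) := by
          rw [pow_succ]
          ring
      _ ≤ 7 / 4 * S * ((7 / 4) ^ ρ * X) := mul_le_mul_of_nonneg_left h4 (by positivity)
      _ = _ := by
          rw [pow_succ]
          ring

end Pool.Agent.Q99.ET
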