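import Pool.Agent.Q99.ET.Arb3

/-!
# Series-parallel matroids: the number of elements
-/

set_option autoImplicit false

namespace Pool.Agent.Q99.ET

open Finset

variable {ι : Type} [DecidableEq ι]

/-- a simple series-parallel matroid has at most twice as many elements as its rank -/
theorem SPall.simple_le (r : Finset ι → ℕ) (E : Finset ι) (hs : SPall r E) : IsRk r → 
    ∀ A ⊆ E, (∀ e ∈ A, r {e} = 1) → (∀ e ∈ A, ∀ f ∈ A, e ≠ f → r {e, f} = 2) → A.card ≤ 2 * r A := by
  induction hs with
  | nil r =>
    intro _ A hA _ _
    rw [Finset.subset_empty.1 hA]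
    simp
  | coloop r E e he hr _ ih =>
    intro h A hA h1 h2
    by_cases heA : e ∈ A
    · have hA' : A.erase e ⊆ E := by
        intro x hx
        rcases Finset.mem_insert.1 (hA (Finset.mem_of_mem_erase hx)) with h3 | h3
        · exact absurd h3 (Finset.ne_of_mem_erase hx)
        · exact h3
      have h3 := ih h (A.erase e) hA' (fun g hg => h1 g (Finset.mem_of_mem_erase hg)) 
        (fun g hg f hf => h2 g (Finset.mem_of_mem_erase hg) f (Finset.mem_of_mem_erase hf))
      have h4 := not_cl h hr hA'
      rw [Finset.insert_erase heA] at h4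
      have h5 := Finset.card_erase_add_one heA
      omega
    · exact ih h A (fun x hx => by
        rcases Finset.mem_insert.1 (hA hx) with h3 | h3
        · exact absurd (h3 ▸ hx) heA
        · exact h3) h1 h2
  | loop r E e he hr _ ih =>
    intro h A hA h1 h2
    refine ih h A (fun x hx => ?_) h1 h2
    rcases Finset.mem_insert.1 (hA hx) with h3 | h3
    · have := h1 x hx
      rw [h3, hr] at this
      omega
    · exact h3
  | pair r E e f he hf hf1 h12 hr _ ih =>
    intro h A hA h1 h2
    have hef : e ≠ f := fun h => hf (h ▸ Finset.mem_insert_self _ _)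
    have he1 : r {e} = 1 := by
      have := not_cl h hr (Finset.empty_subset E)
      rwa [insert_empty_eq, h.1] at this
    have h12' : r {f, e} = 1 := by rwa [Finset.pair_comm]
    -- the rest
    set A0 := (A.erase e).erase f with hA0
    have hsub : A0 ⊆ E := by
      intro x hx
      obtain ⟨x1, x2⟩ := Finset.mem_erase.1 hx
      obtain ⟨x3, x4⟩ := Finset.mem_erase.1 x2
      rcases Finset.mem_insert.1 (hA x4) with h3 | h3
      · exact absurd h3 x1
      · rcases Finset.mem_insert.1 h3 with h5 | h5
        · exact absurd h5 x3
        · exact h5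
    have hAsub : ∀ x ∈ A0, x ∈ A := fun x hx => Finset.mem_of_mem_erase (Finset.mem_of_mem_erase hx)
    have h3 := ih h A0 hsub (fun g hg => h1 g (hAsub g hg)) (fun g hg f hf => h2 g (hAsub g hg) f (hAsub f hf))
    have up := not_cl h hr hsub
    have up' : r (insert f A0) = r A0 + 1 := by
      rw [← up, ← in_cl h hf1 h12' (Finset.mem_insert_self f A0), Finset.insert_comm, 
        in_cl h he1 h12 (Finset.mem_insert_self e A0)]
    by_cases heA : e ∈ A
    · have hfA : f ∉ A := by
        intro hfA
        have := h2 e heA f hfA hef
        omega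
      have e1 : A0 = A.erase e := Finset.erase_eq_of_notMem (fun h => hfA (Finset.mem_of_mem_erase h))
      have e2 : insert e A0 = A := by rw [e1, Finset.insert_erase heA]
      have e3 := Finset.card_erase_add_one heA
      rw [e2] at up
      rw [← e1] at e3
      omega
    · have e1 : A.erase e = A := Finset.erase_eq_of_notMem heA
      by_cases hfA : f ∈ A
      · have e0 : A0 = A.erase f := by rw [hA0, e1]
        have e2 : insert f A0 = A := by rw [e0, Finset.insert_erase hfA]
        have e3 := Finset.card_erase_add_one hfA
        rw [e2] at up'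
        rw [← e0] at e3
        omega
      · have e0 : A0 = A := by rw [hA0, e1, Finset.erase_eq_of_notMem hfA]
        rwa [e0] at h3
  | parallel r E e f hf he he1 hf1 h12 _ _ ih =>
    intro h A hA h1 h2
    have hef : e ≠ f := fun h => hf (h ▸ he)
    have h12' : r {f, e} = 1 := by rwa [Finset.pair_comm]
    by_cases hfA : f ∈ A
    · have heA : e ∉ A := by
        intro heA
        have := h2 e heA f hfA hef
        omega
      -- replace `f` by `e`
      set A0 := A.erase f with hA0
      have heA0 : e ∉ A0 := fun h => heA (Finset.mem_of_mem_erase h)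
      have hAi : insert f A0 = A := Finset.insert_erase hfA
      have k : ∀ X : Finset ι, r (insert e X) = r (insert f X) := by
        intro X
        rw [← in_cl h hf1 h12' (Finset.mem_insert_self f X), Finset.insert_comm, 
          in_cl h he1 h12 (Finset.mem_insert_self e X)]
      have hsub : insert e A0 ⊆ E := by
        intro x hx
        rcases Finset.mem_insert.1 hx with h3 | h3
        · rw [h3]
          exact he
        · rcases Finset.mem_insert.1 (hA (Finset.mem_of_mem_erase h3)) with h5 | h5
          · exact absurd h5 (Finset.ne_of_mem_erase h3)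
          · exact h5
      have kp : ∀ g ∈ A0, r {e, g} = 2 := by
        intro g hg
        have h5 := h2 f hfA g (Finset.mem_of_mem_erase hg) (Finset.ne_of_mem_erase hg).symm
        have h6 : r (insert e {g}) = r (insert f {g}) := k {g}
        exact h6.trans h5
      have h3 := ih h (insert e A0) hsub (by
        intro g hg
        rcases Finset.mem_insert.1 hg with h3 | h3
        · rw [h3]
          exact he1
        · exact h1 g (Finset.mem_of_mem_erase h3)) (by
        intro g hg g' hg' hgg
        rcases Finset.mem_insert.1 hg with h3 | h3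
        · rcases Finset.mem_insert.1 hg' with h4 | h4
          · exact absurd (h3.trans h4.symm) hgg
          · rw [h3]
            exact kp g' h4
        · rcases Finset.mem_insert.1 hg' with h4 | h4
          · rw [h4, Finset.pair_comm]
            exact kp g h3
          · exact h2 g (Finset.mem_of_mem_erase h3) g' (Finset.mem_of_mem_erase h4) hgg)
      rw [Finset.card_insert_of_notMem heA0, k, hAi] at h3
      have e3 := Finset.card_erase_add_one hfA
      rw [← hA0] at e3
      omega
    · exact ih h A (fun x hx => by
        rcases Finset.mem_insert.1 (hA hx) with h3 | h3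
        · exact absurd (h3 ▸ hx) hfA
        · exact h3) h1 h2
  | series r E e f hf he hf1 h12 h1 h2 h3 _ ih =>
    intro h A hA a1 a2
    have hef : e ≠ f := fun h => hf (h ▸ he)
    set A0 := (A.erase e).erase f with hA0
    have hsub : A0 ⊆ E.erase e := by
      intro x hx
      obtain ⟨x1, x2⟩ := Finset.mem_erase.1 hx
      obtain ⟨x3, x4⟩ := Finset.mem_erase.1 x2
      rcases Finset.mem_insert.1 (hA x4) with h3 | h3
      · exact absurd h3 x1
      · exact Finset.mem_erase.2 ⟨x3, h3⟩
    have hAsub : ∀ x ∈ A0, x ∈ A := fun x hx => Finset.mem_of_mem_erase (Finset.mem_of_mem_erase hx)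
    have h4 := ih (h.contract f hf1) A0 (hsub.trans (Finset.erase_subset _ _)) (by
      intro g hg
      show r (insert f {g}) - 1 = 1
      rw [not_cl h h3 (Finset.singleton_subset_iff.2 (hsub hg)), a1 g (hAsub g hg)]) (by
      intro g hg g' hg' hgg
      show r (insert f {g, g'}) - 1 = 2
      rw [not_cl h h3 (by
        intro z hz
        rw [Finset.mem_insert, Finset.mem_singleton] at hz
        rcases hz with rfl | rfl
        · exact hsub hg
        · exact hsub hg'), a2 g (hAsub g hg) g' (hAsub g' hg') hgg])
    have h5 : (fun A => r (insert f A) - 1) A0 = r A0 := by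
      show r (insert f A0) - 1 = r A0
      rw [not_cl h h3 hsub, Nat.add_sub_cancel]
    rw [h5] at h4
    have ins : insert e (E.erase e) = E := Finset.insert_erase he
    have up1 := not_cl h (by rwa [ins]) hsub (e := e)
    have up2 := not_cl h h3 hsub
    by_cases heA : e ∈ A
    · by_cases hfA : f ∈ A
      · have hf' : f ∈ A.erase e := Finset.mem_erase.2 ⟨hef.symm, hfA⟩
        have e2 : insert e (insert f A0) = A := by rw [hA0, Finset.insert_erase hf', Finset.insert_erase heA]
        have e3 := Finset.card_erase_add_one heA
        have e4 := Finset.card_erase_add_one hf'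
        have e5 : r (insert f A0) ≤ r A := h.mono (by rw [← e2]; exact Finset.subset_insert _ _)
        rw [← hA0] at e4
        omega
      · have e1 : A0 = A.erase e := Finset.erase_eq_of_notMem (fun h => hfA (Finset.mem_of_mem_erase h))
        have e2 : insert e A0 = A := by rw [e1, Finset.insert_erase heA]
        have e3 := Finset.card_erase_add_one heA
        rw [e2] at up1
        rw [← e1] at e3
        omega
    · have e1 : A.erase e = A := Finset.erase_eq_of_notMem heA
      by_cases hfA : f ∈ A
      · have e0 : A0 = A.erase f := by rw [hA0, e1]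
        have e2 : insert f A0 = A := by rw [e0, Finset.insert_erase hfA]
        have e3 := Finset.card_erase_add_one hfA
        rw [e2] at up2
        rw [← e0] at e3
        omega
      · have e0 : A0 = A := by rw [hA0, e1, Finset.erase_eq_of_notMem hfA]
        rwa [e0] at h4

/-- the dual statement -/
theorem SPall.cosimple_le (r : Finset ι → ℕ) (E : Finset ι) (hs : SPall r E) : IsRk r → 
    ∀ A ⊆ E, (∀ e ∈ A, r (E.erase e) = r E) → 
      (∀ e ∈ A, ∀ f ∈ A, e ≠ f → r ((E.erase e).erase f) = r E) → 2 * r E ≤ A.card + 2 * r (E \ A) := by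
  induction hs with
  | nil r =>
    intro h A _ _ _
    rw [h.1]
    omega
  | coloop r E e he hr _ ih =>
    intro h A hA h1 h2
    have heA : e ∉ A := by
      intro heA
      have := h1 e heA
      rw [Finset.erase_insert he] at this
      omega
    have hAE : A ⊆ E := fun x hx => by
      rcases Finset.mem_insert.1 (hA hx) with h3 | h3
      · exact absurd (h3 ▸ hx) heA
      · exact h3
    have hne : ∀ g ∈ A, e ≠ g := fun g hg h => heA (h ▸ hg)
    have h3 := ih h A hAE (by
      intro g hg
      have h4 := h1 g hg
      rw [Finset.erase_insert_of_ne (hne g hg), not_cl h hr (Finset.erase_subset g E)] at h4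
      omega) (by
      intro g hg g' hg' hgg
      have h4 := h2 g hg g' hg' hgg
      rw [Finset.erase_insert_of_ne (hne g hg), Finset.erase_insert_of_ne (hne g' hg'), 
        not_cl h hr ((Finset.erase_subset _ _).trans (Finset.erase_subset g E))] at h4
      omega)
    rw [Finset.insert_sdiff_of_notMem _ heA, not_cl h hr Finset.sdiff_subset]
    omega
  | loop r E e he hr _ ih =>
    intro h A hA h1 h2
    have hAE : A.erase e ⊆ E := fun x hx => by
      rcases Finset.mem_insert.1 (hA (Finset.mem_of_mem_erase hx)) with h3 | h3
      · exact absurd h3 (Finset.ne_of_mem_erase hx)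
      · exact h3
    have h3 := ih h (A.erase e) hAE (by
      intro g hg
      have h4 := h1 g (Finset.mem_of_mem_erase hg)
      rwa [Finset.erase_insert_of_ne (Finset.ne_of_mem_erase hg).symm, loop_cl h hr, loop_cl h hr] at h4) (by
      intro g hg g' hg' hgg
      have h4 := h2 g (Finset.mem_of_mem_erase hg) g' (Finset.mem_of_mem_erase hg') hgg
      rwa [Finset.erase_insert_of_ne (Finset.ne_of_mem_erase hg).symm, 
        Finset.erase_insert_of_ne (Finset.ne_of_mem_erase hg').symm, loop_cl h hr, loop_cl h hr] at h4)
    have h4 : insert e (insert e E \ A) = insert e (E \ A.erase e) := by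
      ext x
      simp only [Finset.mem_insert, Finset.mem_sdiff, Finset.mem_erase]
      tauto
    have h5 : r (insert e E \ A) = r (E \ A.erase e) := by
      rw [← loop_cl h hr (insert e E \ A), h4, loop_cl h hr]
    have h6 := Finset.card_erase_le (s := A) (a := e)
    rw [h5, loop_cl h hr]
    omega
  | pair r E e f he hf hf1 h12 hr _ ih =>
    intro h A hA h1 h2
    have hef : e ≠ f := fun h => hf (h ▸ Finset.mem_insert_self _ _)
    have hfE : f ∉ E := fun h => hf (Finset.mem_insert_of_mem h)
    have he1 : r {e} = 1 := by
      have := not_cl h hr (Finset.empty_subset E)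
      rwa [insert_empty_eq, h.1] at this
    have h12' : r {f, e} = 1 := by rwa [Finset.pair_comm]
    have up : ∀ X ⊆ E, r (insert f (insert e X)) = r X + 1 := fun X hX => by
      rw [in_cl h he1 h12 (Finset.mem_insert_self _ _), not_cl h hr hX]
    have up' : ∀ X ⊆ E, r (insert f X) = r X + 1 := fun X hX => by
      rw [← up X hX, Finset.insert_comm]
      exact (in_cl h hf1 h12' (Finset.mem_insert_self _ _)).symm
    set A0 := (A.erase e).erase f with hA0
    have hmem : ∀ x ∈ A0, x ∈ A ∧ e ≠ x ∧ f ≠ x := fun x hx => by
      obtain ⟨x1, x2⟩ := Finset.mem_erase.1 hx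
      obtain ⟨x3, x4⟩ := Finset.mem_erase.1 x2
      exact ⟨x4, fun h => x3 h.symm, fun h => x1 h.symm⟩
    have hsub : A0 ⊆ E := by
      intro x hx
      obtain ⟨x1, x2, x3⟩ := hmem x hx
      rcases Finset.mem_insert.1 (hA x1) with h3 | h3
      · exact absurd h3.symm x3
      · rcases Finset.mem_insert.1 h3 with h5 | h5
        · exact absurd h5.symm x2
        · exact h5
    have h3 := ih h A0 hsub (by
      intro g hg
      obtain ⟨x1, x2, x3⟩ := hmem g hg
      have h4 := h1 g x1
      rw [Finset.erase_insert_of_ne x3, Finset.erase_insert_of_ne x2, up _ (Finset.erase_subset g E), 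
        up _ (Finset.Subset.refl E)] at h4
      omega) (by
      intro g hg g' hg' hgg
      obtain ⟨x1, x2, x3⟩ := hmem g hg
      obtain ⟨y1, y2, y3⟩ := hmem g' hg'
      have h4 := h2 g x1 g' y1 hgg
      rw [Finset.erase_insert_of_ne x3, Finset.erase_insert_of_ne x2, Finset.erase_insert_of_ne y3, 
        Finset.erase_insert_of_ne y2, up _ ((Finset.erase_subset _ _).trans (Finset.erase_subset g E)), 
        up _ (Finset.Subset.refl E)] at h4
      omega)
    rw [up _ (Finset.Subset.refl E)]
    have hc : A0.card ≤ A.card := Finset.card_le_card fun x hx => (hmem x hx).1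
    have key : r (E \ A0) + 1 ≤ r (insert f (insert e E) \ A) := by
      by_cases heA : e ∈ A
      · have hfA : f ∉ A := by
          intro hfA
          have := h2 f hfA e heA hef.symm
          rw [Finset.erase_insert hf, Finset.erase_insert he, up _ (Finset.Subset.refl E)] at this
          omega
        rw [← up' _ (Finset.sdiff_subset)]
        refine h.mono fun x hx => ?_
        rcases Finset.mem_insert.1 hx with h5 | h5
        · rw [h5]
          exact Finset.mem_sdiff.2 ⟨Finset.mem_insert_self _ _, hfA⟩
        · obtain ⟨y1, y2⟩ := Finset.mem_sdiff.1 h5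
          refine Finset.mem_sdiff.2 ⟨Finset.mem_insert_of_mem (Finset.mem_insert_of_mem y1), fun h6 => y2 ?_⟩
          refine Finset.mem_erase.2 ⟨?_, Finset.mem_erase.2 ⟨?_, h6⟩⟩
          · rintro rfl
            exact hfE y1
          · rintro rfl
            exact he y1
      · rw [← not_cl h hr (Finset.sdiff_subset)]
        refine h.mono fun x hx => ?_
        rcases Finset.mem_insert.1 hx with h5 | h5
        · rw [h5]
          exact Finset.mem_sdiff.2 ⟨Finset.mem_insert_of_mem (Finset.mem_insert_self _ _), heA⟩
        · obtain ⟨y1, y2⟩ := Finset.mem_sdiff.1 h5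
          refine Finset.mem_sdiff.2 ⟨Finset.mem_insert_of_mem (Finset.mem_insert_of_mem y1), fun h6 => y2 ?_⟩
          refine Finset.mem_erase.2 ⟨?_, Finset.mem_erase.2 ⟨?_, h6⟩⟩
          · rintro rfl
            exact hfE y1
          · rintro rfl
            exact he y1
    omega
  | parallel r E e f hf he he1 hf1 h12 _ _ ih =>
    intro h A hA h1 h2
    have hef : e ≠ f := fun h => hf (h ▸ he)
    have h12' : r {f, e} = 1 := by rwa [Finset.pair_comm]
    have k : ∀ X : Finset ι, r (insert e X) = r (insert f X) := by
      intro X
      rw [← in_cl h hf1 h12' (Finset.mem_insert_self f X), Finset.insert_comm, 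
        in_cl h he1 h12 (Finset.mem_insert_self e X)]
    have cl : ∀ X : Finset ι, e ∈ X → r (insert f X) = r X := fun X hX => in_cl h he1 h12 hX
    set A0 := (A.erase e).erase f with hA0
    have hmem : ∀ x ∈ A0, x ∈ A ∧ e ≠ x ∧ f ≠ x := fun x hx => by
      obtain ⟨x1, x2⟩ := Finset.mem_erase.1 hx
      obtain ⟨x3, x4⟩ := Finset.mem_erase.1 x2
      exact ⟨x4, fun h => x3 h.symm, fun h => x1 h.symm⟩
    have hsub : A0 ⊆ E := by
      intro x hx
      obtain ⟨x1, x2, x3⟩ := hmem x hx
      rcases Finset.mem_insert.1 (hA x1) with h3 | h3
      · exact absurd h3.symm x3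
      · exact h3
    have h3 := ih h A0 hsub (by
      intro g hg
      obtain ⟨x1, x2, x3⟩ := hmem g hg
      have h4 := h1 g x1
      rwa [Finset.erase_insert_of_ne x3, cl _ he, cl _ (Finset.mem_erase.2 ⟨x2, he⟩)] at h4) (by
      intro g hg g' hg' hgg
      obtain ⟨x1, x2, x3⟩ := hmem g hg
      obtain ⟨y1, y2, y3⟩ := hmem g' hg'
      have h4 := h2 g x1 g' y1 hgg
      rwa [Finset.erase_insert_of_ne x3, Finset.erase_insert_of_ne y3, cl _ he, 
        cl _ (Finset.mem_erase.2 ⟨y2, Finset.mem_erase.2 ⟨x2, he⟩⟩)] at h4)
    rw [cl _ he]
    have hc : A0.card ≤ A.card := Finset.card_le_card fun x hx => (hmem x hx).1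
    set X := (E.erase e) \ A0 with hX
    have heX : E \ A0 = insert e X := by
      ext x
      simp only [hX, Finset.mem_sdiff, Finset.mem_insert, Finset.mem_erase]
      constructor
      · rintro ⟨a1, a2⟩
        by_cases hxe : x = e
        · exact Or.inl hxe
        · exact Or.inr ⟨⟨hxe, a1⟩, a2⟩
      · rintro (a1 | ⟨⟨_, a2⟩, a3⟩)
        · rw [a1]
          exact ⟨he, fun h => (hmem e h).2.1 rfl⟩
        · exact ⟨a2, a3⟩
    have hXs : X ⊆ insert f E \ A := by
      intro x hx
      obtain ⟨y1, y2⟩ := Finset.mem_sdiff.1 hx
      obtain ⟨y3, y4⟩ := Finset.mem_erase.1 y1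
      refine Finset.mem_sdiff.2 ⟨Finset.mem_insert_of_mem y4, fun h6 => y2 ?_⟩
      refine Finset.mem_erase.2 ⟨?_, Finset.mem_erase.2 ⟨y3, h6⟩⟩
      rintro rfl
      exact hf y4
    rw [heX] at h3
    by_cases heA : e ∈ A
    · by_cases hfA : f ∈ A
      · have hf' : f ∈ A.erase e := Finset.mem_erase.2 ⟨hef.symm, hfA⟩
        have e3 := Finset.card_erase_add_one heA
        have e4 := Finset.card_erase_add_one hf'
        rw [← hA0] at e4
        have e5 := h.mono hXs
        have e6 := (h.2.1 X e).2
        omega
      · have e5 : r (insert f X) ≤ r (insert f E \ A) := h.mono (Finset.insert_subset 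
          (Finset.mem_sdiff.2 ⟨Finset.mem_insert_self _ _, hfA⟩) hXs)
        rw [k] at h3
        omega
    · have e5 : r (insert e X) ≤ r (insert f E \ A) := h.mono (Finset.insert_subset 
        (Finset.mem_sdiff.2 ⟨Finset.mem_insert_of_mem he, heA⟩) hXs)
      omega
  | series r E e f hf he hf1 h12 h1 h2 h3 _ ih =>
    intro h A hA a1 a2
    have hef : e ≠ f := fun h => hf (h ▸ he)
    have hrE : (fun A => r (insert f A) - 1) E = r (E.erase e) := by
      show r (insert f E) - 1 = _
      rw [h1, Nat.add_sub_cancel]
    have ins : insert e (E.erase e) = E := Finset.insert_erase he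
    by_cases hfA : f ∈ A
    · have heA : e ∉ A := by
        intro heA
        have := a2 e heA f hfA hef
        rw [Finset.erase_insert_of_ne hef.symm, 
          Finset.erase_insert (fun h => hf (Finset.mem_of_mem_erase h))] at this
        omega
      have hmem : ∀ g ∈ A.erase f, g ∈ A ∧ f ≠ g ∧ e ≠ g ∧ g ∈ E := by
        intro g hg
        obtain ⟨x1, x2⟩ := Finset.mem_erase.1 hg
        refine ⟨x2, fun h => x1 h.symm, fun h => heA (h ▸ x2), ?_⟩
        rcases Finset.mem_insert.1 (hA x2) with h3 | h3
        · exact absurd h3 x1
        · exact h3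
      have heA1 : e ∉ A.erase f := fun h => heA (Finset.mem_of_mem_erase h)
      -- two elements
      have key : ∀ g ∈ A.erase f, r (insert f ((E.erase e).erase g)) = r (insert f E) := by
        intro g hg
        obtain ⟨x1, x2, x3, x4⟩ := hmem g hg
        have h4 := a2 f hfA g x1 x2
        rw [Finset.erase_insert hf] at h4
        have h5 : insert e ((E.erase e).erase g) = E.erase g := by
          rw [← Finset.erase_insert_of_ne x3, ins]
        have h6 := not_cl h (e := e) (by rwa [ins]) (Finset.erase_subset g (E.erase e))
        rw [h5, h4] at h6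
        rw [not_cl h h3 (Finset.erase_subset g (E.erase e))]
        omega
      have one : ∀ g ∈ A.erase f, r (insert f (E.erase g)) = r (insert f E) := by
        intro g hg
        obtain ⟨x1, x2, x3, x4⟩ := hmem g hg
        have h4 := a1 g x1
        rwa [Finset.erase_insert_of_ne x2] at h4
      have h4 := ih (h.contract f hf1) (insert e (A.erase f)) (by
        intro x hx
        rcases Finset.mem_insert.1 hx with h5 | h5
        · rw [h5]
          exact he
        · exact (hmem x h5).2.2.2) (by
        intro g hg
        show r (insert f (E.erase g)) - 1 = r (insert f E) - 1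
        rcases Finset.mem_insert.1 hg with h5 | h5
        · rw [h5, h3, h1]
        · rw [one g h5]) (by
        intro g hg g' hg' hgg
        show r (insert f ((E.erase g).erase g')) - 1 = r (insert f E) - 1
        rcases Finset.mem_insert.1 hg with h5 | h5
        · rcases Finset.mem_insert.1 hg' with h6 | h6
          · exact absurd (h5.trans h6.symm) hgg
          · rw [h5, key g' h6]
        · rcases Finset.mem_insert.1 hg' with h6 | h6
          · rw [h6, Finset.erase_right_comm, key g h5]
          · obtain ⟨x1, x2, x3, x4⟩ := hmem g h5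
            obtain ⟨y1, y2, y3, y4⟩ := hmem g' h6
            have h7 := a2 g x1 g' y1 hgg
            rw [Finset.erase_insert_of_ne x2, Finset.erase_insert_of_ne y2] at h7
            rw [h7])
      rw [hrE, Finset.card_insert_of_notMem heA1, Finset.card_erase_add_one hfA] at h4
      set X := (E.erase e) \ A.erase f with hX
      have e1 : E \ insert e (A.erase f) = X := by
        ext x
        simp only [hX, Finset.mem_sdiff, Finset.mem_insert, Finset.mem_erase]
        tauto
      have e2 : insert f E \ A = insert e X := by
        ext x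
        simp only [hX, Finset.mem_sdiff, Finset.mem_insert, Finset.mem_erase]
        constructor
        · rintro ⟨b1 | b1, b2⟩
          · exact absurd (b1 ▸ hfA) b2
          · by_cases hxe : x = e
            · exact Or.inl hxe
            · exact Or.inr ⟨⟨hxe, b1⟩, fun h => b2 h.2⟩
        · rintro (b1 | ⟨⟨_, b2⟩, b3⟩)
          · rw [b1]
            exact ⟨Or.inr he, heA⟩
          · refine ⟨Or.inr b2, fun h => b3 ⟨?_, h⟩⟩
            rintro rfl
            exact hf b2
      have hXs : X ⊆ E.erase e := Finset.sdiff_subset
      have e3 : (fun A => r (insert f A) - 1) (E \ insert e (A.erase f)) = r X := by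
        show r (insert f (E \ insert e (A.erase f))) - 1 = r X
        rw [e1, not_cl h h3 hXs, Nat.add_sub_cancel]
      rw [e3] at h4
      rw [e2, not_cl h (e := e) (by rwa [ins]) hXs, h1]
      omega
    · have hAE : A ⊆ E := fun x hx => by
        rcases Finset.mem_insert.1 (hA hx) with h3 | h3
        · exact absurd (h3 ▸ hx) hfA
        · exact h3
      have hne : ∀ g ∈ A, f ≠ g := fun g hg h => hfA (h ▸ hg)
      have h4 := ih (h.contract f hf1) A hAE (by
        intro g hg
        show r (insert f (E.erase g)) - 1 = r (insert f E) - 1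
        have h5 := a1 g hg
        rw [Finset.erase_insert_of_ne (hne g hg)] at h5
        rw [h5]) (by
        intro g hg g' hg' hgg
        show r (insert f ((E.erase g).erase g')) - 1 = r (insert f E) - 1
        have h5 := a2 g hg g' hg' hgg
        rw [Finset.erase_insert_of_ne (hne g hg), Finset.erase_insert_of_ne (hne g' hg')] at h5
        rw [h5])
      rw [hrE] at h4
      have e1 : insert f E \ A = insert f (E \ A) := Finset.insert_sdiff_of_notMem _ hfA
      have e2 : (fun A => r (insert f A) - 1) (E \ A) = r (insert f (E \ A)) - 1 := rfl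
      have e3 : 1 ≤ r (insert f (E \ A)) := by
        rw [← hf1]
        exact h.mono (by intro x hx; rw [Finset.mem_singleton.1 hx]; exact Finset.mem_insert_self _ _)
      rw [e2] at h4
      rw [e1, h1]
      omega

end Pool.Agent.Q99.ET
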