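import Mathlib

/-!
# Simultaneous approximation: a direction with the same near relations
-/

set_option autoImplicit false

namespace Pool.Agent.Q99.ET

open Finset

/-- Dirichlet's theorem in integers -/
theorem dirichlet {k : ℕ} (w : Fin k → ℤ) (Q W : ℕ) (hQ : 0 < Q) (hW : 0 < W) :
    ∃ q : ℕ, 0 < q ∧ q ≤ Q ^ k ∧ ∃ y : Fin k → ℤ, ∀ e, Q * |q * w e - W * y e| < W := by
  classical
  let f : Fin (Q ^ k + 1) → (Fin k → Fin Q) := fun q e => 
    ⟨((((q : ℕ) * w e) % W) * Q / W).toNat, by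
      have h1 := Int.emod_nonneg (((q : ℕ) : ℤ) * w e) (b := (W : ℤ)) (by omega)
      have h2 := Int.emod_lt_of_pos (((q : ℕ) : ℤ) * w e) (b := (W : ℤ)) (by omega)
      have h3 : ((((q : ℕ) : ℤ) * w e) % W) * Q / W < Q := by
        apply Int.ediv_lt_of_lt_mul (by omega)
        have : (0 : ℤ) < Q := by exact_mod_cast hQ
        nlinarith
      have h4 : 0 ≤ ((((q : ℕ) : ℤ) * w e) % W) * Q / W := by
        apply Int.ediv_nonneg _ (by omega)
        positivity
      omega⟩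
  have hcard : Fintype.card (Fin k → Fin Q) < Fintype.card (Fin (Q ^ k + 1)) := by
    simp
  obtain ⟨a, b, hab, hf⟩ := Fintype.exists_ne_map_eq_of_card_lt f hcard
  wlog hlt : a < b generalizing a b with H
  · exact H b a hab.symm hf.symm (lt_of_le_of_ne (not_lt.1 hlt) hab.symm)
  have hlt' : (a : ℕ) < b := hlt
  refine ⟨(b : ℕ) - a, by omega, by have := b.2; omega, 
    fun e => (((b : ℕ) * w e) / W) - (((a : ℕ) * w e) / W), fun e => ?_⟩
  have h0 := congrArg (fun g => ((g e : Fin Q) : ℕ)) hf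
  simp only [f] at h0
  set ra := (((a : ℕ) : ℤ) * w e) % W with hra
  set rb := (((b : ℕ) : ℤ) * w e) % W with hrb
  have ha1 : 0 ≤ ra := Int.emod_nonneg _ (by omega)
  have hb1 : 0 ≤ rb := Int.emod_nonneg _ (by omega)
  have hWz : (0 : ℤ) < W := by exact_mod_cast hW
  have hQz : (0 : ℤ) < Q := by exact_mod_cast hQ
  have ha2 : 0 ≤ ra * Q / W := Int.ediv_nonneg (by positivity) (by omega)
  have hb2 : 0 ≤ rb * Q / W := Int.ediv_nonneg (by positivity) (by omega)
  have h1 : ra * Q / W = rb * Q / W := by omega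
  have h2 := Int.emod_add_mul_ediv (ra * Q) W
  have h3 := Int.emod_add_mul_ediv (rb * Q) W
  have h4 := Int.emod_nonneg (ra * Q) (b := (W : ℤ)) (by omega)
  have h5 := Int.emod_lt_of_pos (ra * Q) hWz
  have h6 := Int.emod_nonneg (rb * Q) (b := (W : ℤ)) (by omega)
  have h7 := Int.emod_lt_of_pos (rb * Q) hWz
  have h8 : |(rb - ra) * Q| < W := by
    rw [abs_lt]
    rw [h1] at h2
    constructor <;> linarith
  have h9 : (((b : ℕ) - (a : ℕ) : ℕ) : ℤ) * w e - W * ((((b : ℕ) * w e) / W) - (((a : ℕ) * w e) / W)) = rb - ra := by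
    have e1 := Int.emod_add_mul_ediv (((a : ℕ) : ℤ) * w e) W
    have e2 := Int.emod_add_mul_ediv (((b : ℕ) : ℤ) * w e) W
    rw [Nat.cast_sub hlt'.le]
    rw [← hra] at e1
    rw [← hrb] at e2
    linear_combination e1 - e2
  rw [h9]
  rw [abs_mul, abs_of_pos hQz] at h8
  linarith

theorem sum_diff {k : ℕ} (w : Fin k → ℤ) (S S' : Finset (Fin k)) :
    ∑ e ∈ S, w e - ∑ e ∈ S', w e = ∑ e, ((if e ∈ S then 1 else 0) - (if e ∈ S' then 1 else 0)) * w e := by
  simp only [sub_mul, Finset.sum_sub_distrib, ite_mul, one_mul, zero_mul, Finset.sum_ite_mem, Finset.univ_inter]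

/-- a direction -/
theorem direction {k : ℕ} (hk : 0 < k) (X B0 : ℕ) (hX : 0 < X) (w : Fin k → ℤ) (J : Finset (Fin k))
    (hw : ∀ e ∈ J, (2 * (2 * k + 1) ^ (k - 1) * (X + B0) : ℤ) ≤ |w e|) (hB : ∀ e ∉ J, |w e| ≤ B0) :
    ∃ y : Fin k → ℤ, (∀ e, y e ≠ 0 ↔ e ∈ J) ∧ 
      ∀ S S' : Finset (Fin k), |∑ e ∈ S, w e - ∑ e ∈ S', w e| ≤ X → 
        ∑ e ∈ S, y e = ∑ e ∈ S', y e := by
  set Q : ℕ := 2 * k + 1 with hQ
  set W : ℕ := 2 * Q ^ k * (X + B0) with hW
  have hQ0 : 0 < Q := by omega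
  have hW0 : 0 < W := by positivity
  obtain ⟨q, hq0, hqk, y, hy⟩ := dirichlet w Q W hQ0 hW0
  have hWz : (0 : ℤ) < W := by exact_mod_cast hW0
  have hQz : (0 : ℤ) < Q := by exact_mod_cast hQ0
  have hqz : (1 : ℤ) ≤ q := by exact_mod_cast hq0
  have hqk' : (q : ℤ) ≤ (Q : ℤ) ^ k := by exact_mod_cast hqk
  have hWe : (W : ℤ) = 2 * (Q : ℤ) ^ k * (X + B0) := by rw [hW]; push_cast; ring
  have hQk : (0 : ℤ) ≤ (Q : ℤ) ^ k := by positivity
  have hB0 : (0 : ℤ) ≤ B0 := by positivity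
  have hX0 : (0 : ℤ) ≤ X := by positivity
  refine ⟨y, ?_, ?_⟩
  · intro e
    constructor
    · intro h0
      by_contra heJ
      have h1 := hy e
      have h2 := hB e heJ
      have h3 : 1 ≤ |y e| := Int.one_le_abs h0
      have h4 : (W : ℤ) * |y e| ≤ q * |w e| + |q * w e - W * y e| := by
        have h5 : (W : ℤ) * |y e| = |(W : ℤ) * y e| := by rw [abs_mul, abs_of_pos hWz]
        have h6 : (q : ℤ) * |w e| = |(q : ℤ) * w e| := by 
          rw [abs_mul, abs_of_nonneg (show (0 : ℤ) ≤ q by omega)]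
        have h7 : (W : ℤ) * y e = q * w e - (q * w e - W * y e) := by ring
        rw [h5, h6, h7]
        exact (abs_sub _ _).trans (add_le_add le_rfl (by simp))
      have h5 : (q : ℤ) * |w e| ≤ (Q : ℤ) ^ k * B0 := mul_le_mul hqk' h2 (abs_nonneg _) hQk
      have h6 : (W : ℤ) ≤ W * |y e| := by nlinarith
      have h7 : 2 * ((Q : ℤ) ^ k * B0) ≤ W := by
        rw [hWe]
        nlinarith
      have h8 : (Q : ℤ) = 2 * k + 1 := by rw [hQ]; push_cast; ring
      have h9 : (1 : ℤ) ≤ k := by exact_mod_cast hk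
      have h10 : (Q : ℤ) * W < Q * ((Q : ℤ) ^ k * B0) + W := by nlinarith
      rw [h8] at h10
      nlinarith
    · intro heJ h0
      have h1 := hy e
      rw [h0, mul_zero, sub_zero, abs_mul] at h1
      have h2 := hw e heJ
      have h3 : |(q : ℤ)| = q := abs_of_nonneg (by omega)
      rw [h3] at h1
      have h4 : (Q : ℤ) ^ k = Q * Q ^ (k - 1) := by
        rw [← pow_succ']
        congr 1
        omega
      have h5 : (2 * (2 * k + 1) ^ (k - 1) * (X + B0) : ℤ) * Q = W := by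
        rw [hWe, h4, hQ]
        push_cast
        ring
      have h6 : (W : ℤ) ≤ Q * (q * |w e|) := by
        rw [← h5]
        have h7 : |w e| ≤ q * |w e| := by nlinarith [abs_nonneg (w e)]
        nlinarith
      linarith
  · intro S S' hS
    set c : Fin k → ℤ := fun e => (if e ∈ S then 1 else 0) - (if e ∈ S' then 1 else 0) with hc
    have hc1 : ∀ e, |c e| ≤ 1 := by
      intro e
      simp only [hc]
      split_ifs <;> simp
    have h1 := sum_diff w S S'
    have h2 := sum_diff y S S'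
    rw [h1] at hS
    suffices h : ∑ e, c e * y e = 0 by
      have : ∑ e ∈ S, y e - ∑ e ∈ S', y e = 0 := by rw [h2]; exact h
      linarith
    have h3 : |Q * (q * ∑ e, c e * w e - W * ∑ e, c e * y e)| ≤ k * W := by
      have h4 : (Q : ℤ) * (q * ∑ e, c e * w e - W * ∑ e, c e * y e) = 
          ∑ e, Q * (c e * (q * w e - W * y e)) := by
        rw [Finset.mul_sum, Finset.mul_sum, ← Finset.sum_sub_distrib, Finset.mul_sum]
        refine Finset.sum_congr rfl fun e _ => ?_
        ring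
      rw [h4]
      refine (Finset.abs_sum_le_sum_abs _ _).trans ?_
      refine (Finset.sum_le_sum fun e _ => ?_ : _ ≤ ∑ _e : Fin k, (W : ℤ)).trans (le_of_eq ?_)
      · rw [abs_mul, abs_mul, abs_of_pos hQz]
        have := hy e
        have h5 := hc1 e
        have h6 := abs_nonneg (c e)
        have h7 := abs_nonneg ((q : ℤ) * w e - W * y e)
        have h8 : |c e| * |(q : ℤ) * w e - W * y e| ≤ |(q : ℤ) * w e - W * y e| := by nlinarith
        nlinarith
      · rw [Finset.sum_const, Finset.card_univ, Fintype.card_fin, nsmul_eq_mul]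
    have hS' : |∑ e, c e * w e| ≤ X := hS
    by_contra hne
    have h4 : 1 ≤ |∑ e, c e * y e| := Int.one_le_abs hne
    -- `Q W ≤ Q W |y| ≤ Q q |w| + k W ≤ Q Q^k X + k W`
    have h5 : (Q : ℤ) * (W * |∑ e, c e * y e|) ≤ Q * (q * |∑ e, c e * w e|) + k * W := by
      have h6 : (Q : ℤ) * (W * |∑ e, c e * y e|) = |Q * (W * ∑ e, c e * y e)| := by
        rw [abs_mul, abs_mul, abs_of_pos hQz, abs_of_pos hWz]
      have h7 : (Q : ℤ) * (q * |∑ e, c e * w e|) = |Q * (q * ∑ e, c e * w e)| := by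
        rw [abs_mul, abs_mul, abs_of_pos hQz, abs_of_nonneg (show (0 : ℤ) ≤ q by omega)]
      rw [h6, h7]
      have h8 : (Q : ℤ) * (W * ∑ e, c e * y e) = Q * (q * ∑ e, c e * w e) - 
          Q * (q * ∑ e, c e * w e - W * ∑ e, c e * y e) := by ring
      rw [h8]
      exact (abs_sub _ _).trans (add_le_add le_rfl h3)
    have h6 : (q : ℤ) * |∑ e, c e * w e| ≤ (Q : ℤ) ^ k * X := 
      mul_le_mul hqk' hS' (abs_nonneg _) (by positivity)
    have h7 : (W : ℤ) ≤ W * |∑ e, c e * y e| := by nlinarith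
    have h8 : (Q : ℤ) = 2 * k + 1 := by rw [hQ]; push_cast; ring
    have h9 : (Q : ℤ) * W ≤ Q * ((Q : ℤ) ^ k * X) + k * W := by nlinarith
    have h10 : 2 * ((Q : ℤ) ^ k * X) ≤ W := by 
      rw [hWe]
      nlinarith
    have h11 : (0 : ℤ) ≤ k := by positivity
    rw [h8] at h9
    nlinarith

end Pool.Agent.Q99.ET
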