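import Pool.Agent.Y463.CD.Defs

/-!
# Definitions: diagrams with boxes, pieces, series-parallel matroids
-/

set_option autoImplicit false

namespace Pool.Agent.Q99.ET

open Finset LaurentPolynomial Pool.Agent.H891R2.Jones Pool.Agent.H891R2.MT Pool.Agent.H891R2.SI
open Pool.Agent.Y463.CD (Adj)

variable {k : ℕ}

/-- two marked points are joined in the diagram in which the boxes of `U` are connected and the other
boxes are cut -/
def CR (O : Sites k) (U : Finset (Fin k)) (p q : O.P) : Prop :=
  Adj O.cut p q ∨ ∃ e ∈ U, p = O.corner e false true ∧ q = O.corner e true true

/-- the number of connected pieces of the diagram in which exactly the boxes outside `U` are cut -/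
noncomputable def nc (O : Sites k) (U : Finset (Fin k)) : ℕ := Nat.card (Quot (CR O U))

/-- the number of connected pieces of the diagram in which exactly the boxes of `R` are cut -/
noncomputable def pcs (O : Sites k) (R : Finset (Fin k)) : ℕ := nc O Rᶜ

/-- the number of ends of arcs, crossings and boxes at the marked point `p` (`2` for a closed diagram) -/
def degree (O : Sites k) (p : O.P) : ℕ :=
  (O.arcs.map Prod.fst).count p + (O.arcs.map Prod.snd).count p + 
    (O.crossings.flatMap (fun x => [x.1, x.2.1, x.2.2.1, x.2.2.2])).count p + 
    ((List.finRange k).flatMap (fun e => [O.corner e false true, O.corner e false false, 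
      O.corner e true true, O.corner e true false])).count p

/-- `O` is a connected closed diagram; the connected pieces of the diagram `O.cut`, in which all boxes are
cut, have nonzero determinants (the bracket of `O.cut` is divisible by `(-A^2-A^{-2})^(q-1)` for the number
`q` of its pieces, but not by `(-A^2-A^{-2})^q`); the diagram remains connected when any two boxes of `J` are
cut; and the boxes outside `J` join the pieces of `O.cut` without cycles (no condition if all boxes are in
`J`) -/
structure Good (O : Sites k) (J : Finset (Fin k)) : Prop where
  conn : O.Connected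
  closed : ∀ p, Even (degree O p)
  det : ¬ (-T 2 - T (-2)) ^ pcs O Finset.univ ∣ O.cut.std.bracket
  nonempty : J.Nonempty
  two : ∀ e ∈ J, ∀ f ∈ J, pcs O {e, f} = 1
  span : pcs O Finset.univ + J.card = pcs O J + k

/-- `|R| + 1` minus the number of pieces: the rank function of a matroid for connected diagrams -/
noncomputable def cutRank (O : Sites k) (R : Finset (Fin k)) : ℕ := R.card + 1 - pcs O R

/-- `E` can be reduced to the empty set by deleting coloops, deleting one of two parallel elements and
contracting one of two elements in series (`r` is the rank function): series-parallel matroids. -/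
inductive SPred {ι : Type} [DecidableEq ι] : (Finset ι → ℕ) → Finset ι → Prop
  | nil (r : Finset ι → ℕ) : SPred r ∅
  | coloop (r : Finset ι → ℕ) (E : Finset ι) (e : ι) : e ∉ E → r (insert e E) = r E + 1 → SPred r E →
      SPred r (insert e E)
  | parallel (r : Finset ι → ℕ) (E : Finset ι) (e f : ι) : f ∉ E → e ∈ E → r {e, f} = 1 → SPred r E →
      SPred r (insert f E)
  | series (r : Finset ι → ℕ) (E : Finset ι) (e f : ι) : f ∉ E → e ∈ E → r {e, f} = 2 →
      r (insert f E) = r (E.erase e) + 1 → r E = r (E.erase e) + 1 →
      r (insert f (E.erase e)) = r (E.erase e) + 1 →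
      SPred (fun A => r (insert f A) - 1) E → SPred r (insert f E)

/-- the exponents of `A` in the normalised bracket of `D` lie in an interval of length `4 s`: the span of the
Jones polynomial is at most `s` -/
def SpanAtMost {P : Type} (s : ℕ) (D : Diagram P) : Prop :=
  ∃ lo : ℤ, ∀ j : ℤ, D.fPoly.coeff j ≠ 0 → lo ≤ j ∧ j ≤ lo + 4 * s

end Pool.Agent.Q99.ET
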