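import Pool.Agent.Q99.ET.Dual
import Pool.Agent.Q99.ET.Defs

/-!
# Series-parallel matroids: the generating function of the spanning sets has no zero on the torus
-/

set_option autoImplicit false

namespace Pool.Agent.Q99.ET

open Finset

variable {ι : Type} [DecidableEq ι]

/-- the generating function of the spanning subsets of `E` -/
noncomputable def kap (r : Finset ι → ℕ) (E : Finset ι) (x : ι → ℂ) : ℂ :=
  ∑ A ∈ E.powerset, if r A = r E then ∏ e ∈ A, (x e - 1) else 0

/-! ### the disc -/

theorem disc_iff (v : ℂ) (hv : v ≠ 0) : (‖1 + v‖ ≤ 1 ↔ (v⁻¹).re ≤ -(1/2)) ∧ (‖1 + v‖ < 1 ↔ (v⁻¹).re < -(1/2)) := by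
  have h0 : 0 < Complex.normSq v := Complex.normSq_pos.2 hv
  have h1 : ‖1 + v‖ ^ 2 = 1 + 2 * v.re + Complex.normSq v := by
    rw [Complex.sq_norm, Complex.normSq_apply, Complex.normSq_apply]
    simp only [Complex.add_re, Complex.one_re, Complex.add_im, Complex.one_im]
    ring
  have h2 : (v⁻¹).re = v.re / Complex.normSq v := Complex.inv_re v
  have h3 := norm_nonneg (1 + v)
  constructor
  · rw [h2, div_le_iff₀ h0]
    constructor
    · intro h
      nlinarith
    · intro h
      nlinarith
  · rw [h2, div_lt_iff₀ h0]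
    constructor
    · intro h
      nlinarith
    · intro h
      nlinarith

theorem series_disc (x y : ℂ) (hx : ‖x‖ ≤ 1) (hx1 : x ≠ 1) (hy : ‖y‖ ≤ 1) (hy1 : y ≠ 1) :
    (x - 1) + (y - 1) ≠ 0 ∧ ‖1 + (x - 1) * (y - 1) / ((x - 1) + (y - 1))‖ < 1 := by
  have a1 : x - 1 ≠ 0 := sub_ne_zero.2 hx1
  have a2 : y - 1 ≠ 0 := sub_ne_zero.2 hy1
  have b1 := ((disc_iff (x - 1) a1).1).1 (by rwa [add_sub_cancel])
  have b2 := ((disc_iff (y - 1) a2).1).1 (by rwa [add_sub_cancel])
  have h1 : (x - 1) + (y - 1) = (x - 1) * (y - 1) * ((x - 1)⁻¹ + (y - 1)⁻¹) := by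
    field_simp
    ring
  have h2 : (x - 1)⁻¹ + (y - 1)⁻¹ ≠ 0 := by
    intro h
    have := congrArg Complex.re h
    rw [Complex.add_re, Complex.zero_re] at this
    linarith
  have h3 : (x - 1) + (y - 1) ≠ 0 := by
    rw [h1]
    exact mul_ne_zero (mul_ne_zero a1 a2) h2
  refine ⟨h3, ?_⟩
  have h4 : (x - 1) * (y - 1) / ((x - 1) + (y - 1)) = ((x - 1)⁻¹ + (y - 1)⁻¹)⁻¹ := by
    rw [h1]
    field_simp
  rw [h4]
  refine ((disc_iff _ (inv_ne_zero h2)).2).2 ?_
  rw [inv_inv, Complex.add_re]
  linarith

/-! ### the three reductions -/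

theorem kap_coloop (r : Finset ι → ℕ) (h : IsRk r) (E : Finset ι) (e : ι) (he : e ∉ E)
    (hr : r (insert e E) = r E + 1) (x : ι → ℂ) : kap r (insert e E) x = (x e - 1) * kap r E x := by
  unfold kap
  rw [Finset.sum_powerset_insert he, Finset.mul_sum]
  have h1 : ∑ A ∈ E.powerset, (if r A = r (insert e E) then ∏ e ∈ A, (x e - 1) else 0) = 0 := by
    refine Finset.sum_eq_zero fun A hA => ?_
    rw [if_neg]
    have := h.mono (Finset.mem_powerset.1 hA)
    omega
  rw [h1, zero_add]
  refine Finset.sum_congr rfl fun A hA => ?_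
  have hAE := Finset.mem_powerset.1 hA
  have heA : e ∉ A := fun h => he (hAE h)
  have h2 : r (insert e A) = r A + 1 := by
    have h3 := h.2.1 A e
    by_contra hne
    have h4 : r (insert e A) = r A := by omega
    have h5 := h.cl A e h4 E
    rw [Finset.union_eq_left.2 hAE] at h5
    omega
  rw [h2, hr, Finset.prod_insert heA]
  by_cases h6 : r A = r E
  · rw [if_pos (by omega), if_pos h6]
  · rw [if_neg (by omega), if_neg h6, mul_zero]

theorem kap_split (r : Finset ι → ℕ) (ρ : ℕ) (H : Finset ι) (e f : ι) (he : e ∉ H) (hf : f ∉ H) (hef : e ≠ f)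
    (x : ι → ℂ) :
    ∑ A ∈ (insert f (insert e H)).powerset, (if r A = ρ then ∏ e ∈ A, (x e - 1) else 0) =
      ∑ A ∈ H.powerset, (∏ g ∈ A, (x g - 1)) * ((if r A = ρ then 1 else 0) + 
        (x e - 1) * (if r (insert e A) = ρ then 1 else 0) + (x f - 1) * (if r (insert f A) = ρ then 1 else 0) + 
        (x e - 1) * (x f - 1) * (if r (insert f (insert e A)) = ρ then 1 else 0)) := by
  have hf' : f ∉ insert e H := by
    rw [Finset.mem_insert, not_or]
    exact ⟨fun h => hef h.symm, hf⟩
  rw [Finset.sum_powerset_insert hf', Finset.sum_powerset_insert he, Finset.sum_powerset_insert he,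
    ← Finset.sum_add_distrib, ← Finset.sum_add_distrib, ← Finset.sum_add_distrib]
  refine Finset.sum_congr rfl fun A hA => ?_
  have hAH := Finset.mem_powerset.1 hA
  have heA : e ∉ A := fun h => he (hAH h)
  have hfA : f ∉ A := fun h => hf (hAH h)
  have hfA' : f ∉ insert e A := by
    rw [Finset.mem_insert, not_or]
    exact ⟨fun h => hef h.symm, hfA⟩
  rw [Finset.prod_insert heA, Finset.prod_insert hfA, Finset.prod_insert hfA', Finset.prod_insert heA]
  split_ifs <;> ring

theorem kap_split1 (r : Finset ι → ℕ) (ρ : ℕ) (H : Finset ι) (e : ι) (he : e ∉ H) (x : ι → ℂ) :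
    ∑ A ∈ (insert e H).powerset, (if r A = ρ then ∏ e ∈ A, (x e - 1) else 0) =
      ∑ A ∈ H.powerset, (∏ g ∈ A, (x g - 1)) * ((if r A = ρ then 1 else 0) + 
        (x e - 1) * (if r (insert e A) = ρ then 1 else 0)) := by
  rw [Finset.sum_powerset_insert he, ← Finset.sum_add_distrib]
  refine Finset.sum_congr rfl fun A hA => ?_
  have hAH := Finset.mem_powerset.1 hA
  have heA : e ∉ A := fun h => he (hAH h)
  rw [Finset.prod_insert heA]
  split_ifs <;> ring

theorem kap_parallel (r : Finset ι → ℕ) (h : IsRk r) (E : Finset ι) (e f : ι) (hf : f ∉ E) (he : e ∈ E)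
    (he1 : r {e} = 1) (hf1 : r {f} = 1) (h1 : r {e, f} = 1) (x : ι → ℂ) :
    kap r (insert f E) x = kap r E (Function.update x e (x e * x f)) := by
  obtain ⟨H, heH, rfl⟩ : ∃ H, e ∉ H ∧ insert e H = E := ⟨E.erase e, Finset.notMem_erase _ _, Finset.insert_erase he⟩
  have hfH : f ∉ H := fun h => hf (Finset.mem_insert_of_mem h)
  have hef : e ≠ f := fun h => hf (h ▸ Finset.mem_insert_self _ _)
  have e1 : ∀ A, r (insert f (insert e A)) = r (insert e A) := by
    intro A
    have h4 : r (insert f {e}) = r {e} := by rw [Finset.pair_comm, h1, he1]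
    have h5 := h.cl {e} f h4 A
    have h6 : A ∪ {e} = insert e A := by ext x; simp only [Finset.mem_union, Finset.mem_insert, Finset.mem_singleton]; tauto
    rwa [h6] at h5
  have e2 : ∀ A, r (insert e (insert f A)) = r (insert f A) := by
    intro A
    have h4 : r (insert e {f}) = r {f} := by rw [h1, hf1]
    have h5 := h.cl {f} e h4 A
    have h6 : A ∪ {f} = insert f A := by ext x; simp only [Finset.mem_union, Finset.mem_insert, Finset.mem_singleton]; tauto
    rwa [h6] at h5
  have e3 : ∀ A, r (insert f A) = r (insert e A) := by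
    intro A
    rw [← e2, Finset.insert_comm, e1]
  unfold kap
  rw [kap_split r _ H e f heH hfH hef x, kap_split1 r _ H e heH, e1]
  refine Finset.sum_congr rfl fun A hA => ?_
  have hAH := Finset.mem_powerset.1 hA
  have heA : e ∉ A := fun h => heH (hAH h)
  have hp : ∏ g ∈ A, (Function.update x e (x e * x f) g - 1) = ∏ g ∈ A, (x g - 1) := by
    refine Finset.prod_congr rfl fun g hg => ?_
    have hge : g ≠ e := by
      rintro rfl
      exact heA hg
    rw [Function.update_of_ne hge]
  rw [hp, Function.update_self, e1, e3]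
  split_ifs <;> ring

theorem kap_series (r : Finset ι → ℕ) (h : IsRk r) (E : Finset ι) (e f : ι) (hf : f ∉ E) (he : e ∈ E)
    (hf1 : r {f} = 1) (h1 : r (insert f E) = r (E.erase e) + 1) (h2 : r E = r (E.erase e) + 1)
    (h3 : r (insert f (E.erase e)) = r (E.erase e) + 1) (x : ι → ℂ) (h0 : (x e - 1) + (x f - 1) ≠ 0) :
    kap r (insert f E) x = ((x e - 1) + (x f - 1)) * 
      kap (fun A => r (insert f A) - 1) E (Function.update x e 
        (1 + (x e - 1) * (x f - 1) / ((x e - 1) + (x f - 1)))) := by
  obtain ⟨H, heH, rfl⟩ : ∃ H, e ∉ H ∧ insert e H = E := ⟨E.erase e, Finset.notMem_erase _ _, Finset.insert_erase he⟩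
  rw [Finset.erase_insert heH] at h1 h2 h3
  have hfH : f ∉ H := fun h => hf (Finset.mem_insert_of_mem h)
  have hef : e ≠ f := fun h => hf (h ▸ Finset.mem_insert_self _ _)
  have hpos : ∀ A, 1 ≤ r (insert f A) := by
    intro A
    rw [← hf1]
    exact h.mono (by intro x hx; rw [Finset.mem_singleton.1 hx]; exact Finset.mem_insert_self _ _)
  -- ranks of subsets of `H`
  have key : ∀ (g : ι), r (insert g H) = r H + 1 → ∀ A ⊆ H, 
      (r (insert g A) = r H + 1 ↔ r A = r H) := by
    intro g hg A hA
    have m := h.mono hA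
    have i := h.2.1 A g
    constructor
    · intro h4
      omega
    · intro h4
      by_contra hne
      have h5 : r (insert g A) = r A := by omega
      have h6 := h.cl A g h5 H
      rw [Finset.union_eq_left.2 hA] at h6
      omega
  unfold kap
  have hρ : (fun A => r (insert f A) - 1) (insert e H) = r H := by
    show r (insert f (insert e H)) - 1 = r H
    omega
  rw [kap_split r _ H e f heH hfH hef x, kap_split1 (fun A => r (insert f A) - 1) _ H e heH, hρ, h1, 
    Finset.mul_sum]
  refine Finset.sum_congr rfl fun A hA => ?_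
  have hAH := Finset.mem_powerset.1 hA
  have heA : e ∉ A := fun h => heH (hAH h)
  have hp : ∏ g ∈ A, (Function.update x e (1 + (x e - 1) * (x f - 1) / ((x e - 1) + (x f - 1))) g - 1) = 
      ∏ g ∈ A, (x g - 1) := by
    refine Finset.prod_congr rfl fun g hg => ?_
    have hge : g ≠ e := by
      rintro rfl
      exact heA hg
    rw [Function.update_of_ne hge]
  rw [hp, Function.update_self]
  have k1 : (if r A = r H + 1 then (1 : ℂ) else 0) = 0 := by
    rw [if_neg]
    have := h.mono hAH
    omega
  have k2 : (if r (insert e A) = r H + 1 then (1 : ℂ) else 0) = if r A = r H then 1 else 0 := by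
    simp only [key e h2 A hAH]
  have k3 : (if r (insert f A) = r H + 1 then (1 : ℂ) else 0) = if r A = r H then 1 else 0 := by
    simp only [key f h3 A hAH]
  have k4 : (if r (insert f A) - 1 = r H then (1 : ℂ) else 0) = if r A = r H then 1 else 0 := by
    have : (r (insert f A) - 1 = r H) ↔ (r A = r H) := by
      rw [← key f h3 A hAH]
      have := hpos A
      omega
    simp only [this]
  have k5 : (if r (insert f (insert e A)) - 1 = r H then (1 : ℂ) else 0) = 
      if r (insert f (insert e A)) = r H + 1 then 1 else 0 := by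
    have : (r (insert f (insert e A)) - 1 = r H) ↔ (r (insert f (insert e A)) = r H + 1) := by
      have := hpos (insert e A)
      omega
    simp only [this]
  rw [k1, k2, k3]
  simp only [k4, k5]
  field_simp
  ring

/-- **no zeros** -/
theorem kap_ne_zero (r : Finset ι → ℕ) (E : Finset ι) (hs : SPred r E) : IsRk r → (∀ e ∈ E, r {e} = 1) → 
    ∀ x : ι → ℂ, (∀ e ∈ E, ‖x e‖ ≤ 1 ∧ x e ≠ 1) → 
      (∀ e ∈ E, ∀ f ∈ E, e ≠ f → ‖x e‖ = 1 → ‖x f‖ = 1 → r {e, f} = 2) → kap r E x ≠ 0 := by
  induction hs with
  | nil r =>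
    intro h _ x _ _
    unfold kap
    simp
  | coloop r E e he hr _ ih =>
    intro h hl x hx hp
    rw [kap_coloop r h E e he hr x]
    refine mul_ne_zero (sub_ne_zero.2 (hx e (Finset.mem_insert_self _ _)).2) ?_
    exact ih h (fun g hg => hl g (Finset.mem_insert_of_mem hg)) x 
      (fun g hg => hx g (Finset.mem_insert_of_mem hg)) 
      (fun g hg g' hg' => hp g (Finset.mem_insert_of_mem hg) g' (Finset.mem_insert_of_mem hg'))
  | parallel r E e f hf he h1 _ ih =>
    intro h hl x hx hp
    have me : e ∈ insert f E := Finset.mem_insert_of_mem he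
    have mf : f ∈ insert f E := Finset.mem_insert_self _ _
    have hef : e ≠ f := fun h => hf (h ▸ he)
    rw [kap_parallel r h E e f hf he (hl e me) (hl f mf) h1 x]
    have hlt : ‖x e * x f‖ < 1 := by
      rw [norm_mul]
      have a := (hx e me).1
      have b := (hx f mf).1
      have a0 := norm_nonneg (x e)
      have b0 := norm_nonneg (x f)
      rcases lt_or_eq_of_le a with a1 | a1
      · nlinarith
      · rcases lt_or_eq_of_le b with b1 | b1
        · nlinarith
        · have := hp e me f mf hef a1 b1
          omega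
    refine ih h (fun g hg => hl g (Finset.mem_insert_of_mem hg)) _ ?_ ?_
    · intro g hg
      by_cases hge : g = e
      · subst hge
        rw [Function.update_self]
        refine ⟨hlt.le, ?_⟩
        intro h1
        rw [h1, norm_one] at hlt
        exact lt_irrefl _ hlt
      · rw [Function.update_of_ne hge]
        exact hx g (Finset.mem_insert_of_mem hg)
    · intro g hg g' hg' hgg h3 h4
      have n1 : g ≠ e := by
        rintro rfl
        rw [Function.update_self] at h3
        linarith
      have n2 : g' ≠ e := by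
        rintro rfl
        rw [Function.update_self] at h4
        linarith
      rw [Function.update_of_ne n1] at h3
      rw [Function.update_of_ne n2] at h4
      exact hp g (Finset.mem_insert_of_mem hg) g' (Finset.mem_insert_of_mem hg') hgg h3 h4
  | series r E e f hf he h12 h1 h2 h3 _ ih =>
    intro h hl x hx hp
    have me : e ∈ insert f E := Finset.mem_insert_of_mem he
    have mf : f ∈ insert f E := Finset.mem_insert_self _ _
    have hef : e ≠ f := fun h => hf (h ▸ he)
    obtain ⟨q1, q2⟩ := series_disc (x e) (x f) (hx e me).1 (hx e me).2 (hx f mf).1 (hx f mf).2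
    rw [kap_series r h E e f hf he (hl f mf) h1 h2 h3 x q1]
    refine mul_ne_zero q1 ?_
    -- `f` is not in the closure of subsets of `E.erase e`
    have hcl : ∀ A ⊆ E.erase e, r (insert f A) = r A + 1 := by
      intro A hA
      have i := h.2.1 A f
      by_contra hne
      have h5 : r (insert f A) = r A := by omega
      have h6 := h.cl A f h5 (E.erase e)
      rw [Finset.union_eq_left.2 hA] at h6
      omega
    refine ih (h.contract f (hl f mf)) ?_ _ ?_ ?_
    · intro g hg
      show r (insert f {g}) - 1 = 1
      by_cases hge : g = e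
      · subst hge
        have : (insert f {g} : Finset _) = {g, f} := Finset.pair_comm _ _
        rw [this, h12]
      · rw [hcl {g} (by
          intro z hz
          rw [Finset.mem_singleton.1 hz]
          exact Finset.mem_erase.2 ⟨hge, hg⟩), hl g (Finset.mem_insert_of_mem hg)]
    · intro g hg
      by_cases hge : g = e
      · subst hge
        rw [Function.update_self]
        refine ⟨q2.le, ?_⟩
        intro h1
        rw [h1, norm_one] at q2
        exact lt_irrefl _ q2
      · rw [Function.update_of_ne hge]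
        exact hx g (Finset.mem_insert_of_mem hg)
    · intro g hg g' hg' hgg h4 h5
      have n1 : g ≠ e := by
        rintro rfl
        rw [Function.update_self] at h4
        linarith
      have n2 : g' ≠ e := by
        rintro rfl
        rw [Function.update_self] at h5
        linarith
      rw [Function.update_of_ne n1] at h4
      rw [Function.update_of_ne n2] at h5
      have h6 := hp g (Finset.mem_insert_of_mem hg) g' (Finset.mem_insert_of_mem hg') hgg h4 h5
      show r (insert f {g, g'}) - 1 = 2
      rw [hcl {g, g'} (by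
          intro z hz
          rw [Finset.mem_insert, Finset.mem_singleton] at hz
          rcases hz with rfl | rfl
          · exact Finset.mem_erase.2 ⟨n1, hg⟩
          · exact Finset.mem_erase.2 ⟨n2, hg'⟩), h6]

end Pool.Agent.Q99.ET
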