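import Pool.Agent.Q99.ET.Lim
import Pool.Agent.Q99.ET.SP
import Pool.Agent.Q99.ET.Dir

/-!
# Jones polynomials of highly twisted links
-/

set_option autoImplicit false

namespace Pool.Agent.Q99.ET

open Finset LaurentPolynomial Pool.Agent.H891R2.Jones Pool.Agent.H891R2.MT Pool.Agent.H891R2.SI T4b
open Pool.Agent.Y463.CD (zf Close Small small_bracket)
open Pool.Agent.H832R3.TW (FSpanLE)

variable {k : ℕ}

/-- no loops and no parallel elements in `J` -/
def Simple (r : Finset (Fin k) → ℕ) (J : Finset (Fin k)) : Prop :=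
  (∀ e ∈ J, r {e} = 1) ∧ ∀ e ∈ J, ∀ f ∈ J, e ≠ f → r {e, f} = 2

theorem exp_sub_odd (y : ℤ) : Complex.exp ((Real.pi * y : ℝ) * Complex.I) - 1 = 
    if Odd y then (-2 : ℂ) else 0 := by
  have h0 : (((Real.pi * y : ℝ)) : ℂ) * Complex.I = y * (Real.pi * Complex.I) := by
    push_cast
    ring
  rw [h0, Complex.exp_int_mul, Complex.exp_pi_mul_I]
  split_ifs with h
  · rw [h.neg_one_zpow]
    norm_num
  · rw [Int.not_odd_iff_even] at h
    rw [h.neg_one_zpow]
    norm_num

/-- the criterion at `θ = π` -/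
theorem sum_odd (r : Finset (Fin k) → ℕ) (y : Fin k → ℤ) (J : Finset (Fin k)) (hJ : ∀ e, Odd (y e) ↔ e ∈ J) 
    (ρ : ℕ)
    (h : ∑ R : Finset (Fin k), (if r R = ρ 
      then ∏ e ∈ R, (Complex.exp ((Real.pi * y e : ℝ) * Complex.I) - 1) else 0) = 0) : Sp r ρ J = 0 := by
  classical
  have h1 : ∑ R : Finset (Fin k), (if r R = ρ 
      then ∏ e ∈ R, (Complex.exp ((Real.pi * y e : ℝ) * Complex.I) - 1) else 0) = ((Sp r ρ J : ℤ) : ℂ) := by
    unfold Sp
    rw [Int.cast_sum]
    symm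
    apply Finset.sum_subset_zero_on_sdiff (Finset.subset_univ _)
    · intro R hR
      have hR' : ¬ R ⊆ J := by
        intro h
        exact (Finset.mem_sdiff.1 hR).2 (Finset.mem_powerset.2 h)
      obtain ⟨e, he, heJ⟩ := Finset.not_subset.1 hR'
      rw [Finset.prod_eq_zero he, ite_self]
      rw [exp_sub_odd, if_neg]
      rw [hJ]
      exact heJ
    · intro R hR
      have hRJ := Finset.mem_powerset.1 hR
      have : ∏ e ∈ R, (Complex.exp ((Real.pi * y e : ℝ) * Complex.I) - 1) = (-2 : ℂ) ^ R.card := by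
        rw [← Finset.prod_const]
        refine Finset.prod_congr rfl fun e he => ?_
        rw [exp_sub_odd, if_pos ((hJ e).2 (hRJ he))]
      rw [this]
      push_cast
      rfl
  rw [h1] at h
  exact_mod_cast h

/-- **odd directions** -/
theorem no_odd_direction (Γ : Ribbon k) (hΓ : Γ.Planar) (B J : Finset (Fin k)) (hJ : J.Nonempty) 
    (hs : Simple (rN Γ B) J) (hr : rN Γ B J = rN Γ B Finset.univ) (s : ℕ) (w y : Fin k → ℤ) 
    (h : Small (mix Γ B) s w) (hy : ∀ e, Odd (y e) ↔ e ∈ J)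
    (hc : ∀ S S' : Finset (Fin k), Close (mix Γ B) s w S S' → nS y S = nS y S') : False := by
  obtain ⟨e0, he0⟩ := hJ
  have hk : 0 < k := by
    have := e0.2
    omega
  obtain ⟨lo, hlo⟩ := small_bracket (mix Γ B) hk s w h
  have hN := rN_rk Γ B
  have hp : 0 < rN Γ B Finset.univ := by
    have h1 := hs.1 e0 he0
    have h2 := hN.mono (Finset.subset_univ {e0})
    omega
  have h1 := limit Γ hΓ hk B s w y lo hlo hc hp Real.pi
  have h2 := sum_odd (rN Γ B) y J hy _ h1
  have h3 := (Sp_pos J.card (rN Γ B) hN J le_rfl hs.1).2 hs.2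
  rw [hr, h2, mul_zero] at h3
  exact lt_irrefl _ h3

theorem no_crossings (Γ : Ribbon k) (B : Finset (Fin k)) : (mix Γ B).crossings.length = 0 := rfl

theorem close_iff (Γ : Ribbon k) (B : Finset (Fin k)) (s : ℕ) (w : Fin k → ℤ) (S S' : Finset (Fin k)) :
    Close (mix Γ B) s w S S' ↔ |nS w S - nS w S'| ≤ 3 * k + s := by
  unfold Close
  rw [no_crossings]
  push_cast
  constructor <;> intro h <;> linarith

/-- near multiples of a large number -/
theorem close_mul (s B0 m : ℕ) (j n : Fin k → ℤ) (hm : (B0 + 3) * k + s < m) 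
    (hn : ∀ e, |n e - m * j e| ≤ B0) (S S' : Finset (Fin k)) 
    (h : |nS n S - nS n S'| ≤ 3 * k + s) : nS j S = nS j S' := by
  classical
  by_contra hne
  have h1 : 1 ≤ |nS j S - nS j S'| := Int.one_le_abs (sub_ne_zero.2 hne)
  have h2 : nS n S - nS n S' = m * (nS j S - nS j S') + 
      ∑ e, ((if e ∈ S then 1 else 0) - (if e ∈ S' then 1 else 0)) * (n e - m * j e) := by
    have a := sum_diff n S S'
    have b := sum_diff j S S'
    unfold nS
    rw [a, b, Finset.mul_sum, ← Finset.sum_add_distrib]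
    refine Finset.sum_congr rfl fun e _ => ?_
    ring
  have h3 : |∑ e, ((if e ∈ S then 1 else 0) - (if e ∈ S' then 1 else 0)) * (n e - m * j e)| ≤ k * B0 := by
    refine (Finset.abs_sum_le_sum_abs _ _).trans ?_
    refine (Finset.sum_le_sum fun e _ => ?_ : _ ≤ ∑ _e : Fin k, (B0 : ℤ)).trans (le_of_eq ?_)
    · rw [abs_mul]
      have a := hn e
      have b : |((if e ∈ S then 1 else 0) - (if e ∈ S' then 1 else 0) : ℤ)| ≤ 1 := by
        split_ifs <;> simp
      have c := abs_nonneg (n e - m * j e)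
      nlinarith
    · rw [Finset.sum_const, Finset.card_univ, Fintype.card_fin, nsmul_eq_mul]
  have h4 : |(m : ℤ) * (nS j S - nS j S')| ≤ |nS n S - nS n S'| + 
      |∑ e, ((if e ∈ S then 1 else 0) - (if e ∈ S' then 1 else 0)) * (n e - m * j e)| := by
    have : (m : ℤ) * (nS j S - nS j S') = (nS n S - nS n S') - 
      ∑ e, ((if e ∈ S then 1 else 0) - (if e ∈ S' then 1 else 0)) * (n e - m * j e) := by
      rw [h2]
      ring
    rw [this]
    exact abs_sub _ _
  rw [abs_mul, abs_of_nonneg (show (0 : ℤ) ≤ m by positivity)] at h4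
  have hm' : ((B0 : ℤ) + 3) * k + s < m := by exact_mod_cast hm
  have hm0 : (0 : ℤ) ≤ m := by positivity
  nlinarith

/-- **near odd multiples** -/
theorem odd_multiples (Γ : Ribbon k) (hΓ : Γ.Planar) (B J : Finset (Fin k)) (hJ : J.Nonempty) 
    (hs : Simple (rN Γ B) J) (hr : rN Γ B J = rN Γ B Finset.univ) (s B0 m : ℕ) (j n : Fin k → ℤ) 
    (hm : (B0 + 3) * k + s < m) (hn : ∀ e, |n e - m * j e| ≤ B0) (hj : ∀ e, Odd (j e) ↔ e ∈ J) 
    (D : Diagram ((mix Γ B).P ⊕ Ribbon.Pt n)) (hD : Orients D ((mix Γ B).fill n)) : ¬ FSpanLE s D := by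
  intro hF
  refine no_odd_direction Γ hΓ B J hJ hs hr s n j ⟨D, hD, hF⟩ hj ?_
  intro S S' hc
  rw [close_iff] at hc
  exact close_mul s B0 m j n hm hn S S' hc

/-- **all odd directions**: the criterion -/
theorem odd_criterion (Γ : Ribbon k) (hΓ : Γ.Planar) (B J : Finset (Fin k)) (hJ : J.Nonempty) 
    (hs : Simple (rN Γ B) J) (hr : rN Γ B J = rN Γ B Finset.univ) (s : ℕ) (n y : Fin k → ℤ) 
    (hy : ∀ e, Odd (y e) ↔ e ∈ J) 
    (h : ∀ S S' : Finset (Fin k), |∑ e ∈ S, n e - ∑ e ∈ S', n e| ≤ 3 * k + s → 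
      ∑ e ∈ S, y e = ∑ e ∈ S', y e)
    (D : Diagram ((mix Γ B).P ⊕ Ribbon.Pt n)) (hD : Orients D ((mix Γ B).fill n)) : ¬ FSpanLE s D := by
  intro hF
  refine no_odd_direction Γ hΓ B J hJ hs hr s n y ⟨D, hD, hF⟩ hy ?_
  intro S S' hc
  rw [close_iff] at hc
  exact h S S' hc

/-! ### series-parallel -/

theorem sp_direction (Γ : Ribbon k) (hΓ : Γ.Planar) (hk : 0 < k) (B J : Finset (Fin k)) (hJ : J.Nonempty)
    (hs : Simple (rN Γ B) J) (hr : rN Γ B J = rN Γ B Finset.univ) (hsp : SPred (rN Γ B) J) 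
    (s : ℕ) (w y : Fin k → ℤ) 
    (h : Small (mix Γ B) s w) (hy : ∀ e, y e ≠ 0 ↔ e ∈ J)
    (hc : ∀ S S' : Finset (Fin k), Close (mix Γ B) s w S S' → nS y S = nS y S') : False := by
  classical
  obtain ⟨lo, hlo⟩ := small_bracket (mix Γ B) hk s w h
  have hN := rN_rk Γ B
  obtain ⟨e0, he0⟩ := hJ
  have hp : 0 < rN Γ B Finset.univ := by
    have h1 := hs.1 e0 he0
    have h2 := hN.mono (Finset.subset_univ {e0})
    omega
  -- a small angle
  obtain ⟨Y, hY⟩ : ∃ Y : ℕ, ∀ e, |y e| ≤ Y := by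
    refine ⟨∑ e, (y e).natAbs, fun e => ?_⟩
    have h1 : (y e).natAbs ≤ ∑ e, (y e).natAbs := 
      Finset.single_le_sum (f := fun e => (y e).natAbs) (fun _ _ => Nat.zero_le _) (Finset.mem_univ e)
    rw [Int.abs_eq_natAbs]
    exact_mod_cast h1
  have h1 := limit Γ hΓ hk B s w y lo hlo hc hp (Real.pi / (Y + 1))
  set x : Fin k → ℂ := fun e => Complex.exp ((Real.pi / (Y + 1) * y e : ℝ) * Complex.I) with hx
  have hx1 : ∀ e, ‖x e‖ = 1 := fun e => Complex.norm_exp_ofReal_mul_I _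
  have hx0 : ∀ e, e ∉ J → x e = 1 := by
    intro e he
    have : y e = 0 := by
      by_contra h0
      exact he ((hy e).1 h0)
    rw [hx]
    simp [this]
  have hx2 : ∀ e, e ∈ J → x e ≠ 1 := by
    intro e heJ h0
    rw [hx] at h0
    simp only at h0
    rw [Complex.exp_eq_one_iff] at h0
    obtain ⟨n, hn⟩ := h0
    have h3 : Real.pi / (Y + 1) * y e = n * (2 * Real.pi) := by
      have h4 := congrArg Complex.im hn
      simp only [Complex.mul_im, Complex.ofReal_re, Complex.I_im, mul_one, Complex.ofReal_im, Complex.I_re, 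
        mul_zero, add_zero, Complex.intCast_re, Complex.intCast_im, zero_mul] at h4
      simp at h4
      linarith
    have hYp : (0 : ℝ) < Y + 1 := by positivity
    have h5 : (y e : ℝ) = n * 2 * (Y + 1) := by
      have hpi := Real.pi_pos
      field_simp at h3
      linarith
    have h6 : y e = n * 2 * (Y + 1) := by exact_mod_cast h5
    have h7 := hY e
    have hn0 : n ≠ 0 := by
      rintro rfl
      exact (hy e).2 heJ (by rw [h6]; ring)
    have h8 : 1 ≤ |n| := Int.one_le_abs hn0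
    rw [h6, abs_mul, abs_mul] at h7
    have h9 : |(Y : ℤ) + 1| = Y + 1 := abs_of_nonneg (by positivity)
    have h10 : |(2 : ℤ)| = 2 := rfl
    rw [h9, h10] at h7
    nlinarith
  have h2 := kap_ne_zero (rN Γ B) J hsp hN hs.1 x (fun e he => ⟨(hx1 e).le, hx2 e he⟩) 
    (fun e he f hf hef _ _ => hs.2 e he f hf hef)
  apply h2
  unfold kap
  rw [hr]
  refine Eq.trans ?_ h1
  apply Finset.sum_subset_zero_on_sdiff (Finset.subset_univ _)
  · intro R hR
    have hR' : ¬ R ⊆ J := by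
      intro h
      exact (Finset.mem_sdiff.1 hR).2 (Finset.mem_powerset.2 h)
    obtain ⟨e, he, heJ⟩ := Finset.not_subset.1 hR'
    have h3 : ∏ e ∈ R, (Complex.exp ((Real.pi / (Y + 1) * y e : ℝ) * Complex.I) - 1) = 0 := by
      refine Finset.prod_eq_zero he ?_
      exact sub_eq_zero.2 (hx0 e heJ)
    rw [h3, ite_self]
  · intro R _
    rfl

/-- a Jones polynomial of large span is not the one of an unlink with few components -/
theorem not_unlink {P : Type} (s : ℕ) (D : Diagram P) (h : ¬ FSpanLE s D) (c : ℕ) (hc : c ≤ s + 1) : 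
    D.fPoly ≠ (-T 2 - T (-2)) ^ (c - 1) := by
  intro h1
  apply h
  refine ⟨-(2 * (c - 1 : ℕ)), fun j hj => ?_⟩
  have h2 : SIn D.fPoly (-(2 * (c - 1 : ℕ))) (2 * (c - 1 : ℕ)) := by
    rw [h1]
    have := SIn.pow (d := 2) SIn_d (c - 1)
    refine this.mono ?_ ?_ <;> linarith
  obtain ⟨h3, h4⟩ := h2 j hj
  refine ⟨h3, h4.trans ?_⟩
  have : ((c - 1 : ℕ) : ℤ) ≤ s := by omega
  linarith

/-- **series-parallel diagrams with many crossings in every long twist region** -/
theorem sp_main (Γ : Ribbon k) (hΓ : Γ.Planar) (B J : Finset (Fin k)) (hJ : J.Nonempty)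
    (hs : Simple (rN Γ B) J) (hr : rN Γ B J = rN Γ B Finset.univ) (hsp : SPred (rN Γ B) J) 
    (s B0 : ℕ) (n : Fin k → ℤ)
    (hn : ∀ e ∈ J, (2 * (2 * k + 1) ^ (k - 1) * (3 * k + s + B0) : ℤ) ≤ |n e|) 
    (hB : ∀ e ∉ J, |n e| ≤ B0)
    (D : Diagram ((mix Γ B).P ⊕ Ribbon.Pt n)) (hD : Orients D ((mix Γ B).fill n)) : ¬ FSpanLE s D := by
  intro hF
  have hk : 0 < k := by
    obtain ⟨e0, _⟩ := hJ
    have := e0.2
    omega
  obtain ⟨y, hy0, hy⟩ := direction hk (3 * k + s) B0 (by omega) n J (by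
    intro e he
    have := hn e he
    push_cast
    exact this) hB
  refine sp_direction Γ hΓ hk B J hJ hs hr hsp s n y ⟨D, hD, hF⟩ hy0 ?_
  intro S S' hc
  rw [close_iff] at hc
  exact hy S S' (by push_cast; exact hc)

end Pool.Agent.Q99.ET
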