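import Pool.Agent.Q99.ET.Div
import Pool.Agent.Q99.ET.Main

/-!
# Jones polynomials of highly twisted links: arbitrary diagrams with boxes
-/

set_option autoImplicit false

namespace Pool.Agent.Q99.ET

open Finset LaurentPolynomial Pool.Agent.H891R2.Jones Pool.Agent.H891R2.MT Pool.Agent.H891R2.SI T4b
open Pool.Agent.Y463.CD (zf Close Small small_bracket ev8)
open Pool.Agent.H832R3.TW (FSpanLE)

variable {k : ℕ}

theorem Good.pos {O : Sites k} {J : Finset (Fin k)} (h : Good O J) : 0 < k := by
  obtain ⟨e0, _⟩ := h.nonempty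
  have := e0.2
  omega

theorem Good.rank {O : Sites k} {J : Finset (Fin k)} (h : Good O J) : cN O = cutRank O := by
  funext R
  have := cN_eq O h.pos h.conn R
  unfold cutRank pcs
  omega

theorem Good.simple {O : Sites k} {J : Finset (Fin k)} (h : Good O J) : Simple (cN O) J := by
  constructor
  · intro e he
    have h1 := cN_eq O h.pos h.conn {e}
    have h2 := h.two e he e he
    unfold pcs at h2
    rw [Finset.pair_eq_singleton] at h2
    rw [Finset.card_singleton] at h1
    omega
  · intro e he f hf hef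
    have h1 := cN_eq O h.pos h.conn {e, f}
    have h2 := h.two e he f hf
    unfold pcs at h2
    rw [Finset.card_pair hef] at h1
    omega

theorem Good.full {O : Sites k} {J : Finset (Fin k)} (h : Good O J) : cN O J = cN O Finset.univ := by
  have h1 := cN_eq O h.pos h.conn J
  have h2 := cN_eq O h.pos h.conn Finset.univ
  have h3 := h.span
  unfold pcs at h3
  rw [Finset.card_univ, Fintype.card_fin] at h2
  omega

theorem Good.rank_pos {O : Sites k} {J : Finset (Fin k)} (h : Good O J) : 0 < cN O Finset.univ := by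
  obtain ⟨e0, he0⟩ := h.nonempty
  have h1 := h.simple.1 e0 he0
  have h2 := (cN_rk O).mono (Finset.subset_univ {e0})
  omega

theorem Good.limit {O : Sites k} {J : Finset (Fin k)} (h : Good O J) (s : ℕ) (w y : Fin k → ℤ) 
    (hw : Small O s w)
    (hy : ∀ S S' : Finset (Fin k), Close O s w S S' → nS y S = nS y S') (θ : ℝ) :
    ∑ R : Finset (Fin k), (if cN O R = cN O Finset.univ 
      then ∏ e ∈ R, (Complex.exp ((θ * y e : ℝ) * Complex.I) - 1) else 0) = 0 := by
  obtain ⟨lo, hlo⟩ := small_bracket O h.pos s w hw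
  have hdet : ¬ (-T 2 - T (-2)) ^ nc O ∅ ∣ O.cut.std.bracket := by
    have h1 := h.det
    unfold pcs at h1
    rwa [Finset.compl_univ] at h1
  obtain ⟨g, hg, hg8⟩ := exists_g O hdet h.pos
  exact limit2 O h.pos h.conn h.closed g hg hg8 s w y lo hlo hy h.rank_pos θ

/-- the near relations -/
theorem close_of (O : Sites k) (s : ℕ) (w : Fin k → ℤ) (S S' : Finset (Fin k)) (h : Close O s w S S') : 
    |∑ e ∈ S, w e - ∑ e ∈ S', w e| ≤ 2 * O.crossings.length + 3 * k + s := by
  unfold Close nS at h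
  have h1 : (0 : ℤ) ≤ O.crossings.length := by positivity
  linarith

/-- **the criterion**: odd directions -/
theorem Good.odd {O : Sites k} {J : Finset (Fin k)} (h : Good O J) (s : ℕ) (n y : Fin k → ℤ) 
    (hy : ∀ e, Odd (y e) ↔ e ∈ J) 
    (hc : ∀ S S' : Finset (Fin k), 
      |∑ e ∈ S, n e - ∑ e ∈ S', n e| ≤ 2 * O.crossings.length + 3 * k + s → 
      ∑ e ∈ S, y e = ∑ e ∈ S', y e)
    (D : Diagram (O.P ⊕ Ribbon.Pt n)) (hD : Orients D (O.fill n)) : ¬ FSpanLE s D := by
  intro hF
  have h1 := h.limit s n y ⟨D, hD, hF⟩ (fun S S' hS => hc S S' (close_of O s n S S' hS)) Real.pi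
  have h2 := sum_odd (cN O) y J hy _ h1
  have h3 := (Sp_pos J.card (cN O) (cN_rk O) J le_rfl h.simple.1).2 h.simple.2
  rw [h.full, h2, mul_zero] at h3
  exact lt_irrefl _ h3

/-- near multiples of a large number -/
theorem near_mul (X B0 m : ℕ) (j n : Fin k → ℤ) (hm : B0 * k + X < m) 
    (hn : ∀ e, |n e - m * j e| ≤ B0) (S S' : Finset (Fin k)) 
    (h : |∑ e ∈ S, n e - ∑ e ∈ S', n e| ≤ X) : ∑ e ∈ S, j e = ∑ e ∈ S', j e := by
  classical
  by_contra hne
  have h1 : 1 ≤ |∑ e ∈ S, j e - ∑ e ∈ S', j e| := Int.one_le_abs (sub_ne_zero.2 hne)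
  have h2 : ∑ e ∈ S, n e - ∑ e ∈ S', n e = m * (∑ e ∈ S, j e - ∑ e ∈ S', j e) + 
      ∑ e, ((if e ∈ S then 1 else 0) - (if e ∈ S' then 1 else 0)) * (n e - m * j e) := by
    rw [sum_diff n S S', sum_diff j S S', Finset.mul_sum, ← Finset.sum_add_distrib]
    refine Finset.sum_congr rfl fun e _ => ?_
    ring
  have h3 : |∑ e, ((if e ∈ S then 1 else 0) - (if e ∈ S' then 1 else 0)) * (n e - m * j e)| ≤ k * B0 := by
    refine (Finset.abs_sum_le_sum_abs _ _).trans ?_
    refine (Finset.sum_le_sum fun e _ => ?_ : _ ≤ ∑ _e : Fin k, (B0 : ℤ)).trans (le_of_eq ?_)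
    · rw [abs_mul]
      have a := hn e
      have b : |((if e ∈ S then 1 else 0) - (if e ∈ S' then 1 else 0) : ℤ)| ≤ 1 := by
        split_ifs <;> simp
      have c := abs_nonneg (n e - m * j e)
      nlinarith
    · rw [Finset.sum_const, Finset.card_univ, Fintype.card_fin, nsmul_eq_mul]
  have h4 : |(m : ℤ) * (∑ e ∈ S, j e - ∑ e ∈ S', j e)| ≤ |∑ e ∈ S, n e - ∑ e ∈ S', n e| + 
      |∑ e, ((if e ∈ S then 1 else 0) - (if e ∈ S' then 1 else 0)) * (n e - m * j e)| := by
    have : (m : ℤ) * (∑ e ∈ S, j e - ∑ e ∈ S', j e) = (∑ e ∈ S, n e - ∑ e ∈ S', n e) - 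
      ∑ e, ((if e ∈ S then 1 else 0) - (if e ∈ S' then 1 else 0)) * (n e - m * j e) := by
      rw [h2]
      ring
    rw [this]
    exact abs_sub _ _
  rw [abs_mul, abs_of_nonneg (show (0 : ℤ) ≤ m by positivity)] at h4
  have hm' : (B0 : ℤ) * k + X < m := by exact_mod_cast hm
  have hm0 : (0 : ℤ) ≤ m := by positivity
  nlinarith

/-- **near odd multiples** -/
theorem Good.odd_multiples {O : Sites k} {J : Finset (Fin k)} (h : Good O J) (s B0 m : ℕ) (j n : Fin k → ℤ) 
    (hm : B0 * k + (2 * O.crossings.length + 3 * k + s) < m) (hn : ∀ e, |n e - m * j e| ≤ B0) 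
    (hj : ∀ e, Odd (j e) ↔ e ∈ J) 
    (D : Diagram (O.P ⊕ Ribbon.Pt n)) (hD : Orients D (O.fill n)) : ¬ FSpanLE s D := by
  refine h.odd s n j hj (fun S S' hS => ?_) D hD
  exact near_mul (2 * O.crossings.length + 3 * k + s) B0 m j n hm hn S S' (by push_cast; exact hS)

/-- a small angle -/
theorem small_angle (y : Fin k → ℤ) : ∃ θ : ℝ, ∀ e, Complex.exp ((θ * y e : ℝ) * Complex.I) = 1 ↔ y e = 0 := by
  obtain ⟨Y, hY⟩ : ∃ Y : ℕ, ∀ e, |y e| ≤ Y := by
    refine ⟨∑ e, (y e).natAbs, fun e => ?_⟩
    have h1 : (y e).natAbs ≤ ∑ e, (y e).natAbs := 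
      Finset.single_le_sum (f := fun e => (y e).natAbs) (fun _ _ => Nat.zero_le _) (Finset.mem_univ e)
    rw [Int.abs_eq_natAbs]
    exact_mod_cast h1
  refine ⟨Real.pi / (Y + 1), fun e => ⟨fun h0 => ?_, fun h0 => by simp [h0]⟩⟩
  rw [Complex.exp_eq_one_iff] at h0
  obtain ⟨n, hn⟩ := h0
  have h3 : Real.pi / (Y + 1) * y e = n * (2 * Real.pi) := by
    have h4 := congrArg Complex.im hn
    simp only [Complex.mul_im, Complex.ofReal_re, Complex.I_im, mul_one, Complex.ofReal_im, Complex.I_re, 
      mul_zero, add_zero, Complex.intCast_re, Complex.intCast_im, zero_mul] at h4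
    simp at h4
    linarith
  have hYp : (0 : ℝ) < Y + 1 := by positivity
  have h5 : (y e : ℝ) = n * 2 * (Y + 1) := by
    have hpi := Real.pi_pos
    field_simp at h3
    linarith
  have h6 : y e = n * 2 * (Y + 1) := by exact_mod_cast h5
  by_contra hy0
  have h7 := hY e
  have hn0 : n ≠ 0 := by
    rintro rfl
    exact hy0 (by rw [h6]; ring)
  have h8 : 1 ≤ |n| := Int.one_le_abs hn0
  rw [h6, abs_mul, abs_mul] at h7
  have h9 : |(Y : ℤ) + 1| = Y + 1 := abs_of_nonneg (by positivity)
  have h10 : |(2 : ℤ)| = 2 := rfl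
  rw [h9, h10] at h7
  nlinarith

/-- **the obstruction**: a small Jones polynomial gives a subtorus on which the generating function of the
sets of full rank vanishes -/
theorem Good.obstruction {O : Sites k} {J : Finset (Fin k)} (h : Good O J) (s B0 : ℕ) (n : Fin k → ℤ)
    (hn : ∀ e ∈ J, (2 * (2 * k + 1) ^ (k - 1) * (2 * O.crossings.length + 3 * k + s + B0) : ℤ) ≤ |n e|) 
    (hB : ∀ e ∉ J, |n e| ≤ B0)
    (D : Diagram (O.P ⊕ Ribbon.Pt n)) (hD : Orients D (O.fill n)) (hF : FSpanLE s D) : 
    ∃ y : Fin k → ℤ, (∀ e, y e ≠ 0 ↔ e ∈ J) ∧ 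
      (∀ S S' : Finset (Fin k), 
        |∑ e ∈ S, n e - ∑ e ∈ S', n e| ≤ 2 * O.crossings.length + 3 * k + s → 
          ∑ e ∈ S, y e = ∑ e ∈ S', y e) ∧
      ∀ z : ℂ, z ≠ 0 → ∑ R ∈ J.powerset, 
        (if cutRank O R = cutRank O J then ∏ e ∈ R, (z ^ y e - 1) else 0) = 0 := by
  classical
  have hk := h.pos
  obtain ⟨y, hy0, hy⟩ := direction hk (2 * O.crossings.length + 3 * k + s) B0 (by omega) n J (by
    intro e he
    have := hn e he
    push_cast
    exact this) hB
  refine ⟨y, hy0, fun S S' hS => hy S S' (by push_cast; exact hS), ?_⟩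
  -- on the unit circle
  have hcirc : ∀ θ : ℝ, ∑ R ∈ J.powerset, (if cutRank O R = cutRank O J 
      then ∏ e ∈ R, (Complex.exp (θ * Complex.I) ^ y e - 1) else 0) = 0 := by
    intro θ
    have h1 := h.limit s n y ⟨D, hD, hF⟩ (fun S S' hS => hy S S' (by 
      have := close_of O s n S S' hS
      push_cast
      exact this)) θ
    rw [← h.rank, h.full]
    refine Eq.trans ?_ h1
    apply Finset.sum_subset_zero_on_sdiff (Finset.subset_univ _)
    · intro R hR
      have hR' : ¬ R ⊆ J := by
        intro h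
        exact (Finset.mem_sdiff.1 hR).2 (Finset.mem_powerset.2 h)
      obtain ⟨e, he, heJ⟩ := Finset.not_subset.1 hR'
      have hye : y e = 0 := by
        by_contra h0
        exact heJ ((hy0 e).1 h0)
      have h3 : ∏ e ∈ R, (Complex.exp ((θ * y e : ℝ) * Complex.I) - 1) = 0 := by
        refine Finset.prod_eq_zero he ?_
        rw [hye]
        simp
      rw [h3, ite_self]
    · intro R _
      have : ∏ e ∈ R, (Complex.exp (θ * Complex.I) ^ y e - 1) = 
          ∏ e ∈ R, (Complex.exp ((θ * y e : ℝ) * Complex.I) - 1) := by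
        refine Finset.prod_congr rfl fun e _ => ?_
        rw [← Complex.exp_int_mul]
        congr 2
        push_cast
        ring
      rw [this]
  -- a Laurent polynomial with infinitely many zeros
  set f : ℤ[T;T⁻¹] := ∑ R ∈ J.powerset, 
    (if cutRank O R = cutRank O J then ∏ e ∈ R, (T (y e) - 1) else 0) with hf
  have hev : ∀ u : ℂˣ, ev u f = ∑ R ∈ J.powerset, 
      (if cutRank O R = cutRank O J then ∏ e ∈ R, ((u : ℂ) ^ y e - 1) else 0) := by
    intro u
    rw [hf, map_sum]
    refine Finset.sum_congr rfl fun R _ => ?_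
    split_ifs
    · rw [map_prod]
      refine Finset.prod_congr rfl fun e _ => ?_
      rw [map_sub, map_one, ev_T]
    · exact map_zero _
  have hf0 : f = 0 := by
    obtain ⟨N, p, hp⟩ := LaurentPolynomial.exists_T_pow f
    have hp0 : p = 0 := by
      by_contra hne
      have hmap : p.map (Int.castRingHom ℂ) ≠ 0 := by
        rw [Polynomial.map_ne_zero_iff (Int.castRingHom ℂ).injective_int]
        exact hne
      have hroots : ∀ θ : ℝ, Complex.exp (θ * Complex.I) ∈ (p.map (Int.castRingHom ℂ)).rootSet ℂ := by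
        intro θ
        rw [Polynomial.mem_rootSet]
        refine ⟨hmap, ?_⟩
        set u : ℂˣ := Units.mk0 (Complex.exp (θ * Complex.I)) (Complex.exp_ne_zero _) with hu
        have e1 : ev u (Polynomial.toLaurent p) = 0 := by
          rw [hp, map_mul, hev]
          have := hcirc θ
          rw [show (u : ℂ) = Complex.exp (θ * Complex.I) from rfl, this, zero_mul]
        have e2 : ev u (Polynomial.toLaurent p) = Polynomial.aeval (u : ℂ) (p.map (Int.castRingHom ℂ)) := by
          unfold ev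
          rw [LaurentPolynomial.eval₂_toLaurent, Polynomial.coe_aeval_eq_eval, Polynomial.eval_map]
        exact e2.symm.trans e1
      have hinf : Set.Infinite (Set.range (fun θ : ℝ => Complex.exp (θ * Complex.I))) := by
        have hinj : Set.InjOn (fun θ : ℝ => Complex.exp (θ * Complex.I)) (Set.Ioo 0 1) := by
          intro a ha b hb hab
          simp only at hab
          rw [Complex.exp_eq_exp_iff_exists_int] at hab
          obtain ⟨n, hn⟩ := hab
          have h4 := congrArg Complex.im hn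
          simp at h4
          have hpi := Real.pi_gt_three
          have hn0 : n = 0 := by
            by_contra hne
            have h8 : 1 ≤ |n| := Int.one_le_abs hne
            have h9 : (1 : ℝ) ≤ |(n : ℝ)| := by exact_mod_cast h8
            have h10 : |a - b| < 1 := by
              rw [abs_lt]
              constructor <;> linarith [ha.1, ha.2, hb.1, hb.2]
            have h11 : a - b = n * (2 * Real.pi) := by linarith
            rw [h11, abs_mul, abs_of_pos (show (0 : ℝ) < 2 * Real.pi by positivity)] at h10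
            nlinarith
          rw [hn0] at h4
          simpa using h4
        exact ((Set.Ioo_infinite (show (0 : ℝ) < 1 by norm_num)).image hinj).mono 
          (Set.image_subset_range _ _)
      exact hinf ((Polynomial.rootSet_finite (p.map (Int.castRingHom ℂ)) ℂ).subset (by
        rintro _ ⟨θ, rfl⟩
        exact hroots θ))
    rw [hp0, map_zero] at hp
    have h4 : (T (N : ℤ) : ℤ[T;T⁻¹]) * T (-N) = 1 := by
      rw [← T_add, add_neg_cancel, T_zero]
    calc f = f * T N * T (-N) := by rw [mul_assoc, h4, mul_one]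
      _ = 0 := by rw [← hp, zero_mul]
  intro z hz
  have := hev (Units.mk0 z hz)
  rw [hf0, map_zero] at this
  exact this.symm

/-- **series-parallel** -/
theorem Good.sp {O : Sites k} {J : Finset (Fin k)} (h : Good O J) (hsp : SPred (cutRank O) J) 
    (s B0 : ℕ) (n : Fin k → ℤ)
    (hn : ∀ e ∈ J, (2 * (2 * k + 1) ^ (k - 1) * (2 * O.crossings.length + 3 * k + s + B0) : ℤ) ≤ |n e|) 
    (hB : ∀ e ∉ J, |n e| ≤ B0)
    (D : Diagram (O.P ⊕ Ribbon.Pt n)) (hD : Orients D (O.fill n)) : ¬ FSpanLE s D := by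
  classical
  intro hF
  have hk := h.pos
  obtain ⟨y, hy0, hy⟩ := direction hk (2 * O.crossings.length + 3 * k + s) B0 (by omega) n J (by
    intro e he
    have := hn e he
    push_cast
    exact this) hB
  obtain ⟨θ, hθ⟩ := small_angle y
  have h1 := h.limit s n y ⟨D, hD, hF⟩ (fun S S' hS => hy S S' (by 
    have := close_of O s n S S' hS
    push_cast
    exact this)) θ
  rw [← h.rank] at hsp
  have h2 := kap_ne_zero (cN O) J hsp (cN_rk O) h.simple.1 
    (fun e => Complex.exp ((θ * y e : ℝ) * Complex.I)) 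
    (fun e he => ⟨(Complex.norm_exp_ofReal_mul_I _).le, fun h0 => (hy0 e).2 he ((hθ e).1 h0)⟩) 
    (fun e he f hf hef _ _ => h.simple.2 e he f hf hef)
  apply h2
  unfold kap
  rw [h.full]
  refine Eq.trans ?_ h1
  apply Finset.sum_subset_zero_on_sdiff (Finset.subset_univ _)
  · intro R hR
    have hR' : ¬ R ⊆ J := by
      intro h
      exact (Finset.mem_sdiff.1 hR).2 (Finset.mem_powerset.2 h)
    obtain ⟨e, he, heJ⟩ := Finset.not_subset.1 hR'
    have hye : y e = 0 := by
      by_contra h0
      exact heJ ((hy0 e).1 h0)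
    have h3 : ∏ e ∈ R, (Complex.exp ((θ * y e : ℝ) * Complex.I) - 1) = 0 := 
      Finset.prod_eq_zero he (sub_eq_zero.2 ((hθ e).2 hye))
    rw [h3, ite_self]
  · intro R _
    rfl

end Pool.Agent.Q99.ET
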