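import Pool.Agent.Q99.ET.Arb3
import Pool.Agent.Q99.ET.Count
import Pool.Agent.Q99.ET.Angle
import Pool.Agent.Q99.ET.Main2

/-!
# Highly twisted arborescent links: a large value of the Jones polynomial
-/

set_option autoImplicit false

namespace Pool.Agent.Q99.ET

open Finset LaurentPolynomial Pool.Agent.H891R2.Jones Pool.Agent.H891R2.MT Pool.Agent.H891R2.SI T4b
open Pool.Agent.Y463.CD (zf brk brk_mul expand delta_ne zf_add zf_zero)

variable {k : ℕ}

theorem kept_kept (B R : Finset (Fin k)) : kept B (kept B R) = R := by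
  ext e
  unfold kept
  simp only [Finset.mem_union, Finset.mem_sdiff]
  tauto

/-- the involution -/
def keptEquiv (B : Finset (Fin k)) : Finset (Fin k) ≃ Finset (Fin k) where
  toFun := kept B
  invFun := kept B
  left_inv := kept_kept B
  right_inv := kept_kept B

/-- the state sum as the state sum of the graph with two kinds of weights -/
theorem sum_kapV (Γ : Ribbon k) (B : Finset (Fin k)) (x : Fin k → ℂ) (hx : ∀ e, x e - 1 ≠ 0) (d : ℂ) :
    (d ^ 2) ^ gr Γ Finset.univ * (∑ R : Finset (Fin k), (∏ e ∈ R, (x e - 1)) * d ^ (2 * df Γ B R)) = 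
      (d ^ 2) ^ gr Γ Bᶜ * (∏ e ∈ B, (x e - 1)) * 
        kapV (gr Γ) Finset.univ (fun e => if e ∈ B then d ^ 2 / (x e - 1) else x e - 1) (d ^ 2) := by
  unfold kapV
  rw [Finset.powerset_univ, Finset.mul_sum, Finset.mul_sum]
  rw [← Equiv.sum_comp (keptEquiv B) (fun A => (d ^ 2) ^ gr Γ Bᶜ * (∏ e ∈ B, (x e - 1)) * 
    ((d ^ 2) ^ (gr Γ Finset.univ - gr Γ A) * ∏ e ∈ A, (if e ∈ B then d ^ 2 / (x e - 1) else x e - 1)))]
  refine Finset.sum_congr rfl fun R _ => ?_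
  show _ = (d ^ 2) ^ gr Γ Bᶜ * (∏ e ∈ B, (x e - 1)) * 
    ((d ^ 2) ^ (gr Γ Finset.univ - gr Γ (kept B R)) * 
      ∏ e ∈ kept B R, (if e ∈ B then d ^ 2 / (x e - 1) else x e - 1))
  have hd1 : Disjoint (R \ B) (B \ R) := by
    rw [Finset.disjoint_left]
    intro a ha hb
    exact (Finset.mem_sdiff.1 hb).2 (Finset.mem_sdiff.1 ha).1
  have e1 : ∏ e ∈ kept B R, (if e ∈ B then d ^ 2 / (x e - 1) else x e - 1) = 
      (∏ e ∈ R \ B, (x e - 1)) * ((d ^ 2) ^ (B \ R).card / ∏ e ∈ B \ R, (x e - 1)) := by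
    show ∏ e ∈ (R \ B) ∪ (B \ R), _ = _
    rw [Finset.prod_union hd1]
    congr 1
    · refine Finset.prod_congr rfl fun e he => ?_
      rw [if_neg (Finset.mem_sdiff.1 he).2]
    · rw [← Finset.prod_const, ← Finset.prod_div_distrib]
      refine Finset.prod_congr rfl fun e he => ?_
      rw [if_pos (Finset.mem_sdiff.1 he).1]
  have e2 : ∏ e ∈ B, (x e - 1) = (∏ e ∈ B \ R, (x e - 1)) * ∏ e ∈ B ∩ R, (x e - 1) := by
    rw [← Finset.prod_union (Finset.disjoint_sdiff_inter B R), Finset.sdiff_union_inter]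
  have e3 : ∏ e ∈ R, (x e - 1) = (∏ e ∈ R \ B, (x e - 1)) * ∏ e ∈ B ∩ R, (x e - 1) := by
    rw [Finset.inter_comm, ← Finset.prod_union (Finset.disjoint_sdiff_inter R B), Finset.sdiff_union_inter]
  have hne : ∏ e ∈ B \ R, (x e - 1) ≠ 0 := Finset.prod_ne_zero_iff.2 fun e _ => hx e
  have h1 : gr Γ (kept B R) ≤ gr Γ Finset.univ := (gr_rk Γ).mono (Finset.subset_univ _)
  have h2 : gr Γ (kept B R) ≤ gr Γ Bᶜ + (B \ R).card := ((gr_rk Γ).defect B R).1
  have h3 : gr Γ Finset.univ + df Γ B R = 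
      gr Γ Bᶜ + (gr Γ Finset.univ - gr Γ (kept B R)) + (B \ R).card := by
    unfold df
    have : gr Γ (kept B R) = gr Γ (R \ B ∪ B \ R) := rfl
    omega
  rw [e1, e2, e3, pow_mul]
  calc (d ^ 2) ^ gr Γ Finset.univ * 
      ((∏ e ∈ R \ B, (x e - 1)) * (∏ e ∈ B ∩ R, (x e - 1)) * (d ^ 2) ^ df Γ B R) = 
      (d ^ 2) ^ (gr Γ Finset.univ + df Γ B R) * 
        ((∏ e ∈ R \ B, (x e - 1)) * (∏ e ∈ B ∩ R, (x e - 1))) := by
        rw [pow_add]
        ring
    _ = _ := by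
        rw [h3, pow_add, pow_add]
        field_simp

theorem dd_eq (ψ : ℝ) : dd (2 * ψ) = ((-(2 * Real.sin ψ) : ℝ) : ℂ) := by
  unfold dd
  have e1 : (((2 * ((Real.pi - 2 * ψ) / 4) : ℝ)) : ℂ) = ((Real.pi / 2 - ψ : ℝ) : ℂ) := by
    congr 1
    ring
  have e2 : (((-2 * ((Real.pi - 2 * ψ) / 4) : ℝ)) : ℂ) = -((Real.pi / 2 - ψ : ℝ) : ℂ) := by
    push_cast
    ring
  rw [e1, e2]
  have e3 : -Complex.exp (((Real.pi / 2 - ψ : ℝ) : ℂ) * Complex.I) - 
      Complex.exp (-((Real.pi / 2 - ψ : ℝ) : ℂ) * Complex.I) = 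
      -(2 * Complex.cos ((Real.pi / 2 - ψ : ℝ) : ℂ)) := by
    rw [Complex.two_cos]
    ring
  rw [e3, ← Complex.ofReal_cos, Real.cos_pi_div_two_sub]
  push_cast
  ring

/-- the conditions on the graph: `Γ` is series-parallel, the edges outside `B` form a simple graph, and `Γ`
remains connected when one or two edges of `B` are removed -/
structure Arb (Γ : Ribbon k) (B : Finset (Fin k)) : Prop where
  planar : Γ.Planar
  sp : SPall (gr Γ) Finset.univ
  out : ∀ e ∉ B, ∀ f ∉ B, gr Γ {e, f} = ({e, f} : Finset (Fin k)).card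
  inn : ∀ e ∈ B, ∀ f ∈ B, Γ.comps {e, f}ᶜ = 1

theorem Arb.rank {Γ : Ribbon k} {B : Finset (Fin k)} (h : Arb Γ B) (X : Finset (Fin k)) 
    (hX : Γ.comps X = 1) : gr Γ X = gr Γ Finset.univ := by
  unfold gr
  rw [hX, h.planar.1]

/-- **a large value** -/
theorem Arb.value {Γ : Ribbon k} {B : Finset (Fin k)} (h : Arb Γ B) (hk : 0 < k) (n : Fin k → ℤ) 
    (hn : ∀ e, 64 * Real.pi * (k : ℝ) ^ 2 ≤ |(n e : ℝ)|) : 
    ∃ ε : ℝ, ‖dd ε‖ ≤ 1 ∧ 
      (7 / 4) ^ rN Γ B Finset.univ ≤ ‖ev (pt ε) (T (- ∑ e, n e) * ((mix Γ B).fill n).std.bracket)‖ := by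
  classical
  have i0 : Nonempty (Fin k) := ⟨⟨0, hk⟩⟩
  have hk1 : (1 : ℝ) ≤ k := by exact_mod_cast hk
  obtain ⟨ψ, hψ0, hψ1, hs, hsum⟩ := angle (Finset.univ : Finset (Fin k)) Finset.univ_nonempty 
    (fun e => |(n e : ℝ)|) (fun e _ => by
      rw [Finset.card_univ, Fintype.card_fin]
      exact hn e)
  rw [Finset.card_univ, Fintype.card_fin] at hψ1 hsum
  have hsq : ∀ e, Real.sin (|(n e : ℝ)| * ψ) ^ 2 = Real.sin (n e * ψ) ^ 2 := by
    intro e
    rcases abs_choice (n e : ℝ) with h1 | h1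
    · rw [h1]
    · rw [h1, neg_mul, Real.sin_neg, neg_sq]
  simp only [hsq] at hs hsum
  refine ⟨2 * ψ, ?_⟩
  have hψ2 : ψ < 1 / 128 := by
    refine lt_of_lt_of_le hψ1 ?_
    apply one_div_le_one_div_of_le (by norm_num)
    nlinarith
  have hsin0 : 0 < Real.sin ψ := Real.sin_pos_of_pos_of_lt_pi hψ0 (by
    have := Real.pi_gt_three
    linarith)
  have hsin1 : Real.sin ψ ≤ ψ := Real.sin_le hψ0.le
  set δ : ℝ := 2 * Real.sin ψ with hδ
  have hδ0 : 0 < δ := mul_pos two_pos hsin0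
  have hdd : dd (2 * ψ) = ((-δ : ℝ) : ℂ) := dd_eq ψ
  have hddn : ‖dd (2 * ψ)‖ = δ := by
    rw [hdd, Complex.norm_real, Real.norm_eq_abs, abs_neg, abs_of_pos hδ0]
  set Q : ℝ := δ ^ 2 with hQd
  have hQ : 0 < Q := pow_pos hδ0 2
  have hQs : √Q = δ := by
    rw [hQd, Real.sqrt_sq hδ0.le]
  have hdd2 : dd (2 * ψ) ^ 2 = (Q : ℂ) := by
    rw [hdd, hQd]
    push_cast
    ring
  refine ⟨by rw [hddn]; linarith, ?_⟩
  -- the parameters
  set x : Fin k → ℂ := fun e => Complex.exp ((2 * ψ * n e : ℝ) * Complex.I) with hx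
  have hx1 : ∀ e, ‖x e‖ = 1 := fun e => Complex.norm_exp_ofReal_mul_I _
  have hxre : ∀ e, (x e).re = 1 - 2 * Real.sin (n e * ψ) ^ 2 := by
    intro e
    rw [hx]
    simp only
    rw [Complex.exp_ofReal_mul_I_re]
    have : 2 * ψ * n e = 2 * (n e * ψ) := by ring
    rw [this, Real.cos_two_mul, Real.cos_sq']
    ring
  set a : Fin k → ℝ := fun e => 1 / Real.sin (n e * ψ) ^ 2 with ha
  have hs0 : ∀ e, 0 < Real.sin (n e * ψ) ^ 2 := fun e => 
    lt_of_le_of_ne (sq_nonneg _) (hs e (Finset.mem_univ e)).symm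
  have hlf : ∀ e, Lf (x e) (a e) := by
    intro e
    refine ⟨(hx1 e).le, ?_, ?_⟩
    · rw [ha]
      simp only
      rw [le_div_iff₀ (hs0 e), one_mul]
      exact Real.sin_sq_le_one _
    · rw [norm_sub_one_sq, hx1, hxre, ha]
      have h0 := (hs0 e).ne'
      simp only
      set S := Real.sin (n e * ψ) ^ 2 with hS
      have e1 : (1 : ℝ) ^ 2 - 2 * (1 - 2 * S) + 1 = 4 * S := by ring
      have e2 : (1 : ℝ) / S * (1 - 1 ^ 2) + 1 / S / 4 * (4 * S) = 1 := by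
        field_simp
        norm_num
      rw [e1, e2]
  set D : Fin k → Dat := fun e => ⟨decide (e ∈ B), x e, a e, False⟩ with hD
  have hxne : ∀ e, x e - 1 ≠ 0 := fun e => sub_ne_zero.2 (hlf e).ne_one
  have hcost : 16 * Q * (∑ e, a e) ^ 2 ≤ 1 := by
    have h1 : 0 ≤ ∑ e, a e := Finset.sum_nonneg fun e _ => by
      have := (hlf e).2.1
      linarith
    have h2 : δ * ∑ e, a e ≤ 1 / 4 := by
      have h3 : δ ≤ 1 / (64 * (k : ℝ) ^ 2) := by
        have : (1 : ℝ) / (64 * (k : ℝ) ^ 2) = 2 * (1 / (128 * (k : ℝ) ^ 2)) := by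
          field_simp
          norm_num
        rw [this, hδ]
        linarith
      calc δ * ∑ e, a e ≤ 1 / (64 * (k : ℝ) ^ 2) * (16 * (k : ℝ) ^ 2) := 
            mul_le_mul h3 hsum h1 (by positivity)
        _ = 1 / 4 := by
          field_simp
          norm_num
    have h4 : 0 ≤ δ * ∑ e, a e := mul_nonneg hδ0.le h1
    have h5 : 16 * Q * (∑ e, a e) ^ 2 = 16 * (δ * ∑ e, a e) ^ 2 := by
      rw [hQd]
      ring
    rw [h5]
    nlinarith
  have hInv : Inv Q (gr Γ) Finset.univ D := by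
    refine ⟨fun e _ => ⟨hlf e, fun h => h.elim⟩, ?_, ?_, ?_, ?_, hcost⟩
    · intro e _ hσ
      have h1 : e ∉ B := by simpa [hD] using hσ
      have h2 := h.out e h1 e h1
      rwa [Finset.pair_eq_singleton, Finset.card_singleton] at h2
    · intro e _ hσ
      have h1 : e ∈ B := by simpa [hD] using hσ
      have h2 := h.inn e h1 e h1
      rw [Finset.pair_eq_singleton] at h2
      have h3 : Finset.univ.erase e = ({e} : Finset (Fin k))ᶜ := by
        ext z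
        simp
      rw [h3]
      exact h.rank _ h2
    · intro e _ f _ hef s1 s2 _ _
      have h1 : e ∉ B := by simpa [hD] using s1
      have h2 : f ∉ B := by simpa [hD] using s2
      rw [h.out e h1 f h2, Finset.card_pair hef]
    · intro e _ f _ _ s1 s2 _ _
      have h1 : e ∈ B := by simpa [hD] using s1
      have h2 : f ∈ B := by simpa [hD] using s2
      have h3 : (Finset.univ.erase e).erase f = ({e, f} : Finset (Fin k))ᶜ := by
        ext z
        simp only [Finset.mem_erase, Finset.mem_univ, Finset.mem_compl, Finset.mem_insert, 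
          Finset.mem_singleton, and_true]
        tauto
      rw [h3]
      exact h.rank _ (h.inn e h1 f h2)
  have hlow := kapV_lower Q hQ (gr Γ) Finset.univ h.sp (gr_rk Γ) D hInv
  rw [hQs] at hlow
  have hpot : pot (gr Γ) Finset.univ D = 2 * gr Γ Bᶜ + B.card := by
    unfold pot
    have e1 : (Finset.univ.filter fun e => (D e).σ = false) = Bᶜ := by
      ext e
      simp [hD]
    have e2 : (Finset.univ.filter fun e => (D e).σ = true) = B := by
      ext e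
      simp [hD]
    rw [e1, e2]
  rw [hpot] at hlow
  -- the weights
  have hv : (fun e => (D e).v Q) = fun e => if e ∈ B then dd (2 * ψ) ^ 2 / (x e - 1) else x e - 1 := by
    funext e
    rw [hdd2]
    unfold Dat.v
    simp only [hD, decide_eq_true_eq]
  have hg : ∏ e, (D e).g Q = δ ^ B.card / ∏ e ∈ B, ‖x e - 1‖ := by
    have h1 : ∀ e, (D e).g Q = if e ∈ B then δ / ‖x e - 1‖ else 1 := by
      intro e
      unfold Dat.g Dat.v
      simp only [hD, decide_eq_true_eq]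
      split_ifs with h2
      · rw [norm_div, Complex.norm_of_nonneg hQ.le, hQs, hQd]
        have := hxne e
        have h3 : 0 < ‖x e - 1‖ := norm_pos_iff.2 this
        field_simp
      · rfl
    rw [Finset.prod_congr rfl fun e _ => h1 e, Finset.prod_ite_mem, Finset.univ_inter, 
      Finset.prod_div_distrib, Finset.prod_const]
  rw [hv, hg] at hlow
  -- the expansion
  have hexp := expand_mix Γ h.planar hk B n
  have h2 := congrArg (ev (pt (2 * ψ))) hexp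
  rw [map_mul, map_pow, ev_pt_d, map_sum] at h2
  have h3 : ∑ R : Finset (Fin k), ev (pt (2 * ψ)) ((∏ e ∈ R, (zf (n e) - 1)) * 
      (-T 2 - T (-2)) ^ (2 * df Γ B R)) = 
      ∑ R : Finset (Fin k), (∏ e ∈ R, (x e - 1)) * dd (2 * ψ) ^ (2 * df Γ B R) := by
    refine Finset.sum_congr rfl fun R _ => ?_
    rw [map_mul, map_pow, ev_pt_d, map_prod]
    congr 1
    refine Finset.prod_congr rfl fun e _ => ?_
    rw [map_sub, map_one, ev_pt_zf]
  rw [h3] at h2
  have h4 := sum_kapV Γ B x hxne (dd (2 * ψ))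
  rw [← h2] at h4
  set N := ev (pt (2 * ψ)) (T (- ∑ e, n e) * ((mix Γ B).fill n).std.bracket) with hN
  set K := kapV (gr Γ) Finset.univ (fun e => if e ∈ B then dd (2 * ψ) ^ 2 / (x e - 1) else x e - 1) 
    (dd (2 * ψ) ^ 2) with hK
  rw [← hdd2] at hlow
  have h5 := congrArg norm h4
  rw [norm_mul, norm_mul, norm_mul, norm_mul, norm_pow, norm_pow, norm_pow, norm_pow, norm_pow, hddn, 
    norm_prod] at h5
  set P := ∏ e ∈ B, ‖x e - 1‖ with hP
  have hP0 : 0 < P := Finset.prod_pos fun e _ => norm_pos_iff.2 (hxne e)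
  -- the exponents
  have hr1 : gr Γ Finset.univ ≤ gr Γ Bᶜ + B.card := by
    have := (gr_rk Γ).le_card Bᶜ B
    rwa [Finset.union_compl] at this
  have hr2 : rN Γ B Finset.univ = gr Γ Bᶜ + (B.card + gr Γ Bᶜ - gr Γ Finset.univ) := by
    unfold rN
    rw [← Finset.compl_eq_univ_sdiff, Finset.univ_inter]
  have h6 : δ ^ (2 * gr Γ Finset.univ + rN Γ B Finset.univ) * (7 / 4) ^ gr Γ Finset.univ * 
      (7 / 4) ^ rN Γ B Finset.univ ≤ 
      δ ^ (2 * gr Γ Finset.univ + rN Γ B Finset.univ) * (7 / 4) ^ gr Γ Finset.univ * ‖N‖ := by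
    have e1 : δ ^ (2 * gr Γ Finset.univ + rN Γ B Finset.univ) * (7 / 4) ^ gr Γ Finset.univ * ‖N‖ = 
        δ ^ (2 * gr Γ Bᶜ) * P * ((7 / 4) ^ gr Γ Finset.univ * ‖K‖) := by
      rw [pow_add, pow_mul, pow_mul]
      linear_combination (7 / 4) ^ gr Γ Finset.univ * h5
    have e2 : 2 * gr Γ Finset.univ + rN Γ B Finset.univ = 2 * gr Γ Bᶜ + (gr Γ Finset.univ + B.card) := by
      omega
    have e3 : (7 / 4 : ℝ) ^ gr Γ Finset.univ * (7 / 4) ^ rN Γ B Finset.univ = 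
        (7 / 4) ^ (2 * gr Γ Bᶜ + B.card) := by
      rw [← pow_add]
      congr 1
      omega
    rw [e1, e2, pow_add, pow_add, mul_assoc _ ((7 / 4 : ℝ) ^ gr Γ Finset.univ), e3]
    calc δ ^ (2 * gr Γ Bᶜ) * (δ ^ gr Γ Finset.univ * δ ^ B.card) * (7 / 4) ^ (2 * gr Γ Bᶜ + B.card) = 
        δ ^ (2 * gr Γ Bᶜ) * P * ((7 / 4) ^ (2 * gr Γ Bᶜ + B.card) * 
          (δ ^ gr Γ Finset.univ * (δ ^ B.card / P))) := by
          field_simp
      _ ≤ _ := mul_le_mul_of_nonneg_left hlow (mul_nonneg (pow_nonneg hδ0.le _) hP0.le)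
  exact le_of_mul_le_mul_left h6 (mul_pos (pow_pos hδ0 _) (pow_pos (by norm_num) _))

/-- the rank is at least half of the number of boxes -/
theorem Arb.rank_ge {Γ : Ribbon k} {B : Finset (Fin k)} (h : Arb Γ B) : k ≤ 2 * rN Γ B Finset.univ := by
  have h1 := h.sp.simple_le (gr Γ) Finset.univ (gr_rk Γ) Bᶜ (Finset.subset_univ _) (by
    intro e he
    have h1 := Finset.mem_compl.1 he
    have h2 := h.out e h1 e h1
    rwa [Finset.pair_eq_singleton, Finset.card_singleton] at h2) (by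
    intro e he f hf hef
    rw [h.out e (Finset.mem_compl.1 he) f (Finset.mem_compl.1 hf), Finset.card_pair hef])
  have h2 := h.sp.cosimple_le (gr Γ) Finset.univ (gr_rk Γ) B (Finset.subset_univ _) (by
    intro e he
    have h2 := h.inn e he e he
    rw [Finset.pair_eq_singleton] at h2
    have h3 : Finset.univ.erase e = ({e} : Finset (Fin k))ᶜ := by
      ext z
      simp
    rw [h3]
    exact h.rank _ h2) (by
    intro e he f hf _
    have h3 : (Finset.univ.erase e).erase f = ({e, f} : Finset (Fin k))ᶜ := by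
      ext z
      simp only [Finset.mem_erase, Finset.mem_univ, Finset.mem_compl, Finset.mem_insert, 
        Finset.mem_singleton, and_true]
      tauto
    rw [h3]
    exact h.rank _ (h.inn e he f hf))
  rw [← Finset.compl_eq_univ_sdiff] at h2
  have hr1 : gr Γ Finset.univ ≤ gr Γ Bᶜ + B.card := by
    have := (gr_rk Γ).le_card Bᶜ B
    rwa [Finset.union_compl] at this
  have hr2 : rN Γ B Finset.univ = gr Γ Bᶜ + (B.card + gr Γ Bᶜ - gr Γ Finset.univ) := by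
    unfold rN
    rw [← Finset.compl_eq_univ_sdiff, Finset.univ_inter]
  have h3 := Finset.card_compl_add_card B
  rw [Fintype.card_fin] at h3
  omega

/-! ### diagrams with few crossings -/

theorem norm_ev_T (u : ℂˣ) (hu : ‖(u : ℂ)‖ = 1) (m : ℤ) : ‖ev u (T m)‖ = 1 := by
  rw [ev_T, norm_zpow, hu, one_zpow]

theorem norm_ev_pow (u : ℂˣ) (hu : ‖(u : ℂ)‖ = 1) (f : ℤ[T;T⁻¹]) (hf : Pool.Agent.H891R2.ZO.IsPow f) : 
    ‖ev u f‖ = 1 := by
  obtain ⟨m, h | h⟩ := hf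
  · rw [h, norm_ev_T u hu]
  · rw [h, map_neg, norm_neg, norm_ev_T u hu]

theorem norm_ev_fPoly {P : Type} (D : Diagram P) (u : ℂˣ) (hu : ‖(u : ℂ)‖ = 1) : 
    ‖ev u D.fPoly‖ = ‖ev u D.bracket‖ := by
  classical
  obtain ⟨w, hw, h⟩ := Pool.Agent.Y463.CD.fPoly_pow D
  rw [h, map_mul, norm_mul, norm_ev_pow u hu w hw, one_mul]

theorem norm_ev_le {P : Type} (D : Diagram P) (ε : ℝ) (hε : ‖dd ε‖ ≤ 1) : 
    ‖ev (pt ε) D.fPoly‖ ≤ 2 ^ D.crossings.length := by
  rw [norm_ev_fPoly D (pt ε) (norm_pt ε)]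
  unfold Diagram.bracket
  rw [map_sum]
  refine (norm_sum_le _ _).trans ?_
  have h1 : ∀ s : Fin D.crossings.length → Bool, 
      ‖ev (pt ε) (T (Diagram.weight s) * (-T 2 - T (-2)) ^ (D.loops s - 1))‖ ≤ 1 := by
    intro s
    rw [map_mul, norm_mul, norm_ev_T _ (norm_pt ε), one_mul, map_pow, ev_pt_d, norm_pow]
    exact pow_le_one₀ (norm_nonneg _) hε
  refine (Finset.sum_le_sum fun s _ => h1 s).trans (le_of_eq ?_)
  rw [Finset.sum_const, Finset.card_univ]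
  simp

/-- **highly twisted arborescent links** -/
theorem Arb.main {Γ : Ribbon k} {B : Finset (Fin k)} (h : Arb Γ B) (hk : 0 < k) (n : Fin k → ℤ) 
    (hn : ∀ e, 64 * Real.pi * (k : ℝ) ^ 2 ≤ |(n e : ℝ)|) (D : Diagram ((mix Γ B).P ⊕ Ribbon.Pt n)) 
    (hD : Orients D ((mix Γ B).fill n)) : 
    ∃ ε : ℝ, ‖dd ε‖ ≤ 1 ∧ (7 / 4) ^ k ≤ ‖ev (pt ε) D.fPoly‖ ^ 2 := by
  have i1 : Nonempty ((mix Γ B).P ⊕ Ribbon.Pt n) := ⟨.inl ((mix Γ B).corner ⟨0, hk⟩ false false)⟩
  obtain ⟨ε, h1, h2⟩ := h.value hk n hn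
  refine ⟨ε, h1, ?_⟩
  have b1 : D.bracket = ((mix Γ B).fill n).std.bracket := 
    Pool.Agent.H891R2.MT.T6.bracket_orients D ((mix Γ B).fill n) hD
  rw [norm_ev_fPoly D (pt ε) (norm_pt ε), b1]
  rw [map_mul, norm_mul, norm_ev_T _ (norm_pt ε), one_mul] at h2
  set X := ‖ev (pt ε) ((mix Γ B).fill n).std.bracket‖ with hX
  have h3 := h.rank_ge
  calc (7 / 4 : ℝ) ^ k ≤ (7 / 4) ^ (2 * rN Γ B Finset.univ) := pow_le_pow_right₀ (by norm_num) h3
    _ = ((7 / 4) ^ rN Γ B Finset.univ) ^ 2 := by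
        rw [← pow_mul, mul_comm]
    _ ≤ X ^ 2 := pow_le_pow_left₀ (by positivity) h2 2

theorem two_pow_lt (k c : ℕ) (hk : 0 < k) (hc : 5 * c ≤ 2 * k) : ((2 : ℝ) ^ c) ^ 2 < (7 / 4) ^ k := by
  by_contra hn
  push Not at hn
  have h1 : ((7 / 4 : ℝ) ^ k) ^ 5 ≤ (((2 : ℝ) ^ c) ^ 2) ^ 5 := pow_le_pow_left₀ (by positivity) hn 5
  have h2 : (((2 : ℝ) ^ c) ^ 2) ^ 5 ≤ 16 ^ k := by
    have e1 : (((2 : ℝ) ^ c) ^ 2) ^ 5 = 2 ^ (2 * (5 * c)) := by
      rw [← pow_mul, ← pow_mul]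
      congr 1
      ring
    have e2 : (16 : ℝ) ^ k = 2 ^ (2 * (2 * k)) := by
      have : (16 : ℝ) = 2 ^ 4 := by norm_num
      rw [this, ← pow_mul]
      congr 1
      ring
    rw [e1, e2]
    exact pow_le_pow_right₀ (by norm_num) (by omega)
  have h3 : ((7 / 4 : ℝ) ^ k) ^ 5 = ((7 / 4 : ℝ) ^ 5) ^ k := by
    rw [← pow_mul, ← pow_mul, mul_comm]
  have h4 : (16 : ℝ) ^ k < ((7 / 4 : ℝ) ^ 5) ^ k := pow_lt_pow_left₀ (by norm_num) (by norm_num) hk.ne'
  rw [h3] at h1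
  linarith

end Pool.Agent.Q99.ET
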