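import Pool.Agent.Q99.ET.Dir2

/-!
# Simultaneous approximation: comparison of two coordinates
-/

set_option autoImplicit false

namespace Pool.Agent.Q99.ET

open Finset

/-- a direction: nonzero at the large coordinates, zero at the small ones -/
theorem direction5 {k : ℕ} (hk : 0 < k) (X B0 : ℕ) (hX : 0 < X) (w : Fin k → ℤ) :
    ∃ y : Fin k → ℤ, 
      (∀ e, (2 * (2 * k + 1) ^ (k - 1) * (X + B0) : ℤ) ≤ |w e| → y e ≠ 0) ∧ 
      (∀ e, |w e| ≤ B0 → y e = 0) ∧ 
      (∀ S S' : Finset (Fin k), |∑ e ∈ S, w e - ∑ e ∈ S', w e| ≤ X → 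
        ∑ e ∈ S, y e = ∑ e ∈ S', y e) ∧ 
      (∀ e f, y e = y f → |w e - w f| < 4 * (2 * k + 1) ^ (k - 1) * (X + B0)) ∧ 
      (∀ e f, y e = - y f → |w e + w f| < 4 * (2 * k + 1) ^ (k - 1) * (X + B0)) := by
  set Q : ℕ := 2 * k + 1 with hQ
  set W : ℕ := 2 * Q ^ k * (X + B0) with hW
  have hQ0 : 0 < Q := by omega
  have hW0 : 0 < W := by positivity
  obtain ⟨q, hq0, hqk, y, hy⟩ := dirichlet w Q W hQ0 hW0
  have hWz : (0 : ℤ) < W := by exact_mod_cast hW0
  have hQz : (0 : ℤ) < Q := by exact_mod_cast hQ0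
  have hqz : (1 : ℤ) ≤ q := by exact_mod_cast hq0
  have hqk' : (q : ℤ) ≤ (Q : ℤ) ^ k := by exact_mod_cast hqk
  have hWe : (W : ℤ) = 2 * (Q : ℤ) ^ k * (X + B0) := by rw [hW]; push_cast; ring
  have hQk : (0 : ℤ) ≤ (Q : ℤ) ^ k := by positivity
  have hB0 : (0 : ℤ) ≤ B0 := by positivity
  have hX0 : (0 : ℤ) ≤ X := by positivity
  have two : ∀ (e f : Fin k) (ε : ℤ), (ε = 1 ∨ ε = -1) → y e = ε * y f → 
      |w e - ε * w f| < 4 * (2 * k + 1) ^ (k - 1) * (X + B0) := by
    intro e f ε hε hyy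
    have h1 := hy e
    have h2 := hy f
    have hε1 : |ε| = 1 := by rcases hε with rfl | rfl <;> simp
    have h4 : (Q : ℤ) ^ k = Q * Q ^ (k - 1) := by
      rw [← pow_succ']
      congr 1
      omega
    have h3 : (Q : ℤ) * (q * |w e - ε * w f|) < 2 * W := by
      have e1 : (q : ℤ) * (w e - ε * w f) = (q * w e - W * y e) - ε * (q * w f - W * y f) := by
        rw [hyy]
        ring
      have e2 : (q : ℤ) * |w e - ε * w f| ≤ |q * w e - W * y e| + |q * w f - W * y f| := by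
        have e3 : (q : ℤ) * |w e - ε * w f| = |(q : ℤ) * (w e - ε * w f)| := by
          rw [abs_mul, abs_of_nonneg (show (0 : ℤ) ≤ q by omega)]
        rw [e3, e1]
        refine (abs_sub _ _).trans ?_
        rw [abs_mul ε, hε1, one_mul]
      nlinarith
    have h5 : (2 : ℤ) * W = Q * (4 * (2 * k + 1) ^ (k - 1) * (X + B0)) := by
      rw [hWe, h4, hQ]
      push_cast
      ring
    have h6 : |w e - ε * w f| ≤ q * |w e - ε * w f| := by nlinarith [abs_nonneg (w e - ε * w f)]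
    rw [h5] at h3
    have h7 := lt_of_mul_lt_mul_left h3 hQz.le
    linarith
  refine ⟨y, ?_, ?_, ?_, fun e f h => ?_, fun e f h => ?_⟩
  rotate_left 3
  · have := two e f 1 (Or.inl rfl) (by rw [h, one_mul])
    rwa [one_mul] at this
  · have := two e f (-1) (Or.inr rfl) (by rw [h]; ring)
    rwa [neg_one_mul, sub_neg_eq_add] at this
  rotate_left
  · intro e heB
    · by_contra h0
      have h1 := hy e
      have h2 := heB
      have h3 : 1 ≤ |y e| := Int.one_le_abs h0
      have h4 : (W : ℤ) * |y e| ≤ q * |w e| + |q * w e - W * y e| := by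
        have h5 : (W : ℤ) * |y e| = |(W : ℤ) * y e| := by rw [abs_mul, abs_of_pos hWz]
        have h6 : (q : ℤ) * |w e| = |(q : ℤ) * w e| := by 
          rw [abs_mul, abs_of_nonneg (show (0 : ℤ) ≤ q by omega)]
        have h7 : (W : ℤ) * y e = q * w e - (q * w e - W * y e) := by ring
        rw [h5, h6, h7]
        exact (abs_sub _ _).trans (add_le_add le_rfl (by simp))
      have h5 : (q : ℤ) * |w e| ≤ (Q : ℤ) ^ k * B0 := mul_le_mul hqk' h2 (abs_nonneg _) hQk
      have h6 : (W : ℤ) ≤ W * |y e| := by nlinarith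
      have h7 : 2 * ((Q : ℤ) ^ k * B0) ≤ W := by
        rw [hWe]
        nlinarith
      have h8 : (Q : ℤ) = 2 * k + 1 := by rw [hQ]; push_cast; ring
      have h9 : (1 : ℤ) ≤ k := by exact_mod_cast hk
      have h10 : (Q : ℤ) * W < Q * ((Q : ℤ) ^ k * B0) + W := by nlinarith
      rw [h8] at h10
      nlinarith
  rotate_left
  · intro e heJ h0
    · have h1 := hy e
      rw [h0, mul_zero, sub_zero, abs_mul] at h1
      have h2 := heJ
      have h3 : |(q : ℤ)| = q := abs_of_nonneg (by omega)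
      rw [h3] at h1
      have h4 : (Q : ℤ) ^ k = Q * Q ^ (k - 1) := by
        rw [← pow_succ']
        congr 1
        omega
      have h5 : (2 * (2 * k + 1) ^ (k - 1) * (X + B0) : ℤ) * Q = W := by
        rw [hWe, h4, hQ]
        push_cast
        ring
      have h6 : (W : ℤ) ≤ Q * (q * |w e|) := by
        rw [← h5]
        have h7 : |w e| ≤ q * |w e| := by nlinarith [abs_nonneg (w e)]
        nlinarith
      linarith
  · intro S S' hS
    set c : Fin k → ℤ := fun e => (if e ∈ S then 1 else 0) - (if e ∈ S' then 1 else 0) with hc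
    have hc1 : ∀ e, |c e| ≤ 1 := by
      intro e
      simp only [hc]
      split_ifs <;> simp
    have h1 := sum_diff w S S'
    have h2 := sum_diff y S S'
    rw [h1] at hS
    suffices h : ∑ e, c e * y e = 0 by
      have : ∑ e ∈ S, y e - ∑ e ∈ S', y e = 0 := by rw [h2]; exact h
      linarith
    have h3 : |Q * (q * ∑ e, c e * w e - W * ∑ e, c e * y e)| ≤ k * W := by
      have h4 : (Q : ℤ) * (q * ∑ e, c e * w e - W * ∑ e, c e * y e) = 
          ∑ e, Q * (c e * (q * w e - W * y e)) := by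
        rw [Finset.mul_sum, Finset.mul_sum, ← Finset.sum_sub_distrib, Finset.mul_sum]
        refine Finset.sum_congr rfl fun e _ => ?_
        ring
      rw [h4]
      refine (Finset.abs_sum_le_sum_abs _ _).trans ?_
      refine (Finset.sum_le_sum fun e _ => ?_ : _ ≤ ∑ _e : Fin k, (W : ℤ)).trans (le_of_eq ?_)
      · rw [abs_mul, abs_mul, abs_of_pos hQz]
        have := hy e
        have h5 := hc1 e
        have h6 := abs_nonneg (c e)
        have h7 := abs_nonneg ((q : ℤ) * w e - W * y e)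
        have h8 : |c e| * |(q : ℤ) * w e - W * y e| ≤ |(q : ℤ) * w e - W * y e| := by nlinarith
        nlinarith
      · rw [Finset.sum_const, Finset.card_univ, Fintype.card_fin, nsmul_eq_mul]
    have hS' : |∑ e, c e * w e| ≤ X := hS
    by_contra hne
    have h4 : 1 ≤ |∑ e, c e * y e| := Int.one_le_abs hne
    -- `Q W ≤ Q W |y| ≤ Q q |w| + k W ≤ Q Q^k X + k W`
    have h5 : (Q : ℤ) * (W * |∑ e, c e * y e|) ≤ Q * (q * |∑ e, c e * w e|) + k * W := by
      have h6 : (Q : ℤ) * (W * |∑ e, c e * y e|) = |Q * (W * ∑ e, c e * y e)| := by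
        rw [abs_mul, abs_mul, abs_of_pos hQz, abs_of_pos hWz]
      have h7 : (Q : ℤ) * (q * |∑ e, c e * w e|) = |Q * (q * ∑ e, c e * w e)| := by
        rw [abs_mul, abs_mul, abs_of_pos hQz, abs_of_nonneg (show (0 : ℤ) ≤ q by omega)]
      rw [h6, h7]
      have h8 : (Q : ℤ) * (W * ∑ e, c e * y e) = Q * (q * ∑ e, c e * w e) - 
          Q * (q * ∑ e, c e * w e - W * ∑ e, c e * y e) := by ring
      rw [h8]
      exact (abs_sub _ _).trans (add_le_add le_rfl h3)
    have h6 : (q : ℤ) * |∑ e, c e * w e| ≤ (Q : ℤ) ^ k * X := 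
      mul_le_mul hqk' hS' (abs_nonneg _) (by positivity)
    have h7 : (W : ℤ) ≤ W * |∑ e, c e * y e| := by nlinarith
    have h8 : (Q : ℤ) = 2 * k + 1 := by rw [hQ]; push_cast; ring
    have h9 : (Q : ℤ) * W ≤ Q * ((Q : ℤ) ^ k * X) + k * W := by nlinarith
    have h10 : 2 * ((Q : ℤ) ^ k * X) ≤ W := by 
      rw [hWe]
      nlinarith
    have h11 : (0 : ℤ) ≤ k := by positivity
    rw [h8] at h9
    nlinarith

/-- the same for any finite set of coordinates -/
theorem direction6 {ι : Type} [Fintype ι] [DecidableEq ι] (k : ℕ) (hc : Fintype.card ι = k) (hk : 0 < k) 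
    (X B0 : ℕ) (hX : 0 < X) (w : ι → ℤ) :
    ∃ y : ι → ℤ, 
      (∀ e, (2 * (2 * k + 1) ^ (k - 1) * (X + B0) : ℤ) ≤ |w e| → y e ≠ 0) ∧ 
      (∀ e, |w e| ≤ B0 → y e = 0) ∧ 
      (∀ S S' : Finset ι, |∑ e ∈ S, w e - ∑ e ∈ S', w e| ≤ X → 
        ∑ e ∈ S, y e = ∑ e ∈ S', y e) ∧ 
      (∀ e f, y e = y f → |w e - w f| < 4 * (2 * k + 1) ^ (k - 1) * (X + B0)) ∧ 
      (∀ e f, y e = - y f → |w e + w f| < 4 * (2 * k + 1) ^ (k - 1) * (X + B0)) := by
  set σ : ι ≃ Fin k := Fintype.equivFinOfCardEq hc with hσ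
  obtain ⟨y, h1, h2, h3, h4, h5⟩ := direction5 hk X B0 hX (w ∘ σ.symm)
  refine ⟨y ∘ σ, fun e he => ?_, fun e he => ?_, fun S S' hS => ?_, fun e f he => ?_, fun e f he => ?_⟩
  · exact h1 (σ e) (by simpa using he)
  · exact h2 (σ e) (by simpa using he)
  · have h4 := h3 (S.map σ.toEmbedding) (S'.map σ.toEmbedding) (by
      rw [sum_equiv_map, sum_equiv_map]; exact hS)
    rw [Finset.sum_map, Finset.sum_map] at h4
    exact h4
  · have := h4 (σ e) (σ f) he
    simpa using this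
  · have := h5 (σ e) (σ f) he
    simpa using this

end Pool.Agent.Q99.ET
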