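import Mathlib

/-!
# A multiset of positive integers is determined by the modulus of `∏ (z^a - 1)` on the unit circle
-/

set_option autoImplicit false

namespace Pool.Agent.Q99.ET

open Finset

/-- `|z^a - 1|` at `z = exp(i θ)` -/
noncomputable def mo (θ : ℝ) (a : ℕ) : ℝ := ‖Complex.exp ((θ * a : ℝ) * Complex.I) - 1‖

theorem mo_continuous (a : ℕ) : Continuous (fun θ => mo θ a) := by
  unfold mo
  fun_prop

theorem prod_mo_continuous (s : Multiset ℕ) : Continuous (fun θ => (s.map (fun a => mo θ a)).prod) := 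
  continuous_multiset_prod s fun a _ => mo_continuous a

theorem mo_zero_iff (θ : ℝ) (a : ℕ) : mo θ a = 0 ↔ ∃ n : ℤ, θ * a = n * (2 * Real.pi) := by
  unfold mo
  rw [norm_eq_zero, sub_eq_zero, Complex.exp_eq_one_iff]
  constructor
  · rintro ⟨n, hn⟩
    refine ⟨n, ?_⟩
    have h4 := congrArg Complex.im hn
    simp only [Complex.mul_im, Complex.ofReal_re, Complex.I_im, mul_one, Complex.ofReal_im, Complex.I_re, 
      mul_zero, add_zero, Complex.intCast_re, Complex.intCast_im, zero_mul] at h4
    simpa using h4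
  · rintro ⟨n, hn⟩
    refine ⟨n, ?_⟩
    rw [hn]
    push_cast
    ring

theorem mo_root (M a : ℕ) (ha : 0 < a) (haM : a ≤ M) : mo (2 * Real.pi / M) a = 0 ↔ a = M := by
  have hM : 0 < M := lt_of_lt_of_le ha haM
  have hM' : (0 : ℝ) < M := by exact_mod_cast hM
  rw [mo_zero_iff]
  constructor
  · rintro ⟨n, hn⟩
    have h1 : (a : ℝ) = n * M := by
      have hpi := Real.pi_pos
      field_simp at hn
      nlinarith
    have h2 : (a : ℤ) = n * M := by exact_mod_cast h1
    have h3 : (M : ℤ) ∣ a := ⟨n, by rw [h2, mul_comm]⟩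
    have h4 : M ∣ a := by exact_mod_cast h3
    exact le_antisymm haM (Nat.le_of_dvd ha h4)
  · rintro rfl
    refine ⟨1, ?_⟩
    field_simp
    push_cast
    ring

theorem mult_unique : ∀ (n : ℕ) (s s' : Multiset ℕ), Multiset.card s + Multiset.card s' ≤ n → 
    (∀ a ∈ s, 0 < a) → (∀ a ∈ s', 0 < a) → ∀ g g' : ℝ, 0 < g → 0 < g' → 
    (∀ θ : ℝ, g * (s.map (fun a => mo θ a)).prod = g' * (s'.map (fun a => mo θ a)).prod) → 
    s = s' ∧ g = g' := by
  classical
  intro n
  induction n with
  | zero =>
    intro s s' hc _ _ g g' _ _ h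
    have h1 : s = 0 := Multiset.card_eq_zero.1 (by omega)
    have h2 : s' = 0 := Multiset.card_eq_zero.1 (by omega)
    subst h1 h2
    refine ⟨rfl, ?_⟩
    have := h 0
    simpa using this
  | succ n ih =>
    intro s s' hc hs hs' g g' hg hg' h
    by_cases hemp : s + s' = 0
    · have h1 : Multiset.card s + Multiset.card s' ≤ n := by
        have h2 := congrArg Multiset.card hemp
        rw [Multiset.card_add, Multiset.card_zero] at h2
        omega
      exact ih s s' h1 hs hs' g g' hg hg' h
    have hne : (s + s').toFinset.Nonempty := by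
      rw [Finset.nonempty_iff_ne_empty]
      intro h0
      exact hemp (Multiset.toFinset_eq_empty.1 h0)
    obtain ⟨M, hM, hmax⟩ := (s + s').toFinset.exists_max_image id hne
    rw [Multiset.mem_toFinset] at hM
    have hmax1 : ∀ a ∈ s, a ≤ M := fun a ha => 
      hmax a (Multiset.mem_toFinset.2 (Multiset.mem_add.2 (Or.inl ha)))
    have hmax2 : ∀ a ∈ s', a ≤ M := fun a ha => 
      hmax a (Multiset.mem_toFinset.2 (Multiset.mem_add.2 (Or.inr ha)))
    have hroot := h (2 * Real.pi / M)
    have key : ∀ u : Multiset ℕ, (∀ a ∈ u, 0 < a) → (∀ a ∈ u, a ≤ M) → 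
        ((u.map (fun a => mo (2 * Real.pi / M) a)).prod = 0 ↔ M ∈ u) := by
      intro u hu hu'
      rw [Multiset.prod_eq_zero_iff, Multiset.mem_map]
      constructor
      · rintro ⟨a, ha, h0⟩
        have := (mo_root M a (hu a ha) (hu' a ha)).1 h0
        rwa [← this]
      · intro hMu
        exact ⟨M, hMu, (mo_root M M (hu M hMu) le_rfl).2 rfl⟩
    have k1 := key s hs hmax1
    have k2 := key s' hs' hmax2
    have hiff : M ∈ s ↔ M ∈ s' := by
      rw [← k1, ← k2]
      constructor
      · intro h0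
        rw [h0, mul_zero] at hroot
        exact (mul_eq_zero.1 hroot.symm).resolve_left hg'.ne'
      · intro h0
        rw [h0, mul_zero] at hroot
        exact (mul_eq_zero.1 hroot).resolve_left hg.ne'
    have hMs : M ∈ s := by
      rcases Multiset.mem_add.1 hM with h1 | h1
      · exact h1
      · exact hiff.2 h1
    have hMs' : M ∈ s' := hiff.1 hMs
    obtain ⟨t, rfl⟩ := Multiset.exists_cons_of_mem hMs
    obtain ⟨t', rfl⟩ := Multiset.exists_cons_of_mem hMs'
    have hM0 : 0 < M := hs M (Multiset.mem_cons_self _ _)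
    have hM0' : (0 : ℝ) < M := by exact_mod_cast hM0
    rw [Multiset.card_cons, Multiset.card_cons] at hc
    -- cancel the factor
    have hdense : Dense {θ : ℝ | mo θ M = 0}ᶜ := by
      apply Set.Countable.dense_compl ℝ
      refine (Set.countable_range (fun n : ℤ => (n * (2 * Real.pi) / M : ℝ))).mono ?_
      intro θ hθ
      obtain ⟨n, hn⟩ := (mo_zero_iff θ M).1 hθ
      refine ⟨n, ?_⟩
      show (n * (2 * Real.pi) / M : ℝ) = θ
      rw [← hn]
      field_simp
    have hfun : (fun θ : ℝ => g * (t.map (fun a => mo θ a)).prod) = 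
        (fun θ : ℝ => g' * (t'.map (fun a => mo θ a)).prod) := by
      refine Continuous.ext_on hdense ((prod_mo_continuous t).const_mul g |> fun h => h) 
        ((prod_mo_continuous t').const_mul g' |> fun h => h) ?_
      intro θ hθ
      have h1 := h θ
      rw [Multiset.map_cons, Multiset.map_cons, Multiset.prod_cons, Multiset.prod_cons] at h1
      have h2 : mo θ M ≠ 0 := hθ
      show g * (t.map (fun a => mo θ a)).prod = g' * (t'.map (fun a => mo θ a)).prod
      apply mul_left_cancel₀ h2
      linear_combination h1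
    obtain ⟨e1, e2⟩ := ih t t' (by omega) (fun a ha => hs a (Multiset.mem_cons_of_mem ha)) 
      (fun a ha => hs' a (Multiset.mem_cons_of_mem ha)) g g' hg hg' (fun θ => congrFun hfun θ)
    exact ⟨by rw [e1], e2⟩

/-- the form for families -/
theorem family_unique {k k' : ℕ} (y : Fin k → ℤ) (y' : Fin k' → ℤ) (hy : ∀ e, y e ≠ 0) (hy' : ∀ e, y' e ≠ 0)
    (g g' : ℝ) (hg : 0 < g) (hg' : 0 < g') 
    (h : ∀ θ : ℝ, g * ∏ e, ‖Complex.exp ((θ * y e : ℝ) * Complex.I) - 1‖ = 
      g' * ∏ e, ‖Complex.exp ((θ * y' e : ℝ) * Complex.I) - 1‖) : 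
    g = g' ∧ ∃ σ : Fin k ≃ Fin k', ∀ e, y e = y' (σ e) ∨ y e = - y' (σ e) := by
  classical
  have habs : ∀ (θ : ℝ) (x : ℤ), ‖Complex.exp ((θ * x : ℝ) * Complex.I) - 1‖ = mo θ x.natAbs := by
    intro θ x
    unfold mo
    obtain ⟨a, rfl | rfl⟩ := Int.eq_nat_or_neg x
    · rw [Int.natAbs_natCast]
      push_cast
      rfl
    · rw [Int.natAbs_neg, Int.natAbs_natCast]
      have h1 : (((θ * ((-(a : ℤ) : ℤ) : ℝ) : ℝ)) : ℂ) * Complex.I = 
          -((((θ * (a : ℝ) : ℝ)) : ℂ) * Complex.I) := by
        push_cast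
        ring
      rw [h1, Complex.exp_neg]
      set w := Complex.exp ((((θ * (a : ℝ) : ℝ)) : ℂ) * Complex.I) with hw
      have hw1 : ‖w‖ = 1 := Complex.norm_exp_ofReal_mul_I _
      have hw0 : w ≠ 0 := by
        intro h0
        rw [h0, norm_zero] at hw1
        exact zero_ne_one hw1
      have h2 : w⁻¹ - 1 = -(w⁻¹ * (w - 1)) := by
        rw [mul_sub, inv_mul_cancel₀ hw0]
        ring
      rw [h2, norm_neg, norm_mul, norm_inv, hw1, inv_one, one_mul]
  set s : Multiset ℕ := (Finset.univ : Finset (Fin k)).val.map (fun e => (y e).natAbs) with hs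
  set s' : Multiset ℕ := (Finset.univ : Finset (Fin k')).val.map (fun e => (y' e).natAbs) with hs'
  have h1 : s = s' ∧ g = g' := by
    refine mult_unique _ s s' le_rfl ?_ ?_ g g' hg hg' ?_
    · intro a ha
      obtain ⟨e, _, rfl⟩ := Multiset.mem_map.1 ha
      exact Int.natAbs_pos.2 (hy e)
    · intro a ha
      obtain ⟨e, _, rfl⟩ := Multiset.mem_map.1 ha
      exact Int.natAbs_pos.2 (hy' e)
    · intro θ
      have h2 := h θ
      simp only [habs] at h2
      rw [hs, hs', Multiset.map_map, Multiset.map_map]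
      exact h2
  refine ⟨h1.2, ?_⟩
  have hcount : ∀ v : ℕ, Nonempty ({e : Fin k // (y e).natAbs = v} ≃ {e : Fin k' // (y' e).natAbs = v}) := by
    intro v
    apply Fintype.card_eq.1
    have h2 := congrArg (Multiset.count v) h1.1
    rw [hs, hs', Multiset.count_map, Multiset.count_map] at h2
    rw [Fintype.card_subtype, Fintype.card_subtype]
    have h3 : ∀ {m : ℕ} (f : Fin m → ℕ), (Finset.univ.filter (fun e => f e = v)).card = 
        Multiset.card (Multiset.filter (fun e => v = f e) (Finset.univ : Finset (Fin m)).val) := by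
      intro m f
      rw [Finset.card_def, Finset.filter_val]
      congr 1
      apply Multiset.filter_congr
      intro e _
      exact eq_comm
    rw [h3, h3]
    exact h2
  refine ⟨Equiv.ofFiberEquiv (fun v => Classical.choice (hcount v)), fun e => ?_⟩
  have h2 := Equiv.ofFiberEquiv_map (fun v => Classical.choice (hcount v)) e
  exact Int.natAbs_eq_natAbs_iff.1 h2.symm

end Pool.Agent.Q99.ET
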