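import Pool.Agent.Q99.ET.Pair3
import Pool.Agent.Q99.ET.Dir3
import Pool.Agent.Q99.ET.Multi

/-!
# Two families with equal Jones polynomials: the leading coefficients
-/

set_option autoImplicit false

namespace Pool.Agent.Q99.ET

open Finset LaurentPolynomial Pool.Agent.H891R2.Jones Pool.Agent.H891R2.MT Pool.Agent.H891R2.SI T4b
open Pool.Agent.Y463.CD (zf brk brk_mul expand delta_ne zf_add zf_zero cluster Adj ev8 ev8_d fPoly_pow)
open Pool.Agent.H891R2.ZO (IsPow)

variable {k k' : ℕ}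

/-- the generating function of the sets of full rank -/
noncomputable def gen (O : Sites k) (y : Fin k → ℤ) (θ : ℝ) : ℂ := 
  ∑ R : Finset (Fin k), (if cN O R = cN O Finset.univ 
      then ∏ e ∈ R, (Complex.exp ((θ * y e : ℝ) * Complex.I) - 1) else 0)

/-- the values of the states near `exp(π i/4)` -/
def Val (O : Sites k) (g : ℤ[T;T⁻¹]) : Prop := 
  ∀ R : Finset (Fin k), ∃ G : ℤ[T;T⁻¹], (-T 2 - T (-2)) ^ (Rᶜ).card * (O.state Rᶜ).std.bracket = 
        (-T 2 - T (-2)) ^ (nc O ∅ - 1) * G ∧ 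
      ev8 G = if cN O R = cN O Finset.univ then ev8 g else 0

/-- closed diagrams -/
theorem val_closed (O : Sites k) (hk : 0 < k) (hO : O.Connected) (hd : ∀ p, Even (degree O p)) 
    (g : ℤ[T;T⁻¹]) (hg : O.cut.std.bracket = (-T 2 - T (-2)) ^ (nc O ∅ - 1) * g) : Val O g :=
  state_value O hk hO hd g hg

theorem cN_one (O : Sites k) (hk : 0 < k) (hO : O.Connected) (hp : nc O ∅ = 1) (R : Finset (Fin k)) : 
    cN O R = R.card := by
  have h1 := cN_eq O hk hO R
  have h2 := nc_pos O hk Rᶜ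
  have h3 := nc_le O Rᶜ
  omega

/-- one piece -/
theorem val_one (O : Sites k) (hk : 0 < k) (hO : O.Connected) (hp : nc O ∅ = 1) : 
    Val O O.cut.std.bracket := by
  intro R
  have h1 := cN_one O hk hO hp R
  have h2 := cN_one O hk hO hp Finset.univ
  rw [Finset.card_univ, Fintype.card_fin] at h2
  refine ⟨(-T 2 - T (-2)) ^ (Rᶜ).card * (O.state Rᶜ).std.bracket, by rw [hp, Nat.sub_self, pow_zero, 
    one_mul], ?_⟩
  have h3 := Finset.card_compl_add_card R
  rw [Fintype.card_fin] at h3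
  by_cases h : cN O R = cN O Finset.univ
  · have h4 : (Rᶜ).card = 0 := by omega
    rw [if_pos h, h4, pow_zero, one_mul, Finset.card_eq_zero.1 h4]
    rfl
  · have h4 : (Rᶜ).card ≠ 0 := by omega
    rw [if_neg h, map_mul, map_pow, ev8_d, zero_pow h4, zero_mul]

/-- the limit of one family -/
theorem lim_value (O : Sites k) (hk : 0 < k) (hO : O.Connected) (g : ℤ[T;T⁻¹]) (hV : Val O g) 
    (w y : Fin k → ℤ) (θ : ℝ) :
    Filter.Tendsto (fun t : ℕ => ‖dd (θ / (t + 1 : ℝ))‖ ^ cN O Finset.univ * 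
      ‖ev (pt (θ / (t + 1 : ℝ))) (NN O (w + ((t + 1 : ℕ) : ℤ) • y))‖) Filter.atTop 
      (nhds (‖gen O y θ‖ * ‖ev8 g‖)) := by
  classical
  choose G hG1 hG2 using hV
  set H : ℝ → ℂ := fun ε => ∑ R : Finset (Fin k), (∏ e ∈ R, (Complex.exp ((ε * w e : ℝ) * Complex.I) * 
    Complex.exp ((θ * y e : ℝ) * Complex.I) - 1)) * ev (pt ε) (G R) with hH
  have hHc : Continuous H := by
    rw [hH]
    refine continuous_finsetSum _ fun R _ => ?_
    refine Continuous.mul ?_ (ev_continuous _)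
    refine continuous_finsetProd _ fun e _ => ?_
    fun_prop
  have hH0 : H 0 = gen O y θ * ev8 g := by
    unfold gen
    rw [hH, Finset.sum_mul]
    refine Finset.sum_congr rfl fun R _ => ?_
    rw [ev_zero, hG2]
    by_cases hd : cN O R = cN O Finset.univ
    · rw [if_pos hd, if_pos hd]
      congr 1
      refine Finset.prod_congr rfl fun e _ => ?_
      simp
    · rw [if_neg hd, if_neg hd, mul_zero, zero_mul]
  have hlim : Filter.Tendsto (fun t : ℕ => θ / (t + 1 : ℝ)) Filter.atTop (nhds 0) := by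
    have h1 := (tendsto_one_div_add_atTop_nhds_zero_nat (𝕜 := ℝ)).const_mul θ
    rw [mul_zero] at h1
    refine h1.congr fun t => ?_
    rw [mul_one_div]
  have hval : ∀ t : ℕ, ‖dd (θ / (t + 1 : ℝ))‖ ^ cN O Finset.univ * 
      ‖ev (pt (θ / (t + 1 : ℝ))) (NN O (w + ((t + 1 : ℕ) : ℤ) • y))‖ = ‖H (θ / (t + 1 : ℝ))‖ := by
    intro t
    set ε : ℝ := θ / (t + 1 : ℝ) with hε
    have ht : ε * (t + 1) = θ := by
      rw [hε]
      field_simp
    have h4 := expand_cut O hk hO (w + ((t + 1 : ℕ) : ℤ) • y) G hG1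
    have h5 := congrArg (ev (pt ε)) h4
    change ev (pt ε) ((-T 2 - T (-2)) ^ cN O Finset.univ * NN O (w + ((t + 1 : ℕ) : ℤ) • y)) = _ at h5
    rw [map_mul, map_pow, ev_pt_d, map_sum] at h5
    have h6 : ∑ R : Finset (Fin k), ev (pt ε) ((∏ e ∈ R, (zf ((w + ((t + 1 : ℕ) : ℤ) • y) e) - 1)) * G R) 
        = H ε := by
      rw [hH]
      refine Finset.sum_congr rfl fun R _ => ?_
      rw [map_mul, map_prod]
      congr 1
      refine Finset.prod_congr rfl fun e _ => ?_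
      rw [map_sub, map_one, ev_pt_zf, ← Complex.exp_add]
      congr 2
      rw [← ht]
      simp only [Pi.add_apply, Pi.smul_apply, smul_eq_mul]
      push_cast
      ring
    rw [h6] at h5
    rw [← h5, norm_mul, norm_pow]
  have h1 : Filter.Tendsto (fun t : ℕ => ‖H (θ / (t + 1 : ℝ))‖) Filter.atTop (nhds ‖H 0‖) := 
    ((hHc.tendsto 0).comp hlim).norm
  rw [hH0, norm_mul] at h1
  exact h1.congr fun t => (hval t).symm

/-- **leading coefficients** -/
theorem limit_both (O : Sites k) (hk : 0 < k) (hO : O.Connected) (g : ℤ[T;T⁻¹]) (hV : Val O g) 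
    (O' : Sites k') (hk' : 0 < k') (hO' : O'.Connected) (g' : ℤ[T;T⁻¹]) (hV' : Val O' g') 
    (hr : cN O Finset.univ = cN O' Finset.univ)
    (w y : Fin k → ℤ) (w' y' : Fin k' → ℤ) (n : ℕ) (b a c : ℤ) (hb : -2 ≤ b) 
    (hb' : b ≤ 2) (h : NN O w = (-1) ^ n * T b * zf a * NN O' w')
    (h1 : ∀ S S' : Finset (Fin k), |nS w S - nS w S'| ≤ 
      2 * (O.crossings.length + O'.crossings.length) + 2 * (k + k') + 1 → nS y S = nS y S')
    (h2 : ∀ S S' : Finset (Fin k'), |nS w' S - nS w' S'| ≤ 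
      2 * (O.crossings.length + O'.crossings.length) + 2 * (k + k') + 1 → nS y' S = nS y' S')
    (h3 : ∀ (S : Finset (Fin k)) (S' : Finset (Fin k')), |nS w S - (nS w' S' + a)| ≤ 
      2 * (O.crossings.length + O'.crossings.length) + 2 * (k + k') + 1 → nS y S = nS y' S' + c) 
    (θ : ℝ) : ‖gen O y θ‖ * ‖ev8 g‖ = ‖gen O' y' θ‖ * ‖ev8 g'‖ := by
  have l1 := lim_value O hk hO g hV w y θ
  have l2 := lim_value O' hk' hO' g' hV' w' y' θ
  refine tendsto_nhds_unique l1 (l2.congr fun t => ?_)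
  set ε : ℝ := θ / (t + 1 : ℝ) with hε
  have h0 := rigid_pair O hk hO O' hk' hO' w (((t + 1 : ℕ) : ℤ) • y) w' (((t + 1 : ℕ) : ℤ) • y') n b a 
    (((t + 1 : ℕ) : ℤ) * c) hb hb' h (fun S S' hc => by rw [nS_smul, nS_smul, h1 S S' hc]) 
    (fun S S' hc => by rw [nS_smul, nS_smul, h2 S S' hc])
    (fun S S' hc => by rw [nS_smul, nS_smul, h3 S S' hc, mul_add])
  have h7 : ‖ev (pt ε) ((-1) ^ n * T b * zf (a + ((t + 1 : ℕ) : ℤ) * c))‖ = 1 := by
    rw [map_mul, map_mul, map_pow, map_neg, map_one, ev_T, ev_pt_zf, norm_mul, norm_mul, norm_pow, 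
      norm_neg, norm_one, one_pow, norm_zpow, norm_pt, one_zpow, Complex.norm_exp_ofReal_mul_I]
    norm_num
  rw [h0, map_mul, norm_mul, h7, one_mul, hr]

/-- **smaller rank** -/
theorem limit_less (O : Sites k) (hk : 0 < k) (hO : O.Connected) (g : ℤ[T;T⁻¹]) (hV : Val O g) 
    (O' : Sites k') (hk' : 0 < k') (hO' : O'.Connected)
    (w y : Fin k → ℤ) (w' y' : Fin k' → ℤ) (n : ℕ) (b a c : ℤ) (hb : -2 ≤ b) 
    (hb' : b ≤ 2) (h : NN O w = (-1) ^ n * T b * zf a * NN O' w')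
    (h1 : ∀ S S' : Finset (Fin k), |nS w S - nS w S'| ≤ 
      2 * (O.crossings.length + O'.crossings.length) + 2 * (k + k') + 1 → nS y S = nS y S')
    (h2 : ∀ S S' : Finset (Fin k'), |nS w' S - nS w' S'| ≤ 
      2 * (O.crossings.length + O'.crossings.length) + 2 * (k + k') + 1 → nS y' S = nS y' S')
    (h3 : ∀ (S : Finset (Fin k)) (S' : Finset (Fin k')), |nS w S - (nS w' S' + a)| ≤ 
      2 * (O.crossings.length + O'.crossings.length) + 2 * (k + k') + 1 → nS y S = nS y' S' + c) 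
    (θ : ℝ) (J' : Finset (Fin k')) (hJ' : ∀ e ∉ J', Complex.exp ((θ * y' e : ℝ) * Complex.I) = 1)
    (hr : cN O' J' < cN O Finset.univ) : ‖gen O y θ‖ * ‖ev8 g‖ = 0 := by
  have l1 := lim_value O hk hO g hV w y θ
  obtain ⟨m, K, hm, hK⟩ := pair_bound O' hk' hO' w' y' θ J' hJ' (cN O Finset.univ) hr
  refine tendsto_nhds_unique l1 ?_
  have hlim : Filter.Tendsto (fun t : ℕ => θ / (t + 1 : ℝ)) Filter.atTop (nhds 0) := by
    have h1 := (tendsto_one_div_add_atTop_nhds_zero_nat (𝕜 := ℝ)).const_mul θ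
    rw [mul_zero] at h1
    refine h1.congr fun t => ?_
    rw [mul_one_div]
  have hz : Filter.Tendsto (fun t : ℕ => ∑ R, ‖dd (θ / (t + 1 : ℝ))‖ ^ m R * K R) Filter.atTop 
      (nhds 0) := by
    have h1 : Filter.Tendsto (fun t : ℕ => ‖dd (θ / (t + 1 : ℝ))‖) Filter.atTop (nhds ‖dd 0‖) :=
      ((dd_continuous.norm).tendsto 0).comp hlim
    rw [dd_zero, norm_zero] at h1
    have h2 : (0 : ℝ) = ∑ R, (0 : ℝ) ^ m R * K R := by
      rw [Finset.sum_eq_zero]
      intro R _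
      rw [zero_pow (hm R).ne', zero_mul]
    rw [h2]
    exact tendsto_finsetSum _ fun R _ => (h1.pow (m R)).mul_const (K R)
  refine squeeze_zero (fun t => by positivity) (fun t => ?_) hz
  set ε : ℝ := θ / (t + 1 : ℝ) with hε
  have ht : ε * (t + 1) = θ := by
    rw [hε]
    field_simp
  have h0 := rigid_pair O hk hO O' hk' hO' w (((t + 1 : ℕ) : ℤ) • y) w' (((t + 1 : ℕ) : ℤ) • y') n b a 
    (((t + 1 : ℕ) : ℤ) * c) hb hb' h (fun S S' hc => by rw [nS_smul, nS_smul, h1 S S' hc]) 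
    (fun S S' hc => by rw [nS_smul, nS_smul, h2 S S' hc])
    (fun S S' hc => by rw [nS_smul, nS_smul, h3 S S' hc, mul_add])
  have h7 : ‖ev (pt ε) ((-1) ^ n * T b * zf (a + ((t + 1 : ℕ) : ℤ) * c))‖ = 1 := by
    rw [map_mul, map_mul, map_pow, map_neg, map_one, ev_T, ev_pt_zf, norm_mul, norm_mul, norm_pow, 
      norm_neg, norm_one, one_pow, norm_zpow, norm_pt, one_zpow, Complex.norm_exp_ofReal_mul_I]
    norm_num
  rw [h0, map_mul, norm_mul, h7, one_mul]
  exact hK ε ((t + 1 : ℕ) : ℤ) (by push_cast; exact ht)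

/-- a common direction for two families, with the comparison of the single coordinates -/
theorem direction_pair2 (X B0 : ℕ) (hX : 0 < X) (n : Fin k → ℤ) (n' : Fin k' → ℤ) (a : ℤ) :
    ∃ (y : Fin k → ℤ) (y' : Fin k' → ℤ) (c : ℤ), 
      (∀ e, (2 * (2 * (k + k' + 1) + 1) ^ (k + k') * (X + B0) : ℤ) ≤ |n e| → y e ≠ 0) ∧ 
      (∀ e, |n e| ≤ B0 → y e = 0) ∧ 
      (∀ e, (2 * (2 * (k + k' + 1) + 1) ^ (k + k') * (X + B0) : ℤ) ≤ |n' e| → y' e ≠ 0) ∧ 
      (∀ e, |n' e| ≤ B0 → y' e = 0) ∧ 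
      (∀ S S' : Finset (Fin k), |nS n S - nS n S'| ≤ X → nS y S = nS y S') ∧ 
      (∀ S S' : Finset (Fin k'), |nS n' S - nS n' S'| ≤ X → nS y' S = nS y' S') ∧ 
      (∀ (S : Finset (Fin k)) (S' : Finset (Fin k')), |nS n S - (nS n' S' + a)| ≤ X → 
        nS y S = nS y' S' + c) ∧ 
      (∀ (e : Fin k) (f : Fin k'), y e = y' f → 
        |n e - n' f| < 4 * (2 * (k + k' + 1) + 1) ^ (k + k') * (X + B0)) ∧ 
      (∀ (e : Fin k) (f : Fin k'), y e = - y' f → 
        |n e + n' f| < 4 * (2 * (k + k' + 1) + 1) ^ (k + k') * (X + B0)) := by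
  classical
  let i1 : Fin k ↪ Option (Fin k ⊕ Fin k') := ⟨fun e => some (Sum.inl e), fun a b h => by simpa using h⟩
  let i2 : Fin k' ↪ Option (Fin k ⊕ Fin k') := ⟨fun e => some (Sum.inr e), fun a b h => by simpa using h⟩
  let w : Option (Fin k ⊕ Fin k') → ℤ := fun x => x.elim a (Sum.elim n n')
  obtain ⟨Y, h1, h2, h3, h4, h5⟩ := direction6 (k + k' + 1) (by simp) (Nat.succ_pos _) X B0 hX w
  have hpow : (2 * (2 * ((k + k' + 1 : ℕ) : ℤ) + 1) ^ (k + k' + 1 - 1) * (X + B0) : ℤ) = 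
      2 * (2 * (k + k' + 1) + 1) ^ (k + k') * (X + B0) := by
    rw [Nat.add_sub_cancel]
    push_cast
    ring
  have hpow4 : (4 * (2 * ((k + k' + 1 : ℕ) : ℤ) + 1) ^ (k + k' + 1 - 1) * (X + B0) : ℤ) = 
      4 * (2 * (k + k' + 1) + 1) ^ (k + k') * (X + B0) := by
    rw [Nat.add_sub_cancel]
    push_cast
    ring
  rw [hpow] at h1
  rw [hpow4] at h4 h5
  have m1 : ∀ (f : Option (Fin k ⊕ Fin k') → ℤ) (S : Finset (Fin k)), 
      ∑ e ∈ S.map i1, f e = nS (fun e => f (some (Sum.inl e))) S := by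
    intro f S
    rw [Finset.sum_map]
    rfl
  have m2 : ∀ (f : Option (Fin k ⊕ Fin k') → ℤ) (S : Finset (Fin k')), 
      ∑ e ∈ S.map i2, f e = nS (fun e => f (some (Sum.inr e))) S := by
    intro f S
    rw [Finset.sum_map]
    rfl
  have m3 : ∀ (f : Option (Fin k ⊕ Fin k') → ℤ) (S : Finset (Fin k')), 
      ∑ e ∈ insert none (S.map i2), f e = nS (fun e => f (some (Sum.inr e))) S + f none := by
    intro f S
    rw [Finset.sum_insert, m2, add_comm]
    intro h
    obtain ⟨e, _, he⟩ := Finset.mem_map.1 h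
    simp [i2] at he
  refine ⟨fun e => Y (some (Sum.inl e)), fun e => Y (some (Sum.inr e)), Y none, 
    fun e he => h1 _ he, fun e he => h2 _ he, fun e he => h1 _ he, fun e he => h2 _ he, 
    fun S S' hS => ?_, fun S S' hS => ?_, fun S S' hS => ?_, fun e f h => h4 _ _ h, 
    fun e f h => h5 _ _ h⟩
  · have := h3 (S.map i1) (S'.map i1) (by rw [m1, m1]; exact hS)
    rwa [m1, m1] at this
  · have := h3 (S.map i2) (S'.map i2) (by rw [m2, m2]; exact hS)
    rwa [m2, m2] at this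
  · have := h3 (S.map i1) (insert none (S'.map i2)) (by rw [m1, m3]; exact hS)
    rwa [m1, m3] at this

/-- the generating function for one piece -/
theorem gen_one (O : Sites k) (hk : 0 < k) (hO : O.Connected) (hp : nc O ∅ = 1) (y : Fin k → ℤ) (θ : ℝ) :
    gen O y θ = ∏ e, (Complex.exp ((θ * y e : ℝ) * Complex.I) - 1) := by
  have hcN := cN_one O hk hO hp
  unfold gen
  rw [Finset.sum_eq_single Finset.univ]
  · rw [if_pos rfl]
  · intro R _ hR
    rw [if_neg]
    rw [hcN, hcN, Finset.card_univ, Fintype.card_fin]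
    intro h
    exact hR ((Finset.card_eq_iff_eq_univ R).1 (by rw [h, Fintype.card_fin]))
  · intro h
    exact absurd (Finset.mem_univ _) h

/-- a diagram with nonzero determinant is connected -/
theorem nc_of_det (O : Sites k) (hk : 0 < k) (h : det O.cut ≠ 0) : nc O ∅ = 1 := by
  obtain ⟨G, hG⟩ := bracket_dvd O ∅
  have h1 := nc_pos O hk ∅
  by_contra hne
  apply h
  have h2 : ev8 O.cut.std.bracket = 0 := by
    have h3 : O.cut.std.bracket = (-T 2 - T (-2)) ^ (nc O ∅ - 1) * G := hG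
    rw [h3, map_mul, map_pow, ev8_d, zero_pow (by omega), zero_mul]
  show ‖ev8 O.cut.std.bracket‖ = 0
  rw [h2, norm_zero]

/-- **one piece: the twist numbers** -/
theorem twist_numbers (hk : 0 < k) (hk' : 0 < k') (O : Sites k) (O' : Sites k') (hO : O.Connected) 
    (hO' : O'.Connected) (hdet : det O.cut ≠ 0) (hdet' : det O'.cut ≠ 0)
    (n : Fin k → ℤ) (n' : Fin k' → ℤ)
    (hn : ∀ e, (2 * (2 * (k + k' + 1) + 1) ^ (k + k') * 
      (2 * (O.crossings.length + O'.crossings.length) + 2 * (k + k') + 1) : ℤ) ≤ |n e|) 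
    (hn' : ∀ e, (2 * (2 * (k + k' + 1) + 1) ^ (k + k') * 
      (2 * (O.crossings.length + O'.crossings.length) + 2 * (k + k') + 1) : ℤ) ≤ |n' e|) 
    (D : Diagram (O.P ⊕ Ribbon.Pt n)) (hD : Orients D (O.fill n)) 
    (D' : Diagram (O'.P ⊕ Ribbon.Pt n')) (hD' : Orients D' (O'.fill n')) (hF : D.fPoly = D'.fPoly) : 
    det O.cut = det O'.cut ∧ ∃ σ : Fin k ≃ Fin k', ∀ e, 
      |n e - n' (σ e)| < 4 * (2 * (k + k' + 1) + 1) ^ (k + k') * 
        (2 * (O.crossings.length + O'.crossings.length) + 2 * (k + k') + 1) ∨ 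
      |n e + n' (σ e)| < 4 * (2 * (k + k' + 1) + 1) ^ (k + k') * 
        (2 * (O.crossings.length + O'.crossings.length) + 2 * (k + k') + 1) := by
  classical
  have hc := nc_of_det O hk hdet
  have hc' := nc_of_det O' hk' hdet'
  have hV := val_one O hk hO hc
  have hV' := val_one O' hk' hO' hc'
  have hcN : cN O Finset.univ = k := by
    rw [cN_one O hk hO hc, Finset.card_univ, Fintype.card_fin]
  have hcN' : cN O' Finset.univ = k' := by
    rw [cN_one O' hk' hO' hc', Finset.card_univ, Fintype.card_fin]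
  have hg8 : 0 < ‖ev8 O.cut.std.bracket‖ := lt_of_le_of_ne (norm_nonneg _) (Ne.symm hdet)
  have hg8' : 0 < ‖ev8 O'.cut.std.bracket‖ := lt_of_le_of_ne (norm_nonneg _) (Ne.symm hdet')
  obtain ⟨m, b, a, hb, hb', he⟩ := pair_of_eq O hk O' hk' n n' D hD D' hD' hF
  obtain ⟨y, y', c, y1, y2, y3, y4, y5, y6, y7, y8, y9⟩ := direction_pair2 
    (2 * (O.crossings.length + O'.crossings.length) + 2 * (k + k') + 1) 0 (by omega) n n' a
  push_cast at y1 y3 y5 y6 y7 y8 y9
  simp only [add_zero] at y1 y3 y8 y9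
  have hy : ∀ e, y e ≠ 0 := fun e => y1 e (hn e)
  have hy' : ∀ e, y' e ≠ 0 := fun e => y3 e (hn' e)
  -- the number of the boxes
  have hkk : k = k' := by
    rcases lt_trichotomy k k' with hlt | heq | hlt
    · exfalso
      -- the second family has the larger rank
      obtain ⟨m2, b2, a2, hb2, hb2', he2⟩ := pair_of_eq O' hk' O hk n' n D' hD' D hD hF.symm
      obtain ⟨z', z, c2, z1, z2, z3, z4, z5, z6, z7, _, _⟩ := direction_pair2 
        (2 * (O'.crossings.length + O.crossings.length) + 2 * (k' + k) + 1) 0 (by omega) n' n a2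
      push_cast at z1 z3 z5 z6 z7
      simp only [add_zero] at z1 z3
      have hz' : ∀ e, z' e ≠ 0 := fun e => z1 e (by
        have := hn' e
        refine le_trans (le_of_eq ?_) this
        rw [add_comm k' k]
        ring)
      obtain ⟨φ, hφ⟩ := small_angle z'
      have h1 := limit_less O' hk' hO' _ hV' O hk hO n' z' n z m2 b2 a2 c2 hb2 hb2' 
        he2 z5 z6 z7 φ Finset.univ (fun e he => absurd (Finset.mem_univ e) he) (by omega)
      have h4 := norm_eq_zero.1 ((mul_eq_zero.1 h1).resolve_right hg8'.ne')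
      rw [gen_one O' hk' hO' hc' z' φ, Finset.prod_eq_zero_iff] at h4
      obtain ⟨e, _, h3⟩ := h4
      exact hz' e ((hφ e).1 (sub_eq_zero.1 h3))
    · exact heq
    · exfalso
      obtain ⟨θ, hθ⟩ := small_angle y
      have h1 := limit_less O hk hO _ hV O' hk' hO' n y n' y' m b a c hb hb' 
        he y5 y6 y7 θ Finset.univ (fun e he => absurd (Finset.mem_univ e) he) (by omega)
      have h4 := norm_eq_zero.1 ((mul_eq_zero.1 h1).resolve_right hg8.ne')
      rw [gen_one O hk hO hc y θ, Finset.prod_eq_zero_iff] at h4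
      obtain ⟨e, _, h3⟩ := h4
      exact hy e ((hθ e).1 (sub_eq_zero.1 h3))
  obtain ⟨hgg, σ, hσ⟩ := family_unique y y' hy hy' ‖ev8 O.cut.std.bracket‖ ‖ev8 O'.cut.std.bracket‖ 
    hg8 hg8' (fun θ => by
      have h1 := limit_both O hk hO _ hV O' hk' hO' _ hV' (by omega) n y n' y' m b a c hb 
        hb' he y5 y6 y7 θ
      rw [gen_one O hk hO hc, gen_one O' hk' hO' hc', norm_prod, norm_prod] at h1
      rw [mul_comm, h1, mul_comm])
  refine ⟨hgg, σ, fun e => ?_⟩
  rcases hσ e with h1 | h1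
  · exact Or.inl (y8 e (σ e) h1)
  · exact Or.inr (y9 e (σ e) h1)

end Pool.Agent.Q99.ET
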