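import Pool.Agent.Q99.ET.Rank

/-!
# Duals and direct sums of rank functions
-/

set_option autoImplicit false

namespace Pool.Agent.Q99.ET

open Finset

variable {ι : Type} [DecidableEq ι]

/-- direct sum -/
theorem IsRk.sum {r1 r2 : Finset ι → ℕ} (h1 : IsRk r1) (h2 : IsRk r2) (B : Finset ι) :
    IsRk (fun R => r1 (R \ B) + r2 (R ∩ B)) := by
  have e1 : ∀ (A : Finset ι) (e : ι), e ∈ B → insert e A \ B = A \ B := fun A e he =>
    Finset.insert_sdiff_of_mem _ he
  have e2 : ∀ (A : Finset ι) (e : ι), e ∉ B → insert e A \ B = insert e (A \ B) := fun A e he =>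
    Finset.insert_sdiff_of_notMem _ he
  have e3 : ∀ (A : Finset ι) (e : ι), e ∈ B → insert e A ∩ B = insert e (A ∩ B) := fun A e he =>
    Finset.insert_inter_of_mem he
  have e4 : ∀ (A : Finset ι) (e : ι), e ∉ B → insert e A ∩ B = A ∩ B := fun A e he =>
    Finset.insert_inter_of_notMem he
  refine ⟨?_, ?_, ?_⟩
  · show r1 (∅ \ B) + r2 (∅ ∩ B) = 0
    rw [Finset.empty_sdiff, Finset.empty_inter, h1.1, h2.1]
  · intro A e
    show r1 (A \ B) + r2 (A ∩ B) ≤ r1 (insert e A \ B) + r2 (insert e A ∩ B) ∧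
      r1 (insert e A \ B) + r2 (insert e A ∩ B) ≤ r1 (A \ B) + r2 (A ∩ B) + 1
    by_cases he : e ∈ B
    · rw [e1 _ _ he, e3 _ _ he]
      have := h2.2.1 (A ∩ B) e
      omega
    · rw [e2 _ _ he, e4 _ _ he]
      have := h1.2.1 (A \ B) e
      omega
  · intro A e f hA hB
    simp only at hA hB ⊢
    have me := h1.2.1 (A \ B) e
    have mf := h1.2.1 (A \ B) f
    have ne := h2.2.1 (A ∩ B) e
    have nf := h2.2.1 (A ∩ B) f
    by_cases he : e ∈ B <;> by_cases hf : f ∈ B
    · rw [e1 _ _ he, e3 _ _ he] at hA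
      rw [e1 _ _ hf, e3 _ _ hf] at hB
      rw [e1 _ _ he, e1 _ _ hf, e3 _ _ he, e3 _ _ hf, h2.2.2 (A ∩ B) e f (by omega) (by omega)]
    · rw [e1 _ _ he, e3 _ _ he] at hA
      rw [e2 _ _ hf, e4 _ _ hf] at hB
      rw [e1 _ _ he, e2 _ _ hf, e3 _ _ he, e4 _ _ hf]
      omega
    · rw [e2 _ _ he, e4 _ _ he] at hA
      rw [e1 _ _ hf, e3 _ _ hf] at hB
      rw [e2 _ _ he, e1 _ _ hf, e4 _ _ he, e3 _ _ hf]
      omega
    · rw [e2 _ _ he, e4 _ _ he] at hA
      rw [e2 _ _ hf, e4 _ _ hf] at hB
      rw [e2 _ _ he, e2 _ _ hf, e4 _ _ he, e4 _ _ hf, h1.2.2 (A \ B) e f (by omega) (by omega)]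

variable [Fintype ι]

/-- the dual -/
theorem IsRk.dual {r : Finset ι → ℕ} (h : IsRk r) :
    IsRk (fun X => X.card + r Xᶜ - r univ) := by
  have h0 : ∀ X : Finset ι, r univ ≤ r Xᶜ + X.card := by
    intro X
    have := h.le_card Xᶜ X
    rw [Finset.union_compl] at this
    exact this
  have hm : ∀ X : Finset ι, r X ≤ r univ := fun X => h.mono (Finset.subset_univ X)
  have key : ∀ (X : Finset ι) (e : ι), e ∉ X → insert e (insert e X)ᶜ = Xᶜ := by
    intro X e he
    ext x
    simp only [Finset.mem_insert, Finset.mem_compl, not_or]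
    constructor
    · rintro (rfl | ⟨_, h⟩)
      · exact he
      · exact h
    · intro hx
      by_cases hxe : x = e
      · exact Or.inl hxe
      · exact Or.inr ⟨hxe, hx⟩
  refine ⟨?_, ?_, ?_⟩
  · show (∅ : Finset ι).card + r ∅ᶜ - r univ = 0
    simp
  · intro A e
    show A.card + r Aᶜ - r univ ≤ (insert e A).card + r (insert e A)ᶜ - r univ ∧
      (insert e A).card + r (insert e A)ᶜ - r univ ≤ A.card + r Aᶜ - r univ + 1
    by_cases he : e ∈ A
    · rw [Finset.insert_eq_of_mem he]
      omega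
    · rw [Finset.card_insert_of_notMem he]
      have h1 := h.2.1 (insert e A)ᶜ e
      rw [key A e he] at h1
      have h2 := h0 A
      have h3 := h0 (insert e A)
      rw [Finset.card_insert_of_notMem he] at h3
      omega
  · intro A e f hA hB
    simp only at hA hB ⊢
    by_cases hef : e = f
    · subst hef
      rw [Finset.insert_eq_of_mem (Finset.mem_insert_self _ _)]
      exact hA
    by_cases he : e ∈ A
    · rw [Finset.insert_eq_of_mem (Finset.mem_insert_of_mem he)]
      exact hB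
    by_cases hf : f ∈ A
    · rw [Finset.insert_eq_of_mem hf]
      exact hA
    -- both are new
    have he' : e ∉ insert f A := by
      rw [Finset.mem_insert, not_or]
      exact ⟨hef, he⟩
    have c1 : (insert e A).card = A.card + 1 := Finset.card_insert_of_notMem he
    have c2 : (insert f A).card = A.card + 1 := Finset.card_insert_of_notMem hf
    have c3 : (insert e (insert f A)).card = A.card + 2 := by
      rw [Finset.card_insert_of_notMem he', c2]
    have k1 := key A e he
    have k2 := key A f hf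
    have k3 := key (insert f A) e he'
    have i1 := h.2.1 (insert e A)ᶜ e
    have i2 := h.2.1 (insert f A)ᶜ f
    have i3 := h.2.1 (insert e (insert f A))ᶜ e
    rw [k1] at i1
    rw [k2] at i2
    rw [k3] at i3
    have b1 := h0 A
    have b2 := h0 (insert e A)
    have b3 := h0 (insert f A)
    have b4 := h0 (insert e (insert f A))
    rw [c1] at hA b2
    rw [c2] at hB b3
    rw [c3] at b4 ⊢
    -- r (A+e)ᶜ = r Aᶜ - 1, r (A+f)ᶜ = r Aᶜ - 1
    have j1 : r (insert e A)ᶜ + 1 = r Aᶜ := by omega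
    have j2 : r (insert f A)ᶜ + 1 = r Aᶜ := by omega
    -- it remains: r (A+e+f)ᶜ + 2 = r Aᶜ
    have goal : r (insert e (insert f A))ᶜ + 1 = r (insert f A)ᶜ := by
      by_contra hne
      have h5 : r (insert e (insert e (insert f A))ᶜ) = r (insert e (insert f A))ᶜ := by
        rw [k3]; omega
      have h6 := h.cl _ e h5 (insert f (insert e (insert f A))ᶜ)
      have h7 : insert f (insert e (insert f A))ᶜ ∪ (insert e (insert f A))ᶜ = (insert e A)ᶜ := by
        ext x
        simp only [Finset.mem_insert, Finset.mem_union, Finset.mem_compl, not_or]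
        constructor
        · rintro ((rfl | h) | h)
          · exact ⟨fun h => hef h.symm, hf⟩
          · exact ⟨h.1, h.2.2⟩
          · exact ⟨h.1, h.2.2⟩
        · rintro ⟨h1, h2⟩
          by_cases hxf : x = f
          · exact Or.inl (Or.inl hxf)
          · exact Or.inr ⟨h1, hxf, h2⟩
      rw [h7, k1] at h6
      omega
    omega

/-- the exponents of `Q` -/
theorem IsRk.defect {r : Finset ι → ℕ} (h : IsRk r) (B R : Finset ι) :
    r ((R \ B) ∪ (B \ R)) ≤ r Bᶜ + (B \ R).card ∧
    (r ((R \ B) ∪ (B \ R)) = r Bᶜ + (B \ R).card ↔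
      r (R \ B) + ((R ∩ B).card + r (R ∩ B)ᶜ - r univ) =
        r (univ \ B) + ((univ ∩ B).card + r (univ ∩ B)ᶜ - r univ)) := by
  have e1 : R \ B ⊆ Bᶜ := by
    intro x hx
    rw [Finset.mem_compl]
    exact (Finset.mem_sdiff.1 hx).2
  have m1 := h.mono e1
  have m2 := h.le_card (R \ B) (B \ R)
  have m3 := h.le_card Bᶜ (B \ R)
  rw [Finset.union_comm] at m2
  have e2 : (R \ B) ∪ (B \ R) ⊆ (B \ R) ∪ Bᶜ := by
    intro x hx
    rw [Finset.mem_union] at hx ⊢
    rcases hx with hx | hx
    · exact Or.inr (e1 hx)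
    · exact Or.inl hx
  have m4 := h.mono e2
  have e3 : (R ∩ B)ᶜ = (B \ R) ∪ Bᶜ := by
    ext x
    simp only [Finset.mem_union, Finset.mem_compl, Finset.mem_inter, Finset.mem_sdiff]
    tauto
  have e4 : univ \ B = Bᶜ := (Finset.compl_eq_univ_sdiff B).symm
  have e5 : univ ∩ B = B := Finset.univ_inter B
  have c1 : (R ∩ B).card + (B \ R).card = B.card := by
    rw [Finset.inter_comm]
    exact Finset.card_inter_add_card_sdiff B R
  have b1 : r univ ≤ r (R ∩ B)ᶜ + (R ∩ B).card := by
    have := h.le_card (R ∩ B)ᶜ (R ∩ B)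
    rw [Finset.union_compl] at this
    exact this
  have b2 : r univ ≤ r Bᶜ + B.card := by
    have := h.le_card Bᶜ B
    rw [Finset.union_compl] at this
    exact this
  refine ⟨m2.trans (by omega), ?_⟩
  rw [e4, e5, e3] at *
  constructor
  · intro hd
    omega
  · intro hd
    have q1 : r (R \ B) = r Bᶜ := by omega
    have q2 : r ((B \ R) ∪ Bᶜ) = r Bᶜ + (B \ R).card := by omega
    rw [Finset.union_comm (R \ B), h.same e1 q1 (B \ R), q2]

end Pool.Agent.Q99.ET
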