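import Pool.Agent.Y463.CD.Graph
import Pool.Agent.Q99.ET.Dual
import Pool.Agent.Q99.ET.Defs

/-!
# The states of a diagram with boxes near `d = 0`
-/

set_option autoImplicit false

namespace Pool.Agent.Q99.ET

open Finset LaurentPolynomial Pool.Agent.H891R2.Jones Pool.Agent.H891R2.MT Pool.Agent.H891R2.SI T4b
open Pool.Agent.Y463.CD (zf brk brk_mul expand delta_ne Adj ev8 ev8_d)

variable {k : ℕ}

/-! ### the rank function -/

theorem CR_mono (O : Sites k) {U V : Finset (Fin k)} (h : U ⊆ V) (p q : O.P) (hr : CR O U p q) : 
    CR O V p q := by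
  rcases hr with hr | ⟨e, he, h1⟩
  · exact Or.inl hr
  · exact Or.inr ⟨e, h he, h1⟩

theorem nc_insert (O : Sites k) (U : Finset (Fin k)) (e : Fin k) :
    (Quot.mk (CR O U) (O.corner e false true) = Quot.mk (CR O U) (O.corner e true true) ∧
        nc O (insert e U) = nc O U) ∨
      (Quot.mk (CR O U) (O.corner e false true) ≠ Quot.mk (CR O U) (O.corner e true true) ∧
        nc O U = nc O (insert e U) + 1) := by
  unfold nc
  have : Finite O.P := inferInstance
  apply T3a.quot_merge (CR O U) (CR O (insert e U)) (O.corner e false true) (O.corner e true true)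
  · exact fun x y => CR_mono O (Finset.subset_insert _ _) x y
  · rintro x y (h | ⟨e', he', h⟩)
    · exact Or.inl (Or.inl h)
    · rw [Finset.mem_insert] at he'
      rcases he' with rfl | he'
      · exact Or.inr (Or.inl h)
      · exact Or.inl (Or.inr ⟨e', he', h⟩)
  · exact Or.inr ⟨e, Finset.mem_insert_self _ _, rfl, rfl⟩

/-- the rank function of the graph of the pieces -/
noncomputable def rH (O : Sites k) (U : Finset (Fin k)) : ℕ := nc O ∅ - nc O U

theorem nc_le (O : Sites k) (U : Finset (Fin k)) : nc O U ≤ nc O ∅ := by
  induction U using Finset.induction_on with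
  | empty => exact le_rfl
  | insert e U _ ih =>
    rcases nc_insert O U e with ⟨_, h⟩ | ⟨_, h⟩
    · omega
    · omega

theorem rH_add (O : Sites k) (U : Finset (Fin k)) : rH O U + nc O U = nc O ∅ := by
  have := nc_le O U
  unfold rH
  omega

theorem rH_rk (O : Sites k) : IsRk (rH O) := by
  refine ⟨?_, ?_, ?_⟩
  · unfold rH
    rw [Nat.sub_self]
  · intro A e
    have h1 := rH_add O A
    have h2 := rH_add O (insert e A)
    rcases nc_insert O A e with ⟨_, h⟩ | ⟨_, h⟩ <;> omega
  · intro A e f he hf
    have h1 := rH_add O A
    have h2 := rH_add O (insert e A)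
    have h3 := rH_add O (insert f A)
    have h4 := rH_add O (insert e (insert f A))
    rcases nc_insert O A e with ⟨c, h⟩ | ⟨_, h⟩
    · rcases nc_insert O (insert f A) e with ⟨_, h'⟩ | ⟨c', h'⟩
      · omega
      · exfalso
        apply c'
        have := congrArg (Quot.lift (Quot.mk (CR O (insert f A)))
          (fun x y h => Quot.sound (CR_mono O (Finset.subset_insert f A) x y h)) : 
            Quot (CR O A) → Quot (CR O (insert f A))) c
        exact this
    · omega

/-- a connected diagram -/
theorem nc_univ (O : Sites k) (hk : 0 < k) (hO : O.Connected) : nc O Finset.univ = 1 := by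
  unfold nc
  have : Finite O.P := inferInstance
  have hf : Finite (Quot (CR O Finset.univ)) := Quot.finite _
  have hne : Nonempty (Quot (CR O Finset.univ)) := ⟨Quot.mk _ (O.corner ⟨0, hk⟩ false false)⟩
  have hsub : Subsingleton (Quot (CR O Finset.univ)) := by
    have hb : ∀ e, Quot.mk (CR O Finset.univ) (O.corner e false true) = 
        Quot.mk _ (O.corner e false false) := by
      intro e
      refine Quot.sound (Or.inl (Or.inl ?_))
      show _ ∈ O.arcs ++ _
      refine List.mem_append_right _ (List.mem_flatMap.2 ⟨e, List.mem_finRange e, ?_⟩)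
      rw [if_neg (Finset.notMem_empty e)]
      simp
    have ht : ∀ e, Quot.mk (CR O Finset.univ) (O.corner e true true) = 
        Quot.mk _ (O.corner e true false) := by
      intro e
      refine Quot.sound (Or.inl (Or.inl ?_))
      show _ ∈ O.arcs ++ _
      refine List.mem_append_right _ (List.mem_flatMap.2 ⟨e, List.mem_finRange e, ?_⟩)
      rw [if_neg (Finset.notMem_empty e)]
      simp
    have hv : ∀ e, Quot.mk (CR O Finset.univ) (O.corner e false true) = 
        Quot.mk _ (O.corner e true true) := 
      fun e => Quot.sound (Or.inr ⟨e, Finset.mem_univ e, rfl, rfl⟩)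
    have hc : ∀ (e : Fin k) (t l : Bool), Quot.mk (CR O Finset.univ) (O.corner e t l) = 
        Quot.mk _ (O.corner e false true) := by
      intro e t l
      cases t <;> cases l
      · exact (hb e).symm
      · rfl
      · rw [hv e, ht e]
      · exact (hv e).symm
    refine ⟨fun x y => ?_⟩
    induction x using Quot.ind with
    | mk p =>
      induction y using Quot.ind with
      | mk q =>
        have h := hO p q
        induction h with
        | rel p q h =>
          rcases h with h | h | ⟨e, t, l, t', l', rfl, rfl⟩
          · refine Quot.sound (Or.inl (Or.inl ?_))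
            show _ ∈ O.arcs ++ _
            exact List.mem_append_left _ h
          · exact Quot.sound (Or.inl (Or.inr h))
          · rw [hc, hc e t' l']
        | refl p => rfl
        | symm _ _ _ ih => exact ih.symm
        | trans _ _ _ _ _ ih1 ih2 => exact ih1.trans ih2
  exact Nat.card_eq_one_iff_unique.2 ⟨hsub, hne⟩

/-! ### counting modulo 2 -/

theorem sum_count {P : Type} [Fintype P] [DecidableEq P] (f : P → ZMod 2) (L : List P) : 
    ∑ p, ((L.count p : ℕ) : ZMod 2) * f p = (L.map f).sum := by
  induction L with
  | nil => simp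
  | cons a L ih =>
    rw [List.map_cons, List.sum_cons, ← ih]
    have h1 : ∀ p, (((a :: L).count p : ℕ) : ZMod 2) * f p = 
        (if a = p then f p else 0) + ((L.count p : ℕ) : ZMod 2) * f p := by
      intro p
      rw [List.count_cons]
      by_cases h : a = p
      · subst h
        simp only [beq_self_eq_true, if_true]
        push_cast
        ring
      · have h2 : (a == p) = false := by simpa using h
        rw [h2, if_neg h]
        simp
    rw [Finset.sum_congr rfl fun p _ => h1 p, Finset.sum_add_distrib, Finset.sum_ite_eq, 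
      if_pos (Finset.mem_univ a)]

theorem sum_flatMap' {α : Type} (L : List α) (g : α → List (ZMod 2)) : 
    (L.flatMap g).sum = (L.map (fun x => (g x).sum)).sum := by
  induction L with
  | nil => rfl
  | cons a L ih => rw [List.flatMap_cons, List.sum_append, ih, List.map_cons, List.sum_cons]

theorem sum_zero_of {α : Type} (L : List α) (g : α → ZMod 2) (h : ∀ x ∈ L, g x = 0) : (L.map g).sum = 0 := by
  induction L with
  | nil => rfl
  | cons a L ih =>
    rw [List.map_cons, List.sum_cons, h a List.mem_cons_self, zero_add]
    exact ih fun x hx => h x (List.mem_cons_of_mem _ hx)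

/-- the arcs in the box `e` -/
def sa (O : Sites k) (U : Finset (Fin k)) (e : Fin k) : List (O.P × O.P) :=
  if e ∈ U then [(O.corner e false true, O.corner e true true), (O.corner e false false, O.corner e true false)]
    else [(O.corner e false true, O.corner e false false), (O.corner e true true, O.corner e true false)]

theorem state_arcs (O : Sites k) (U : Finset (Fin k)) : 
    (O.state U).arcs = O.arcs ++ (List.finRange k).flatMap (sa O U) := rfl

/-- the crossings with some directions -/
abbrev cl (O : Sites k) : List (Crossing O.P) := 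
  O.crossings.map (fun x => (⟨x.1, x.2.1, x.2.2.1, x.2.2.2, true, true⟩ : Crossing O.P))

/-- the smoothing of the crossings -/
def smooth (O : Sites k) (s : Fin (cl O).length → Bool) (p q : O.P) : Prop :=
  ∃ i : Fin (cl O).length, if s i then (p = ((cl O)[i]).a ∧ q = ((cl O)[i]).b) ∨ 
      (p = ((cl O)[i]).c ∧ q = ((cl O)[i]).d)
    else (p = ((cl O)[i]).b ∧ q = ((cl O)[i]).c) ∨ 
      (p = ((cl O)[i]).d ∧ q = ((cl O)[i]).a)

theorem smooth_mem (O : Sites k) (s : Fin (cl O).length → Bool) (x : O.P × O.P × O.P × O.P) 
    (hx : x ∈ O.crossings) : (smooth O s x.1 x.2.1 ∧ smooth O s x.2.2.1 x.2.2.2) ∨ 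
      (smooth O s x.2.1 x.2.2.1 ∧ smooth O s x.2.2.2 x.1) := by
  have hmem : (⟨x.1, x.2.1, x.2.2.1, x.2.2.2, true, true⟩ : Crossing O.P) ∈ cl O := 
    List.mem_map.mpr ⟨x, hx, rfl⟩
  obtain ⟨i, hi, hxi⟩ := List.mem_iff_getElem.mp hmem
  have hxi' : (cl O)[(⟨i, hi⟩ : Fin (cl O).length)] = ⟨x.1, x.2.1, x.2.2.1, x.2.2.2, true, true⟩ := hxi
  by_cases hs : s ⟨i, hi⟩ = true
  · left
    constructor
    · refine ⟨⟨i, hi⟩, ?_⟩
      rw [if_pos hs, hxi']
      exact Or.inl ⟨rfl, rfl⟩
    · refine ⟨⟨i, hi⟩, ?_⟩
      rw [if_pos hs, hxi']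
      exact Or.inr ⟨rfl, rfl⟩
  · right
    constructor
    · refine ⟨⟨i, hi⟩, ?_⟩
      rw [if_neg hs, hxi']
      exact Or.inl ⟨rfl, rfl⟩
    · refine ⟨⟨i, hi⟩, ?_⟩
      rw [if_neg hs, hxi']
      exact Or.inr ⟨rfl, rfl⟩

/-- smoothed crossings are connected -/
theorem smooth_adj (O : Sites k) (s : Fin (cl O).length → Bool) (p q : O.P) (h : smooth O s p q) : 
    ∃ x ∈ O.crossings, (p = x.1 ∨ p = x.2.1 ∨ p = x.2.2.1 ∨ p = x.2.2.2) ∧
      (q = x.1 ∨ q = x.2.1 ∨ q = x.2.2.1 ∨ q = x.2.2.2) := by
  obtain ⟨i, h⟩ := h
  have hmem := List.getElem_mem i.2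
  obtain ⟨x, hx, hxi⟩ := List.mem_map.1 hmem
  have hxi' : (cl O)[i] = ⟨x.1, x.2.1, x.2.2.1, x.2.2.2, true, true⟩ := hxi.symm
  rw [hxi'] at h
  refine ⟨x, hx, ?_⟩
  by_cases hs : s i = true
  · rw [if_pos hs] at h
    rcases h with ⟨rfl, rfl⟩ | ⟨rfl, rfl⟩
    · exact ⟨by tauto, by tauto⟩
    · exact ⟨by tauto, by tauto⟩
  · rw [if_neg hs] at h
    rcases h with ⟨rfl, rfl⟩ | ⟨rfl, rfl⟩
    · exact ⟨by tauto, by tauto⟩
    · exact ⟨by tauto, by tauto⟩

theorem joined_iff (O : Sites k) (U : Finset (Fin k)) (s : Fin (cl O).length → Bool) 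
    (p q : O.P) : Diagram.Joined (O.state U).std s p q ↔ 
      (p, q) ∈ O.arcs ∨ (∃ e, (p, q) ∈ sa O U e) ∨ smooth O s p q := by
  unfold Diagram.Joined smooth
  show (p, q) ∈ O.arcs ++ (List.finRange k).flatMap (sa O U) ∨ _ ↔ _
  rw [List.mem_append, List.mem_flatMap, or_assoc]
  refine or_congr Iff.rfl (or_congr ?_ Iff.rfl)
  constructor
  · rintro ⟨e, _, he⟩
    exact ⟨e, he⟩
  · rintro ⟨e, he⟩
    exact ⟨e, List.mem_finRange e, he⟩

/-- the relation without the box `e` -/
def rho (O : Sites k) (U : Finset (Fin k)) (s : Fin (cl O).length → Bool) (e : Fin k) 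
    (p q : O.P) : Prop := 
  (p, q) ∈ O.arcs ∨ (∃ e', e' ≠ e ∧ (p, q) ∈ sa O U e') ∨ smooth O s p q

theorem z2 (a b : ZMod 2) (h : a = b) : a + b = 0 := by
  rw [h]
  exact CharTwo.add_self_eq_zero b

/-- **handshake** -/
theorem handshake (O : Sites k) (hd : ∀ p, Even (degree O p)) (U : Finset (Fin k)) 
    (s : Fin (cl O).length → Bool) (e : Fin k) (f : O.P → ZMod 2) 
    (hf : ∀ p q, rho O U s e p q → f p = f q) : 
    f (O.corner e false true) + f (O.corner e false false) + f (O.corner e true true) + 
      f (O.corner e true false) = 0 := by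
  classical
  have h0 : ∑ p, ((degree O p : ℕ) : ZMod 2) * f p = 0 := by
    refine Finset.sum_eq_zero fun p _ => ?_
    rw [(ZMod.natCast_eq_zero_iff_even).2 (hd p), zero_mul]
  have h1 : ∑ p, ((degree O p : ℕ) : ZMod 2) * f p = 
      ((O.arcs.map Prod.fst).map f).sum + ((O.arcs.map Prod.snd).map f).sum + 
      ((O.crossings.flatMap (fun x => [x.1, x.2.1, x.2.2.1, x.2.2.2])).map f).sum + 
      (((List.finRange k).flatMap (fun e => [O.corner e false true, O.corner e false false, 
        O.corner e true true, O.corner e true false])).map f).sum := by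
    rw [← sum_count, ← sum_count, ← sum_count, ← sum_count, ← Finset.sum_add_distrib, 
      ← Finset.sum_add_distrib, ← Finset.sum_add_distrib]
    refine Finset.sum_congr rfl fun p _ => ?_
    unfold degree
    push_cast
    ring
  have a1 : ((O.arcs.map Prod.fst).map f).sum + ((O.arcs.map Prod.snd).map f).sum = 0 := by
    rw [List.map_map, List.map_map]
    have : (O.arcs.map (f ∘ Prod.fst)).sum + (O.arcs.map (f ∘ Prod.snd)).sum = 
        (O.arcs.map (fun x => f x.1 + f x.2)).sum := by
      rw [← List.sum_map_add]
      rfl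
    rw [this]
    apply sum_zero_of
    rintro ⟨x, y⟩ hx
    exact z2 _ _ (hf x y (Or.inl hx))
  have a2 : ((O.crossings.flatMap (fun x => [x.1, x.2.1, x.2.2.1, x.2.2.2])).map f).sum = 0 := by
    rw [List.map_flatMap, sum_flatMap']
    apply sum_zero_of
    intro x hx
    have key : ∀ p q, smooth O s p q → f p = f q := fun p q h => hf p q (Or.inr (Or.inr h))
    simp only [List.map_cons, List.map_nil, List.sum_cons, List.sum_nil]
    rcases smooth_mem O s x hx with ⟨h1, h2⟩ | ⟨h1, h2⟩
    · have b1 := key _ _ h1
      have b2 := key _ _ h2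
      rw [b1, b2]
      have e1 := CharTwo.add_self_eq_zero (f x.2.1)
      have e2 := CharTwo.add_self_eq_zero (f x.2.2.2)
      linear_combination e1 + e2
    · have b1 := key _ _ h1
      have b2 := key _ _ h2
      rw [b1, b2]
      have e1 := CharTwo.add_self_eq_zero (f x.1)
      have e2 := CharTwo.add_self_eq_zero (f x.2.2.1)
      linear_combination e1 + e2
  have a3 : (((List.finRange k).flatMap (fun e => [O.corner e false true, O.corner e false false, 
        O.corner e true true, O.corner e true false])).map f).sum = 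
      f (O.corner e false true) + f (O.corner e false false) + f (O.corner e true true) + 
        f (O.corner e true false) := by
    rw [List.map_flatMap, sum_flatMap']
    have h2 : ((List.finRange k).map (fun e => (([O.corner e false true, O.corner e false false, 
        O.corner e true true, O.corner e true false]).map f).sum)).sum = 
        ∑ e' : Fin k, (([O.corner e' false true, O.corner e' false false, 
        O.corner e' true true, O.corner e' true false]).map f).sum := by
      rw [← List.ofFn_eq_map, List.sum_ofFn]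
    rw [h2, Finset.sum_eq_single e]
    · simp only [List.map_cons, List.map_nil, List.sum_cons, List.sum_nil]
      ring
    · intro e' _ he'
      have key : ∀ p q, (p, q) ∈ sa O U e' → f p = f q := fun p q h => hf p q (Or.inr (Or.inl ⟨e', he', h⟩))
      simp only [List.map_cons, List.map_nil, List.sum_cons, List.sum_nil]
      by_cases h : e' ∈ U
      · have b1 := key (O.corner e' false true) (O.corner e' true true) (by unfold sa; rw [if_pos h]; simp)
        have b2 := key (O.corner e' false false) (O.corner e' true false) (by unfold sa; rw [if_pos h]; simp)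
        rw [b1, b2]
        have e1 := CharTwo.add_self_eq_zero (f (O.corner e' true true))
        have e2 := CharTwo.add_self_eq_zero (f (O.corner e' true false))
        linear_combination e1 + e2
      · have b1 := key (O.corner e' false true) (O.corner e' false false) (by unfold sa; rw [if_neg h]; simp)
        have b2 := key (O.corner e' true true) (O.corner e' true false) (by unfold sa; rw [if_neg h]; simp)
        rw [b1, b2]
        have e1 := CharTwo.add_self_eq_zero (f (O.corner e' false false))
        have e2 := CharTwo.add_self_eq_zero (f (O.corner e' true false))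
        linear_combination e1 + e2
    · intro h
      exact absurd (Finset.mem_univ e) h
  rw [h1, a1, a2, a3] at h0
  simpa using h0

/-! ### gluing two pieces -/

theorem class_of_z2 {P : Type} (r : P → P → Prop) (a b : P) 
    (h : ∀ f : P → ZMod 2, (∀ p q, r p q → f p = f q) → f a = f b) : Quot.mk r a = Quot.mk r b := by
  classical
  by_contra hne
  have h1 := h (fun p => if Quot.mk r p = Quot.mk r a then 1 else 0) (by 
    intro p q hpq
    rw [Quot.sound hpq])
  simp only at h1
  rw [if_pos trivial, if_neg (fun h => hne h.symm)] at h1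
  exact absurd h1 (by decide)

theorem cut_bottom (O : Sites k) (U : Finset (Fin k)) (e : Fin k) : 
    Quot.mk (CR O U) (O.corner e false true) = Quot.mk (CR O U) (O.corner e false false) := by
  refine Quot.sound (Or.inl (Or.inl ?_))
  show _ ∈ O.arcs ++ _
  refine List.mem_append_right _ (List.mem_flatMap.2 ⟨e, List.mem_finRange e, ?_⟩)
  rw [if_neg (Finset.notMem_empty e)]
  simp

theorem cut_top (O : Sites k) (U : Finset (Fin k)) (e : Fin k) : 
    Quot.mk (CR O U) (O.corner e true true) = Quot.mk (CR O U) (O.corner e true false) := by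
  refine Quot.sound (Or.inl (Or.inl ?_))
  show _ ∈ O.arcs ++ _
  refine List.mem_append_right _ (List.mem_flatMap.2 ⟨e, List.mem_finRange e, ?_⟩)
  rw [if_neg (Finset.notMem_empty e)]
  simp

theorem cut_in (O : Sites k) (U : Finset (Fin k)) (e : Fin k) (he : e ∈ U) : 
    Quot.mk (CR O U) (O.corner e false true) = Quot.mk (CR O U) (O.corner e true true) := 
  Quot.sound (Or.inr ⟨e, he, rfl, rfl⟩)

/-- the states are finer than the pieces -/
theorem finer (O : Sites k) (U : Finset (Fin k)) (s : Fin (cl O).length → Bool) (p q : O.P) 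
    (h : (p, q) ∈ O.arcs ∨ (∃ e', (p, q) ∈ sa O U e') ∨ smooth O s p q) : 
    Quot.mk (CR O U) p = Quot.mk (CR O U) q := by
  rcases h with h | ⟨e', he'⟩ | h
  · refine Quot.sound (Or.inl (Or.inl ?_))
    show _ ∈ O.arcs ++ _
    exact List.mem_append_left _ h
  · unfold sa at he'
    by_cases hU : e' ∈ U
    · rw [if_pos hU] at he'
      simp only [List.mem_cons, List.not_mem_nil, or_false, Prod.mk.injEq] at he'
      rcases he' with ⟨rfl, rfl⟩ | ⟨rfl, rfl⟩
      · exact cut_in O U e' hU
      · rw [← cut_bottom, ← cut_top]
        exact cut_in O U e' hU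
    · rw [if_neg hU] at he'
      simp only [List.mem_cons, List.not_mem_nil, or_false, Prod.mk.injEq] at he'
      rcases he' with ⟨rfl, rfl⟩ | ⟨rfl, rfl⟩
      · exact cut_bottom O U e'
      · exact cut_top O U e'
  · exact Quot.sound (Or.inl (Or.inr (smooth_adj O s p q h)))

/-- every state has at least as many loops as there are pieces -/
theorem nc_le_loops (O : Sites k) (U : Finset (Fin k)) (s : Fin (cl O).length → Bool) : 
    nc O U ≤ Diagram.loops (O.state U).std s := by
  unfold nc Diagram.loops
  have : Finite O.P := inferInstance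
  have hfin : Finite (Quot (Diagram.Joined (O.state U).std s)) := Quot.finite _
  let f : Quot (Diagram.Joined (O.state U).std s) → Quot (CR O U) := 
    Quot.lift (fun p => Quot.mk _ p) (fun p q h => finer O U s p q ((joined_iff O U s p q).1 h))
  have hf : Function.Surjective f := by
    intro x
    induction x using Quot.ind with
    | mk p => exact ⟨Quot.mk _ p, rfl⟩
  exact Nat.card_le_card_of_surjective f hf

/-- **gluing**: the number of loops -/
theorem loops_glue (O : Sites k) (hd : ∀ p, Even (degree O p)) (U : Finset (Fin k)) (e : Fin k) (he : e ∉ U)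
    (hne : Quot.mk (CR O U) (O.corner e false true) ≠ Quot.mk (CR O U) (O.corner e true true)) 
    (s : Fin (cl O).length → Bool) : 
    Diagram.loops (O.state U).std s = Diagram.loops (O.state (insert e U)).std s + 1 := by
  classical
  have : Finite O.P := inferInstance
  set ρ := rho O U s e with hρ
  have hfin : ∀ p q, ρ p q → Quot.mk (CR O U) p = Quot.mk (CR O U) q := by
    rintro p q (h | ⟨e', _, h⟩ | h)
    · exact finer O U s p q (Or.inl h)
    · exact finer O U s p q (Or.inr (Or.inl ⟨e', h⟩))
    · exact finer O U s p q (Or.inr (Or.inr h))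
  -- the two bottom corners
  have hb : Quot.mk ρ (O.corner e false true) = Quot.mk ρ (O.corner e false false) := by
    apply class_of_z2
    intro f hf
    have h1 := handshake O hd U s e (fun p => if Quot.mk (CR O U) p = Quot.mk (CR O U) (O.corner e false true)
      then f p else 0) (by
        intro p q hpq
        rw [hfin p q hpq, hf p q hpq])
    simp only at h1
    rw [if_pos trivial, if_pos (cut_bottom O U e).symm, if_neg (fun h => hne h.symm), 
      if_neg (fun h => hne (h.symm.trans (cut_top O U e).symm)), add_zero, add_zero] at h1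
    have h2 := CharTwo.add_self_eq_zero (f (O.corner e false false))
    linear_combination h1 - h2
  have ht : Quot.mk ρ (O.corner e true true) = Quot.mk ρ (O.corner e true false) := by
    apply class_of_z2
    intro f hf
    have h1 := handshake O hd U s e (fun p => if Quot.mk (CR O U) p = Quot.mk (CR O U) (O.corner e true true)
      then f p else 0) (by
        intro p q hpq
        rw [hfin p q hpq, hf p q hpq])
    simp only at h1
    rw [if_neg hne, if_neg (fun h => hne ((cut_bottom O U e).trans h)), if_pos trivial, 
      if_pos (cut_top O U e).symm, add_zero, zero_add] at h1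
    have h2 := CharTwo.add_self_eq_zero (f (O.corner e true false))
    linear_combination h1 - h2
  have hbt : Quot.mk ρ (O.corner e false true) ≠ Quot.mk ρ (O.corner e true true) := by
    intro h
    apply hne
    exact congrArg (Quot.lift (fun p => Quot.mk (CR O U) p) hfin) h
  -- loops of `U`
  have h1 : Diagram.loops (O.state U).std s = Nat.card (Quot ρ) := by
    unfold Diagram.loops
    apply T2.card_quot_congr
    · intro p q h
      rw [joined_iff] at h
      rcases h with h | ⟨e', h⟩ | h
      · exact Quot.sound (Or.inl h)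
      · by_cases hee : e' = e
        · subst hee
          unfold sa at h
          rw [if_neg he] at h
          simp only [List.mem_cons, List.not_mem_nil, or_false, Prod.mk.injEq] at h
          rcases h with ⟨rfl, rfl⟩ | ⟨rfl, rfl⟩
          · exact hb
          · exact ht
        · exact Quot.sound (Or.inr (Or.inl ⟨e', hee, h⟩))
      · exact Quot.sound (Or.inr (Or.inr h))
    · rintro p q (h | ⟨e', _, h⟩ | h)
      · exact Quot.sound ((joined_iff O U s p q).2 (Or.inl h))
      · exact Quot.sound ((joined_iff O U s p q).2 (Or.inr (Or.inl ⟨e', h⟩)))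
      · exact Quot.sound ((joined_iff O U s p q).2 (Or.inr (Or.inr h)))
  -- loops of `insert e U`
  have h2 : Diagram.loops (O.state (insert e U)).std s = Nat.card (Quot (fun x y => ρ x y ∨ 
      (x = O.corner e false true ∧ y = O.corner e true true))) := by
    unfold Diagram.loops
    have hsa : ∀ e', e' ≠ e → sa O (insert e U) e' = sa O U e' := by
      intro e' hee
      unfold sa
      have : (e' ∈ insert e U) ↔ (e' ∈ U) := by
        rw [Finset.mem_insert]
        tauto
      simp only [this]
    set ρ' : O.P → O.P → Prop := fun x y => ρ x y ∨ 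
      (x = O.corner e false true ∧ y = O.corner e true true) with hρ'
    have hlift : ∀ p q, Quot.mk ρ p = Quot.mk ρ q → Quot.mk ρ' p = Quot.mk ρ' q := by
      intro p q h
      exact congrArg (Quot.lift (fun p => Quot.mk ρ' p) (fun x y h => Quot.sound (Or.inl h))) h
    have hj : Quot.mk ρ' (O.corner e false true) = Quot.mk ρ' (O.corner e true true) := 
      Quot.sound (Or.inr ⟨rfl, rfl⟩)
    apply T2.card_quot_congr
    · intro p q h
      rw [joined_iff] at h
      rcases h with h | ⟨e', h⟩ | h
      · exact Quot.sound (Or.inl (Or.inl h))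
      · by_cases hee : e' = e
        · subst hee
          unfold sa at h
          rw [if_pos (Finset.mem_insert_self _ _)] at h
          simp only [List.mem_cons, List.not_mem_nil, or_false, Prod.mk.injEq] at h
          rcases h with ⟨rfl, rfl⟩ | ⟨rfl, rfl⟩
          · exact hj
          · rw [← hlift _ _ hb, ← hlift _ _ ht]
            exact hj
        · rw [hsa e' hee] at h
          exact Quot.sound (Or.inl (Or.inr (Or.inl ⟨e', hee, h⟩)))
      · exact Quot.sound (Or.inl (Or.inr (Or.inr h)))
    · rintro p q ((h | ⟨e', hee, h⟩ | h) | ⟨rfl, rfl⟩)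
      · exact Quot.sound ((joined_iff O _ s p q).2 (Or.inl h))
      · rw [← hsa e' hee] at h
        exact Quot.sound ((joined_iff O _ s p q).2 (Or.inr (Or.inl ⟨e', h⟩)))
      · exact Quot.sound ((joined_iff O _ s p q).2 (Or.inr (Or.inr h)))
      · refine Quot.sound ((joined_iff O _ s _ _).2 (Or.inr (Or.inl ⟨e, ?_⟩)))
        unfold sa
        rw [if_pos (Finset.mem_insert_self _ _)]
        simp
  rw [h1, h2, T2.card_add_ne ρ _ _ hbt]

/-- **gluing**: the bracket -/
theorem bracket_glue (O : Sites k) (hd : ∀ p, Even (degree O p)) (U : Finset (Fin k)) (e : Fin k) (he : e ∉ U)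
    (hne : Quot.mk (CR O U) (O.corner e false true) ≠ Quot.mk (CR O U) (O.corner e true true)) :
    (-T 2 - T (-2)) * (O.state (insert e U)).std.bracket = (O.state U).std.bracket := by
  unfold Diagram.bracket
  rw [Finset.mul_sum]
  show ∑ s : Fin (cl O).length → Bool, (-T 2 - T (-2)) * (T (Diagram.weight s) * 
      (-T 2 - T (-2)) ^ (Diagram.loops (O.state (insert e U)).std s - 1)) = 
    ∑ s : Fin (cl O).length → Bool, T (Diagram.weight s) * 
      (-T 2 - T (-2)) ^ (Diagram.loops (O.state U).std s - 1)
  refine Finset.sum_congr rfl fun s _ => ?_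
  rw [loops_glue O hd U e he hne s]
  have h1 : 1 ≤ Diagram.loops (O.state (insert e U)).std s := by
    unfold Diagram.loops
    have : Finite O.P := inferInstance
    have : Finite (Quot (Diagram.Joined (O.state (insert e U)).std s)) := Quot.finite _
    have : Nonempty (Quot (Diagram.Joined (O.state (insert e U)).std s)) := 
      ⟨Quot.mk _ (O.corner e false true)⟩
    exact Nat.card_pos
  obtain ⟨l, hl⟩ : ∃ l, Diagram.loops (O.state (insert e U)).std s = l + 1 := 
    ⟨Diagram.loops (O.state (insert e U)).std s - 1, by omega⟩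
  rw [hl, Nat.add_sub_cancel, Nat.add_sub_cancel, pow_succ]
  ring

/-- forests -/
theorem bracket_forest (O : Sites k) (hd : ∀ p, Even (degree O p)) (U : Finset (Fin k)) 
    (h : nc O U + U.card = nc O ∅) : 
    (-T 2 - T (-2)) ^ U.card * (O.state U).std.bracket = O.cut.std.bracket := by
  induction U using Finset.induction_on with
  | empty => 
    rw [Finset.card_empty, pow_zero, one_mul]
    rfl
  | insert e U he ih =>
    have h1 := (rH_rk O).le_card ∅ U
    rw [(rH_rk O).1, Finset.union_empty] at h1
    have h2 := rH_add O U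
    rw [Finset.card_insert_of_notMem he] at h ⊢
    rcases nc_insert O U e with ⟨_, h'⟩ | ⟨hne, h'⟩
    · omega
    · rw [pow_succ, mul_assoc, bracket_glue O hd U e he hne]
      exact ih (by omega)

/-- divisibility -/
theorem bracket_dvd (O : Sites k) (U : Finset (Fin k)) : 
    (-T 2 - T (-2)) ^ (nc O U - 1) ∣ (O.state U).std.bracket := by
  unfold Diagram.bracket
  show _ ∣ ∑ s : Fin (cl O).length → Bool, T (Diagram.weight s) * 
      (-T 2 - T (-2)) ^ (Diagram.loops (O.state U).std s - 1)
  refine Finset.dvd_sum fun s _ => ?_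
  refine Dvd.dvd.mul_left (pow_dvd_pow _ ?_) _
  have := nc_le_loops O U s
  omega

end Pool.Agent.Q99.ET
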