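import Pool.Agent.Q99.ET.Lim2

/-!
# Divisibility by `d` and the determinant
-/

set_option autoImplicit false

namespace Pool.Agent.Q99.ET

open Finset LaurentPolynomial Pool.Agent.H891R2.Jones Pool.Agent.H891R2.MT Pool.Agent.H891R2.SI T4b
open Pool.Agent.Y463.CD (zf brk brk_mul expand delta_ne zf_add zf_zero Close rigid Adj ev8 ev8_d ev8_T zeta8_ne)

variable {k : ℕ}

theorem zeta8_primitive : IsPrimitiveRoot (zeta8 : ℂ) 8 := by
  have h : (zeta8 : ℂ) = Complex.exp (2 * Real.pi * Complex.I / (8 : ℕ)) := by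
    show Complex.exp _ = _
    congr 1
    push_cast
    ring
  rw [h]
  exact Complex.isPrimitiveRoot_exp 8 (by norm_num)

theorem ev8_toLaurent (f : Polynomial ℤ) : ev8 (Polynomial.toLaurent f) = Polynomial.aeval (zeta8 : ℂ) f := by
  unfold ev8
  rw [LaurentPolynomial.eval₂_toLaurent]
  rfl

theorem cyc8 : Polynomial.cyclotomic 8 ℤ = Polynomial.X ^ 4 + 1 := by
  have h := Polynomial.cyclotomic_prime_pow_eq_geom_sum (R := ℤ) (p := 2) (n := 2) Nat.prime_two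
  have h2 : (2 : ℕ) ^ (2 + 1) = 8 := by norm_num
  rw [h2] at h
  rw [h]
  simp [Finset.sum_range_succ]
  ring

/-- a Laurent polynomial which vanishes at `exp(π i/4)` is divisible by `d` -/
theorem dvd_of_ev8 (g : ℤ[T;T⁻¹]) (h : ev8 g = 0) : (-T 2 - T (-2)) ∣ g := by
  obtain ⟨n, f, hf⟩ := LaurentPolynomial.exists_T_pow g
  have h1 : Polynomial.aeval (zeta8 : ℂ) f = 0 := by
    rw [← ev8_toLaurent, hf, map_mul, h, zero_mul]
  have h2 : Polynomial.cyclotomic 8 ℤ ∣ f := by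
    rw [Polynomial.cyclotomic_eq_minpoly zeta8_primitive (by norm_num)]
    exact minpoly.isIntegrallyClosed_dvd (zeta8_primitive.isIntegral (by norm_num)) h1
  obtain ⟨c, hc⟩ := h2
  rw [cyc8] at hc
  have h3 : g * T n = (T 4 + 1) * Polynomial.toLaurent c := by
    rw [← hf, hc, map_mul, map_add, map_one, Polynomial.toLaurent_X_pow]
    rfl
  refine ⟨-T 2 * T (-n) * Polynomial.toLaurent c, ?_⟩
  have h4 : (T n : ℤ[T;T⁻¹]) * T (-n) = 1 := by
    rw [← T_add, add_neg_cancel, T_zero]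
  have h5 : (T 2 : ℤ[T;T⁻¹]) * T 2 = T 4 := by
    rw [← T_add]
    norm_num
  have h6 : (T (-2) : ℤ[T;T⁻¹]) * T 2 = 1 := by
    rw [← T_add, neg_add_cancel, T_zero]
  linear_combination (-g) * h4 + T (-n) * h3 - T (-n) * Polynomial.toLaurent c * h5 - 
    T (-n) * Polynomial.toLaurent c * h6

/-- the pieces of the cut diagram have nonzero determinants -/
theorem exists_g (O : Sites k) (h : ¬ (-T 2 - T (-2)) ^ nc O ∅ ∣ O.cut.std.bracket) (hk : 0 < k) : 
    ∃ g : ℤ[T;T⁻¹], O.cut.std.bracket = (-T 2 - T (-2)) ^ (nc O ∅ - 1) * g ∧ ev8 g ≠ 0 := by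
  obtain ⟨g, hg⟩ := bracket_dvd O ∅
  refine ⟨g, hg, fun h0 => h ?_⟩
  obtain ⟨g', hg'⟩ := dvd_of_ev8 g h0
  have h1 := nc_pos O hk ∅
  obtain ⟨q, hq⟩ : ∃ q, nc O ∅ = q + 1 := ⟨nc O ∅ - 1, by omega⟩
  have h2 : O.cut.std.bracket = (-T 2 - T (-2)) ^ (nc O ∅ - 1) * g := hg
  rw [h2, hg', hq, Nat.add_sub_cancel, ← mul_assoc, ← pow_succ]
  exact Dvd.intro _ rfl

end Pool.Agent.Q99.ET
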