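import Pool.Agent.Q99.ET.Pair3

/-!
# Parallel boxes (flype classes) and nugatory boxes
-/

set_option autoImplicit false

namespace Pool.Agent.Q99.ET

open Finset LaurentPolynomial Pool.Agent.H891R2.Jones Pool.Agent.H891R2.MT Pool.Agent.H891R2.SI T4b
open Pool.Agent.Y463.CD (zf brk brk_mul expand delta_ne zf_add zf_zero Adj ev8 ev8_d)
open Pool.Agent.H832R3.TW (FSpanLE)

variable {k : ℕ}

/-- the state sum over the boxes with arbitrary weights -/
noncomputable def Phi (O : Sites k) (β : Fin k → ℤ[T;T⁻¹]) : ℤ[T;T⁻¹] := 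
  ∑ R : Finset (Fin k), (∏ e ∈ R, β e) * (O.state Rᶜ).std.bracket

theorem NN_Phi (O : Sites k) (hk : 0 < k) (w : Fin k → ℤ) : NN O w = Phi O (fun e => brk (w e)) :=
  expand O hk w

theorem brk_zero : brk 0 = 0 := by
  apply mul_left_cancel₀ delta_ne
  rw [brk_mul, zf_zero, sub_self, mul_zero]

theorem brk_add (a b : ℤ) : brk a + brk b + (-T 2 - T (-2)) * (brk a * brk b) = brk (a + b) := by
  apply mul_left_cancel₀ delta_ne
  have h1 := brk_mul a
  have h2 := brk_mul b
  have h3 := brk_mul (a + b)
  rw [zf_add] at h3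
  rw [h3]
  linear_combination h1 + h2 + ((-T 2 - T (-2)) * brk a) * h2 + (zf b - 1) * h1

/-- closed diagrams: cutting a box which is in the closure of the other cut boxes -/
theorem glue_of_rank (O : Sites k) (hk : 0 < k) (hO : O.Connected) (hd : ∀ p, Even (degree O p)) 
    (R : Finset (Fin k)) (e : Fin k) (he : e ∈ R) (hr : cN O R = cN O (R.erase e)) : 
    (-T 2 - T (-2)) * (O.state (insert e Rᶜ)).std.bracket = (O.state Rᶜ).std.bracket := by
  have he' : e ∉ Rᶜ := by simpa using he
  apply bracket_glue O hd Rᶜ e he'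
  have h1 := cN_eq O hk hO R
  have h2 := cN_eq O hk hO (R.erase e)
  have h3 : (R.erase e)ᶜ = insert e Rᶜ := by
    ext x
    simp only [Finset.mem_compl, Finset.mem_erase, Finset.mem_insert]
    tauto
  rw [h3] at h2
  have h4 := Finset.card_erase_of_mem he
  have h5 : 0 < R.card := Finset.card_pos.2 ⟨e, he⟩
  rcases nc_insert O Rᶜ e with ⟨_, h⟩ | ⟨h, _⟩
  · omega
  · exact h

/-- **two parallel boxes**: the state sum depends only on one combination of their weights -/
theorem Phi_parallel (O : Sites k) (hk : 0 < k) (hO : O.Connected) (hd : ∀ p, Even (degree O p)) 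
    (e f : Fin k) (hef : e ≠ f) (he : pcs O {e} = 1) (hf : pcs O {f} = 1) (hp : pcs O {e, f} = 2)
    (β β' : Fin k → ℤ[T;T⁻¹]) (hβ : ∀ g, g ≠ e → g ≠ f → β g = β' g) 
    (hs : β e + β f + (-T 2 - T (-2)) * (β e * β f) = 
      β' e + β' f + (-T 2 - T (-2)) * (β' e * β' f)) : Phi O β = Phi O β' := by
  classical
  have re : cN O {e} = 1 := by
    have := cN_eq O hk hO {e}
    unfold pcs at he
    rw [Finset.card_singleton] at this
    omega
  have rf : cN O {f} = 1 := by
    have := cN_eq O hk hO {f}
    unfold pcs at hf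
    rw [Finset.card_singleton] at this
    omega
  have ref : cN O {e, f} = 1 := by
    have := cN_eq O hk hO {e, f}
    unfold pcs at hp
    rw [Finset.card_pair hef] at this
    omega
  -- the brackets
  have key : ∀ A : Finset (Fin k), e ∉ A → f ∉ A → 
      (O.state (insert e A)ᶜ).std.bracket = (O.state (insert f A)ᶜ).std.bracket ∧ 
      (O.state (insert e (insert f A))ᶜ).std.bracket = 
        (-T 2 - T (-2)) * (O.state (insert f A)ᶜ).std.bracket := by
    intro A heA hfA
    set R := insert e (insert f A) with hR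
    have heR : e ∈ R := Finset.mem_insert_self _ _
    have hfR : f ∈ R := Finset.mem_insert_of_mem (Finset.mem_insert_self _ _)
    have hf' : e ∉ insert f A := by
      rw [Finset.mem_insert, not_or]
      exact ⟨hef, heA⟩
    have hee : R.erase e = insert f A := Finset.erase_insert hf'
    have hff : R.erase f = insert e A := by
      rw [hR, Finset.insert_comm, Finset.erase_insert]
      rw [Finset.mem_insert, not_or]
      exact ⟨fun h => hef h.symm, hfA⟩
    have r1 : cN O R = cN O (R.erase e) := by
      have h1 := (cN_rk O).same (A := {f}) (B := {e, f}) (by simp) (by rw [rf, ref]) A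
      have h2 : A ∪ {f} = insert f A := by
        ext x; simp only [Finset.mem_union, Finset.mem_singleton, Finset.mem_insert]; tauto
      have h3 : A ∪ {e, f} = R := by
        ext x; simp only [hR, Finset.mem_union, Finset.mem_singleton, Finset.mem_insert]; tauto
      rw [h2, h3] at h1
      rw [hee, h1]
    have r2 : cN O R = cN O (R.erase f) := by
      have h1 := (cN_rk O).same (A := {e}) (B := {e, f}) (by simp) (by rw [re, ref]) A
      have h2 : A ∪ {e} = insert e A := by
        ext x; simp only [Finset.mem_union, Finset.mem_singleton, Finset.mem_insert]; tauto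
      have h3 : A ∪ {e, f} = R := by
        ext x; simp only [hR, Finset.mem_union, Finset.mem_singleton, Finset.mem_insert]; tauto
      rw [h2, h3] at h1
      rw [hff, h1]
    have g1 := glue_of_rank O hk hO hd R e heR r1
    have g2 := glue_of_rank O hk hO hd R f hfR r2
    have c1 : insert e Rᶜ = (insert f A)ᶜ := by
      rw [← hee]
      ext x
      simp only [Finset.mem_compl, Finset.mem_erase, Finset.mem_insert]
      tauto
    have c2 : insert f Rᶜ = (insert e A)ᶜ := by
      rw [← hff]
      ext x
      simp only [Finset.mem_compl, Finset.mem_erase, Finset.mem_insert]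
      tauto
    rw [c1] at g1
    rw [c2] at g2
    exact ⟨mul_left_cancel₀ delta_ne (g2.trans g1.symm), g1.symm⟩
  -- the sum
  set H : Finset (Fin k) := (Finset.univ.erase e).erase f with hH
  have heH : e ∉ H := by rw [hH]; simp
  have hfH : f ∉ H := by rw [hH]; simp
  have huniv : (Finset.univ : Finset (Fin k)) = insert e (insert f H) := by
    ext x
    simp only [hH, Finset.mem_univ, Finset.mem_insert, Finset.mem_erase, true_iff]
    tauto
  have hf' : e ∉ insert f H := by
    rw [Finset.mem_insert, not_or]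
    exact ⟨hef, heH⟩
  have split : ∀ γ : Fin k → ℤ[T;T⁻¹], Phi O γ = ∑ A ∈ H.powerset, (∏ g ∈ A, γ g) * 
      ((O.state Aᶜ).std.bracket + (γ e + γ f + (-T 2 - T (-2)) * (γ e * γ f)) * 
        (O.state (insert f A)ᶜ).std.bracket) := by
    intro γ
    unfold Phi
    rw [← Finset.powerset_univ, huniv, Finset.sum_powerset_insert hf', Finset.sum_powerset_insert hfH, 
      Finset.sum_powerset_insert hfH, ← Finset.sum_add_distrib, ← Finset.sum_add_distrib, 
      ← Finset.sum_add_distrib]
    refine Finset.sum_congr rfl fun A hA => ?_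
    have hAH := Finset.mem_powerset.1 hA
    have heA : e ∉ A := fun h => heH (hAH h)
    have hfA : f ∉ A := fun h => hfH (hAH h)
    have heA' : e ∉ insert f A := by
      rw [Finset.mem_insert, not_or]
      exact ⟨hef, heA⟩
    obtain ⟨k1, k2⟩ := key A heA hfA
    rw [Finset.prod_insert hfA, Finset.prod_insert heA, Finset.prod_insert heA', Finset.prod_insert hfA, 
      k1, k2]
    ring
  rw [split β, split β']
  refine Finset.sum_congr rfl fun A hA => ?_
  have hAH := Finset.mem_powerset.1 hA
  have h1 : ∏ g ∈ A, β g = ∏ g ∈ A, β' g := by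
    refine Finset.prod_congr rfl fun g hg => hβ g ?_ ?_
    · rintro rfl
      exact heH (hAH hg)
    · rintro rfl
      exact hfH (hAH hg)
  rw [h1, hs]

/-- **nugatory boxes** -/
theorem Phi_loop (O : Sites k) (hk : 0 < k) (hO : O.Connected) (hd : ∀ p, Even (degree O p)) 
    (e : Fin k) (he : pcs O {e} = 2) (β β' : Fin k → ℤ[T;T⁻¹]) (hβ : ∀ g, g ≠ e → β g = β' g) 
    (h0 : β' e = 0) : Phi O β = (1 + (-T 2 - T (-2)) * β e) * Phi O β' := by
  classical
  have re : cN O {e} = 0 := by
    have := cN_eq O hk hO {e}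
    unfold pcs at he
    rw [Finset.card_singleton] at this
    omega
  have key : ∀ A : Finset (Fin k), e ∉ A → (O.state (insert e A)ᶜ).std.bracket = 
        (-T 2 - T (-2)) * (O.state Aᶜ).std.bracket := by
    intro A heA
    have hee : (insert e A).erase e = A := Finset.erase_insert heA
    have r1 : cN O (insert e A) = cN O ((insert e A).erase e) := by
      have h1 := (cN_rk O).same (A := ∅) (B := {e}) (by simp) (by rw [re, (cN_rk O).1]) A
      have h3 : A ∪ {e} = insert e A := by
        ext x; simp only [Finset.mem_union, Finset.mem_singleton, Finset.mem_insert]; tauto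
      rw [Finset.union_empty, h3] at h1
      rw [hee, h1]
    have g1 := glue_of_rank O hk hO hd (insert e A) e (Finset.mem_insert_self _ _) r1
    have c1 : insert e (insert e A)ᶜ = Aᶜ := by
      conv_rhs => rw [← hee]
      ext x
      simp only [Finset.mem_compl, Finset.mem_erase, Finset.mem_insert]
      tauto
    rw [c1] at g1
    exact g1.symm
  set H : Finset (Fin k) := Finset.univ.erase e with hH
  have heH : e ∉ H := by rw [hH]; simp
  have huniv : (Finset.univ : Finset (Fin k)) = insert e H := by
    rw [hH, Finset.insert_erase (Finset.mem_univ e)]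
  have split : ∀ γ : Fin k → ℤ[T;T⁻¹], Phi O γ = (1 + (-T 2 - T (-2)) * γ e) * 
      ∑ A ∈ H.powerset, (∏ g ∈ A, γ g) * (O.state Aᶜ).std.bracket := by
    intro γ
    unfold Phi
    rw [← Finset.powerset_univ, huniv, Finset.sum_powerset_insert heH, ← Finset.sum_add_distrib, 
      Finset.mul_sum]
    refine Finset.sum_congr rfl fun A hA => ?_
    have hAH := Finset.mem_powerset.1 hA
    have heA : e ∉ A := fun h => heH (hAH h)
    rw [Finset.prod_insert heA, key A heA]
    ring
  rw [split β, split β', h0, mul_zero, add_zero, one_mul]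
  congr 1
  refine Finset.sum_congr rfl fun A hA => ?_
  have hAH := Finset.mem_powerset.1 hA
  have h1 : ∏ g ∈ A, β g = ∏ g ∈ A, β' g := by
    refine Finset.prod_congr rfl fun g hg => hβ g ?_
    rintro rfl
    exact heH (hAH hg)
  rw [h1]

/-! ### the reduced twist numbers -/

open Classical in
/-- the twist numbers in which the crossings of the boxes `e ∈ A` are moved to the boxes `τ e` -/
noncomputable def redA (T A : Finset (Fin k)) (τ : Fin k → Fin k) (n : Fin k → ℤ) : Fin k → ℤ := fun e =>
  if e ∈ T then n e + ∑ e' ∈ A.filter (fun e' => τ e' = e), n e' else if e ∈ A then 0 else n e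

open Classical in
/-- the crossings in the boxes of `L` are removed -/
noncomputable def redL (L : Finset (Fin k)) (n : Fin k → ℤ) : Fin k → ℤ := fun e =>
  if e ∈ L then 0 else n e

theorem NN_redA (O : Sites k) (hk : 0 < k) (hO : O.Connected) (hd : ∀ p, Even (degree O p)) 
    (T : Finset (Fin k)) (τ : Fin k → Fin k) (hT : ∀ e ∈ T, pcs O {e} = 1) (n : Fin k → ℤ) (A : Finset (Fin k))
    (hA : ∀ e ∈ A, e ∉ T ∧ τ e ∈ T ∧ pcs O {e} = 1 ∧ pcs O {e, τ e} = 2) : 
    NN O (redA T A τ n) = NN O n := by
  classical
  induction A using Finset.induction_on with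
  | empty =>
    congr 1
    funext e
    unfold redA
    split_ifs <;> simp_all
  | insert a A ha ih =>
    have hA' : ∀ e ∈ A, e ∉ T ∧ τ e ∈ T ∧ pcs O {e} = 1 ∧ pcs O {e, τ e} = 2 := 
      fun e he => hA e (Finset.mem_insert_of_mem he)
    obtain ⟨h1, h2, h3, h4⟩ := hA a (Finset.mem_insert_self _ _)
    have hne : a ≠ τ a := by
      intro h
      exact h1 (h ▸ h2)
    rw [← ih hA', NN_Phi O hk, NN_Phi O hk]
    apply Phi_parallel O hk hO hd a (τ a) hne h3 (hT _ h2) h4
    · intro g hg hg'
      congr 1
      unfold redA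
      have e1 : (insert a A).filter (fun e' => τ e' = g) = A.filter (fun e' => τ e' = g) := by
        rw [Finset.filter_insert, if_neg (fun h => hg' h.symm)]
      rw [e1]
      have e2 : (g ∈ insert a A) ↔ g ∈ A := by
        rw [Finset.mem_insert]
        exact ⟨fun h => h.resolve_left hg, Or.inr⟩
      simp only [e2]
    · rw [brk_add, brk_add]
      congr 1
      unfold redA
      rw [if_neg h1, if_pos (Finset.mem_insert_self _ _), if_neg h1, if_neg ha, if_pos h2, if_pos h2, 
        Finset.filter_insert, if_pos rfl, Finset.sum_insert (fun h => ha (Finset.mem_filter.1 h).1)]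
      ring

theorem NN_redL (O : Sites k) (hk : 0 < k) (hO : O.Connected) (hd : ∀ p, Even (degree O p)) 
    (n : Fin k → ℤ) (L : Finset (Fin k)) (hL : ∀ e ∈ L, pcs O {e} = 2) : 
    NN O n = zf (∑ e ∈ L, n e) * NN O (redL L n) := by
  classical
  induction L using Finset.induction_on with
  | empty =>
    rw [Finset.sum_empty, zf_zero, one_mul]
    congr 1
  | insert a L ha ih =>
    rw [ih (fun e he => hL e (Finset.mem_insert_of_mem he)), Finset.sum_insert ha, zf_add, 
      mul_comm (zf (n a)), mul_assoc]
    congr 1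
    rw [NN_Phi O hk, NN_Phi O hk, Phi_loop O hk hO hd a (hL a (Finset.mem_insert_self _ _)) 
      (fun e => brk (redL L n e)) (fun e => brk (redL (insert a L) n e))]
    · congr 1
      rw [brk_mul]
      unfold redL
      rw [if_neg ha]
      ring
    · intro g hg
      congr 1
      unfold redL
      have e2 : (g ∈ insert a L) ↔ g ∈ L := by
        rw [Finset.mem_insert]
        exact ⟨fun h => h.resolve_left hg, Or.inr⟩
      simp only [e2]
    · unfold redL
      rw [if_pos (Finset.mem_insert_self _ _), brk_zero]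

/-- a small span is a property of the unnormalised bracket -/
theorem small_of_NN (O : Sites k) (hk : 0 < k) (s : ℕ) (w w' : Fin k → ℤ) (m : ℤ) 
    (h : NN O w' = zf m * NN O w) (D : Diagram (O.P ⊕ Ribbon.Pt w)) (hD : Orients D (O.fill w))
    (hF : FSpanLE s D) : FSpanLE s (O.fill w').std := by
  have i1 : Nonempty (O.P ⊕ Ribbon.Pt w) := ⟨.inl (O.corner ⟨0, hk⟩ false false)⟩
  obtain ⟨lo, h1⟩ := Pool.Agent.H953R3.JT.span_bracket' s _ D hD hF
  have h2 : SIn (NN O w) (- ∑ e, w e + lo) (- ∑ e, w e + (lo + 4 * s)) := (SIn.T _).mul h1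
  have h3 : SIn (zf m) (-4 * m) (-4 * m) := by
    have := (SIn_sgn m.natAbs).mul (SIn.T (-4 * m))
    exact this.mono (by linarith) (by linarith)
  have h4 := h3.mul h2
  rw [← h] at h4
  have h5 := (SIn.T (∑ e, w' e)).mul h4
  have h6 : T (∑ e, w' e) * NN O w' = (O.fill w').std.bracket := by
    unfold NN
    rw [← mul_assoc, ← T_add, add_neg_cancel, T_zero, one_mul]
  rw [h6] at h5
  have h7 : ∃ u lo', SIn u lo' lo' ∧ (O.fill w').std.fPoly = u * (O.fill w').std.bracket := by
    obtain ⟨u, hu, e1⟩ := Pool.Agent.Y463.CD.fPoly_pow (O.fill w').std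
    obtain ⟨n, hn⟩ := hu.SIn
    exact ⟨u, n, hn, e1⟩
  obtain ⟨u, lo', hu, e1⟩ := h7
  have h8 := hu.mul h5
  rw [← e1] at h8
  refine ⟨lo' + (∑ e, w' e + (-4 * m + (- ∑ e, w e + lo))), fun j hj => ?_⟩
  have h9 := h8 j hj
  constructor
  · linarith [h9.1]
  · linarith [h9.2]

end Pool.Agent.Q99.ET
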