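import Pool.Agent.Q99.ET.Pair3

/-!
# Highly twisted knotoids
-/

set_option autoImplicit false

namespace Pool.Agent.Q99.ET

open Finset LaurentPolynomial Pool.Agent.H891R2.Jones Pool.Agent.H891R2.MT Pool.Agent.H891R2.SI T4b
open Pool.Agent.H832R3.TW (FSpanLE)

variable {k : ℕ}

/-- the oriented diagram `D` is made of oriented closed curves and of one interval which runs from the
marked point `tail` to the marked point `head` -/
def IsInterval {P : Type} [DecidableEq P] (D : Diagram P) (tail head : P) : Prop :=
  tail ≠ head ∧ ∀ p, D.starts.count p = (if p = head then 0 else 1) ∧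
    D.ends.count p = (if p = tail then 0 else 1)

/-- the diagram with an additional arc from `b` to `a` -/
def addArc {P : Type} (D : Diagram P) (b a : P) : Diagram P := ⟨(b, a) :: D.arcs, D.crossings⟩

/-- the virtual closure: the marked points `tail` and `head` of `O` are joined by an arc (through
anything that lies in between) -/
def vclose (O : Sites k) (tail head : O.P) : Sites k where
  P := O.P
  arcs := (head, tail) :: O.arcs
  crossings := O.crossings
  corner := O.corner

/-- the smoothing joins the points of a crossing in pairs -/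
theorem joined_crossing {P : Type} (D : Diagram P) (s : Fin D.crossings.length → Bool) (x : Crossing P)
    (hx : x ∈ D.crossings) : (D.Joined s x.a x.b ∧ D.Joined s x.c x.d) ∨ 
      (D.Joined s x.b x.c ∧ D.Joined s x.d x.a) := by
  obtain ⟨i, hi, hxi⟩ := List.mem_iff_getElem.mp hx
  have hxi' : D.crossings[(⟨i, hi⟩ : Fin D.crossings.length)] = x := hxi
  by_cases hs : s ⟨i, hi⟩ = true
  · left
    constructor
    · refine Or.inr ⟨⟨i, hi⟩, ?_⟩
      rw [if_pos hs, hxi']
      exact Or.inl ⟨rfl, rfl⟩
    · refine Or.inr ⟨⟨i, hi⟩, ?_⟩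
      rw [if_pos hs, hxi']
      exact Or.inr ⟨rfl, rfl⟩
  · right
    constructor
    · refine Or.inr ⟨⟨i, hi⟩, ?_⟩
      rw [if_neg hs, hxi']
      exact Or.inl ⟨rfl, rfl⟩
    · refine Or.inr ⟨⟨i, hi⟩, ?_⟩
      rw [if_neg hs, hxi']
      exact Or.inr ⟨rfl, rfl⟩

/-- the two ends of the interval are joined in every state -/
theorem same_class {P : Type} [Fintype P] [DecidableEq P] (D : Diagram P) (a b : P) 
    (h : IsInterval D a b) (s : Fin D.crossings.length → Bool) : 
    Quot.mk (D.Joined s) a = Quot.mk (D.Joined s) b := by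
  apply class_of_z2
  intro f hf
  have h1 : ∑ p, (((D.starts.count p + D.ends.count p : ℕ)) : ZMod 2) * f p = f b + f a := by
    have h2 : ∀ p, (((D.starts.count p + D.ends.count p : ℕ)) : ZMod 2) * f p = 
        (if b = p then f p else 0) + (if a = p then f p else 0) := by
      intro p
      rw [(h.2 p).1, (h.2 p).2]
      by_cases h3 : p = b
      · have h4 : p ≠ a := fun h4 => h.1 (h4.symm.trans h3)
        rw [if_pos h3, if_neg h4, if_pos h3.symm, if_neg (fun h5 => h4 h5.symm)]
        push_cast
        ring
      · by_cases h4 : p = a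
        · rw [if_neg h3, if_pos h4, if_neg (fun h5 => h3 h5.symm), if_pos h4.symm]
          push_cast
          ring
        · rw [if_neg h3, if_neg h4, if_neg (fun h5 => h3 h5.symm), if_neg (fun h5 => h4 h5.symm)]
          have : ((1 + 1 : ℕ) : ZMod 2) = 0 := by decide
          rw [this]
          ring
    rw [Finset.sum_congr rfl fun p _ => h2 p, Finset.sum_add_distrib, Finset.sum_ite_eq, 
      Finset.sum_ite_eq, if_pos (Finset.mem_univ _), if_pos (Finset.mem_univ _)]
  have h2 : ∑ p, (((D.starts.count p + D.ends.count p : ℕ)) : ZMod 2) * f p = 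
      (D.starts.map f).sum + (D.ends.map f).sum := by
    rw [← sum_count, ← sum_count, ← Finset.sum_add_distrib]
    refine Finset.sum_congr rfl fun p _ => ?_
    push_cast
    ring
  have h3 : (D.starts.map f).sum + (D.ends.map f).sum = 
      (D.arcs.map (fun x => f x.1 + f x.2)).sum + 
      (D.crossings.map (fun x => (f x.a + f x.c) + (f x.b + f x.d))).sum := by
    unfold Diagram.starts Diagram.ends
    rw [List.map_append, List.map_append, List.map_append, List.map_append, List.sum_append, 
      List.sum_append, List.sum_append, List.sum_append, List.map_map, List.map_map, List.map_map, 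
      List.map_map, List.map_map, List.map_map]
    have e1 : (D.arcs.map (fun x => f x.1 + f x.2)).sum = 
        (D.arcs.map (f ∘ Prod.fst)).sum + (D.arcs.map (f ∘ Prod.snd)).sum := by
      rw [← List.sum_map_add]
      rfl
    have e2 : (D.crossings.map (fun x => (f x.a + f x.c) + (f x.b + f x.d))).sum = 
        (D.crossings.map (fun x => f (if x.underFwd then x.a else x.c) + 
          f (if x.underFwd then x.c else x.a))).sum + 
        (D.crossings.map (fun x => f (if x.overFwd then x.b else x.d) + 
          f (if x.overFwd then x.d else x.b))).sum := by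
      rw [← List.sum_map_add]
      congr 1
      refine List.map_congr_left fun x _ => ?_
      cases x.underFwd <;> cases x.overFwd <;> simp <;> ring
    rw [e1, e2, List.sum_map_add, List.sum_map_add]
    show (D.arcs.map (f ∘ Prod.fst)).sum + 
        (D.crossings.map (fun x => f (if x.underFwd then x.a else x.c))).sum + 
        (D.crossings.map (fun x => f (if x.overFwd then x.b else x.d))).sum + 
        ((D.arcs.map (f ∘ Prod.snd)).sum + 
        (D.crossings.map (fun x => f (if x.underFwd then x.c else x.a))).sum + 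
        (D.crossings.map (fun x => f (if x.overFwd then x.d else x.b))).sum) = _
    ring
  have h4 : (D.arcs.map (fun x => f x.1 + f x.2)).sum = 0 := by
    apply sum_zero_of
    rintro ⟨x, y⟩ hx
    exact z2 _ _ (hf x y (Or.inl hx))
  have h5 : (D.crossings.map (fun x => (f x.a + f x.c) + (f x.b + f x.d))).sum = 0 := by
    apply sum_zero_of
    intro x hx
    rcases joined_crossing D s x hx with ⟨b1, b2⟩ | ⟨b1, b2⟩
    · have c1 := hf _ _ b1
      have c2 := hf _ _ b2
      rw [c1, c2]
      have e1 := CharTwo.add_self_eq_zero (f x.b)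
      have e2 := CharTwo.add_self_eq_zero (f x.d)
      linear_combination e1 + e2
    · have c1 := hf _ _ b1
      have c2 := hf _ _ b2
      rw [c1, c2]
      have e1 := CharTwo.add_self_eq_zero (f x.a)
      have e2 := CharTwo.add_self_eq_zero (f x.c)
      linear_combination e1 + e2
  rw [h1, h3, h4, h5, add_zero] at h2
  have e1 := CharTwo.add_self_eq_zero (f b)
  linear_combination h2 - e1

theorem loops_addArc {P : Type} [Fintype P] [DecidableEq P] (D : Diagram P) (a b : P) 
    (h : IsInterval D a b) (s : Fin D.crossings.length → Bool) : 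
    (addArc D b a).loops s = D.loops s := by
  unfold Diagram.loops
  have key : ∀ p q : P, (addArc D b a).Joined s p q → 
      Quot.mk (D.Joined s) p = Quot.mk (D.Joined s) q := by
    rintro p q (hpq | hpq)
    · have h1 : (p, q) ∈ (b, a) :: D.arcs := hpq
      rcases List.mem_cons.1 h1 with h2 | h2
      · obtain ⟨rfl, rfl⟩ := Prod.mk.injEq .. ▸ h2
        exact (same_class D _ _ h s).symm
      · exact Quot.sound (Or.inl h2)
    · exact Quot.sound (Or.inr hpq)
  have key2 : ∀ p q : P, D.Joined s p q → (addArc D b a).Joined s p q := by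
    rintro p q (hpq | hpq)
    · exact Or.inl (List.mem_cons_of_mem _ hpq)
    · exact Or.inr hpq
  refine Nat.card_congr ⟨Quot.lift (fun p => Quot.mk _ p) key, 
    Quot.lift (fun p => Quot.mk _ p) (fun p q hpq => Quot.sound (key2 p q hpq)), ?_, ?_⟩
  · intro x
    induction x using Quot.ind
    rfl
  · intro x
    induction x using Quot.ind
    rfl

theorem fPoly_addArc {P : Type} [Fintype P] [DecidableEq P] (D : Diagram P) (a b : P) 
    (h : IsInterval D a b) : (addArc D b a).fPoly = D.fPoly := by
  have hb : (addArc D b a).bracket = D.bracket := by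
    unfold Diagram.bracket
    show ∑ s : Fin D.crossings.length → Bool, T (Diagram.weight s) * 
      (-T 2 - T (-2)) ^ ((addArc D b a).loops s - 1) = _
    refine Finset.sum_congr rfl fun s _ => ?_
    rw [loops_addArc D a b h s]
  unfold Diagram.fPoly
  rw [hb]
  rfl

/-- the closure of a member of the family -/
theorem orients_vclose (O : Sites k) (a b : O.P) (w : Fin k → ℤ) (D : Diagram (O.P ⊕ Ribbon.Pt w)) 
    (hD : Orients D (O.fill w)) : 
    Orients (P := (vclose O a b).P ⊕ Ribbon.Pt w) (addArc D (.inl b) (.inl a)) ((vclose O a b).fill w) := by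
  constructor
  · exact List.Forall₂.cons (Or.inl rfl) hD.1
  · exact hD.2

/-- **knotoids: series-parallel** -/
theorem knotoid_sp (O : Sites k) (a b : O.P) (J : Finset (Fin k)) (h : Good (vclose O a b) J) 
    (hsp : SPred (cutRank (vclose O a b)) J) (s B0 : ℕ) (n : Fin k → ℤ)
    (hn : ∀ e ∈ J, (2 * (2 * k + 1) ^ (k - 1) * (2 * O.crossings.length + 3 * k + s + B0) : ℤ) ≤ |n e|) 
    (hB : ∀ e ∉ J, |n e| ≤ B0)
    (D : Diagram (O.P ⊕ Ribbon.Pt n)) (hD : Orients D (O.fill n)) 
    (hK : IsInterval D (.inl a) (.inl b)) : ¬ FSpanLE s D := by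
  have h1 := h.sp hsp s B0 n hn hB (addArc D (.inl b) (.inl a)) (orients_vclose O a b n D hD)
  intro h2
  apply h1
  obtain ⟨lo, hlo⟩ := h2
  refine ⟨lo, fun j hj => hlo j ?_⟩
  rw [← fPoly_addArc D (.inl a) (.inl b) hK]
  exact hj

/-- **knotoids: odd multiples** -/
theorem knotoid_odd (O : Sites k) (a b : O.P) (J : Finset (Fin k)) (h : Good (vclose O a b) J) 
    (s B0 m : ℕ) (j n : Fin k → ℤ) 
    (hm : B0 * k + (2 * O.crossings.length + 3 * k + s) < m) (hn : ∀ e, |n e - m * j e| ≤ B0) 
    (hj : ∀ e, Odd (j e) ↔ e ∈ J) 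
    (D : Diagram (O.P ⊕ Ribbon.Pt n)) (hD : Orients D (O.fill n)) 
    (hK : IsInterval D (.inl a) (.inl b)) : ¬ FSpanLE s D := by
  have h1 := h.odd_multiples s B0 m j n hm hn hj (addArc D (.inl b) (.inl a)) (orients_vclose O a b n D hD)
  intro h2
  apply h1
  obtain ⟨lo, hlo⟩ := h2
  refine ⟨lo, fun j hj => hlo j ?_⟩
  rw [← fPoly_addArc D (.inl a) (.inl b) hK]
  exact hj

end Pool.Agent.Q99.ET
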