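import Pool.Agent.Q99.ET.Mix

/-!
# The limit `Q → 0` of the state sum along a direction of rigidity
-/

set_option autoImplicit false

namespace Pool.Agent.Q99.ET

open Finset LaurentPolynomial Pool.Agent.H891R2.Jones Pool.Agent.H891R2.MT Pool.Agent.H891R2.SI T4b
open Pool.Agent.Y463.CD (zf brk brk_mul expand delta_ne zf_add zf_zero Close rigid)

variable {k : ℕ}

/-- The rank function of the direct sum of the graph of the edges outside `B` and of the dual of the
graph in which these edges are contracted. -/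
noncomputable def rN (Γ : Ribbon k) (B R : Finset (Fin k)) : ℕ :=
  gr Γ (R \ B) + ((R ∩ B).card + gr Γ (R ∩ B)ᶜ - gr Γ Finset.univ)

theorem rN_rk (Γ : Ribbon k) (B : Finset (Fin k)) : IsRk (rN Γ B) :=
  (gr_rk Γ).sum (gr_rk Γ).dual B

/-- the defect: half of the exponent of `d` -/
noncomputable def df (Γ : Ribbon k) (B R : Finset (Fin k)) : ℕ :=
  gr Γ Bᶜ + (B \ R).card - gr Γ (kept B R)

theorem df_zero (Γ : Ribbon k) (B R : Finset (Fin k)) : df Γ B R = 0 ↔ rN Γ B R = rN Γ B Finset.univ := by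
  have h := (gr_rk Γ).defect B R
  unfold rN
  rw [← h.2]
  unfold df
  have := h.1
  show gr Γ Bᶜ + (B \ R).card - gr Γ (R \ B ∪ B \ R) = 0 ↔ _
  omega

theorem curves_pos (Γ : Ribbon k) (hk : 0 < k) (S : Finset (Fin k)) : 0 < Γ.curves S := by
  have : Finite (Quot (Γ.Cor S)) := Quot.finite _
  have : Nonempty (Quot (Γ.Cor S)) := ⟨Quot.mk _ ((⟨0, hk⟩, true), true)⟩
  exact Nat.card_pos

theorem exponents (Γ : Ribbon k) (hΓ : Γ.Planar) (hk : 0 < k) (B R : Finset (Fin k)) :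
    k - R.card + (Γ.curves (kept B R) - 1) = (Γ.curves Bᶜ - 1) + 2 * df Γ B R ∧
      rN Γ B Finset.univ + (Γ.curves Bᶜ - 1) = k := by
  have h1 := curves_pos Γ hk (kept B R)
  have h2 := curves_pos Γ hk Bᶜ
  have h3 := T2.curves_eq Γ hΓ (kept B R)
  have h4 := T2.curves_eq Γ hΓ Bᶜ
  have h5 := gr_add Γ (kept B R)
  have h6 := gr_add Γ Bᶜ
  have h7 := gr_add Γ Finset.univ
  rw [hΓ.1] at h7
  have h8 := ((gr_rk Γ).defect B R).1
  have c1 : (kept B R).card = (R \ B).card + (B \ R).card := by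
    unfold kept
    rw [Finset.card_union_of_disjoint]
    rw [Finset.disjoint_left]
    intro x hx hx'
    exact (Finset.mem_sdiff.1 hx).2 (Finset.mem_sdiff.1 hx').1
  have c2 : (R \ B).card + (R ∩ B).card = R.card := Finset.card_sdiff_add_card_inter R B
  have c3 : (R ∩ B).card + (B \ R).card = B.card := by
    rw [Finset.inter_comm]
    exact Finset.card_inter_add_card_sdiff B R
  have c4 : (Bᶜ).card + B.card = k := by
    have := Finset.card_compl_add_card B
    rwa [Fintype.card_fin] at this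
  have c5 : R.card ≤ k := by
    have := Finset.card_le_univ R
    rwa [Fintype.card_fin] at this
  have h9 : gr Γ Finset.univ ≤ gr Γ Bᶜ + B.card := by
    have := (gr_rk Γ).le_card Bᶜ B
    rwa [Finset.union_compl] at this
  have h10 : 0 < Γ.verts := by omega
  constructor
  · unfold df
    show k - R.card + (Γ.curves (kept B R) - 1) = (Γ.curves Bᶜ - 1) + 
      2 * (gr Γ Bᶜ + (B \ R).card - gr Γ (kept B R))
    have h8' : gr Γ (kept B R) ≤ gr Γ Bᶜ + (B \ R).card := h8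
    omega
  · unfold rN
    have e4 : Finset.univ \ B = Bᶜ := (Finset.compl_eq_univ_sdiff B).symm
    have e5 : Finset.univ ∩ B = B := Finset.univ_inter B
    rw [e4, e5]
    omega

/-- the expansion in powers of `d²` -/
theorem expand_mix (Γ : Ribbon k) (hΓ : Γ.Planar) (hk : 0 < k) (B : Finset (Fin k)) (w : Fin k → ℤ) :
    (-T 2 - T (-2)) ^ rN Γ B Finset.univ * (T (- ∑ e, w e) * ((mix Γ B).fill w).std.bracket) =
      ∑ R : Finset (Fin k), (∏ e ∈ R, (zf (w e) - 1)) * (-T 2 - T (-2)) ^ (2 * df Γ B R) := by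
  have h0 : ((-T 2 - T (-2)) ^ (Γ.curves Bᶜ - 1) : ℤ[T;T⁻¹]) ≠ 0 := pow_ne_zero _ delta_ne
  apply mul_left_cancel₀ h0
  rw [expand (mix Γ B) hk w, ← mul_assoc, ← pow_add, add_comm (Γ.curves Bᶜ - 1), 
    (exponents Γ hΓ hk B ∅).2, Finset.mul_sum, Finset.mul_sum]
  refine Finset.sum_congr rfl fun R _ => ?_
  rw [bracket_state]
  have h1 : ((-T 2 - T (-2)) ^ R.card * ∏ e ∈ R, brk (w e) : ℤ[T;T⁻¹]) = ∏ e ∈ R, (zf (w e) - 1) := by
    rw [← Finset.prod_const, ← Finset.prod_mul_distrib]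
    exact Finset.prod_congr rfl fun e _ => brk_mul (w e)
  have h2 : ((-T 2 - T (-2)) ^ k : ℤ[T;T⁻¹]) = (-T 2 - T (-2)) ^ (k - R.card) * (-T 2 - T (-2)) ^ R.card := by
    rw [← pow_add]
    congr 1
    have := Finset.card_le_univ R
    rw [Fintype.card_fin] at this
    omega
  have h3 : ((-T 2 - T (-2)) ^ (k - R.card) * (-T 2 - T (-2)) ^ (Γ.curves (kept B R) - 1) : ℤ[T;T⁻¹]) = 
      (-T 2 - T (-2)) ^ (Γ.curves Bᶜ - 1) * (-T 2 - T (-2)) ^ (2 * df Γ B R) := by
    rw [← pow_add, ← pow_add, (exponents Γ hΓ hk B R).1]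
  rw [h2, ← h1]
  linear_combination ((-T 2 - T (-2)) ^ R.card * ∏ e ∈ R, brk (w e) : ℤ[T;T⁻¹]) * h3

/-! ### evaluation on the unit circle -/

/-- evaluation -/
noncomputable def ev (u : ℂˣ) : ℤ[T;T⁻¹] →+* ℂ := LaurentPolynomial.eval₂ (Int.castRingHom ℂ) u

theorem ev_T (u : ℂˣ) (n : ℤ) : ev u (T n) = (u : ℂ) ^ n := by
  unfold ev
  rw [LaurentPolynomial.eval₂_T]
  simp

theorem ev_bound (f : ℤ[T;T⁻¹]) : ∃ C : ℝ, ∀ u : ℂˣ, ‖(u : ℂ)‖ = 1 → ‖ev u f‖ ≤ C := by
  induction f using LaurentPolynomial.induction_on' with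
  | add p q hp hq =>
    obtain ⟨C, hC⟩ := hp
    obtain ⟨D, hD⟩ := hq
    refine ⟨C + D, fun u hu => ?_⟩
    rw [map_add]
    exact (norm_add_le _ _).trans (add_le_add (hC u hu) (hD u hu))
  | C_mul_T n a =>
    refine ⟨‖(a : ℂ)‖, fun u hu => ?_⟩
    rw [map_mul, norm_mul, ev_T, norm_zpow, hu, one_zpow, mul_one]
    have : ev u (C a) = (a : ℂ) := by
      unfold ev
      rw [LaurentPolynomial.eval₂_C]
      rfl
    rw [this]

theorem ev_zf (u : ℂˣ) (n : ℤ) : ev u (zf n) = (-((u : ℂ) ^ (-4 : ℤ))) ^ n := by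
  have h : ev u (zf n) = (-1 : ℂ) ^ n.natAbs * (u : ℂ) ^ (-4 * n) := by
    show ev u ((-1) ^ n.natAbs * T (-4 * n)) = _
    rw [map_mul, map_pow, map_neg, map_one, ev_T]
  rw [h, zpow_mul]
  have h1 : ((-1 : ℂ)) ^ n.natAbs = (-1 : ℂ) ^ n := by
    rcases Int.natAbs_eq n with h2 | h2
    · conv_rhs => rw [h2, zpow_natCast]
    · conv_rhs => rw [h2, zpow_neg, zpow_natCast]
      rw [← inv_pow]
      norm_num
  rw [h1, ← mul_zpow]
  congr 1
  ring

/-- the point `exp(i(π-ε)/4)` -/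
noncomputable def pt (ε : ℝ) : ℂˣ := 
  Units.mk0 (Complex.exp (((Real.pi - ε) / 4 : ℝ) * Complex.I)) (Complex.exp_ne_zero _)

theorem norm_pt (ε : ℝ) : ‖(pt ε : ℂ)‖ = 1 := Complex.norm_exp_ofReal_mul_I _

theorem pt_zpow (ε : ℝ) (n : ℤ) : (pt ε : ℂ) ^ n = Complex.exp ((n * ((Real.pi - ε) / 4) : ℝ) * Complex.I) := by
  show (Complex.exp _) ^ n = _
  rw [← Complex.exp_int_mul]
  congr 1
  push_cast
  ring

theorem ev_pt_zf (ε : ℝ) (n : ℤ) : ev (pt ε) (zf n) = Complex.exp ((ε * n : ℝ) * Complex.I) := by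
  rw [ev_zf, pt_zpow]
  have h1 : -Complex.exp (((-4 : ℤ) * ((Real.pi - ε) / 4) : ℝ) * Complex.I) = 
      Complex.exp (ε * Complex.I) := by
    have h2 : ((((-4 : ℤ) * ((Real.pi - ε) / 4) : ℝ)) : ℂ) * Complex.I = 
        ε * Complex.I - Real.pi * Complex.I := by
      push_cast
      ring
    rw [h2, Complex.exp_sub, Complex.exp_pi_mul_I]
    ring
  rw [h1, ← Complex.exp_int_mul]
  congr 1
  push_cast
  ring

/-- the value of `d` -/
noncomputable def dd (ε : ℝ) : ℂ := -Complex.exp ((2 * ((Real.pi - ε) / 4) : ℝ) * Complex.I) - 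
  Complex.exp ((-2 * ((Real.pi - ε) / 4) : ℝ) * Complex.I)

theorem ev_pt_d (ε : ℝ) : ev (pt ε) (-T 2 - T (-2)) = dd ε := by
  rw [map_sub, map_neg, ev_T, ev_T, pt_zpow, pt_zpow]
  unfold dd
  push_cast
  rfl

theorem dd_zero : dd 0 = 0 := by
  unfold dd
  have h1 : (((2 * ((Real.pi - 0) / 4) : ℝ)) : ℂ) * Complex.I = Real.pi / 2 * Complex.I := by
    push_cast
    ring
  have h2 : (((-2 * ((Real.pi - 0) / 4) : ℝ)) : ℂ) * Complex.I = -(Real.pi / 2) * Complex.I := by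
    push_cast
    ring
  rw [h1, h2, Complex.exp_pi_div_two_mul_I]
  have h3 : Complex.exp (-(Real.pi / 2) * Complex.I) = -Complex.I := by
    have : (-(Real.pi / 2) * Complex.I : ℂ) = Real.pi / 2 * Complex.I - Real.pi * Complex.I := by ring
    rw [this, Complex.exp_sub, Complex.exp_pi_mul_I, Complex.exp_pi_div_two_mul_I]
    ring
  rw [h3]
  ring

theorem dd_continuous : Continuous dd := by
  unfold dd
  fun_prop

theorem nS_smul (t : ℤ) (y : Fin k → ℤ) (S : Finset (Fin k)) : nS (t • y) S = t * nS y S := by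
  unfold nS
  rw [Finset.mul_sum]
  rfl

/-- **the limit** -/
theorem limit (Γ : Ribbon k) (hΓ : Γ.Planar) (hk : 0 < k) (B : Finset (Fin k)) (s : ℕ) (w y : Fin k → ℤ) 
    (lo : ℤ) (h : SIn ((mix Γ B).fill w).std.bracket lo (lo + 4 * s)) 
    (hy : ∀ S S' : Finset (Fin k), Close (mix Γ B) s w S S' → nS y S = nS y S')
    (hp : 0 < rN Γ B Finset.univ) (θ : ℝ) :
    ∑ R : Finset (Fin k), (if rN Γ B R = rN Γ B Finset.univ 
      then ∏ e ∈ R, (Complex.exp ((θ * y e : ℝ) * Complex.I) - 1) else 0) = 0 := by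
  classical
  have hO := mix_connected Γ B hΓ.1
  set H : ℝ → ℂ := fun ε => ∑ R : Finset (Fin k), (∏ e ∈ R, (Complex.exp ((ε * w e : ℝ) * Complex.I) * 
    Complex.exp ((θ * y e : ℝ) * Complex.I) - 1)) * dd ε ^ (2 * df Γ B R) with hH
  have hHc : Continuous H := by
    rw [hH]
    refine continuous_finsetSum _ fun R _ => ?_
    refine Continuous.mul ?_ (dd_continuous.pow _)
    refine continuous_finsetProd _ fun e _ => ?_
    fun_prop
  have hH0 : H 0 = ∑ R : Finset (Fin k), (if rN Γ B R = rN Γ B Finset.univ 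
      then ∏ e ∈ R, (Complex.exp ((θ * y e : ℝ) * Complex.I) - 1) else 0) := by
    rw [hH]
    refine Finset.sum_congr rfl fun R _ => ?_
    rw [dd_zero]
    by_cases hd : rN Γ B R = rN Γ B Finset.univ
    · rw [if_pos hd, (df_zero Γ B R).2 hd, mul_zero, pow_zero, mul_one]
      refine Finset.prod_congr rfl fun e _ => ?_
      simp
    · rw [if_neg hd]
      have : 2 * df Γ B R ≠ 0 := by
        intro h0
        exact hd ((df_zero Γ B R).1 (by omega))
      rw [zero_pow this, mul_zero]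
  rw [← hH0]
  obtain ⟨C, hC⟩ := ev_bound (T (- ∑ e, w e) * ((mix Γ B).fill w).std.bracket)
  have hlim : Filter.Tendsto (fun t : ℕ => θ / (t + 1 : ℝ)) Filter.atTop (nhds 0) := by
    have h1 := (tendsto_one_div_add_atTop_nhds_zero_nat (𝕜 := ℝ)).const_mul θ
    rw [mul_zero] at h1
    refine h1.congr fun t => ?_
    rw [mul_one_div]
  have hval : ∀ t : ℕ, ‖H (θ / (t + 1 : ℝ))‖ ≤ ‖dd (θ / (t + 1 : ℝ))‖ ^ rN Γ B Finset.univ * C := by
    intro t
    set ε : ℝ := θ / (t + 1 : ℝ) with hε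
    have ht : ε * (t + 1) = θ := by
      rw [hε]
      field_simp
    obtain ⟨y0, h0⟩ := rigid (mix Γ B) hk hO s w (((t + 1 : ℕ) : ℤ) • y) lo h (fun S S' hc => by
      rw [nS_smul, nS_smul, hy S S' hc])
    have h1 := expand_mix Γ hΓ hk B (w + ((t + 1 : ℕ) : ℤ) • y)
    have h2 := congrArg (ev (pt ε)) h1
    rw [h0, map_mul, map_pow, map_mul, ev_pt_d, map_sum] at h2
    have h3 : ∑ R : Finset (Fin k), ev (pt ε) ((∏ e ∈ R, (zf ((w + ((t + 1 : ℕ) : ℤ) • y) e) - 1)) * 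
        (-T 2 - T (-2)) ^ (2 * df Γ B R)) = H ε := by
      rw [hH]
      refine Finset.sum_congr rfl fun R _ => ?_
      rw [map_mul, map_pow, ev_pt_d, map_prod]
      congr 1
      refine Finset.prod_congr rfl fun e _ => ?_
      rw [map_sub, map_one, ev_pt_zf, ← Complex.exp_add]
      congr 2
      rw [← ht]
      simp only [Pi.add_apply, Pi.smul_apply, smul_eq_mul]
      push_cast
      ring
    rw [h3] at h2
    rw [← h2, norm_mul, norm_mul, norm_pow, ev_pt_zf, Complex.norm_exp_ofReal_mul_I, one_mul]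
    exact mul_le_mul_of_nonneg_left (hC _ (norm_pt ε)) (by positivity)
  have hz : Filter.Tendsto (fun t : ℕ => ‖dd (θ / (t + 1 : ℝ))‖ ^ rN Γ B Finset.univ * C) Filter.atTop 
      (nhds 0) := by
    have h1 : Filter.Tendsto (fun t : ℕ => ‖dd (θ / (t + 1 : ℝ))‖) Filter.atTop (nhds ‖dd 0‖) :=
      ((dd_continuous.norm).tendsto 0).comp hlim
    rw [dd_zero, norm_zero] at h1
    have h2 := (h1.pow (rN Γ B Finset.univ)).mul_const C
    rwa [zero_pow hp.ne', zero_mul] at h2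
  have hH1 : Filter.Tendsto (fun t : ℕ => H (θ / (t + 1 : ℝ))) Filter.atTop (nhds 0) :=
    squeeze_zero_norm hval hz
  exact tendsto_nhds_unique ((hHc.tendsto 0).comp hlim) hH1

end Pool.Agent.Q99.ET
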