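import Pool.Agent.Q99.ET.Cut
import Pool.Agent.Q99.ET.Lim

/-!
# The limit `d → 0` for arbitrary diagrams with boxes
-/

set_option autoImplicit false

namespace Pool.Agent.Q99.ET

open Finset LaurentPolynomial Pool.Agent.H891R2.Jones Pool.Agent.H891R2.MT Pool.Agent.H891R2.SI T4b
open Pool.Agent.Y463.CD (zf brk brk_mul expand delta_ne zf_add zf_zero Close rigid Adj ev8 ev8_d)

variable {k : ℕ}

/-- the dual of the rank function of the graph of the pieces -/
noncomputable def cN (O : Sites k) (R : Finset (Fin k)) : ℕ := R.card + rH O Rᶜ - rH O Finset.univ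

theorem cN_rk (O : Sites k) : IsRk (cN O) := (rH_rk O).dual

theorem rH_le (O : Sites k) (U : Finset (Fin k)) : rH O U ≤ U.card := by
  have h1 := (rH_rk O).le_card ∅ U
  rwa [(rH_rk O).1, Finset.union_empty, zero_add] at h1

theorem nc_pos (O : Sites k) (hk : 0 < k) (U : Finset (Fin k)) : 1 ≤ nc O U := by
  unfold nc
  have : Finite O.P := inferInstance
  have : Finite (Quot (CR O U)) := Quot.finite _
  have : Nonempty (Quot (CR O U)) := ⟨Quot.mk _ (O.corner ⟨0, hk⟩ false false)⟩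
  exact Nat.card_pos

/-- the rank is the number of boxes of `R` plus one minus the number of pieces -/
theorem cN_eq (O : Sites k) (hk : 0 < k) (hO : O.Connected) (R : Finset (Fin k)) : 
    cN O R + nc O Rᶜ = R.card + 1 := by
  have h1 := rH_add O Rᶜ
  have h2 := rH_add O Finset.univ
  rw [nc_univ O hk hO] at h2
  have h3 := (rH_rk O).le_card Rᶜ R
  rw [Finset.union_compl] at h3
  unfold cN
  omega

theorem cN_univ (O : Sites k) (hk : 0 < k) (hO : O.Connected) : 
    cN O Finset.univ + (nc O ∅ - 1) = k := by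
  have h1 := cN_eq O hk hO Finset.univ
  rw [Finset.compl_univ, Finset.card_univ, Fintype.card_fin] at h1
  have := nc_pos O hk ∅
  omega

theorem state_value (O : Sites k) (hk : 0 < k) (hO : O.Connected) (hd : ∀ p, Even (degree O p)) 
    (g : ℤ[T;T⁻¹]) (hg : O.cut.std.bracket = (-T 2 - T (-2)) ^ (nc O ∅ - 1) * g) (R : Finset (Fin k)) : 
    ∃ G : ℤ[T;T⁻¹], (-T 2 - T (-2)) ^ (Rᶜ).card * (O.state Rᶜ).std.bracket = 
        (-T 2 - T (-2)) ^ (nc O ∅ - 1) * G ∧ 
      ev8 G = if cN O R = cN O Finset.univ then ev8 g else 0 := by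
  have h1 := cN_eq O hk hO R
  have h2 := cN_univ O hk hO
  have h3 := rH_add O Rᶜ
  have h4 := rH_le O Rᶜ
  have h5 := nc_pos O hk Rᶜ
  have h6 := nc_pos O hk ∅
  have c1 : (Rᶜ).card + R.card = k := by
    have := Finset.card_compl_add_card R
    rwa [Fintype.card_fin] at this
  by_cases h : cN O R = cN O Finset.univ
  · refine ⟨g, ?_, by rw [if_pos h]⟩
    rw [bracket_forest O hd Rᶜ (by omega), hg]
  · obtain ⟨G', hG'⟩ := bracket_dvd O Rᶜ
    obtain ⟨δ, hδ⟩ : ∃ δ, (Rᶜ).card + (nc O Rᶜ - 1) = (nc O ∅ - 1) + (δ + 1) := 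
      ⟨(Rᶜ).card + (nc O Rᶜ - 1) - (nc O ∅ - 1) - 1, by omega⟩
    refine ⟨(-T 2 - T (-2)) ^ (δ + 1) * G', ?_, ?_⟩
    · rw [hG', ← mul_assoc, ← pow_add, hδ, pow_add, mul_assoc]
    · rw [if_neg h, map_mul, map_pow, ev8_d, zero_pow (Nat.succ_ne_zero δ), zero_mul]

/-- the expansion -/
theorem expand_cut (O : Sites k) (hk : 0 < k) (hO : O.Connected) (w : Fin k → ℤ) 
    (G : Finset (Fin k) → ℤ[T;T⁻¹]) (hG : ∀ R, (-T 2 - T (-2)) ^ (Rᶜ).card * (O.state Rᶜ).std.bracket = 
        (-T 2 - T (-2)) ^ (nc O ∅ - 1) * G R) :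
    (-T 2 - T (-2)) ^ cN O Finset.univ * (T (- ∑ e, w e) * (O.fill w).std.bracket) =
      ∑ R : Finset (Fin k), (∏ e ∈ R, (zf (w e) - 1)) * G R := by
  have h0 : ((-T 2 - T (-2)) ^ (nc O ∅ - 1) : ℤ[T;T⁻¹]) ≠ 0 := pow_ne_zero _ delta_ne
  apply mul_left_cancel₀ h0
  rw [expand O hk w, ← mul_assoc, ← pow_add, add_comm (nc O ∅ - 1), cN_univ O hk hO, Finset.mul_sum, 
    Finset.mul_sum]
  refine Finset.sum_congr rfl fun R _ => ?_
  have h1 : ((-T 2 - T (-2)) ^ R.card * ∏ e ∈ R, brk (w e) : ℤ[T;T⁻¹]) = ∏ e ∈ R, (zf (w e) - 1) := by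
    rw [← Finset.prod_const, ← Finset.prod_mul_distrib]
    exact Finset.prod_congr rfl fun e _ => brk_mul (w e)
  have h2 : ((-T 2 - T (-2)) ^ k : ℤ[T;T⁻¹]) = (-T 2 - T (-2)) ^ (Rᶜ).card * (-T 2 - T (-2)) ^ R.card := by
    rw [← pow_add]
    congr 1
    have := Finset.card_compl_add_card R
    rw [Fintype.card_fin] at this
    omega
  rw [h2, ← h1]
  linear_combination ((-T 2 - T (-2)) ^ R.card * ∏ e ∈ R, brk (w e) : ℤ[T;T⁻¹]) * hG R

theorem ev_continuous (G : ℤ[T;T⁻¹]) : Continuous (fun ε : ℝ => ev (pt ε) G) := by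
  induction G using LaurentPolynomial.induction_on' with
  | add p q hp hq =>
    simp only [map_add]
    exact hp.add hq
  | C_mul_T n a =>
    have : (fun ε : ℝ => ev (pt ε) (C a * T n)) = fun ε : ℝ => (a : ℂ) * 
        Complex.exp ((n * ((Real.pi - ε) / 4) : ℝ) * Complex.I) := by
      funext ε
      rw [map_mul, ev_T, pt_zpow]
      congr 1
      unfold ev
      rw [LaurentPolynomial.eval₂_C]
      rfl
    rw [this]
    fun_prop

theorem ev_zero (G : ℤ[T;T⁻¹]) : ev (pt 0) G = ev8 G := by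
  have : pt 0 = zeta8 := by
    apply Units.ext
    show Complex.exp _ = Complex.exp _
    congr 1
    push_cast
    ring
  unfold ev ev8
  rw [this]

/-- **the limit** -/
theorem limit2 (O : Sites k) (hk : 0 < k) (hO : O.Connected) (hd : ∀ p, Even (degree O p)) 
    (g : ℤ[T;T⁻¹]) (hg : O.cut.std.bracket = (-T 2 - T (-2)) ^ (nc O ∅ - 1) * g) (hg8 : ev8 g ≠ 0)
    (s : ℕ) (w y : Fin k → ℤ) (lo : ℤ) (h : SIn (O.fill w).std.bracket lo (lo + 4 * s)) 
    (hy : ∀ S S' : Finset (Fin k), Close O s w S S' → nS y S = nS y S')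
    (hp : 0 < cN O Finset.univ) (θ : ℝ) :
    ∑ R : Finset (Fin k), (if cN O R = cN O Finset.univ 
      then ∏ e ∈ R, (Complex.exp ((θ * y e : ℝ) * Complex.I) - 1) else 0) = 0 := by
  classical
  choose G hG1 hG2 using state_value O hk hO hd g hg
  set H : ℝ → ℂ := fun ε => ∑ R : Finset (Fin k), (∏ e ∈ R, (Complex.exp ((ε * w e : ℝ) * Complex.I) * 
    Complex.exp ((θ * y e : ℝ) * Complex.I) - 1)) * ev (pt ε) (G R) with hH
  have hHc : Continuous H := by
    rw [hH]
    refine continuous_finsetSum _ fun R _ => ?_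
    refine Continuous.mul ?_ (ev_continuous _)
    refine continuous_finsetProd _ fun e _ => ?_
    fun_prop
  have hH0 : H 0 = (∑ R : Finset (Fin k), (if cN O R = cN O Finset.univ 
      then ∏ e ∈ R, (Complex.exp ((θ * y e : ℝ) * Complex.I) - 1) else 0)) * ev8 g := by
    rw [hH, Finset.sum_mul]
    refine Finset.sum_congr rfl fun R _ => ?_
    rw [ev_zero, hG2]
    by_cases hd : cN O R = cN O Finset.univ
    · rw [if_pos hd, if_pos hd]
      congr 1
      refine Finset.prod_congr rfl fun e _ => ?_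
      simp
    · rw [if_neg hd, if_neg hd, mul_zero, zero_mul]
  suffices hs : H 0 = 0 by
    rw [hs] at hH0
    exact (mul_eq_zero.1 hH0.symm).resolve_right hg8
  obtain ⟨C, hC⟩ := ev_bound (T (- ∑ e, w e) * (O.fill w).std.bracket)
  have hlim : Filter.Tendsto (fun t : ℕ => θ / (t + 1 : ℝ)) Filter.atTop (nhds 0) := by
    have h1 := (tendsto_one_div_add_atTop_nhds_zero_nat (𝕜 := ℝ)).const_mul θ
    rw [mul_zero] at h1
    refine h1.congr fun t => ?_
    rw [mul_one_div]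
  have hval : ∀ t : ℕ, ‖H (θ / (t + 1 : ℝ))‖ ≤ ‖dd (θ / (t + 1 : ℝ))‖ ^ cN O Finset.univ * C := by
    intro t
    set ε : ℝ := θ / (t + 1 : ℝ) with hε
    have ht : ε * (t + 1) = θ := by
      rw [hε]
      field_simp
    obtain ⟨y0, h0⟩ := rigid O hk hO s w (((t + 1 : ℕ) : ℤ) • y) lo h (fun S S' hc => by
      rw [nS_smul, nS_smul, hy S S' hc])
    have h1 := expand_cut O hk hO (w + ((t + 1 : ℕ) : ℤ) • y) G hG1
    have h2 := congrArg (ev (pt ε)) h1
    rw [h0, map_mul, map_pow, map_mul, ev_pt_d, map_sum] at h2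
    have h3 : ∑ R : Finset (Fin k), ev (pt ε) ((∏ e ∈ R, (zf ((w + ((t + 1 : ℕ) : ℤ) • y) e) - 1)) * G R) 
        = H ε := by
      rw [hH]
      refine Finset.sum_congr rfl fun R _ => ?_
      rw [map_mul, map_prod]
      congr 1
      refine Finset.prod_congr rfl fun e _ => ?_
      rw [map_sub, map_one, ev_pt_zf, ← Complex.exp_add]
      congr 2
      rw [← ht]
      simp only [Pi.add_apply, Pi.smul_apply, smul_eq_mul]
      push_cast
      ring
    rw [h3] at h2
    rw [← h2, norm_mul, norm_mul, norm_pow, ev_pt_zf, Complex.norm_exp_ofReal_mul_I, one_mul]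
    exact mul_le_mul_of_nonneg_left (hC _ (norm_pt ε)) (by positivity)
  have hz : Filter.Tendsto (fun t : ℕ => ‖dd (θ / (t + 1 : ℝ))‖ ^ cN O Finset.univ * C) Filter.atTop 
      (nhds 0) := by
    have h1 : Filter.Tendsto (fun t : ℕ => ‖dd (θ / (t + 1 : ℝ))‖) Filter.atTop (nhds ‖dd 0‖) :=
      ((dd_continuous.norm).tendsto 0).comp hlim
    rw [dd_zero, norm_zero] at h1
    have h2 := (h1.pow (cN O Finset.univ)).mul_const C
    rwa [zero_pow hp.ne', zero_mul] at h2
  have hH1 : Filter.Tendsto (fun t : ℕ => H (θ / (t + 1 : ℝ))) Filter.atTop (nhds 0) :=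
    squeeze_zero_norm hval hz
  exact tendsto_nhds_unique ((hHc.tendsto 0).comp hlim) hH1

end Pool.Agent.Q99.ET
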