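import Pool.Agent.Y463.CD.Graph
import Pool.Agent.Q99.ET.Dual

/-!
# Diagrams with twist regions along and across the edges of a plane graph
-/

set_option autoImplicit false

namespace Pool.Agent.Q99.ET

open Finset LaurentPolynomial Pool.Agent.H891R2.Jones Pool.Agent.H891R2.MT Pool.Agent.H891R2.SI T4b
open Pool.Agent.Y463.CD (zf brk brk_mul expand graph_connected graphSites delta_ne)

variable {k : ℕ}

/-- The link diagram with one open box at every edge of the plane graph `Γ`: marked points are the two
sides of every dart; the box of `e ∈ B` is filled by a row of crossings along the edge (without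
crossings the band `e` is kept), the box of `e ∉ B` by a row of crossings across the edge (without
crossings the band `e` is cut). -/
abbrev mix (Γ : Ribbon k) (B : Finset (Fin k)) : Sites k where
  P := (Fin k × Bool) × Bool
  arcs := (List.finRange k).flatMap (fun e => 
    [(((e, false), true), (Γ.rot (e, false), false)), (((e, true), true), (Γ.rot (e, true), false))])
  crossings := []
  corner := fun e t l => if e ∈ B then ((e, t), if t then !l else l) else ((e, !l), if l then t else !t)

/-! ### the rank function of the graph -/

/-- the rank function of `Γ` -/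
noncomputable def gr (Γ : Ribbon k) (X : Finset (Fin k)) : ℕ := Γ.verts - Γ.comps X

theorem comps_le (Γ : Ribbon k) (X : Finset (Fin k)) : Γ.comps X ≤ Γ.verts := by
  induction X using Finset.induction_on with
  | empty => rw [T3c.comps_empty]
  | insert e X _ ih =>
    rcases T3a.comps_insert Γ X e with ⟨_, h⟩ | ⟨_, h⟩
    · omega
    · omega

theorem gr_add (Γ : Ribbon k) (X : Finset (Fin k)) : gr Γ X + Γ.comps X = Γ.verts := by
  have := comps_le Γ X
  unfold gr
  omega

theorem gr_rk (Γ : Ribbon k) : IsRk (gr Γ) := by
  refine ⟨?_, ?_, ?_⟩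
  · unfold gr
    rw [T3c.comps_empty, Nat.sub_self]
  · intro A e
    have h1 := gr_add Γ A
    have h2 := gr_add Γ (insert e A)
    rcases T3a.comps_insert Γ A e with ⟨_, h⟩ | ⟨_, h⟩ <;> omega
  · intro A e f he hf
    have h1 := gr_add Γ A
    have h2 := gr_add Γ (insert e A)
    have h3 := gr_add Γ (insert f A)
    have h4 := gr_add Γ (insert e (insert f A))
    rcases T3a.comps_insert Γ A e with ⟨c, h⟩ | ⟨_, h⟩
    · rcases T3a.comps_insert Γ (insert f A) e with ⟨_, h'⟩ | ⟨c', h'⟩
      · omega
      · exfalso
        apply c'
        have := congrArg (Quot.lift (Quot.mk (T3a.rel Γ (insert f A)))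
          (fun x y h => Quot.sound (T3a.rel_mono Γ (Finset.subset_insert f A) x y h)) : 
            Quot (T3a.rel Γ A) → Quot (T3a.rel Γ (insert f A))) c
        exact this
    · omega

/-! ### the states -/

/-- the kept bands of the state `Rᶜ` -/
abbrev kept (B R : Finset (Fin k)) : Finset (Fin k) := (R \ B) ∪ (B \ R)

theorem card_quot_mix (Γ : Ribbon k) (B R : Finset (Fin k)) :
    Nat.card (Quot (fun p q : (Fin k × Bool) × Bool => (p, q) ∈ ((mix Γ B).state Rᶜ).arcs)) =
      Γ.curves (kept B R) := by
  classical
  have hmem : ∀ p q : (Fin k × Bool) × Bool, (p, q) ∈ ((mix Γ B).state Rᶜ).arcs ↔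
      ((∃ d : Fin k × Bool, p = (d, true) ∧ q = (Γ.rot d, false)) ∨
        ∃ e : Fin k, if e ∈ Rᶜ
          then (p = (mix Γ B).corner e false true ∧ q = (mix Γ B).corner e true true) ∨
            (p = (mix Γ B).corner e false false ∧ q = (mix Γ B).corner e true false)
          else (p = (mix Γ B).corner e false true ∧ q = (mix Γ B).corner e false false) ∨
            (p = (mix Γ B).corner e true true ∧ q = (mix Γ B).corner e true false)) := by
    intro p q
    show (p, q) ∈ (mix Γ B).arcs ++ _ ↔ _
    rw [List.mem_append]
    refine or_congr ?_ ?_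
    · show _ ∈ (List.finRange k).flatMap _ ↔ _
      rw [List.mem_flatMap]
      constructor
      · rintro ⟨e, _, he⟩
        simp only [List.mem_cons, List.not_mem_nil, or_false, Prod.mk.injEq] at he
        rcases he with ⟨rfl, rfl⟩ | ⟨rfl, rfl⟩
        · exact ⟨(e, false), rfl, rfl⟩
        · exact ⟨(e, true), rfl, rfl⟩
      · rintro ⟨⟨e, t⟩, rfl, rfl⟩
        refine ⟨e, List.mem_finRange e, ?_⟩
        cases t <;> simp
    · rw [List.mem_flatMap]
      constructor
      · rintro ⟨e, _, he⟩
        refine ⟨e, ?_⟩
        by_cases h : e ∈ Rᶜ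
        · rw [if_pos h] at he ⊢
          simpa only [List.mem_cons, List.not_mem_nil, or_false, Prod.mk.injEq] using he
        · rw [if_neg h] at he ⊢
          simpa only [List.mem_cons, List.not_mem_nil, or_false, Prod.mk.injEq] using he
      · rintro ⟨e, he⟩
        refine ⟨e, List.mem_finRange e, ?_⟩
        by_cases h : e ∈ Rᶜ
        · rw [if_pos h] at he ⊢
          simpa only [List.mem_cons, List.not_mem_nil, or_false, Prod.mk.injEq] using he
        · rw [if_neg h] at he ⊢
          simpa only [List.mem_cons, List.not_mem_nil, or_false, Prod.mk.injEq] using he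
  unfold Ribbon.curves
  have hc : ∀ (e : Fin k) (t l : Bool), (mix Γ B).corner e t l = 
      if e ∈ B then ((e, t), if t then !l else l) else ((e, !l), if l then t else !t) := fun _ _ _ => rfl
  apply T2.card_quot_congr
  · intro p q h
    rw [hmem] at h
    rcases h with ⟨d, rfl, rfl⟩ | ⟨e, he⟩
    · exact Quot.sound (Or.inl ⟨rfl, rfl⟩)
    · by_cases hR : e ∈ R
      · rw [if_neg (by simpa using hR)] at he
        by_cases hB : e ∈ B
        · -- cut
          have hK : e ∉ kept B R := by simp [hR, hB]
          simp only [if_pos hB] at he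
          rcases he with ⟨rfl, rfl⟩ | ⟨rfl, rfl⟩
          · exact Quot.sound (Or.inr (Or.inr ⟨hK, rfl⟩))
          · exact Quot.sound (Or.inr (Or.inr ⟨hK, rfl⟩))
        · have hK : e ∈ kept B R := by simp [hR, hB]
          simp only [if_neg hB] at he
          rcases he with ⟨rfl, rfl⟩ | ⟨rfl, rfl⟩
          · exact Quot.sound (Or.inr (Or.inl ⟨hK, rfl⟩))
          · exact Quot.sound (Or.inr (Or.inl ⟨hK, rfl⟩))
      · rw [if_pos (by simpa using hR)] at he
        by_cases hB : e ∈ B
        · have hK : e ∈ kept B R := by simp [hR, hB]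
          simp only [if_pos hB] at he
          rcases he with ⟨rfl, rfl⟩ | ⟨rfl, rfl⟩
          · exact Quot.sound (Or.inr (Or.inl ⟨hK, rfl⟩))
          · exact Quot.sound (Or.inr (Or.inl ⟨hK, rfl⟩))
        · have hK : e ∉ kept B R := by simp [hR, hB]
          simp only [if_neg hB] at he
          rcases he with ⟨rfl, rfl⟩ | ⟨rfl, rfl⟩
          · exact Quot.sound (Or.inr (Or.inr ⟨hK, rfl⟩))
          · exact Quot.sound (Or.inr (Or.inr ⟨hK, rfl⟩))
  · rintro ⟨⟨e, t⟩, l⟩ q h
    have hr : ∀ p q : (Fin k × Bool) × Bool, 
        (∃ e : Fin k, if e ∈ Rᶜ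
          then (p = (mix Γ B).corner e false true ∧ q = (mix Γ B).corner e true true) ∨
            (p = (mix Γ B).corner e false false ∧ q = (mix Γ B).corner e true false)
          else (p = (mix Γ B).corner e false true ∧ q = (mix Γ B).corner e false false) ∨
            (p = (mix Γ B).corner e true true ∧ q = (mix Γ B).corner e true false)) → 
        Quot.mk (fun p q : (Fin k × Bool) × Bool => (p, q) ∈ ((mix Γ B).state Rᶜ).arcs) p = Quot.mk _ q :=
      fun p q h => Quot.sound ((hmem p q).2 (Or.inr h))
    rcases h with ⟨h1, rfl⟩ | ⟨hK, rfl⟩ | ⟨hK, rfl⟩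
    · refine Quot.sound ((hmem _ _).2 (Or.inl ⟨(e, t), ?_, rfl⟩))
      simp only at h1
      rw [h1]
    · -- kept
      simp only at hK
      rw [Finset.mem_union, Finset.mem_sdiff, Finset.mem_sdiff] at hK
      rcases hK with ⟨hR, hB⟩ | ⟨hB, hR⟩
      · have h1 := hr ((e, false), false) ((e, true), true) ⟨e, by 
          rw [if_neg (by simpa using hR)]
          simp only [if_neg hB]
          exact Or.inl ⟨rfl, rfl⟩⟩
        have h2 := hr ((e, false), true) ((e, true), false) ⟨e, by 
          rw [if_neg (by simpa using hR)]
          simp only [if_neg hB]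
          exact Or.inr ⟨rfl, rfl⟩⟩
        cases t <;> cases l
        · exact h1
        · exact h2
        · exact h2.symm
        · exact h1.symm
      · have h1 := hr ((e, false), true) ((e, true), false) ⟨e, by 
          rw [if_pos (by simpa using hR)]
          simp only [if_pos hB]
          exact Or.inl ⟨rfl, rfl⟩⟩
        have h2 := hr ((e, false), false) ((e, true), true) ⟨e, by 
          rw [if_pos (by simpa using hR)]
          simp only [if_pos hB]
          exact Or.inr ⟨rfl, rfl⟩⟩
        cases t <;> cases l
        · exact h2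
        · exact h1
        · exact h1.symm
        · exact h2.symm
    · -- cut
      simp only at hK
      rw [Finset.mem_union, Finset.mem_sdiff, Finset.mem_sdiff, not_or] at hK
      by_cases hR : e ∈ R
      · have hB : e ∈ B := by
          by_contra hB
          exact hK.1 ⟨hR, hB⟩
        have h1 := hr ((e, false), true) ((e, false), false) ⟨e, by 
          rw [if_neg (by simpa using hR)]
          simp only [if_pos hB]
          exact Or.inl ⟨rfl, rfl⟩⟩
        have h2 := hr ((e, true), false) ((e, true), true) ⟨e, by 
          rw [if_neg (by simpa using hR)]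
          simp only [if_pos hB]
          exact Or.inr ⟨rfl, rfl⟩⟩
        cases t <;> cases l
        · exact h1.symm
        · exact h1
        · exact h2
        · exact h2.symm
      · have hB : e ∉ B := by
          intro hB
          exact hK.2 ⟨hB, hR⟩
        have h1 := hr ((e, false), false) ((e, false), true) ⟨e, by 
          rw [if_pos (by simpa using hR)]
          simp only [if_neg hB]
          exact Or.inl ⟨rfl, rfl⟩⟩
        have h2 := hr ((e, true), true) ((e, true), false) ⟨e, by 
          rw [if_pos (by simpa using hR)]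
          simp only [if_neg hB]
          exact Or.inr ⟨rfl, rfl⟩⟩
        cases t <;> cases l
        · exact h1
        · exact h1.symm
        · exact h2.symm
        · exact h2

/-- the bracket of a diagram without crossings -/
theorem bracket_nil {P : Type} (U : UDiagram P) (h : U.crossings = []) :
    U.std.bracket = (-T 2 - T (-2)) ^ (Nat.card (Quot (fun p q : P => (p, q) ∈ U.arcs)) - 1) := by
  obtain ⟨arcs, crossings⟩ := U
  simp only at h
  subst h
  have : Unique (Fin (UDiagram.std ⟨arcs, []⟩ : Diagram P).crossings.length → Bool) := by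
    have : IsEmpty (Fin (UDiagram.std ⟨arcs, []⟩ : Diagram P).crossings.length) := Fin.isEmpty'
    exact Pi.uniqueOfIsEmpty _
  unfold Diagram.bracket
  rw [Fintype.sum_unique]
  have h1 : ∀ s : Fin (UDiagram.std ⟨arcs, []⟩ : Diagram P).crossings.length → Bool, Diagram.weight s = 0 := by
    intro s
    unfold Diagram.weight
    have : IsEmpty (Fin (UDiagram.std ⟨arcs, []⟩ : Diagram P).crossings.length) := Fin.isEmpty'
    exact Finset.sum_of_isEmpty _
  rw [h1, T_zero, one_mul]
  congr 2
  unfold Diagram.loops
  apply Nat.card_congr
  apply Quot.congrRight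
  intro p q
  unfold Diagram.Joined
  constructor
  · rintro (h | ⟨i, _⟩)
    · exact h
    · exact i.elim0
  · exact Or.inl

theorem bracket_state (Γ : Ribbon k) (B R : Finset (Fin k)) :
    ((mix Γ B).state Rᶜ).std.bracket = (-T 2 - T (-2)) ^ (Γ.curves (kept B R) - 1) := by
  rw [bracket_nil _ rfl, card_quot_mix]

theorem mix_connected (Γ : Ribbon k) (B : Finset (Fin k)) (hΓ : Γ.comps Finset.univ = 1) : 
    (mix Γ B).Connected := by
  intro p q
  have h := graph_connected Γ hΓ p q
  clear hΓ
  induction h with
  | rel p q h =>
    rcases h with h | h | ⟨e, t, l, t', l', rfl, rfl⟩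
    · exact Relation.EqvGen.rel _ _ (Or.inl h)
    · exact Relation.EqvGen.rel _ _ (Or.inr (Or.inl h))
    · -- corners
      have hc : ∀ (x : Bool × Bool), ∃ t l : Bool, ((e, x.1), x.2) = (mix Γ B).corner e t l := by
        rintro ⟨a, b⟩
        show ∃ t l : Bool, ((e, a), b) = 
          if e ∈ B then ((e, t), if t then !l else l) else ((e, !l), if l then t else !t)
        by_cases hB : e ∈ B
        · simp only [if_pos hB]
          cases a <;> cases b
          · exact ⟨false, false, rfl⟩
          · exact ⟨false, true, rfl⟩
          · exact ⟨true, true, rfl⟩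
          · exact ⟨true, false, rfl⟩
        · simp only [if_neg hB]
          cases a <;> cases b
          · exact ⟨false, true, rfl⟩
          · exact ⟨true, true, rfl⟩
          · exact ⟨true, false, rfl⟩
          · exact ⟨false, false, rfl⟩
      obtain ⟨t1, l1, h1⟩ := hc (t, if t then !l else l)
      obtain ⟨t2, l2, h2⟩ := hc (t', if t' then !l' else l')
      exact Relation.EqvGen.rel _ _ (Or.inr (Or.inr ⟨e, t1, l1, t2, l2, h1, h2⟩))
  | refl p => exact Relation.EqvGen.refl _
  | symm _ _ _ ih => exact Relation.EqvGen.symm _ _ ih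
  | trans _ _ _ _ _ ih1 ih2 => exact Relation.EqvGen.trans _ _ _ ih1 ih2

end Pool.Agent.Q99.ET
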