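import Pool.Agent.Q99.ET.Main2
import Pool.Agent.Q99.ET.Dir2

/-!
# Two families with equal Jones polynomials: rigidity and the limit
-/

set_option autoImplicit false

namespace Pool.Agent.Q99.ET

open Finset LaurentPolynomial Pool.Agent.H891R2.Jones Pool.Agent.H891R2.MT Pool.Agent.H891R2.SI T4b
open Pool.Agent.Y463.CD (zf brk brk_mul expand delta_ne zf_add zf_zero cluster Adj ev8 ev8_d fPoly_pow)
open Pool.Agent.H891R2.ZO (IsPow)

variable {k k' : ℕ}

/-- the unnormalised bracket -/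
noncomputable def NN (O : Sites k) (w : Fin k → ℤ) : ℤ[T;T⁻¹] := 
  T (- ∑ e, w e) * (O.fill w).std.bracket

theorem NN_expand (O : Sites k) (hk : 0 < k) (w : Fin k → ℤ) : 
    (-T 2 - T (-2)) ^ k * NN O w = ∑ R : Finset (Fin k), zf (nS w R) * Zp O R := by
  have h := Pool.Agent.H891R2.SI.S3 O hk w
  unfold NN
  rw [← mul_assoc]
  exact h

theorem nS_add (w y : Fin k → ℤ) (R : Finset (Fin k)) : nS (w + y) R = nS w R + nS y R := by
  unfold nS
  rw [← Finset.sum_add_distrib]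
  rfl

/-- **rigidity for pairs** -/
theorem rigid_pair (O : Sites k) (hk : 0 < k) (hO : O.Connected) (O' : Sites k') (hk' : 0 < k') 
    (hO' : O'.Connected) (w y : Fin k → ℤ) (w' y' : Fin k' → ℤ) (n : ℕ) (b a c : ℤ) (hb : -2 ≤ b) 
    (hb' : b ≤ 2) (h : NN O w = (-1) ^ n * T b * zf a * NN O' w')
    (h1 : ∀ S S' : Finset (Fin k), |nS w S - nS w S'| ≤ 
      2 * (O.crossings.length + O'.crossings.length) + 2 * (k + k') + 1 → nS y S = nS y S')
    (h2 : ∀ S S' : Finset (Fin k'), |nS w' S - nS w' S'| ≤ 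
      2 * (O.crossings.length + O'.crossings.length) + 2 * (k + k') + 1 → nS y' S = nS y' S')
    (h3 : ∀ (S : Finset (Fin k)) (S' : Finset (Fin k')), |nS w S - (nS w' S' + a)| ≤ 
      2 * (O.crossings.length + O'.crossings.length) + 2 * (k + k') + 1 → nS y S = nS y' S' + c) :
    NN O (w + y) = (-1) ^ n * T b * zf (a + c) * NN O' (w' + y') := by
  classical
  have hc0 : (0 : ℤ) ≤ O.crossings.length := by positivity
  have hc0' : (0 : ℤ) ≤ O'.crossings.length := by positivity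
  have hk0 : (0 : ℤ) ≤ k := by positivity
  have hk0' : (0 : ℤ) ≤ k' := by positivity
  set B : ℤ := 3 * (O.crossings.length + O'.crossings.length) + 4 * (k + k') + 2 with hB
  let p : Finset (Fin k) ⊕ Finset (Fin k') → ℤ[T;T⁻¹] := Sum.elim 
    (fun R => (-T 2 - T (-2)) ^ k' * Zp O R) 
    (fun R => -1 * ((-1) ^ n * T b * (-T 2 - T (-2)) ^ k * Zp O' R))
  let A : Finset (Fin k) ⊕ Finset (Fin k') → ℤ := Sum.elim (fun R => nS w R) (fun R => nS w' R + a)
  let Y : Finset (Fin k) ⊕ Finset (Fin k') → ℤ := Sum.elim (fun R => nS y R) (fun R => nS y' R + c)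
  have hp : ∀ i, SIn (p i) (-B) B := by
    rintro (R | R)
    · refine ((SIn_d.pow k').mul (S4 O hO R)).mono ?_ ?_
      · rw [hB]; linarith
      · rw [hB]; linarith
    · have e1 := ((((SIn_sgn n).mul (SIn.T b)).mul (SIn_d.pow k)).mul (S4 O' hO' R))
      have e2 := (SIn_sgn 1).mul e1
      rw [pow_one] at e2
      refine e2.mono ?_ ?_
      · rw [hB]; linarith
      · rw [hB]; linarith
  have e1 := NN_expand O hk w
  have e2 := NN_expand O' hk' w'
  have hzero : ∑ i ∈ (Finset.univ : Finset (Finset (Fin k) ⊕ Finset (Fin k'))), zf (A i) * p i = 0 := by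
    rw [Fintype.sum_sum_type]
    have e3 : ∑ R : Finset (Fin k), zf (A (Sum.inl R)) * p (Sum.inl R) = 
        (-T 2 - T (-2)) ^ k' * ((-T 2 - T (-2)) ^ k * NN O w) := by
      rw [e1, Finset.mul_sum]
      refine Finset.sum_congr rfl fun R _ => ?_
      show zf (nS w R) * ((-T 2 - T (-2)) ^ k' * Zp O R) = _
      ring
    have e4 : ∑ R : Finset (Fin k'), zf (A (Sum.inr R)) * p (Sum.inr R) = 
        - ((-1) ^ n * T b * zf a * (-T 2 - T (-2)) ^ k * ((-T 2 - T (-2)) ^ k' * NN O' w')) := by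
      rw [e2, Finset.mul_sum, ← Finset.sum_neg_distrib]
      refine Finset.sum_congr rfl fun R _ => ?_
      show zf (nS w' R + a) * (-1 * ((-1) ^ n * T b * (-T 2 - T (-2)) ^ k * Zp O' R)) = _
      rw [zf_add]
      ring
    rw [e3, e4, h]
    ring
  obtain ⟨y0, h0⟩ := cluster p B B 0 hp (by rw [hB]; linarith) le_rfl (by linarith) A Y _ 
    (Finset.univ : Finset (Finset (Fin k) ⊕ Finset (Fin k'))) le_rfl 0 (by
      rw [hzero]
      exact SIn.zero) (by
      rintro (S | S) _ (S' | S') _ hc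
      · refine h1 S S' ?_
        have hc' : 2 * |nS w S - nS w S'| ≤ B := hc
        rw [hB] at hc'
        linarith
      · refine h3 S S' ?_
        have hc' : 2 * |nS w S - (nS w' S' + a)| ≤ B := hc
        rw [hB] at hc'
        linarith
      · refine (h3 S' S ?_).symm
        have hc' : 2 * |(nS w' S + a) - nS w S'| ≤ B := hc
        rw [abs_sub_comm] at hc'
        rw [hB] at hc'
        linarith
      · have hc' : 2 * |(nS w' S + a) - (nS w' S' + a)| ≤ B := hc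
        have hc2 : (nS w' S + a) - (nS w' S' + a) = nS w' S - nS w' S' := by ring
        rw [hc2, hB] at hc'
        show nS y' S + c = nS y' S' + c
        rw [h2 S S' (by linarith)])
  rw [hzero, mul_zero, Fintype.sum_sum_type] at h0
  have f1 := NN_expand O hk (w + y)
  have f2 := NN_expand O' hk' (w' + y')
  have f3 : ∑ R : Finset (Fin k), zf (A (Sum.inl R) + Y (Sum.inl R)) * p (Sum.inl R) = 
      (-T 2 - T (-2)) ^ k' * ((-T 2 - T (-2)) ^ k * NN O (w + y)) := by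
    rw [f1, Finset.mul_sum]
    refine Finset.sum_congr rfl fun R _ => ?_
    show zf (nS w R + nS y R) * ((-T 2 - T (-2)) ^ k' * Zp O R) = _
    rw [nS_add]
    ring
  have f4 : ∑ R : Finset (Fin k'), zf (A (Sum.inr R) + Y (Sum.inr R)) * p (Sum.inr R) = 
      - ((-1) ^ n * T b * zf (a + c) * (-T 2 - T (-2)) ^ k * 
        ((-T 2 - T (-2)) ^ k' * NN O' (w' + y'))) := by
    rw [f2, Finset.mul_sum, ← Finset.sum_neg_distrib]
    refine Finset.sum_congr rfl fun R _ => ?_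
    show zf (nS w' R + a + (nS y' R + c)) * (-1 * ((-1) ^ n * T b * (-T 2 - T (-2)) ^ k * Zp O' R)) = _
    rw [nS_add, show nS w' R + a + (nS y' R + c) = (nS w' R + nS y' R) + (a + c) by ring, 
      zf_add _ (a + c)]
    ring
  rw [f3, f4] at h0
  have e6 : ((-T 2 - T (-2)) ^ k' * (-T 2 - T (-2)) ^ k : ℤ[T;T⁻¹]) ≠ 0 := 
    mul_ne_zero (pow_ne_zero _ delta_ne) (pow_ne_zero _ delta_ne)
  apply mul_left_cancel₀ e6
  linear_combination h0

/-- units -/
theorem unit_split {u : ℤ[T;T⁻¹]} (hu : IsPow u) : 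
    ∃ (n : ℕ) (b a : ℤ), -2 ≤ b ∧ b ≤ 2 ∧ u = (-1) ^ n * T b * zf a := by
  obtain ⟨m, hm⟩ := hu
  have hz : ∀ a : ℤ, (T (-4 * a) : ℤ[T;T⁻¹]) = (-1) ^ a.natAbs * zf a := by
    intro a
    show _ = (-1) ^ a.natAbs * ((-1) ^ a.natAbs * T (-4 * a))
    rw [← mul_assoc, ← pow_add, Even.neg_one_pow ⟨a.natAbs, rfl⟩, one_mul]
  have hm4 : m = (m % 4 - 4 * (if m % 4 = 3 then 1 else 0)) + 
      (-4 * (-(m / 4) - (if m % 4 = 3 then 1 else 0))) := by
    have := Int.emod_add_mul_ediv m 4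
    split_ifs <;> linarith
  have hb1 : -2 ≤ m % 4 - 4 * (if m % 4 = 3 then 1 else 0) ∧ 
      m % 4 - 4 * (if m % 4 = 3 then 1 else 0) ≤ 2 := by
    have h1 := Int.emod_nonneg m (b := 4) (by norm_num)
    have h2 := Int.emod_lt_of_pos m (b := 4) (by norm_num)
    split_ifs <;> omega
  set b := m % 4 - 4 * (if m % 4 = 3 then 1 else 0) with hb
  set a := -(m / 4) - (if m % 4 = 3 then (1 : ℤ) else 0) with ha
  rcases hm with hm | hm
  · refine ⟨a.natAbs, b, a, hb1.1, hb1.2, ?_⟩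
    rw [hm, hm4, T_add, hz]
    ring
  · refine ⟨a.natAbs + 1, b, a, hb1.1, hb1.2, ?_⟩
    rw [hm, hm4, T_add, hz]
    ring

/-- equal normalised brackets -/
theorem pair_of_eq (O : Sites k) (hk : 0 < k) (O' : Sites k') (hk' : 0 < k') (w : Fin k → ℤ) 
    (w' : Fin k' → ℤ) (D : Diagram (O.P ⊕ Ribbon.Pt w)) (hD : Orients D (O.fill w)) 
    (D' : Diagram (O'.P ⊕ Ribbon.Pt w')) (hD' : Orients D' (O'.fill w')) (h : D.fPoly = D'.fPoly) : 
    ∃ (n : ℕ) (b a : ℤ), -2 ≤ b ∧ b ≤ 2 ∧ NN O w = (-1) ^ n * T b * zf a * NN O' w' := by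
  have i1 : Nonempty (O.P ⊕ Ribbon.Pt w) := ⟨.inl (O.corner ⟨0, hk⟩ false false)⟩
  have i2 : Nonempty (O'.P ⊕ Ribbon.Pt w') := ⟨.inl (O'.corner ⟨0, hk'⟩ false false)⟩
  have b1 : D.bracket = (O.fill w).std.bracket := Pool.Agent.H891R2.MT.T6.bracket_orients D (O.fill w) hD
  have b2 : D'.bracket = (O'.fill w').std.bracket := 
    Pool.Agent.H891R2.MT.T6.bracket_orients D' (O'.fill w') hD'
  obtain ⟨u, hu, e1⟩ := fPoly_pow D
  obtain ⟨u', hu', e2⟩ := fPoly_pow D'
  obtain ⟨v, hv, e3⟩ := hu.inv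
  have e4 : NN O w = (T (- ∑ e, w e) * v * u' * T (∑ e, w' e)) * NN O' w' := by
    unfold NN
    rw [← b1, ← b2]
    have t1 : (T (∑ e, w' e) : ℤ[T;T⁻¹]) * T (- ∑ e, w' e) = 1 := by
      rw [← T_add, add_neg_cancel, T_zero]
    have t2 : u * D.bracket = u' * D'.bracket := by rw [← e1, ← e2, h]
    calc T (- ∑ e, w e) * D.bracket = T (- ∑ e, w e) * ((v * u) * D.bracket) := by rw [e3, one_mul]
      _ = T (- ∑ e, w e) * v * (u * D.bracket) := by ring
      _ = T (- ∑ e, w e) * v * (u' * D'.bracket) * (T (∑ e, w' e) * T (- ∑ e, w' e)) := by 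
          rw [t2, t1, mul_one]
      _ = _ := by ring
  have hU : IsPow (T (- ∑ e, w e) * v * u' * T (∑ e, w' e)) := 
    (((IsPow.T _).mul hv).mul hu').mul (IsPow.T _)
  obtain ⟨n, b, a, hb, hb', he⟩ := unit_split hU
  exact ⟨n, b, a, hb, hb', by rw [e4, he]⟩

end Pool.Agent.Q99.ET
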