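import Pool.Agent.Q99.ET.Pair

/-!
# Two families with equal Jones polynomials: the limit
-/

set_option autoImplicit false

namespace Pool.Agent.Q99.ET

open Finset LaurentPolynomial Pool.Agent.H891R2.Jones Pool.Agent.H891R2.MT Pool.Agent.H891R2.SI T4b
open Pool.Agent.Y463.CD (zf brk brk_mul expand delta_ne zf_add zf_zero cluster Adj ev8 ev8_d fPoly_pow)
open Pool.Agent.H891R2.ZO (IsPow)

variable {k k' : ℕ}

theorem nc_anti (O : Sites k) {U V : Finset (Fin k)} (h : U ⊆ V) : nc O V ≤ nc O U := by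
  have h1 := rH_add O U
  have h2 := rH_add O V
  have h3 := (rH_rk O).mono h
  omega

theorem dd_brk (ε : ℝ) (n : ℤ) : 
    dd ε * ev (pt ε) (brk n) = Complex.exp ((ε * n : ℝ) * Complex.I) - 1 := by
  rw [← ev_pt_d, ← map_mul, brk_mul, map_sub, map_one, ev_pt_zf]

/-- the growth of a family near `exp(π i/4)` is bounded by the rank of the set of the boxes which are seen -/
theorem pair_bound (O : Sites k) (hk : 0 < k) (hO : O.Connected) (w y : Fin k → ℤ) (θ : ℝ)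
    (J : Finset (Fin k)) (hJ : ∀ e ∉ J, Complex.exp ((θ * y e : ℝ) * Complex.I) = 1) (ρ : ℕ)
    (hr : cN O J < ρ) :
    ∃ (m : Finset (Fin k) → ℕ) (K : Finset (Fin k) → ℝ), (∀ R, 0 < m R) ∧ ∀ (ε : ℝ) (t : ℤ), 
      ε * t = θ → ‖dd ε‖ ^ ρ * ‖ev (pt ε) (NN O (w + t • y))‖ ≤ ∑ R, ‖dd ε‖ ^ m R * K R := by
  classical
  have hG : ∀ U : Finset (Fin k), ∃ G : ℤ[T;T⁻¹], (O.state U).std.bracket = 
      (-T 2 - T (-2)) ^ (nc O U - 1) * G := fun U => bracket_dvd O U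
  choose G hG using hG
  have hC : ∀ R : Finset (Fin k), ∃ C : ℝ, ∀ u : ℂˣ, ‖(u : ℂ)‖ = 1 → 
      ‖ev u ((∏ e ∈ R \ J, brk (w e)) * G Rᶜ)‖ ≤ C := fun R => ev_bound _
  choose C hC using hC
  have hm : ∀ R : Finset (Fin k), (R ∩ J).card < ρ + (nc O Rᶜ - 1) := by
    intro R
    have h1 := cN_eq O hk hO (R ∩ J)
    have h2 := (cN_rk O).mono (Finset.inter_subset_right : R ∩ J ⊆ J)
    have h3 : nc O (R ∩ J)ᶜ ≤ nc O Rᶜ := nc_anti O (Finset.compl_subset_compl.2 Finset.inter_subset_left)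
    have h4 := nc_pos O hk Rᶜ
    omega
  refine ⟨fun R => ρ + (nc O Rᶜ - 1) - (R ∩ J).card, fun R => 2 ^ (R ∩ J).card * C R, 
    fun R => Nat.sub_pos_of_lt (hm R), fun ε t ht => ?_⟩
  by_cases h0 : dd ε = 0
  · rw [h0, norm_zero, zero_pow (by omega), zero_mul]
    refine Finset.sum_nonneg fun R _ => ?_
    rw [zero_pow (Nat.sub_pos_of_lt (hm R)).ne', zero_mul]
  have hN : NN O (w + t • y) = ∑ R : Finset (Fin k), (∏ e ∈ R, brk ((w + t • y) e)) * 
      (O.state Rᶜ).std.bracket := expand O hk (w + t • y)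
  rw [hN, map_sum]
  refine (mul_le_mul_of_nonneg_left (norm_sum_le _ _) (by positivity)).trans ?_
  rw [Finset.mul_sum]
  refine Finset.sum_le_sum fun R _ => ?_
  have hout : ∀ e ∈ R \ J, ev (pt ε) (brk ((w + t • y) e)) = ev (pt ε) (brk (w e)) := by
    intro e he
    apply mul_left_cancel₀ h0
    rw [dd_brk, dd_brk]
    congr 1
    have h5 : ((ε * ((w + t • y) e : ℤ) : ℝ) : ℂ) * Complex.I = ((ε * (w e : ℤ) : ℝ) : ℂ) * Complex.I + 
        ((θ * (y e : ℤ) : ℝ) : ℂ) * Complex.I := by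
      rw [← ht]
      simp only [Pi.add_apply, Pi.smul_apply, smul_eq_mul]
      push_cast
      ring
    rw [h5, Complex.exp_add, hJ e (Finset.mem_sdiff.1 he).2, mul_one]
  have h1 : ev (pt ε) ((∏ e ∈ R, brk ((w + t • y) e)) * (O.state Rᶜ).std.bracket) = 
      (∏ e ∈ R ∩ J, ev (pt ε) (brk ((w + t • y) e))) * dd ε ^ (nc O Rᶜ - 1) * 
        ev (pt ε) ((∏ e ∈ R \ J, brk (w e)) * G Rᶜ) := by
    rw [hG, map_mul, map_mul, map_mul, map_pow, ev_pt_d, map_prod, map_prod, 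
      ← Finset.prod_inter_mul_prod_sdiff R J, Finset.prod_congr rfl hout]
    ring
  rw [h1, norm_mul, norm_mul, norm_pow]
  have h2 : ‖dd ε‖ ^ (R ∩ J).card * ‖∏ e ∈ R ∩ J, ev (pt ε) (brk ((w + t • y) e))‖ ≤ 
      2 ^ (R ∩ J).card := by
    rw [norm_prod, ← Finset.prod_const, ← Finset.prod_mul_distrib, ← Finset.prod_const]
    refine Finset.prod_le_prod (fun e _ => by positivity) fun e _ => ?_
    rw [← norm_mul, dd_brk]
    refine (norm_sub_le _ _).trans ?_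
    rw [Complex.norm_exp_ofReal_mul_I, norm_one]
    norm_num
  have h3 : ‖dd ε‖ ^ ρ * ‖dd ε‖ ^ (nc O Rᶜ - 1) = 
      ‖dd ε‖ ^ (ρ + (nc O Rᶜ - 1) - (R ∩ J).card) * ‖dd ε‖ ^ (R ∩ J).card := by
    rw [← pow_add, ← pow_add]
    congr 1
    have := hm R
    omega
  have h4 := hC R (pt ε) (norm_pt ε)
  have h6 : 0 ≤ C R := (norm_nonneg _).trans h4
  calc ‖dd ε‖ ^ ρ * (‖∏ e ∈ R ∩ J, ev (pt ε) (brk ((w + t • y) e))‖ * ‖dd ε‖ ^ (nc O Rᶜ - 1) * 
        ‖ev (pt ε) ((∏ e ∈ R \ J, brk (w e)) * G Rᶜ)‖) 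
      = (‖dd ε‖ ^ ρ * ‖dd ε‖ ^ (nc O Rᶜ - 1)) * ‖∏ e ∈ R ∩ J, ev (pt ε) (brk ((w + t • y) e))‖ * 
        ‖ev (pt ε) ((∏ e ∈ R \ J, brk (w e)) * G Rᶜ)‖ := by ring
    _ = ‖dd ε‖ ^ (ρ + (nc O Rᶜ - 1) - (R ∩ J).card) * (‖dd ε‖ ^ (R ∩ J).card * 
        ‖∏ e ∈ R ∩ J, ev (pt ε) (brk ((w + t • y) e))‖) * 
        ‖ev (pt ε) ((∏ e ∈ R \ J, brk (w e)) * G Rᶜ)‖ := by rw [h3]; ring
    _ ≤ ‖dd ε‖ ^ (ρ + (nc O Rᶜ - 1) - (R ∩ J).card) * (2 ^ (R ∩ J).card) * C R := by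
        refine mul_le_mul ?_ h4 (norm_nonneg _) (by positivity)
        exact mul_le_mul_of_nonneg_left h2 (by positivity)
    _ = _ := by ring

/-- **the limit for pairs** -/
theorem limit_pair (O : Sites k) (hk : 0 < k) (hO : O.Connected) (hd : ∀ p, Even (degree O p)) 
    (g : ℤ[T;T⁻¹]) (hg : O.cut.std.bracket = (-T 2 - T (-2)) ^ (nc O ∅ - 1) * g) (hg8 : ev8 g ≠ 0)
    (O' : Sites k') (hk' : 0 < k') (hO' : O'.Connected)
    (w y : Fin k → ℤ) (w' y' : Fin k' → ℤ) (n : ℕ) (b a c : ℤ) (hb : -2 ≤ b) 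
    (hb' : b ≤ 2) (h : NN O w = (-1) ^ n * T b * zf a * NN O' w')
    (h1 : ∀ S S' : Finset (Fin k), |nS w S - nS w S'| ≤ 
      2 * (O.crossings.length + O'.crossings.length) + 2 * (k + k') + 1 → nS y S = nS y S')
    (h2 : ∀ S S' : Finset (Fin k'), |nS w' S - nS w' S'| ≤ 
      2 * (O.crossings.length + O'.crossings.length) + 2 * (k + k') + 1 → nS y' S = nS y' S')
    (h3 : ∀ (S : Finset (Fin k)) (S' : Finset (Fin k')), |nS w S - (nS w' S' + a)| ≤ 
      2 * (O.crossings.length + O'.crossings.length) + 2 * (k + k') + 1 → nS y S = nS y' S' + c) 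
    (θ : ℝ) (J' : Finset (Fin k')) (hJ' : ∀ e ∉ J', Complex.exp ((θ * y' e : ℝ) * Complex.I) = 1)
    (hr : cN O' J' < cN O Finset.univ) :
    ∑ R : Finset (Fin k), (if cN O R = cN O Finset.univ 
      then ∏ e ∈ R, (Complex.exp ((θ * y e : ℝ) * Complex.I) - 1) else 0) = 0 := by
  classical
  choose G hG1 hG2 using state_value O hk hO hd g hg
  set H : ℝ → ℂ := fun ε => ∑ R : Finset (Fin k), (∏ e ∈ R, (Complex.exp ((ε * w e : ℝ) * Complex.I) * 
    Complex.exp ((θ * y e : ℝ) * Complex.I) - 1)) * ev (pt ε) (G R) with hH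
  have hHc : Continuous H := by
    rw [hH]
    refine continuous_finsetSum _ fun R _ => ?_
    refine Continuous.mul ?_ (ev_continuous _)
    refine continuous_finsetProd _ fun e _ => ?_
    fun_prop
  have hH0 : H 0 = (∑ R : Finset (Fin k), (if cN O R = cN O Finset.univ 
      then ∏ e ∈ R, (Complex.exp ((θ * y e : ℝ) * Complex.I) - 1) else 0)) * ev8 g := by
    rw [hH, Finset.sum_mul]
    refine Finset.sum_congr rfl fun R _ => ?_
    rw [ev_zero, hG2]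
    by_cases hd : cN O R = cN O Finset.univ
    · rw [if_pos hd, if_pos hd]
      congr 1
      refine Finset.prod_congr rfl fun e _ => ?_
      simp
    · rw [if_neg hd, if_neg hd, mul_zero, zero_mul]
  suffices hs : H 0 = 0 by
    rw [hs] at hH0
    exact (mul_eq_zero.1 hH0.symm).resolve_right hg8
  obtain ⟨m, K, hm, hK⟩ := pair_bound O' hk' hO' w' y' θ J' hJ' (cN O Finset.univ) hr
  have hlim : Filter.Tendsto (fun t : ℕ => θ / (t + 1 : ℝ)) Filter.atTop (nhds 0) := by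
    have h1 := (tendsto_one_div_add_atTop_nhds_zero_nat (𝕜 := ℝ)).const_mul θ
    rw [mul_zero] at h1
    refine h1.congr fun t => ?_
    rw [mul_one_div]
  have hval : ∀ t : ℕ, ‖H (θ / (t + 1 : ℝ))‖ ≤ ∑ R, ‖dd (θ / (t + 1 : ℝ))‖ ^ m R * K R := by
    intro t
    set ε : ℝ := θ / (t + 1 : ℝ) with hε
    have ht : ε * (t + 1) = θ := by
      rw [hε]
      field_simp
    have h0 := rigid_pair O hk hO O' hk' hO' w (((t + 1 : ℕ) : ℤ) • y) w' (((t + 1 : ℕ) : ℤ) • y') n b a 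
      (((t + 1 : ℕ) : ℤ) * c) hb hb' h (fun S S' hc => by rw [nS_smul, nS_smul, h1 S S' hc]) 
      (fun S S' hc => by rw [nS_smul, nS_smul, h2 S S' hc])
      (fun S S' hc => by rw [nS_smul, nS_smul, h3 S S' hc, mul_add])
    have h4 := expand_cut O hk hO (w + ((t + 1 : ℕ) : ℤ) • y) G hG1
    have h5 := congrArg (ev (pt ε)) h4
    change ev (pt ε) ((-T 2 - T (-2)) ^ cN O Finset.univ * NN O (w + ((t + 1 : ℕ) : ℤ) • y)) = _ at h5
    rw [h0, map_mul, map_pow, map_mul, ev_pt_d, map_sum] at h5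
    have h6 : ∑ R : Finset (Fin k), ev (pt ε) ((∏ e ∈ R, (zf ((w + ((t + 1 : ℕ) : ℤ) • y) e) - 1)) * G R) 
        = H ε := by
      rw [hH]
      refine Finset.sum_congr rfl fun R _ => ?_
      rw [map_mul, map_prod]
      congr 1
      refine Finset.prod_congr rfl fun e _ => ?_
      rw [map_sub, map_one, ev_pt_zf, ← Complex.exp_add]
      congr 2
      rw [← ht]
      simp only [Pi.add_apply, Pi.smul_apply, smul_eq_mul]
      push_cast
      ring
    rw [h6] at h5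
    rw [← h5, norm_mul, norm_mul, norm_pow]
    have h7 : ‖ev (pt ε) ((-1) ^ n * T b * zf (a + ((t + 1 : ℕ) : ℤ) * c))‖ = 1 := by
      rw [map_mul, map_mul, map_pow, map_neg, map_one, ev_T, ev_pt_zf, norm_mul, norm_mul, norm_pow, 
        norm_neg, norm_one, one_pow, norm_zpow, norm_pt, one_zpow, Complex.norm_exp_ofReal_mul_I]
      norm_num
    rw [h7, one_mul]
    exact hK ε ((t + 1 : ℕ) : ℤ) (by push_cast; exact ht)
  have hz : Filter.Tendsto (fun t : ℕ => ∑ R, ‖dd (θ / (t + 1 : ℝ))‖ ^ m R * K R) Filter.atTop 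
      (nhds 0) := by
    have h1 : Filter.Tendsto (fun t : ℕ => ‖dd (θ / (t + 1 : ℝ))‖) Filter.atTop (nhds ‖dd 0‖) :=
      ((dd_continuous.norm).tendsto 0).comp hlim
    rw [dd_zero, norm_zero] at h1
    have h2 : (0 : ℝ) = ∑ R, (0 : ℝ) ^ m R * K R := by
      rw [Finset.sum_eq_zero]
      intro R _
      rw [zero_pow (hm R).ne', zero_mul]
    rw [h2]
    exact tendsto_finsetSum _ fun R _ => (h1.pow (m R)).mul_const (K R)
  have hH1 : Filter.Tendsto (fun t : ℕ => H (θ / (t + 1 : ℝ))) Filter.atTop (nhds 0) :=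
    squeeze_zero_norm hval hz
  exact tendsto_nhds_unique ((hHc.tendsto 0).comp hlim) hH1

end Pool.Agent.Q99.ET
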