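import Pool.Agent.Y463.VC.Main
import Pool.Agent.Q99.ET.Main2

/-!
# Vassiliev invariants of bounded order and highly twisted diagrams
-/

set_option autoImplicit false

namespace Pool.Agent.Q99.ET

open Finset LaurentPolynomial Pool.Agent.H891R2.Jones Pool.Agent.H891R2.MT Pool.Agent.H891R2.SI
  Pool.Agent.H832R3.VJ T4b

variable {k : ℕ}

/-- a bound for the order of the invariants: `k` boxes, `c` crossings outside them, span `s` -/
def ordV (k c s : ℕ) : ℕ := 2 ^ k * (6 * c + 8 * k + 1) + 4 * k + 4 * s

/-- A diagram with the bracket of a member of a twist family and a diagram with small span, whose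
normalised brackets are different, are separated by a Vassiliev invariant of bounded order. -/
theorem sep_gen (hk : 0 < k) (O : Sites k) (hO : O.Connected) (w : Fin k → ℤ) (s : ℕ) (X Y : Dia) 
    (hb : X.D.bracket = (O.fill w).std.bracket) (hY : SpanAtMost s Y.D) (hne : X.D.fPoly ≠ Y.D.fPoly) :
    Separated (ordV k O.crossings.length s) X Y := by
  have hs := separated_of_ne (ordV k O.crossings.length s + 1)
    X Y ((-T 2 - T (-2)) ^ k) (pow_ne_zero _ FinL.delta_ne) ?_ hne
  · exact hs
  · rw [mul_sub]
    refine (FinL.card_support_sub _ _).trans ?_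
    have h1 : ((-T 2 - T (-2) : ℤ[T;T⁻¹]) ^ k * X.D.fPoly).coeff.support.card ≤ 
        2 ^ k * (6 * O.crossings.length + 8 * k + 1) := by
      have hf : ∃ ε m : ℤ, (-T 2 - T (-2) : ℤ[T;T⁻¹]) ^ k * X.D.fPoly = 
          C ε * T m * ((-T 2 - T (-2)) ^ k * T (- ∑ e, w e) * (O.fill w).std.bracket) := by
        refine ⟨if Even X.D.writhe then 1 else -1, -3 * X.D.writhe + ∑ e, w e, ?_⟩
        rw [← hb, T_add]
        have h1 : (T (∑ e, w e) : ℤ[T;T⁻¹]) * T (- ∑ e, w e) = 1 := by
          rw [← T_add, add_neg_cancel, T_zero]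
        unfold Diagram.fPoly
        by_cases hw : Even X.D.writhe
        · simp only [hw, if_true, map_one, one_mul]
          linear_combination (-(-T 2 - T (-2) : ℤ[T;T⁻¹]) ^ k * T (-3 * X.D.writhe) * X.D.bracket) * h1
        · simp only [hw, if_false, map_neg, map_one]
          linear_combination ((-T 2 - T (-2) : ℤ[T;T⁻¹]) ^ k * T (-3 * X.D.writhe) * X.D.bracket) * h1
      obtain ⟨ε, m, hf⟩ := hf
      rw [hf]
      refine (FinL.card_support_unit _ _ _).trans ?_
      rw [Pool.Agent.H891R2.SI.S3 O hk w]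
      refine (Pool.Agent.H891R2.VS.card_support_sum _ _ (6 * O.crossings.length + 8 * k + 1) ?_).trans ?_
      · intro R _
        have h4 : ((-1) ^ (nS w R).natAbs * T (-4 * nS w R) : ℤ[T;T⁻¹]) * Pool.Agent.H891R2.SI.Zp O R = 
            C ((-1) ^ (nS w R).natAbs) * T (-4 * nS w R) * Pool.Agent.H891R2.SI.Zp O R := by
          rw [map_pow, map_neg, map_one]
        rw [h4]
        refine (FinL.card_support_unit _ _ _).trans ?_
        have h5 := Pool.Agent.H891R2.VS.card_support_le (Pool.Agent.H891R2.SI.Zp O R) (-(3 * O.crossings.length + 4 * k)) 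
          (2 * (3 * O.crossings.length + 4 * k)) (by positivity) (fun j hj => by
            have := Pool.Agent.H891R2.SI.S4 O hO R j hj
            constructor
            · exact this.1
            · linarith [this.2])
        omega
      · simp
    have h2 : ((-T 2 - T (-2) : ℤ[T;T⁻¹]) ^ k * Y.D.fPoly).coeff.support.card ≤ 4 * k + 4 * s + 1 := by
      obtain ⟨lo, hlo⟩ := hY
      have h6 : SIn Y.D.fPoly lo (lo + 4 * s) := hlo
      have h5 := Pool.Agent.H891R2.VS.card_support_le ((-T 2 - T (-2) : ℤ[T;T⁻¹]) ^ k * Y.D.fPoly) 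
        (-(k * 2) + lo) (4 * k + 4 * s) (by positivity)
        (fun j hj => by
          have := (SIn.mul (T4b.SIn_d.pow k) h6) j hj
          constructor
          · linarith [this.1]
          · linarith [this.2])
      omega
    unfold ordV
    omega

/-- members of a twist family whose span is larger than the span of the other diagram -/
theorem sep_of_span (hk : 0 < k) (O : Sites k) (hO : O.Connected) (w : Fin k → ℤ) (s : ℕ) 
    (D : Diagram (O.P ⊕ Ribbon.Pt w)) (hD : Orients D (O.fill w)) (hX : ¬ SpanAtMost s D) 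
    (Y : Dia) (hY : SpanAtMost s Y.D) :
    Separated (ordV k O.crossings.length s) ⟨_, inferInstance, D⟩ Y := by
  have : Nonempty (O.P ⊕ Ribbon.Pt w) := ⟨.inl (O.corner ⟨0, hk⟩ false false)⟩
  have hb : D.bracket = (O.fill w).std.bracket := Pool.Agent.H891R2.MT.T6.bracket_orients D (O.fill w) hD
  refine sep_gen hk O hO w s _ Y hb hY ?_
  intro he
  apply hX
  obtain ⟨lo, hlo⟩ := hY
  refine ⟨lo, fun j hj => hlo j ?_⟩
  rw [← he]
  exact hj

end Pool.Agent.Q99.ET
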