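import Pool.Agent.Q99.ET.Pair2
import Pool.Agent.Q99.ET.Vas

/-!
# Highly twisted links with different twist ranks
-/

set_option autoImplicit false

namespace Pool.Agent.Q99.ET

open Finset LaurentPolynomial Pool.Agent.H891R2.Jones Pool.Agent.H891R2.MT Pool.Agent.H891R2.SI T4b
  Pool.Agent.H832R3.VJ
open Pool.Agent.Y463.CD (zf brk brk_mul expand delta_ne zf_add zf_zero cluster Adj ev8 ev8_d fPoly_pow)
open Pool.Agent.H891R2.ZO (IsPow)

variable {k k' : ℕ}

/-- the two ranks agree -/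
theorem cN_cutRank (O : Sites k) (hk : 0 < k) (hO : O.Connected) : cN O = cutRank O := by
  funext R
  have := cN_eq O hk hO R
  unfold cutRank pcs
  omega

/-- a common direction for two families -/
theorem direction_pair (X B0 : ℕ) (hX : 0 < X) (n : Fin k → ℤ) (n' : Fin k' → ℤ) (a : ℤ) :
    ∃ (y : Fin k → ℤ) (y' : Fin k' → ℤ) (c : ℤ), 
      (∀ e, (2 * (2 * (k + k' + 1) + 1) ^ (k + k') * (X + B0) : ℤ) ≤ |n e| → y e ≠ 0) ∧ 
      (∀ e, |n e| ≤ B0 → y e = 0) ∧ 
      (∀ e, (2 * (2 * (k + k' + 1) + 1) ^ (k + k') * (X + B0) : ℤ) ≤ |n' e| → y' e ≠ 0) ∧ 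
      (∀ e, |n' e| ≤ B0 → y' e = 0) ∧ 
      (∀ S S' : Finset (Fin k), |nS n S - nS n S'| ≤ X → nS y S = nS y S') ∧ 
      (∀ S S' : Finset (Fin k'), |nS n' S - nS n' S'| ≤ X → nS y' S = nS y' S') ∧ 
      (∀ (S : Finset (Fin k)) (S' : Finset (Fin k')), |nS n S - (nS n' S' + a)| ≤ X → 
        nS y S = nS y' S' + c) := by
  classical
  let i1 : Fin k ↪ Option (Fin k ⊕ Fin k') := ⟨fun e => some (Sum.inl e), fun a b h => by simpa using h⟩
  let i2 : Fin k' ↪ Option (Fin k ⊕ Fin k') := ⟨fun e => some (Sum.inr e), fun a b h => by simpa using h⟩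
  let w : Option (Fin k ⊕ Fin k') → ℤ := fun x => x.elim a (Sum.elim n n')
  obtain ⟨Y, h1, h2, h3⟩ := direction4 (k + k' + 1) (by simp) (Nat.succ_pos _) X B0 hX w
  have hpow : (2 * (2 * ((k + k' + 1 : ℕ) : ℤ) + 1) ^ (k + k' + 1 - 1) * (X + B0) : ℤ) = 
      2 * (2 * (k + k' + 1) + 1) ^ (k + k') * (X + B0) := by
    rw [Nat.add_sub_cancel]
    push_cast
    ring
  rw [hpow] at h1
  have m1 : ∀ (f : Option (Fin k ⊕ Fin k') → ℤ) (S : Finset (Fin k)), 
      ∑ e ∈ S.map i1, f e = nS (fun e => f (some (Sum.inl e))) S := by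
    intro f S
    rw [Finset.sum_map]
    rfl
  have m2 : ∀ (f : Option (Fin k ⊕ Fin k') → ℤ) (S : Finset (Fin k')), 
      ∑ e ∈ S.map i2, f e = nS (fun e => f (some (Sum.inr e))) S := by
    intro f S
    rw [Finset.sum_map]
    rfl
  have m3 : ∀ (f : Option (Fin k ⊕ Fin k') → ℤ) (S : Finset (Fin k')), 
      ∑ e ∈ insert none (S.map i2), f e = nS (fun e => f (some (Sum.inr e))) S + f none := by
    intro f S
    rw [Finset.sum_insert, m2, add_comm]
    intro h
    obtain ⟨e, _, he⟩ := Finset.mem_map.1 h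
    simp [i2] at he
  refine ⟨fun e => Y (some (Sum.inl e)), fun e => Y (some (Sum.inr e)), Y none, 
    fun e he => h1 _ he, fun e he => h2 _ he, fun e he => h1 _ he, fun e he => h2 _ he, 
    fun S S' hS => ?_, fun S S' hS => ?_, fun S S' hS => ?_⟩
  · have := h3 (S.map i1) (S'.map i1) (by rw [m1, m1]; exact hS)
    rwa [m1, m1] at this
  · have := h3 (S.map i2) (S'.map i2) (by rw [m2, m2]; exact hS)
    rwa [m2, m2] at this
  · have := h3 (S.map i1) (insert none (S'.map i2)) (by rw [m1, m3]; exact hS)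
    rwa [m1, m3] at this

/-- the limit for two families with equal normalised brackets -/
theorem Good.limit_pair {O : Sites k} {J : Finset (Fin k)} (h : Good O J) (O' : Sites k') (hk' : 0 < k') 
    (hO' : O'.Connected) (w y : Fin k → ℤ) (w' y' : Fin k' → ℤ) (n : ℕ) (b a c : ℤ) (hb : -2 ≤ b) 
    (hb' : b ≤ 2) (he : NN O w = (-1) ^ n * T b * zf a * NN O' w')
    (h1 : ∀ S S' : Finset (Fin k), |nS w S - nS w S'| ≤ 
      2 * (O.crossings.length + O'.crossings.length) + 2 * (k + k') + 1 → nS y S = nS y S')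
    (h2 : ∀ S S' : Finset (Fin k'), |nS w' S - nS w' S'| ≤ 
      2 * (O.crossings.length + O'.crossings.length) + 2 * (k + k') + 1 → nS y' S = nS y' S')
    (h3 : ∀ (S : Finset (Fin k)) (S' : Finset (Fin k')), |nS w S - (nS w' S' + a)| ≤ 
      2 * (O.crossings.length + O'.crossings.length) + 2 * (k + k') + 1 → nS y S = nS y' S' + c) 
    (θ : ℝ) (J' : Finset (Fin k')) (hJ' : ∀ e ∉ J', Complex.exp ((θ * y' e : ℝ) * Complex.I) = 1)
    (hr : cutRank O' J' < cutRank O J) :
    ∑ R : Finset (Fin k), (if cN O R = cN O Finset.univ 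
      then ∏ e ∈ R, (Complex.exp ((θ * y e : ℝ) * Complex.I) - 1) else 0) = 0 := by
  have hdet : ¬ (-T 2 - T (-2)) ^ nc O ∅ ∣ O.cut.std.bracket := by
    have h1 := h.det
    unfold pcs at h1
    rwa [Finset.compl_univ] at h1
  obtain ⟨g, hg, hg8⟩ := exists_g O hdet h.pos
  refine Pool.Agent.Q99.ET.limit_pair O h.pos h.conn h.closed g hg hg8 O' hk' hO' w y w' y' n b a c hb hb' 
    he h1 h2 h3 θ J' hJ' ?_
  rw [cN_cutRank O' hk' hO', ← h.full, h.rank]
  exact hr

/-- **the twist rank, series-parallel** -/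
theorem Good.pair_sp {O : Sites k} {J : Finset (Fin k)} (h : Good O J) (hsp : SPred (cutRank O) J) 
    (O' : Sites k') (hk' : 0 < k') (hO' : O'.Connected) (J' : Finset (Fin k')) 
    (hr : cutRank O' J' < cutRank O J) (B0 : ℕ) (n : Fin k → ℤ) (n' : Fin k' → ℤ)
    (hn : ∀ e ∈ J, (2 * (2 * (k + k' + 1) + 1) ^ (k + k') * 
      (2 * (O.crossings.length + O'.crossings.length) + 2 * (k + k') + 1 + B0) : ℤ) ≤ |n e|) 
    (hB : ∀ e ∉ J, |n e| ≤ B0) (hB' : ∀ e ∉ J', |n' e| ≤ B0)
    (D : Diagram (O.P ⊕ Ribbon.Pt n)) (hD : Orients D (O.fill n)) 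
    (D' : Diagram (O'.P ⊕ Ribbon.Pt n')) (hD' : Orients D' (O'.fill n')) : D.fPoly ≠ D'.fPoly := by
  classical
  intro hF
  obtain ⟨m, b, a, hb, hb', he⟩ := pair_of_eq O h.pos O' hk' n n' D hD D' hD' hF
  obtain ⟨y, y', c, y1, y2, y3, y4, y5, y6, y7⟩ := direction_pair 
    (2 * (O.crossings.length + O'.crossings.length) + 2 * (k + k') + 1) B0 (by omega) n n' a
  push_cast at y1 y3 y5 y6 y7
  have hy0 : ∀ e, y e ≠ 0 ↔ e ∈ J := by
    intro e
    constructor
    · intro h0
      by_contra hJ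
      exact h0 (y2 e (hB e hJ))
    · intro hJ
      exact y1 e (hn e hJ)
  obtain ⟨θ, hθ⟩ := small_angle y
  have h1 := h.limit_pair O' hk' hO' n y n' y' m b a c hb hb' he y5 y6 y7 θ J' (by
    intro e he
    rw [y4 e (hB' e he)]
    simp) hr
  rw [← h.rank] at hsp
  have h2 := kap_ne_zero (cN O) J hsp (cN_rk O) h.simple.1 
    (fun e => Complex.exp ((θ * y e : ℝ) * Complex.I)) 
    (fun e he => ⟨(Complex.norm_exp_ofReal_mul_I _).le, fun h0 => (hy0 e).2 he ((hθ e).1 h0)⟩) 
    (fun e he f hf hef _ _ => h.simple.2 e he f hf hef)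
  apply h2
  unfold kap
  rw [h.full]
  refine Eq.trans ?_ h1
  apply Finset.sum_subset_zero_on_sdiff (Finset.subset_univ _)
  · intro R hR
    have hR' : ¬ R ⊆ J := by
      intro h
      exact (Finset.mem_sdiff.1 hR).2 (Finset.mem_powerset.2 h)
    obtain ⟨e, he, heJ⟩ := Finset.not_subset.1 hR'
    have hye : y e = 0 := by
      by_contra h0
      exact heJ ((hy0 e).1 h0)
    have h3 : ∏ e ∈ R, (Complex.exp ((θ * y e : ℝ) * Complex.I) - 1) = 0 := by
      refine Finset.prod_eq_zero he ?_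
      rw [hye]
      simp
    rw [h3, ite_self]
  · intro R _
    rfl

theorem nS_near (m B0 : ℕ) (j n : Fin k → ℤ) (hn : ∀ e, |n e - m * j e| ≤ B0) (S : Finset (Fin k)) :
    |nS n S - m * nS j S| ≤ k * B0 := by
  unfold nS
  rw [Finset.mul_sum, ← Finset.sum_sub_distrib]
  refine (Finset.abs_sum_le_sum_abs _ _).trans ?_
  refine (Finset.sum_le_sum fun e _ => hn e).trans ?_
  rw [Finset.sum_const, nsmul_eq_mul]
  have h1 : ((S.card : ℕ) : ℤ) ≤ k := by
    have := Finset.card_le_univ S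
    rw [Fintype.card_fin] at this
    exact_mod_cast this
  exact mul_le_mul_of_nonneg_right h1 (by positivity)

/-- **the twist rank, odd multiples** -/
theorem Good.pair_odd {O : Sites k} {J : Finset (Fin k)} (h : Good O J) 
    (O' : Sites k') (hk' : 0 < k') (hO' : O'.Connected) (J' : Finset (Fin k')) 
    (hr : cutRank O' J' < cutRank O J) (m B0 : ℕ) (n j : Fin k → ℤ) (n' j' : Fin k' → ℤ)
    (hm : 2 * (B0 * (k + k') + (2 * (O.crossings.length + O'.crossings.length) + 2 * (k + k') + 1)) < m)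
    (hn : ∀ e, |n e - m * j e| ≤ B0) (hn' : ∀ e, |n' e - m * j' e| ≤ B0) 
    (hj : ∀ e, Odd (j e) ↔ e ∈ J) (hj' : ∀ e, Odd (j' e) ↔ e ∈ J')
    (D : Diagram (O.P ⊕ Ribbon.Pt n)) (hD : Orients D (O.fill n)) 
    (D' : Diagram (O'.P ⊕ Ribbon.Pt n')) (hD' : Orients D' (O'.fill n')) : D.fPoly ≠ D'.fPoly := by
  classical
  intro hF
  obtain ⟨l, b, a, hb, hb', he⟩ := pair_of_eq O h.pos O' hk' n n' D hD D' hD' hF
  set X : ℤ := 2 * (O.crossings.length + O'.crossings.length) + 2 * (k + k') + 1 with hX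
  have hm' : 2 * ((B0 : ℤ) * (k + k') + X) < m := by rw [hX]; exact_mod_cast hm
  have hX0 : 0 ≤ X := by rw [hX]; positivity
  have hB0 : (0 : ℤ) ≤ B0 := by positivity
  have hk0 : (0 : ℤ) ≤ (B0 : ℤ) * k := by positivity
  have hk0' : (0 : ℤ) ≤ (B0 : ℤ) * k' := by positivity
  have hm0 : (0 : ℤ) < m := by nlinarith
  have small : ∀ x : ℤ, |(m : ℤ) * x| < m → x = 0 := by
    intro x hx
    by_contra h0
    have h1 : 1 ≤ |x| := Int.one_le_abs h0
    rw [abs_mul, abs_of_pos hm0] at hx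
    nlinarith
  have r1 := nS_near m B0 j n hn
  have r2 := nS_near m B0 j' n' hn'
  have h1 : ∀ S S' : Finset (Fin k), |nS n S - nS n S'| ≤ X → nS j S = nS j S' := by
    intro S S' hS
    have e1 := r1 S
    have e2 := r1 S'
    rw [abs_le] at e1 e2 hS
    have : nS j S - nS j S' = 0 := by
      apply small
      rw [mul_sub, abs_lt]
      constructor <;> nlinarith
    linarith
  have h2 : ∀ S S' : Finset (Fin k'), |nS n' S - nS n' S'| ≤ X → nS j' S = nS j' S' := by
    intro S S' hS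
    have e1 := r2 S
    have e2 := r2 S'
    rw [abs_le] at e1 e2 hS
    have : nS j' S - nS j' S' = 0 := by
      apply small
      rw [mul_sub, abs_lt]
      constructor <;> nlinarith
    linarith
  obtain ⟨c, h3⟩ : ∃ c : ℤ, ∀ (S : Finset (Fin k)) (S' : Finset (Fin k')), 
      |nS n S - (nS n' S' + a)| ≤ X → nS j S = nS j' S' + c := by
    by_cases hex : ∃ (S : Finset (Fin k)) (S' : Finset (Fin k')), |nS n S - (nS n' S' + a)| ≤ X
    · obtain ⟨S0, S0', h0⟩ := hex
      refine ⟨nS j S0 - nS j' S0', fun S S' hS => ?_⟩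
      have e1 := r1 S
      have e2 := r1 S0
      have e3 := r2 S'
      have e4 := r2 S0'
      rw [abs_le] at e1 e2 e3 e4 hS h0
      have : (nS j S - nS j S0) - (nS j' S' - nS j' S0') = 0 := by
        apply small
        rw [mul_sub, mul_sub, mul_sub, abs_lt]
        constructor <;> nlinarith
      linarith
    · exact ⟨0, fun S S' hS => absurd ⟨S, S', hS⟩ hex⟩
  have hlim := h.limit_pair O' hk' hO' n j n' j' l b a c hb hb' he h1 h2 h3 Real.pi J' (by
    intro e he
    have h4 : ¬ Odd (j' e) := fun ho => he ((hj' e).1 ho)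
    rw [Int.not_odd_iff_even] at h4
    obtain ⟨r, hr⟩ := h4
    rw [hr]
    have h5 : ((Real.pi * ((r + r : ℤ) : ℝ) : ℝ) : ℂ) * Complex.I = r * (2 * Real.pi * Complex.I) := by
      push_cast
      ring
    rw [h5]
    exact Complex.exp_int_mul_two_pi_mul_I r) hr
  have g2 := sum_odd (cN O) j J hj _ hlim
  have g3 := (Sp_pos J.card (cN O) (cN_rk O) J le_rfl h.simple.1).2 h.simple.2
  rw [h.full, g2, mul_zero] at g3
  exact lt_irrefl _ g3

/-! ### Vassiliev invariants -/

/-- a bound for the order of the invariants which separate two families: `k`, `k'` boxes, `c`, `c'` 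
crossings outside them -/
def ordP (k c k' c' : ℕ) : ℕ := 
  2 ^ k * (6 * c + 8 * k + 4 * k' + 1) + 2 ^ k' * (6 * c' + 8 * k' + 4 * k + 1)

theorem card_NN (O : Sites k) (hk : 0 < k) (hO : O.Connected) (k' : ℕ) (w : Fin k → ℤ) (ε m : ℤ) :
    (C ε * T m * ((-T 2 - T (-2)) ^ k' * ((-T 2 - T (-2)) ^ k * NN O w))).coeff.support.card ≤ 
      2 ^ k * (6 * O.crossings.length + 8 * k + 4 * k' + 1) := by
  refine (FinL.card_support_unit _ _ _).trans ?_
  rw [NN_expand O hk w, Finset.mul_sum]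
  refine (Pool.Agent.H891R2.VS.card_support_sum _ _ 
    (6 * O.crossings.length + 8 * k + 4 * k' + 1) ?_).trans ?_
  · intro R _
    have h4 : (-T 2 - T (-2)) ^ k' * (zf (nS w R) * Zp O R) = 
        C ((-1) ^ (nS w R).natAbs) * T (-4 * nS w R) * ((-T 2 - T (-2)) ^ k' * Zp O R) := by
      show (-T 2 - T (-2)) ^ k' * (((-1) ^ (nS w R).natAbs * T (-4 * nS w R)) * Zp O R) = _
      rw [map_pow, map_neg, map_one]
      ring
    rw [h4]
    refine (FinL.card_support_unit _ _ _).trans ?_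
    have h5 := Pool.Agent.H891R2.VS.card_support_le ((-T 2 - T (-2)) ^ k' * Zp O R) 
      (-(k' * 2) - (3 * O.crossings.length + 4 * k)) 
      (2 * (k' * 2 + (3 * O.crossings.length + 4 * k))) (by positivity) (fun j hj => by
        have := ((SIn_d.pow k').mul (S4 O hO R)) j hj
        constructor
        · linarith [this.1]
        · linarith [this.2])
    omega
  · simp

theorem fPoly_NN (O : Sites k) (hk : 0 < k) (w : Fin k → ℤ) (D : Diagram (O.P ⊕ Ribbon.Pt w)) 
    (hD : Orients D (O.fill w)) : ∃ ε m : ℤ, D.fPoly = C ε * T m * NN O w := by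
  have i1 : Nonempty (O.P ⊕ Ribbon.Pt w) := ⟨.inl (O.corner ⟨0, hk⟩ false false)⟩
  have b1 : D.bracket = (O.fill w).std.bracket := Pool.Agent.H891R2.MT.T6.bracket_orients D (O.fill w) hD
  refine ⟨if Even D.writhe then 1 else -1, -3 * D.writhe + ∑ e, w e, ?_⟩
  unfold NN
  rw [← b1, T_add]
  have h1 : (T (∑ e, w e) : ℤ[T;T⁻¹]) * T (- ∑ e, w e) = 1 := by
    rw [← T_add, add_neg_cancel, T_zero]
  unfold Diagram.fPoly
  by_cases hw : Even D.writhe
  · simp only [hw, if_true, map_one, one_mul]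
    linear_combination (-T (-3 * D.writhe) * D.bracket) * h1
  · simp only [hw, if_false, map_neg, map_one]
    linear_combination (T (-3 * D.writhe) * D.bracket) * h1

/-- members of two families with different normalised brackets are separated by a Vassiliev invariant of
bounded order -/
theorem sep_pair (O : Sites k) (hk : 0 < k) (hO : O.Connected) (O' : Sites k') (hk' : 0 < k') 
    (hO' : O'.Connected) (w : Fin k → ℤ) (w' : Fin k' → ℤ)
    (D : Diagram (O.P ⊕ Ribbon.Pt w)) (hD : Orients D (O.fill w)) 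
    (D' : Diagram (O'.P ⊕ Ribbon.Pt w')) (hD' : Orients D' (O'.fill w')) (hne : D.fPoly ≠ D'.fPoly) :
    Separated (ordP k O.crossings.length k' O'.crossings.length) ⟨_, inferInstance, D⟩ 
      ⟨_, inferInstance, D'⟩ := by
  have hs := separated_of_ne (ordP k O.crossings.length k' O'.crossings.length + 1)
    ⟨_, inferInstance, D⟩ ⟨_, inferInstance, D'⟩ ((-T 2 - T (-2)) ^ (k' + k)) 
    (pow_ne_zero _ FinL.delta_ne) ?_ hne
  · exact hs
  · rw [mul_sub]
    refine (FinL.card_support_sub _ _).trans ?_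
    obtain ⟨ε, m, h1⟩ := fPoly_NN O hk w D hD
    obtain ⟨ε', m', h2⟩ := fPoly_NN O' hk' w' D' hD'
    have e1 : (-T 2 - T (-2)) ^ (k' + k) * D.fPoly = 
        C ε * T m * ((-T 2 - T (-2)) ^ k' * ((-T 2 - T (-2)) ^ k * NN O w)) := by
      rw [h1, pow_add]
      ring
    have e2 : (-T 2 - T (-2)) ^ (k' + k) * D'.fPoly = 
        C ε' * T m' * ((-T 2 - T (-2)) ^ k * ((-T 2 - T (-2)) ^ k' * NN O' w')) := by
      rw [h2, pow_add]
      ring
    have c1 := card_NN O hk hO k' w ε m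
    have c2 := card_NN O' hk' hO' k w' ε' m'
    rw [← e1] at c1
    rw [← e2] at c2
    unfold ordP
    show ((-T 2 - T (-2)) ^ (k' + k) * D.fPoly).coeff.support.card + 
      ((-T 2 - T (-2)) ^ (k' + k) * D'.fPoly).coeff.support.card ≤ _
    omega

end Pool.Agent.Q99.ET
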