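import Mathlib

/-!
# Rank functions and the sum over the spanning sets with weights `(-2)^|A|`
-/

set_option autoImplicit false

namespace Pool.Agent.Q99.ET

open Finset

variable {ι : Type} [DecidableEq ι]

/-- `r` is the rank function of a matroid on `ι` (local axioms) -/
def IsRk (r : Finset ι → ℕ) : Prop :=
  r ∅ = 0 ∧ (∀ A e, r A ≤ r (insert e A) ∧ r (insert e A) ≤ r A + 1) ∧
    ∀ A e f, r (insert e A) = r A → r (insert f A) = r A → r (insert e (insert f A)) = r A

theorem IsRk.cl {r : Finset ι → ℕ} (h : IsRk r) (A : Finset ι) (e : ι) (he : r (insert e A) = r A)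
    (B : Finset ι) : r (insert e (B ∪ A)) = r (B ∪ A) := by
  induction B using Finset.induction_on with
  | empty => simpa using he
  | insert f B _ ih =>
    rw [Finset.insert_union]
    have h1 := h.2.1 (B ∪ A) f
    have h2 := h.2.1 (insert f (B ∪ A)) e
    have h3 := h.2.1 (insert e (B ∪ A)) f
    rw [Finset.insert_comm] at h3
    rcases Nat.lt_or_ge (r (B ∪ A)) (r (insert f (B ∪ A))) with h4 | h4
    · omega
    · have h5 : r (insert f (B ∪ A)) = r (B ∪ A) := le_antisymm h4 h1.1
      rw [h.2.2 _ _ _ ih h5, h5]

theorem IsRk.mono {r : Finset ι → ℕ} (h : IsRk r) {A B : Finset ι} (hAB : A ⊆ B) : r A ≤ r B := by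
  have : ∀ C : Finset ι, r A ≤ r (C ∪ A) := by
    intro C
    induction C using Finset.induction_on with
    | empty => simp
    | insert f C _ ih => rw [Finset.insert_union]; exact ih.trans (h.2.1 _ _).1
  have h1 := this B
  rwa [Finset.union_eq_left.2 hAB] at h1

theorem IsRk.le_card {r : Finset ι → ℕ} (h : IsRk r) (A C : Finset ι) : r (C ∪ A) ≤ r A + C.card := by
  induction C using Finset.induction_on with
  | empty => simp
  | insert f C hf ih =>
    rw [Finset.insert_union, Finset.card_insert_of_notMem hf]
    have := (h.2.1 (C ∪ A) f).2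
    omega

/-- sets of the same closure -/
theorem IsRk.same {r : Finset ι → ℕ} (h : IsRk r) {A B : Finset ι} (hAB : A ⊆ B) (hr : r A = r B)
    (C : Finset ι) : r (C ∪ A) = r (C ∪ B) := by
  have key : ∀ D : Finset ι, D ⊆ B → r (D ∪ (C ∪ A)) = r (C ∪ A) := by
    intro D
    induction D using Finset.induction_on with
    | empty => intro _; simp
    | insert f D _ ih =>
      intro hD
      have hf : f ∈ B := hD (Finset.mem_insert_self _ _)
      have h1 : r (insert f A) = r A := by
        apply le_antisymm
        · rw [hr]
          exact h.mono (Finset.insert_subset hf hAB)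
        · exact (h.2.1 A f).1
      have h2 := h.cl A f h1 (D ∪ C)
      rw [Finset.insert_union, ← Finset.union_assoc, h2, Finset.union_assoc]
      exact ih ((Finset.subset_insert _ _).trans hD)
  have h3 := key B (Finset.Subset.refl _)
  have h4 : B ∪ (C ∪ A) = C ∪ B := by
    ext x
    simp only [Finset.mem_union]
    constructor
    · rintro (h | h | h)
      · exact Or.inr h
      · exact Or.inl h
      · exact Or.inr (hAB h)
    · rintro (h | h)
      · exact Or.inr (Or.inl h)
      · exact Or.inl h
  rw [h4] at h3
  exact h3.symm

/-- contraction of a non-loop -/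
theorem IsRk.contract {r : Finset ι → ℕ} (h : IsRk r) (e : ι) (he : r {e} = 1) :
    IsRk (fun A => r (insert e A) - 1) := by
  have h1 : ∀ A, 1 ≤ r (insert e A) := by
    intro A
    rw [← he]
    exact h.mono (by intro x hx; rw [Finset.mem_singleton.1 hx]; exact Finset.mem_insert_self _ _)
  refine ⟨?_, ?_, ?_⟩
  · show r (insert e ∅) - 1 = 0
    rw [insert_empty_eq, he]
  · intro A f
    have h2 := h.2.1 (insert e A) f
    rw [Finset.insert_comm] at h2
    have h3 := h1 A
    have h4 := h1 (insert f A)
    constructor <;> simp only <;> omega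
  · intro A f g hf hg
    simp only at hf hg ⊢
    have h3 := h1 A
    have h4 := h1 (insert f A)
    have h5 := h1 (insert g A)
    have h6 := h1 (insert f (insert g A))
    have h7 : r (insert f (insert e A)) = r (insert e A) := by
      rw [Finset.insert_comm]; omega
    have h8 : r (insert g (insert e A)) = r (insert e A) := by
      rw [Finset.insert_comm]; omega
    have h9 := h.2.2 _ _ _ h7 h8
    have h10 : insert e (insert f (insert g A)) = insert f (insert g (insert e A)) := by
      ext x; simp only [Finset.mem_insert]; tauto
    rw [h10, h9]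

/-- the sum of `(-2)^|A|` over the subsets `A` of `E` of rank `ρ` -/
def Sp (r : Finset ι → ℕ) (ρ : ℕ) (E : Finset ι) : ℤ :=
  ∑ A ∈ E.powerset, if r A = ρ then (-2) ^ A.card else 0

theorem Sp_insert (r : Finset ι → ℕ) (ρ : ℕ) (E : Finset ι) (e : ι) (he : e ∉ E) :
    Sp r ρ (insert e E) = Sp r ρ E + -2 * ∑ A ∈ E.powerset, if r (insert e A) = ρ then (-2) ^ A.card else 0 := by
  unfold Sp
  rw [Finset.sum_powerset_insert he, Finset.mul_sum]
  congr 1
  refine Finset.sum_congr rfl fun A hA => ?_
  have : e ∉ A := fun h => he (Finset.mem_powerset.1 hA h)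
  rw [Finset.card_insert_of_notMem this]
  split_ifs <;> ring

theorem Sp_zero (r : Finset ι → ℕ) (h : IsRk r) (ρ : ℕ) (E : Finset ι) (hE : r E < ρ) : Sp r ρ E = 0 := by
  unfold Sp
  refine Finset.sum_eq_zero fun A hA => ?_
  rw [if_neg]
  have := h.mono (Finset.mem_powerset.1 hA)
  omega

/-- two parallel elements cancel -/
theorem Sp_parallel (r : Finset ι → ℕ) (h : IsRk r) (ρ : ℕ) (E : Finset ι) (f g : ι) (hf : f ∉ E) (hg : g ∉ E)
    (hfg : f ≠ g) (h1 : r {f} = 1) (h2 : r {g} = 1) (h3 : r {f, g} = 1) :
    Sp r ρ (insert f (insert g E)) = Sp r ρ E := by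
  have hf' : f ∉ insert g E := by
    rw [Finset.mem_insert, not_or]; exact ⟨hfg, hf⟩
  have e1 : ∀ A, r (insert g (insert f A)) = r (insert f A) := by
    intro A
    have h4 : r (insert g {f}) = r {f} := by rw [Finset.pair_comm, h3, h1]
    have h5 := h.cl {f} g h4 A
    have h6 : A ∪ {f} = insert f A := by ext x; simp only [Finset.mem_union, Finset.mem_insert, Finset.mem_singleton]; tauto
    rwa [h6] at h5
  have e2 : ∀ A, r (insert f (insert g A)) = r (insert g A) := by
    intro A
    have h4 : r (insert f {g}) = r {g} := by rw [h3, h2]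
    have h5 := h.cl {g} f h4 A
    have h6 : A ∪ {g} = insert g A := by ext x; simp only [Finset.mem_union, Finset.mem_insert, Finset.mem_singleton]; tauto
    rwa [h6] at h5
  have e3 : ∀ A, r (insert g A) = r (insert f A) := by
    intro A
    rw [← e1, Finset.insert_comm, e2]
  rw [Sp_insert _ _ _ _ hf', Sp_insert _ _ _ _ hg, Finset.sum_powerset_insert hg]
  have e4 : ∑ A ∈ E.powerset, (if r (insert f (insert g A)) = ρ then (-2 : ℤ) ^ (insert g A).card else 0) =
      -2 * ∑ A ∈ E.powerset, if r (insert f A) = ρ then (-2) ^ A.card else 0 := by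
    rw [Finset.mul_sum]
    refine Finset.sum_congr rfl fun A hA => ?_
    have : g ∉ A := fun h => hg (Finset.mem_powerset.1 hA h)
    rw [Finset.card_insert_of_notMem this, e2, e3]
    split_ifs <;> ring
  have e5 : ∑ A ∈ E.powerset, (if r (insert g A) = ρ then (-2 : ℤ) ^ A.card else 0) =
      ∑ A ∈ E.powerset, if r (insert f A) = ρ then (-2) ^ A.card else 0 :=
    Finset.sum_congr rfl fun A _ => by rw [e3]
  rw [e4, e5]
  ring

/-- **positivity** -/
theorem Sp_pos : ∀ (n : ℕ) (r : Finset ι → ℕ), IsRk r → ∀ E : Finset ι, E.card ≤ n → (∀ e ∈ E, r {e} = 1) →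
    0 ≤ (-1) ^ r E * Sp r (r E) E ∧
      ((∀ e ∈ E, ∀ f ∈ E, e ≠ f → r {e, f} = 2) → 0 < (-1) ^ r E * Sp r (r E) E) := by
  intro n
  induction n with
  | zero =>
    intro r h E hE _
    have : E = ∅ := Finset.card_eq_zero.1 (by omega)
    subst this
    unfold Sp
    simp [h.1]
  | succ n ih =>
    intro r h E hE hl
    by_cases hs : ∀ e ∈ E, ∀ f ∈ E, e ≠ f → r {e, f} = 2
    · -- simple
      suffices hpos : 0 < (-1) ^ r E * Sp r (r E) E from ⟨hpos.le, fun _ => hpos⟩
      rcases E.eq_empty_or_nonempty with hE0 | ⟨e, he⟩
      · subst hE0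
        unfold Sp
        simp [h.1]
      · set E' := E.erase e with hE'
        have hins : insert e E' = E := Finset.insert_erase he
        have he' : e ∉ E' := Finset.notMem_erase _ _
        have hc : E'.card ≤ n := by
          rw [hE', Finset.card_erase_of_mem he]; omega
        have hsub : ∀ f ∈ E', f ∈ E ∧ f ≠ e := fun f hf => ⟨Finset.mem_of_mem_erase hf, Finset.ne_of_mem_erase hf⟩
        have he1 := hl e he
        have hrc := h.contract e he1
        set re : Finset ι → ℕ := fun A => r (insert e A) - 1 with hre
        have hre1 : ∀ A, 1 ≤ r (insert e A) := by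
          intro A
          rw [← he1]
          exact h.mono (by intro x hx; rw [Finset.mem_singleton.1 hx]; exact Finset.mem_insert_self _ _)
        have hreE : re E' + 1 = r E := by
          have := hre1 E'
          rw [hins] at this
          show r (insert e E') - 1 + 1 = r E
          rw [hins]; omega
        have hl' : ∀ f ∈ E', re {f} = 1 := by
          intro f hf
          show r (insert e {f}) - 1 = 1
          have := hs e he f (hsub f hf).1 (Ne.symm (hsub f hf).2)
          rw [this]
        have ih2 := ih re hrc E' hc hl'
        have hsum : ∑ A ∈ E'.powerset, (if r (insert e A) = r E then (-2 : ℤ) ^ A.card else 0) =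
            Sp re (re E') E' := by
          unfold Sp
          refine Finset.sum_congr rfl fun A _ => ?_
          have : (r (insert e A) = r E) ↔ (re A = re E') := by
            show r (insert e A) = r E ↔ r (insert e A) - 1 = re E'
            have := hre1 A
            omega
          simp only [this]
        have hexp : Sp r (r E) E = Sp r (r E) E' + -2 * Sp re (re E') E' := by
          conv_lhs => rw [← hins]
          rw [Sp_insert _ _ _ _ he', hins, hsum]
        have hpow : (-1 : ℤ) ^ r E = - (-1) ^ re E' := by
          rw [← hreE, pow_succ]; ring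
        have hr1 := h.2.1 E' e
        rw [hins] at hr1
        rcases Nat.lt_or_ge (r E') (r E) with hlt | hge
        · -- coloop
          have h0 := Sp_zero r h (r E) E' hlt
          have hsimp : ∀ f ∈ E', ∀ g ∈ E', f ≠ g → re {f, g} = 2 := by
            intro f hf g hg hfg
            show r (insert e {f, g}) - 1 = 2
            have h1 := hs f (hsub f hf).1 g (hsub g hg).1 hfg
            have h2 : r (insert e {f, g}) = r {f, g} + 1 := by
              have h3 := h.2.1 {f, g} e
              by_contra hne
              have h4 : r (insert e {f, g}) = r {f, g} := by omega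
              have h5 := h.cl _ e h4 E'
              have h6 : E' ∪ {f, g} = E' := by
                rw [Finset.union_eq_left]
                intro x hx
                rw [Finset.mem_insert, Finset.mem_singleton] at hx
                rcases hx with rfl | rfl
                · exact hf
                · exact hg
              rw [h6, hins] at h5
              omega
            rw [h2, h1]
          have := ih2.2 hsimp
          rw [hexp, h0, hpow]
          linarith
        · have hEE : r E' = r E := le_antisymm hr1.1 hge
          have ih1 := (ih r h E' hc (fun f hf => hl f (hsub f hf).1)).2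
            (fun f hf g hg hfg => hs f (hsub f hf).1 g (hsub g hg).1 hfg)
          rw [hEE] at ih1
          rw [hexp, mul_add]
          have h2 := ih2.1
          have h3 : (-1 : ℤ) ^ r E * (-2 * Sp re (re E') E') = 2 * ((-1) ^ re E' * Sp re (re E') E') := by
            rw [hpow]; ring
          rw [h3]
          linarith
    · refine ⟨?_, fun h' => absurd h' hs⟩
      push Not at hs
      obtain ⟨f, hf, g, hg, hfg, h2⟩ := hs
      have hf1 := hl f hf
      have hg1 := hl g hg
      have h3 : r {f, g} = 1 := by
        have h4 := h.2.1 {g} f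
        rw [hg1] at h4
        have h5 : (insert f {g} : Finset ι) = {f, g} := rfl
        rw [h5] at h4
        omega
      set E' := (E.erase f).erase g with hE'
      have hg' : g ∉ E' := Finset.notMem_erase _ _
      have hf' : f ∉ E' := fun h => Finset.notMem_erase f E (Finset.mem_of_mem_erase h)
      have hins : insert f (insert g E') = E := by
        rw [hE', Finset.insert_erase (Finset.mem_erase.2 ⟨hfg.symm, hg⟩), Finset.insert_erase hf]
      have hc : E'.card ≤ n := by
        have h5 : (insert f (insert g E')).card = E'.card + 2 := by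
          rw [Finset.card_insert_of_notMem, Finset.card_insert_of_notMem hg']
          rw [Finset.mem_insert, not_or]
          exact ⟨hfg, hf'⟩
        rw [hins] at h5
        omega
      have hsub : E' ⊆ E := (Finset.erase_subset _ _).trans (Finset.erase_subset _ _)
      have hSp : Sp r (r E) E = Sp r (r E) E' := by
        have h7 := Sp_parallel r h (r E) E' f g hf' hg' hfg hf1 hg1 h3
        rw [hins] at h7
        exact h7
      rcases Nat.lt_or_ge (r E') (r E) with hlt | hge
      · rw [hSp, Sp_zero r h _ _ hlt, mul_zero]
      · have hEE : r E' = r E := le_antisymm (h.mono hsub) hge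
        have := (ih r h E' hc (fun e he => hl e (hsub he))).1
        rw [hEE] at this
        rw [hSp]
        exact this

end Pool.Agent.Q99.ET
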